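import Pool.Agent.Lib.MP_e4938c_al.Steps

/-!
# Abelian groups: any two generating families of the same size become Nielsen equivalent
# after adding one trivial entry (MP_e4938c)
-/

namespace Pool.MP_e4938c_al

open Subgroup Function

universe u

variable {ι κ : Type*}

theorem Gen.of_elim_one {G : Type*} [Group G] {y : ι → G}
    (h : Gen (Sum.elim y (fun _ : κ => (1 : G)))) : Gen y := by
  unfold Gen at *
  rw [eq_top_iff, ← h, closure_le]
  rintro _ ⟨j, rfl⟩
  rcases j with i | k
  · exact subset_closure ⟨i, rfl⟩
  · exact one_mem _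

theorem update_mul_zpow {G : Type*} [Group G] [DecidableEq ι] (v : ι → G) {o p : ι}
    (h : o ≠ p) (e : ℤ) : NEq v (update v p (v p * v o ^ e)) := by
  apply NEq.update_mul
  have ho : v o ∈ closure (v '' {p}ᶜ) :=
    Subgroup.subset_closure ⟨o, by simpa using h, rfl⟩
  exact Subgroup.zpow_mem _ ho e

/-- Euclid's algorithm on an integral relation between the entries. -/
theorem exists_trivial_entry {B : Type*} [CommGroup B]
    (htf : ∀ b : B, ∀ n : ℤ, n ≠ 0 → b ^ n = 1 → b = 1) {α : Type*} [Fintype α]
    (t : α) (n : ℕ) : ∀ N : α → B, ∀ k : α → ℤ, (∃ a, k a ≠ 0) →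
      ∑ a, (k a).natAbs ≤ n → ∏ a, N a ^ k a = 1 → ∃ N', NEq N N' ∧ N' t = 1 := by
  classical
  induction n with
  | zero =>
    intro N k ⟨a, ha⟩ hs _
    exfalso
    have h0 : ∑ a, (k a).natAbs = 0 := le_antisymm hs (Nat.zero_le _)
    rw [Finset.sum_eq_zero_iff] at h0
    exact ha (Int.natAbs_eq_zero.mp (h0 a (Finset.mem_univ a)))
  | succ n ih =>
    intro N k hk hs hprod
    by_cases htwo : ∃ o p, o ≠ p ∧ k o ≠ 0 ∧ k p ≠ 0
    · -- two nonzero coefficients
      obtain ⟨o, p, hop, hko, hkp, hle⟩ : ∃ o p, o ≠ p ∧ k o ≠ 0 ∧ k p ≠ 0 ∧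
          (k p).natAbs ≤ (k o).natAbs := by
        obtain ⟨o, p, hop, hko, hkp⟩ := htwo
        rcases le_total (k p).natAbs (k o).natAbs with h | h
        · exact ⟨o, p, hop, hko, hkp, h⟩
        · exact ⟨p, o, hop.symm, hkp, hko, h⟩
      obtain ⟨e, he⟩ : ∃ e : ℤ, (k o - e * k p).natAbs < (k o).natAbs := by
        rcases lt_or_gt_of_ne hko with h1 | h1 <;> rcases lt_or_gt_of_ne hkp with h2 | h2
        · exact ⟨1, by omega⟩
        · exact ⟨-1, by omega⟩
        · exact ⟨-1, by omega⟩
        · exact ⟨1, by omega⟩
      let N₁ : α → B := update N p (N p * N o ^ e)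
      let k₁ : α → ℤ := update k o (k o - e * k p)
      have hNN : NEq N N₁ := update_mul_zpow N hop e
      have hk₁ : ∃ a, k₁ a ≠ 0 := ⟨p, by simpa [k₁, update_of_ne hop.symm] using hkp⟩
      have hlt : ∑ a, (k₁ a).natAbs < ∑ a, (k a).natAbs := by
        apply Finset.sum_lt_sum
        · intro a _
          by_cases ha : a = o
          · subst ha
            simpa [k₁] using he.le
          · simp [k₁, update_of_ne ha]
        · exact ⟨o, Finset.mem_univ o, by simpa [k₁] using he⟩
      have hprod₁ : ∏ a, N₁ a ^ k₁ a = 1 := by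
        have hterm : ∀ a, N₁ a ^ k₁ a = N a ^ k a * (if a = p then N o ^ (e * k p) else 1) *
            (if a = o then N o ^ (-(e * k p)) else 1) := by
          intro a
          by_cases hap : a = p
          · subst hap
            have hao : a ≠ o := hop.symm
            simp only [N₁, k₁, update_self, update_of_ne hao, if_neg hao, if_true, mul_one]
            rw [mul_zpow, zpow_mul]
          · by_cases hao : a = o
            · subst hao
              simp only [N₁, k₁, update_self, update_of_ne hap, if_neg hap, if_true, mul_one]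
              rw [← zpow_add]
              congr 1
            · simp [N₁, k₁, hap, hao]
        simp_rw [hterm]
        rw [Finset.prod_mul_distrib, Finset.prod_mul_distrib, hprod]
        simp
      obtain ⟨N', h1, h2⟩ := ih N₁ k₁ hk₁ (by omega) hprod₁
      exact ⟨N', hNN.trans h1, h2⟩
    · -- one nonzero coefficient
      push Not at htwo
      obtain ⟨o, hko⟩ := hk
      have hN : N o ^ k o = 1 := by
        rw [← hprod]
        symm
        apply Finset.prod_eq_single o
        · intro p _ hp
          rw [htwo o p hp.symm hko, zpow_zero]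
        · intro h
          exact absurd (Finset.mem_univ o) h
      have hNo : N o = 1 := htf _ _ hko hN
      by_cases hot : o = t
      · subst hot
        exact ⟨N, NEq.refl N, hNo⟩
      · have hto : t ≠ o := fun h => hot h.symm
        let N₁ : α → B := update N o (N o * N t ^ (1 : ℤ))
        have h1 : NEq N N₁ := update_mul_zpow N hto 1
        let N₂ : α → B := update N₁ t (N₁ t * N₁ o ^ (-1 : ℤ))
        have h2 : NEq N₁ N₂ := update_mul_zpow N₁ hot (-1)
        refine ⟨N₂, h1.trans h2, ?_⟩
        simp [N₂, N₁, update_of_ne hto, hNo]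

/-- In an abelian group generated by `ι` elements, a family indexed by `ι ⊕ Unit` is Nielsen
equivalent to one whose last entry is trivial. -/
theorem exists_last_trivial [Finite ι] {B : Type*} [CommGroup B] {g : ι → B} (hg : Gen g)
    (m : ι ⊕ Unit → B) : ∃ m', NEq m m' ∧ m' (Sum.inr ()) = 1 := by
  classical
  have := Fintype.ofFinite ι
  let h : Multiplicative (ι → ℤ) →* B :=
    { toFun := fun n => ∏ i, g i ^ (Multiplicative.toAdd n i)
      map_one' := by simp
      map_mul' := by
        intro a b
        simp [zpow_add, Finset.prod_mul_distrib] }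
  have hsurj : Surjective h := by
    rw [← MonoidHom.range_eq_top, eq_top_iff, ← hg, closure_le]
    rintro _ ⟨i, rfl⟩
    refine ⟨Multiplicative.ofAdd (Pi.single i 1), ?_⟩
    change ∏ j, g j ^ (Pi.single i (1 : ℤ) : ι → ℤ) j = g i
    rw [Finset.prod_eq_single i]
    · simp
    · intro j _ hj
      simp [Pi.single_eq_of_ne hj]
    · intro hi
      exact absurd (Finset.mem_univ i) hi
  choose N hN using fun j => hsurj (m j)
  -- an integral relation
  have hdep : ¬ LinearIndependent ℤ (fun j : ι ⊕ Unit => Multiplicative.toAdd (N j)) := by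
    intro hli
    have h1 := hli.fintype_card_le_finrank
    simp at h1
  rw [Fintype.not_linearIndependent_iff] at hdep
  obtain ⟨k, hk, hk0⟩ := hdep
  have htf : ∀ b : Multiplicative (ι → ℤ), ∀ n : ℤ, n ≠ 0 → b ^ n = 1 → b = 1 := by
    intro b n hn hb
    have h1 : n • (Multiplicative.toAdd b) = 0 := by
      rw [← toAdd_zpow, hb, toAdd_one]
    have h2 : Multiplicative.toAdd b = 0 := by
      funext i
      have := congrFun h1 i
      simp only [Pi.smul_apply, smul_eq_mul, Pi.zero_apply, mul_eq_zero] at this
      rcases this with h | h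
      · exact absurd h hn
      · exact h
    exact Multiplicative.toAdd.injective h2
  obtain ⟨N', hNN, hN1⟩ := exists_trivial_entry htf (Sum.inr () : ι ⊕ Unit) _ N k hk0 le_rfl
    (by
      apply Multiplicative.toAdd.injective
      rw [toAdd_prod, toAdd_one, ← hk]
      apply Finset.sum_congr rfl
      intro j _
      rw [toAdd_zpow])
  refine ⟨h ∘ N', ?_, ?_⟩
  · have e : m = h ∘ N := by
      funext j
      exact (hN j).symm
    rw [e]
    exact hNN.map h
  · simp [hN1]

/-- The statement for abelian groups, by induction on the number of entries. -/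
theorem abelian_base_aux (ι : Type) [Finite ι] : ∀ (κ : Type) [Nonempty κ] (A : Type u)
    [CommGroup A] (x m : ι → A), Gen x → Gen m →
    NEq (Sum.elim m (fun _ : κ => (1 : A))) (Sum.elim x (fun _ : κ => (1 : A))) := by
  induction ι using Finite.induction_empty_option with
  | of_equiv e ih =>
    intro κ _ A _ x m hx hm
    have h := ih κ A (x ∘ e) (m ∘ e) (hx.comp_equiv e) (hm.comp_equiv e)
    have h2 := h.reindex (Equiv.sumCongr e (Equiv.refl κ))
    have aux : ∀ z, Sum.elim (z ∘ e) (fun _ : κ => (1 : A)) ∘
        (Equiv.sumCongr e (Equiv.refl κ)).symm = Sum.elim z (fun _ : κ => (1 : A)) := by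
      intro z
      funext j
      rcases j with j | j <;> simp
    rwa [aux, aux] at h2
  | h_empty =>
    intro κ _ A _ x m _ _
    apply NEq.of_eq
    have : x = m := by
      funext i
      exact i.elim
    rw [this]
  | @h_option ι _ ih =>
    intro κ _ A _ X M hX hM
    -- pass to `ι ⊕ Unit`
    let e : Option ι ≃ ι ⊕ Unit := Equiv.optionEquivSumPUnit ι
    suffices hmain : ∀ x m : ι ⊕ Unit → A, Gen x → Gen m →
        NEq (Sum.elim m (fun _ : κ => (1 : A))) (Sum.elim x (fun _ : κ => (1 : A))) by
      have h := hmain (X ∘ e.symm) (M ∘ e.symm) (hX.comp_equiv e.symm) (hM.comp_equiv e.symm)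
      have h2 := h.reindex (Equiv.sumCongr e.symm (Equiv.refl κ))
      have aux : ∀ z : Option ι → A, Sum.elim (z ∘ e.symm) (fun _ : κ => (1 : A)) ∘
          (Equiv.sumCongr e.symm (Equiv.refl κ)).symm = Sum.elim z (fun _ : κ => (1 : A)) := by
        intro z
        funext j
        rcases j with j | j
        · simp only [comp_apply, Equiv.sumCongr_symm, Equiv.sumCongr_apply, Sum.map_inl,
            Sum.elim_inl, Equiv.symm_symm, Equiv.symm_apply_apply]
        · simp
      rwa [aux, aux] at h2
    intro x m hx hm
    let a : A := x (Sum.inr ())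
    let Z : Subgroup A := zpowers a
    let π : A →* A ⧸ Z := QuotientGroup.mk' Z
    have hπ : Surjective π := QuotientGroup.mk'_surjective Z
    have hπa : π a = 1 := by
      rw [QuotientGroup.mk'_apply, QuotientGroup.eq_one_iff]
      exact mem_zpowers a
    have hxbar : Gen (π ∘ (x ∘ Sum.inl)) := by
      have h1 : Gen (π ∘ x) := hx.map π hπ
      have h2 : π ∘ x = Sum.elim (π ∘ (x ∘ Sum.inl)) (fun _ : Unit => 1) := by
        funext j
        rcases j with j | j
        · rfl
        · exact hπa
      rw [h2] at h1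
      exact h1.of_elim_one
    -- step 1
    obtain ⟨w, hw, hw1⟩ := exists_last_trivial hxbar (π ∘ m)
    obtain ⟨m', hm', hm'w⟩ := hw.exists_lift π
    have hm'gen : Gen m' := hm'.gen hm
    have hm'Z : m' (Sum.inr ()) ∈ Z := by
      have : π (m' (Sum.inr ())) = 1 := by
        rw [← hw1, ← hm'w]
        rfl
      rwa [QuotientGroup.mk'_apply, QuotientGroup.eq_one_iff] at this
    let c : κ → A := fun _ => a
    have hZc : Z ≤ closure (Set.range c) := by
      rw [zpowers_le]
      exact subset_closure ⟨Classical.arbitrary κ, rfl⟩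
    have s1 : NEq (Sum.elim m (fun _ : κ => (1 : A))) (Sum.elim m' (fun _ : κ => (1 : A))) :=
      hm'.elim_left _
    have s2 : NEq (Sum.elim m' (fun _ : κ => (1 : A))) (Sum.elim m' c) :=
      NEq.slots_free hm'gen _ _
    let y : ι → A := m' ∘ Sum.inl
    have s3 : NEq (Sum.elim m' c) (Sum.elim (Sum.elim y (fun _ : Unit => (1 : A))) c) := by
      apply NEq.slots'
      intro j
      rcases j with j | j
      · exact ⟨1, one_mem _, 1, one_mem _, by simp [y]⟩
      · refine ⟨1, one_mem _, (m' (Sum.inr j))⁻¹, hZc (inv_mem hm'Z), by simp⟩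
    have hybar : Gen (π ∘ y) := by
      have h1 : Gen (π ∘ m') := hm'gen.map π hπ
      have h2 : π ∘ m' = Sum.elim (π ∘ y) (fun _ : Unit => 1) := by
        funext j
        rcases j with j | j
        · rfl
        · change π (m' (Sum.inr ())) = 1
          rwa [QuotientGroup.mk'_apply, QuotientGroup.eq_one_iff]
      rw [h2] at h1
      exact h1.of_elim_one
    have s4 := ih Unit (A ⧸ Z) (π ∘ (x ∘ Sum.inl)) (π ∘ y) hxbar hybar
    have e4 : Sum.elim (π ∘ y) (fun _ : Unit => (1 : A ⧸ Z)) =
        π ∘ Sum.elim y (fun _ : Unit => (1 : A)) := by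
      funext j
      rcases j with j | j <;> simp
    rw [e4] at s4
    obtain ⟨v, hv, hvx⟩ := s4.exists_lift π
    have s5 : NEq (Sum.elim (Sum.elim y (fun _ : Unit => (1 : A))) c) (Sum.elim v c) :=
      hv.elim_left c
    have s6 : NEq (Sum.elim v c) (Sum.elim x c) := by
      apply NEq.slots'
      intro j
      refine ⟨1, one_mem _, (v j)⁻¹ * x j, hZc ?_, by group⟩
      have h1 : π (v j) = π (x j) := by
        have h2 := congrFun hvx j
        rcases j with j | j
        · exact h2
        · have h3 : π (v (Sum.inr j)) = 1 := h2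
          rw [h3]
          exact hπa.symm
      exact QuotientGroup.eq.mp h1
    exact ((((s1.trans s2).trans s3).trans s5).trans s6).trans (NEq.slots_free hx _ _)

theorem abelian_base {d : ℕ} {κ : Type} [Nonempty κ] {A : Type u} [Group A]
    (hA : ∀ a b : A, a * b = b * a) {x m : Fin d → A} (hx : Gen x) (hm : Gen m) :
    NEq (Sum.elim m (fun _ : κ => (1 : A))) (Sum.elim x (fun _ : κ => (1 : A))) := by
  let _ : CommGroup A := { ‹Group A› with mul_comm := hA }
  exact abelian_base_aux (Fin d) κ A x m hx hm

end Pool.MP_e4938c_al
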