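import Mathlib

/-!
# Nielsen equivalence of families, and relation counts (MP_e4938c)
-/

namespace Pool.MP_e4938c_al

open Subgroup Function

variable {α β ι κ : Type*} {G H : Type*} [Group G] [Group H]

/-- The family `x` generates the group `G`. -/
def Gen (x : α → G) : Prop := closure (Set.range x) = ⊤

/-- Two families with the same index type are Nielsen equivalent: they differ by an
automorphism of the free group on the index type. -/
def NEq (v w : α → G) : Prop :=
  ∃ φ : FreeGroup α ≃* FreeGroup α, ∀ a, FreeGroup.lift v (φ (FreeGroup.of a)) = w a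

theorem NEq.lift_eq {v w : α → G} {φ : FreeGroup α ≃* FreeGroup α}
    (h : ∀ a, FreeGroup.lift v (φ (FreeGroup.of a)) = w a) (z : FreeGroup α) :
    FreeGroup.lift v (φ z) = FreeGroup.lift w z := by
  have : (FreeGroup.lift v).comp φ.toMonoidHom = FreeGroup.lift w := by
    ext a
    simpa using h a
  exact DFunLike.congr_fun this z

theorem NEq.refl (v : α → G) : NEq v v := ⟨MulEquiv.refl _, fun a => by simp⟩

theorem NEq.of_eq {v w : α → G} (h : v = w) : NEq v w := h ▸ NEq.refl v

theorem NEq.symm {v w : α → G} (h : NEq v w) : NEq w v := by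
  obtain ⟨φ, hφ⟩ := h
  refine ⟨φ.symm, fun a => ?_⟩
  rw [← NEq.lift_eq hφ, MulEquiv.apply_symm_apply, FreeGroup.lift_apply_of]

theorem NEq.trans {u v w : α → G} (h : NEq u v) (h' : NEq v w) : NEq u w := by
  obtain ⟨φ, hφ⟩ := h
  obtain ⟨ψ, hψ⟩ := h'
  refine ⟨ψ.trans φ, fun a => ?_⟩
  simp only [MulEquiv.trans_apply]
  rw [NEq.lift_eq hφ, hψ]

theorem lift_comp_hom (f : G →* H) (v : α → G) :
    FreeGroup.lift (f ∘ v) = f.comp (FreeGroup.lift v) := by
  ext a
  simp

theorem NEq.map (f : G →* H) {v w : α → G} (h : NEq v w) : NEq (f ∘ v) (f ∘ w) := by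
  obtain ⟨φ, hφ⟩ := h
  refine ⟨φ, fun a => ?_⟩
  rw [lift_comp_hom]
  simp [hφ]

theorem NEq.exists_lift (f : G →* H) {v : α → G} {w : α → H} (h : NEq (f ∘ v) w) :
    ∃ v', NEq v v' ∧ f ∘ v' = w := by
  obtain ⟨φ, hφ⟩ := h
  refine ⟨fun a => FreeGroup.lift v (φ (FreeGroup.of a)), ⟨φ, fun a => rfl⟩, ?_⟩
  funext a
  rw [← hφ a, lift_comp_hom]
  rfl

theorem gen_iff_surj {x : α → G} : Gen x ↔ Surjective (FreeGroup.lift x) := by
  rw [Gen, ← FreeGroup.range_lift_eq_closure, MonoidHom.range_eq_top]

theorem NEq.gen {v w : α → G} (h : NEq v w) (hv : Gen v) : Gen w := by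
  rw [gen_iff_surj] at *
  obtain ⟨φ, hφ⟩ := h
  intro g
  obtain ⟨z, hz⟩ := hv g
  refine ⟨φ.symm z, ?_⟩
  rw [← NEq.lift_eq hφ, MulEquiv.apply_symm_apply, hz]

theorem Gen.map {x : α → G} (hx : Gen x) (f : G →* H) (hf : Surjective f) : Gen (f ∘ x) := by
  rw [gen_iff_surj] at *
  rw [lift_comp_hom]
  exact hf.comp hx

/-- reindexing -/
theorem NEq.reindex (e : α ≃ β) {v w : α → G} (h : NEq v w) :
    NEq (v ∘ e.symm) (w ∘ e.symm) := by
  obtain ⟨φ, hφ⟩ := h
  refine ⟨((FreeGroup.freeGroupCongr e).symm.trans φ).trans (FreeGroup.freeGroupCongr e),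
    fun b => ?_⟩
  have h1 : ∀ z : FreeGroup α,
      FreeGroup.lift (v ∘ e.symm) (FreeGroup.freeGroupCongr e z) = FreeGroup.lift v z := by
    intro z
    have : (FreeGroup.lift (v ∘ e.symm)).comp (FreeGroup.freeGroupCongr e).toMonoidHom
        = FreeGroup.lift v := by
      ext a
      simp
    exact DFunLike.congr_fun this z
  simp only [MulEquiv.trans_apply]
  rw [h1]
  have h2 : (FreeGroup.freeGroupCongr e).symm (FreeGroup.of b) = FreeGroup.of (e.symm b) := by
    rw [MulEquiv.symm_apply_eq]
    simp
  rw [h2, hφ]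
  rfl

theorem NEq.of_reindex (e : α ≃ β) {v w : β → G} (h : NEq (v ∘ e) (w ∘ e)) : NEq v w := by
  have := h.reindex e
  simpa [Function.comp_assoc] using this

theorem Gen.comp_equiv (e : α ≃ β) {v : β → G} (h : Gen v) : Gen (v ∘ e) := by
  unfold Gen at *
  rwa [Set.range_comp, e.surjective.range_eq, Set.image_univ]

/-! ### The moves -/

/-- Multiply one entry on the right by a word in the other ones. -/
theorem NEq.update_mul [DecidableEq α] (v : α → G) (i : α) {g : G}
    (hg : g ∈ closure (v '' {i}ᶜ)) : NEq v (update v i (v i * g)) := by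
  have himg : v '' {i}ᶜ = FreeGroup.lift v '' (FreeGroup.of '' ({i}ᶜ : Set α)) := by
    rw [← Set.image_comp]
    apply Set.image_congr
    intro a _
    simp
  rw [himg, ← MonoidHom.map_closure] at hg
  obtain ⟨w, hw, rfl⟩ := hg
  -- the two automorphisms
  have key : ∀ u : FreeGroup α,
      FreeGroup.lift (update FreeGroup.of i u) w = w := by
    intro u
    have : ∀ z ∈ closure (FreeGroup.of '' ({i}ᶜ : Set α)),
        FreeGroup.lift (update FreeGroup.of i u) z = MonoidHom.id (FreeGroup α) z := by
      intro z hz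
      have hle : closure (FreeGroup.of '' ({i}ᶜ : Set α)) ≤
          MonoidHom.eqLocus (FreeGroup.lift (update FreeGroup.of i u))
            (MonoidHom.id (FreeGroup α)) := by
        rw [closure_le]
        rintro _ ⟨a, ha, rfl⟩
        have hne : a ≠ i := ha
        change FreeGroup.lift (update FreeGroup.of i u) (FreeGroup.of a) = FreeGroup.of a
        simp [update_of_ne hne]
      exact hle hz
    exact this w hw
  let f : FreeGroup α →* FreeGroup α :=
    FreeGroup.lift (update FreeGroup.of i (FreeGroup.of i * w))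
  let f' : FreeGroup α →* FreeGroup α :=
    FreeGroup.lift (update FreeGroup.of i (FreeGroup.of i * w⁻¹))
  have h1 : f'.comp f = MonoidHom.id _ := by
    ext a
    by_cases ha : a = i
    · subst ha
      simp [f, f', key]
    · simp [f, f', update_of_ne ha]
  have h2 : f.comp f' = MonoidHom.id _ := by
    ext a
    by_cases ha : a = i
    · subst ha
      simp [f, f', key]
    · simp [f, f', update_of_ne ha]
  refine ⟨MonoidHom.toMulEquiv f f' h1 h2, fun a => ?_⟩
  by_cases ha : a = i
  · subst ha
    simp [f]
  · simp [f, update_of_ne ha]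

/-- Multiply the entries in the slots `κ` on both sides by words in the entries in `ι`. -/
theorem NEq.slots (y : ι → G) {c c' : κ → G}
    (h : ∀ k, ∃ a ∈ closure (Set.range y), ∃ b ∈ closure (Set.range y),
      c' k = a * c k * b) : NEq (Sum.elim y c) (Sum.elim y c') := by
  have h' : ∀ k, ∃ a b : FreeGroup ι,
      c' k = FreeGroup.lift y a * c k * FreeGroup.lift y b := by
    intro k
    obtain ⟨a, ha, b, hb, hk⟩ := h k
    rw [← FreeGroup.range_lift_eq_closure] at ha hb
    obtain ⟨a', rfl⟩ := ha
    obtain ⟨b', rfl⟩ := hb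
    exact ⟨a', b', hk⟩
  choose a b hab using h'
  let s : FreeGroup ι →* FreeGroup (ι ⊕ κ) := FreeGroup.map Sum.inl
  let f : FreeGroup (ι ⊕ κ) →* FreeGroup (ι ⊕ κ) :=
    FreeGroup.lift (Sum.elim (fun i => FreeGroup.of (Sum.inl i))
      (fun k => s (a k) * FreeGroup.of (Sum.inr k) * s (b k)))
  let f' : FreeGroup (ι ⊕ κ) →* FreeGroup (ι ⊕ κ) :=
    FreeGroup.lift (Sum.elim (fun i => FreeGroup.of (Sum.inl i))
      (fun k => (s (a k))⁻¹ * FreeGroup.of (Sum.inr k) * (s (b k))⁻¹))
  have hfs : ∀ z, f (s z) = s z := by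
    intro z
    have : f.comp s = s := by
      ext i
      simp [f, s]
    exact DFunLike.congr_fun this z
  have hfs' : ∀ z, f' (s z) = s z := by
    intro z
    have : f'.comp s = s := by
      ext i
      simp [f', s]
    exact DFunLike.congr_fun this z
  have h1 : f'.comp f = MonoidHom.id _ := by
    ext j
    rcases j with i | k
    · simp [f, f']
    · have e1 : f (FreeGroup.of (Sum.inr k)) = s (a k) * FreeGroup.of (Sum.inr k) * s (b k) := by
        simp [f]
      have e2 : f' (FreeGroup.of (Sum.inr k)) =
          (s (a k))⁻¹ * FreeGroup.of (Sum.inr k) * (s (b k))⁻¹ := by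
        simp [f']
      simp only [MonoidHom.comp_apply, MonoidHom.id_apply]
      rw [e1, map_mul, map_mul, hfs', hfs', e2]
      group
  have h2 : f.comp f' = MonoidHom.id _ := by
    ext j
    rcases j with i | k
    · simp [f, f']
    · have e1 : f (FreeGroup.of (Sum.inr k)) = s (a k) * FreeGroup.of (Sum.inr k) * s (b k) := by
        simp [f]
      have e2 : f' (FreeGroup.of (Sum.inr k)) =
          (s (a k))⁻¹ * FreeGroup.of (Sum.inr k) * (s (b k))⁻¹ := by
        simp [f']
      simp only [MonoidHom.comp_apply, MonoidHom.id_apply]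
      rw [e2, map_mul, map_mul, map_inv, map_inv, hfs, hfs, e1]
      group
  have hls : ∀ (c : κ → G) z, FreeGroup.lift (Sum.elim y c) (s z) = FreeGroup.lift y z := by
    intro c z
    have : (FreeGroup.lift (Sum.elim y c)).comp s = FreeGroup.lift y := by
      ext i
      simp [s]
    exact DFunLike.congr_fun this z
  refine ⟨MonoidHom.toMulEquiv f f' h1 h2, fun j => ?_⟩
  rcases j with i | k
  · simp [f]
  · have e1 : f (FreeGroup.of (Sum.inr k)) = s (a k) * FreeGroup.of (Sum.inr k) * s (b k) := by
      simp [f]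
    have e3 : (MonoidHom.toMulEquiv f f' h1 h2) (FreeGroup.of (Sum.inr k)) =
        f (FreeGroup.of (Sum.inr k)) := rfl
    rw [e3, e1, map_mul, map_mul, hls, hls, FreeGroup.lift_apply_of]
    simp [hab]

/-- Multiply the entries in `ι` on both sides by words in the slots. -/
theorem NEq.slots' (c : κ → G) {y y' : ι → G}
    (h : ∀ i, ∃ a ∈ closure (Set.range c), ∃ b ∈ closure (Set.range c),
      y' i = a * y i * b) : NEq (Sum.elim y c) (Sum.elim y' c) := by
  have h1 := NEq.slots c h
  have h2 := h1.reindex (Equiv.sumComm κ ι)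
  have e : ∀ z : ι → G, Sum.elim c z ∘ (Equiv.sumComm κ ι).symm = Sum.elim z c := by
    intro z
    funext j
    rcases j with j | j <;> rfl
  rwa [e, e] at h2

/-- If `y` generates, the slots are free. -/
theorem NEq.slots_free {y : ι → G} (hy : Gen y) (c c' : κ → G) :
    NEq (Sum.elim y c) (Sum.elim y c') := by
  apply NEq.slots
  intro k
  refine ⟨1, one_mem _, (c k)⁻¹ * c' k, ?_, by group⟩
  rw [hy]
  exact mem_top _

/-- Nielsen equivalence of the part in `ι`. -/
theorem NEq.elim_left {y y' : ι → G} (h : NEq y y') (c : κ → G) :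
    NEq (Sum.elim y c) (Sum.elim y' c) := by
  obtain ⟨φ, hφ⟩ := h
  let s : FreeGroup ι →* FreeGroup (ι ⊕ κ) := FreeGroup.map Sum.inl
  have aux : ∀ (φ ψ : FreeGroup ι ≃* FreeGroup ι), (∀ z, ψ (φ z) = z) →
      (FreeGroup.lift (Sum.elim (fun i => s (ψ (FreeGroup.of i)))
        (fun k => FreeGroup.of (Sum.inr k)))).comp
      (FreeGroup.lift (Sum.elim (fun i => s (φ (FreeGroup.of i)))
        (fun k => FreeGroup.of (Sum.inr k)))) = MonoidHom.id _ := by
    intro φ ψ hψ
    have hs : ∀ z, FreeGroup.lift (Sum.elim (fun i => s (ψ (FreeGroup.of i)))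
        (fun k => FreeGroup.of (Sum.inr k))) (s z) = s (ψ z) := by
      intro z
      have : (FreeGroup.lift (Sum.elim (fun i => s (ψ (FreeGroup.of i)))
        (fun k => FreeGroup.of (Sum.inr k)))).comp s = s.comp ψ.toMonoidHom := by
        ext i
        simp [s]
      exact DFunLike.congr_fun this z
    ext j
    rcases j with i | k
    · simp only [MonoidHom.comp_apply, FreeGroup.lift_apply_of, Sum.elim_inl, hs, hψ,
        MonoidHom.id_apply]
      simp [s]
    · simp
  refine ⟨MonoidHom.toMulEquiv _ _ (aux φ φ.symm (by simp)) (aux φ.symm φ (by simp)),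
    fun j => ?_⟩
  rcases j with i | k
  · have hls : ∀ z, FreeGroup.lift (Sum.elim y c) (s z) = FreeGroup.lift y z := by
      intro z
      have : (FreeGroup.lift (Sum.elim y c)).comp s = FreeGroup.lift y := by
        ext i
        simp [s]
      exact DFunLike.congr_fun this z
    simp [hls, hφ]
  · simp

/-! ### Relation counts -/

/-- The least cardinality of a set of defining relators on the generating family `x`, that is
of a set of elements of the free group whose normal closure is the kernel of the map onto the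
group. -/
noncomputable def relCount {α : Type*} {G : Type*} [Group G] (x : α → G) : ℕ∞ :=
  ⨅ (R : Set (FreeGroup α)) (_ : normalClosure R = (FreeGroup.lift x).ker), R.encard

theorem relCount_le {x : α → G} {R : Set (FreeGroup α)}
    (h : normalClosure R = (FreeGroup.lift x).ker) : relCount x ≤ R.encard :=
  iInf₂_le R h

theorem exists_relCount (x : α → G) :
    ∃ R : Set (FreeGroup α), normalClosure R = (FreeGroup.lift x).ker ∧
      R.encard = relCount x := by
  have hne : {n : ℕ∞ | ∃ R : Set (FreeGroup α),
      normalClosure R = (FreeGroup.lift x).ker ∧ R.encard = n}.Nonempty :=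
    ⟨_, ((FreeGroup.lift x).ker : Set (FreeGroup α)), normalClosure_eq_self _, rfl⟩
  obtain ⟨R, hR, hR'⟩ := csInf_mem hne
  refine ⟨R, hR, le_antisymm ?_ (relCount_le hR)⟩
  rw [hR']
  refine le_iInf₂ fun S hS => ?_
  exact csInf_le' ⟨S, hS, rfl⟩

/-- **Relation lemma.** If `(m, 1)` and `(x, 1)` with `k` trivial entries are Nielsen
equivalent, then `m` needs at most `k` relators more than `x`. -/
theorem relCount_le_of_NEq {x m : ι → G}
    (h : NEq (Sum.elim m (fun _ : κ => (1 : G))) (Sum.elim x (fun _ : κ => (1 : G)))) :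
    relCount m ≤ relCount x + ENat.card κ := by
  obtain ⟨φ, hφ⟩ := h
  obtain ⟨R, hR, hRc⟩ := exists_relCount x
  let s : FreeGroup ι →* FreeGroup (ι ⊕ κ) := FreeGroup.map Sum.inl
  let q : FreeGroup (ι ⊕ κ) →* FreeGroup ι :=
    FreeGroup.lift (Sum.elim FreeGroup.of (fun _ => 1))
  have hqs : ∀ z, q (s z) = z := by
    intro z
    have : q.comp s = MonoidHom.id _ := by
      ext i
      simp [q, s]
    exact DFunLike.congr_fun this z
  have hqsurj : Surjective q := fun z => ⟨s z, hqs z⟩
  have hlq : ∀ (y : ι → G) z, FreeGroup.lift (Sum.elim y (fun _ : κ => (1 : G))) z =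
      FreeGroup.lift y (q z) := by
    intro y z
    have : FreeGroup.lift (Sum.elim y (fun _ : κ => (1 : G))) =
        (FreeGroup.lift y).comp q := by
      ext j
      rcases j with i | k
      · simp [q]
      · simp [q]
    rw [this]
    rfl
  -- relators of `(x, 1)`
  let C : Set (FreeGroup (ι ⊕ κ)) := Set.range fun k : κ => FreeGroup.of (Sum.inr k)
  let T : Set (FreeGroup (ι ⊕ κ)) := s '' R ∪ C
  have hT : normalClosure T = (FreeGroup.lift (Sum.elim x (fun _ : κ => (1 : G)))).ker := by
    apply le_antisymm
    · apply normalClosure_le_normal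
      rintro z (⟨r, hr, rfl⟩ | ⟨k, rfl⟩)
      · have hr' : r ∈ (FreeGroup.lift x).ker := hR ▸ subset_normalClosure hr
        change _ = _
        rw [hlq, hqs]
        exact hr'
      · change _ = _
        simp
    · intro z hz
      have hz' : q z ∈ normalClosure R := by
        rw [hR]
        change _ = _
        rw [← hlq]
        exact hz
      have h1 : s (q z) ∈ normalClosure T := by
        have : s (q z) ∈ (normalClosure R).map s := ⟨_, hz', rfl⟩
        exact normalClosure_mono Set.subset_union_left (map_normalClosure_le R s this)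
      have h2 : (QuotientGroup.mk' (normalClosure T)).comp (s.comp q) =
          QuotientGroup.mk' (normalClosure T) := by
        ext j
        rcases j with i | k
        · simp [q, s]
        · have hk : FreeGroup.of (Sum.inr k) ∈ normalClosure T :=
            subset_normalClosure (Or.inr ⟨k, rfl⟩)
          have : (QuotientGroup.mk' (normalClosure T)) (FreeGroup.of (Sum.inr k)) = 1 := by
            rwa [QuotientGroup.mk'_apply, QuotientGroup.eq_one_iff]
          simp only [MonoidHom.comp_apply]
          rw [this]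
          simp [q]
      have h3 := DFunLike.congr_fun h2 z
      simp only [MonoidHom.comp_apply] at h3
      have h4 : (QuotientGroup.mk' (normalClosure T)) (s (q z)) = 1 := by
        rwa [QuotientGroup.mk'_apply, QuotientGroup.eq_one_iff]
      rw [h4] at h3
      have h5 := h3.symm
      rwa [QuotientGroup.mk'_apply, QuotientGroup.eq_one_iff] at h5
  -- relators of `m`
  have hker : normalClosure (q '' (φ '' T)) = (FreeGroup.lift m).ker := by
    have e1 : normalClosure (φ '' T) =
        (FreeGroup.lift (Sum.elim m (fun _ : κ => (1 : G)))).ker := by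
      have e2 : (normalClosure T).map (φ : FreeGroup (ι ⊕ κ) →* FreeGroup (ι ⊕ κ)) =
          normalClosure (φ '' T) := by
        rw [map_normalClosure T (φ : FreeGroup (ι ⊕ κ) →* FreeGroup (ι ⊕ κ)) φ.surjective]
        rfl
      rw [← e2, hT]
      ext z
      constructor
      · rintro ⟨w, hw, rfl⟩
        change _ = _
        change FreeGroup.lift _ (φ w) = 1
        rw [NEq.lift_eq hφ]
        exact hw
      · intro hz
        refine ⟨φ.symm z, ?_, by simp⟩
        change _ = _
        rw [← NEq.lift_eq hφ, MulEquiv.apply_symm_apply]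
        exact hz
    rw [← map_normalClosure _ q hqsurj, e1]
    ext z
    constructor
    · rintro ⟨w, hw, rfl⟩
      change _ = _
      rw [← hlq]
      exact hw
    · intro hz
      refine ⟨s z, ?_, hqs z⟩
      change _ = _
      rw [hlq, hqs]
      exact hz
  calc relCount m ≤ (q '' (φ '' T)).encard := relCount_le hker
    _ ≤ (φ '' T).encard := Set.encard_image_le _ _
    _ ≤ T.encard := Set.encard_image_le _ _
    _ ≤ (s '' R).encard + C.encard := Set.encard_union_le _ _
    _ ≤ R.encard + C.encard := by gcongr; exact Set.encard_image_le _ _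
    _ ≤ R.encard + ENat.card κ := by
        gcongr
        have : C = (fun k : κ => (FreeGroup.of (Sum.inr k) : FreeGroup (ι ⊕ κ))) '' Set.univ := by
          simp [C]
        rw [this]
        refine (Set.encard_image_le _ _).trans ?_
        simp
    _ = relCount x + ENat.card κ := by rw [hRc]

end Pool.MP_e4938c_al
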