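import Pool.Agent.Lib.MP_e4938c_al.Descent

/-!
# Stability passes over finite soluble and over polycyclic normal subgroups (MP_e4938c)
-/

namespace Pool.MP_e4938c_al

open Subgroup Function

universe u

variable {G : Type u} [Group G] {k d : ℕ}

/-- The maximal condition passes to subgroups of the image. -/
theorem wf_image {N L : Subgroup G} [L.Normal] (hmax : WellFoundedGT (Subgroup N))
    {E : Subgroup (G ⧸ L)} (hE : E ≤ N.map (QuotientGroup.mk' L)) :
    WellFoundedGT (Subgroup E) := by
  let F : Subgroup E → Subgroup N := fun K =>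
    ((K.map E.subtype).comap (QuotientGroup.mk' L)).subgroupOf N
  have hF : StrictMono F := by
    refine Monotone.strictMono_of_injective ?_ ?_
    · intro K₁ K₂ h x hx
      obtain ⟨e, he, hex⟩ := hx
      exact ⟨e, h he, hex⟩
    · have key : ∀ K₁ K₂ : Subgroup E, F K₁ = F K₂ → K₁ ≤ K₂ := by
        intro K₁ K₂ h e he
        obtain ⟨n, hn, hne⟩ := hE e.2
        have h1 : (⟨n, hn⟩ : N) ∈ F K₁ := ⟨e, he, hne.symm⟩
        rw [h] at h1
        obtain ⟨e', he', hee'⟩ := h1
        have h2 : e' = e := Subtype.ext (hee'.trans hne)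
        rwa [h2] at he'
      intro K₁ K₂ h
      exact le_antisymm (key K₁ K₂ h) (key K₂ K₁ h.symm)
  exact hF.wellFoundedGT

/-- Stability passes from `G ⧸ N` to `G` if `N` is soluble with the maximal condition on
subgroups and either `N` is finite or there are at least two trivial entries. -/
theorem Stable.of_solvable (hk : 1 ≤ k) (N : Subgroup G) [hNn : N.Normal]
    (hsol : Group.IsSolvable N) (hmax : WellFoundedGT (Subgroup N))
    (hfin : Finite N ∨ 2 ≤ k) (hQ : Stable k d (G ⧸ N)) : Stable k d G := by
  have key : ∀ K : Subgroup N, ∀ (L : Subgroup G) (_ : L.Normal), L ≤ N →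
      L.subgroupOf N = K → Stable k d (G ⧸ L) := by
    intro K
    induction K using hmax.wf.induction with
    | h K ih =>
    intro L hLn hLN hLK
    by_cases hL : L = N
    · subst hL
      exact hQ
    · let π := QuotientGroup.mk' L
      have hπ : Surjective π := QuotientGroup.mk'_surjective L
      have hNbar : (N.map π).Normal := hNn.map π hπ
      have hNne : N.map π ≠ ⊥ := by
        intro h1
        apply hL
        apply le_antisymm hLN
        intro x hx
        have h2 : π x ∈ N.map π := ⟨x, hx, rfl⟩
        rw [h1, mem_bot] at h2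
        rwa [QuotientGroup.mk'_apply, QuotientGroup.eq_one_iff] at h2
      have hsolbar : Group.IsSolvable (N.map π) := by
        let f : N →* N.map π := π.subgroupMap N
        have hf : Surjective f := π.subgroupMap_surjective N
        exact Group.isSolvable_of_surjective hf
      obtain ⟨E, hEn, hEN, hEne, hEab⟩ := exists_abelian hsolbar hNne
      -- the element
      obtain ⟨a, haE, ha1, hsr⟩ : ∃ a ∈ E, a ≠ 1 ∧
          StableRange (Fin k) (normalClosure {a}) := by
        rcases hfin with hfin | hk2
        · obtain ⟨a, ha⟩ := Subgroup.ne_bot_iff_exists_ne_one.mp hEne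
          refine ⟨a, a.2, fun h => ha (Subtype.ext h), ?_⟩
          have h1 : (N.map π : Set (G ⧸ L)).Finite := Set.Finite.image _ (Set.toFinite (N : Set G))
          have h2 : Finite (normalClosure {(a : G ⧸ L)}) := by
            have h3 : normalClosure {(a : G ⧸ L)} ≤ N.map π := (nc_le hEn a.2).trans hEN
            exact h1.subset h3
          have : Nonempty (Fin k) := ⟨⟨0, hk⟩⟩
          exact stableRange_finite rfl
        · obtain ⟨a, haE, ha1, hji⟩ := exists_justInfinite hEn hEne hEab (wf_image hmax hEN)
          refine ⟨a, haE, ha1, ?_⟩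
          have : Nontrivial (Fin k) := Fin.nontrivial_iff_two_le.mpr hk2
          exact stableRange_justInfinite rfl hji
      obtain ⟨A, hA⟩ : ∃ A : Subgroup (G ⧸ L), A = normalClosure {a} := ⟨_, rfl⟩
      rw [← hA] at hsr
      have hAn : A.Normal := hA ▸ normalClosure_normal
      have hAE : A ≤ E := hA ▸ nc_le hEn haE
      have haA : a ∈ A := hA ▸ subset_normalClosure rfl
      obtain ⟨L', hL'⟩ : ∃ L' : Subgroup G, L' = A.comap π := ⟨_, rfl⟩
      have hL'n : L'.Normal := hL' ▸ hAn.comap π
      have hLL' : L ≤ L' := by
        intro x hx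
        rw [hL']
        have h1 : π x = 1 := by
          rwa [QuotientGroup.mk'_apply, QuotientGroup.eq_one_iff]
        change π x ∈ A
        rw [h1]
        exact one_mem _
      have hL'N : L' ≤ N := by
        intro x hx
        rw [hL'] at hx
        obtain ⟨n, hn, hnx⟩ := hEN (hAE hx)
        have h1 : n⁻¹ * x ∈ L := QuotientGroup.eq.mp hnx
        have h2 := mul_mem hn (hLN h1)
        simpa using h2
      have hmapL' : L'.map π = A := by
        rw [hL', map_comap_eq_self_of_surjective hπ]
      have hlt : L.subgroupOf N < L'.subgroupOf N := by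
        refine lt_of_le_of_ne (fun x hx => hLL' hx) fun heq => ha1 ?_
        obtain ⟨x, rfl⟩ := hπ a
        have hx' : x ∈ L' := by
          rw [hL']
          exact haA
        have h1 : (⟨x, hL'N hx'⟩ : N) ∈ L'.subgroupOf N := hx'
        rw [← heq] at h1
        have h2 : x ∈ L := h1
        rwa [QuotientGroup.mk'_apply, QuotientGroup.eq_one_iff]
      have hst : Stable k d (G ⧸ L') := ih (L'.subgroupOf N) (hLK ▸ hlt) L' hL'n hL'N rfl
      have e := (QuotientGroup.quotientQuotientEquivQuotient L L' hLL').symm
      have hst2 : Stable k d ((G ⧸ L) ⧸ (L'.map (QuotientGroup.mk' L))) := hst.of_equiv e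
      have hst3 : Stable k d ((G ⧸ L) ⧸ A) := by
        subst hmapL'
        exact hst2
      exact Stable.of_abelian A (fun x hx y hy => hEab x (hAE hx) y (hAE hy)) hsr hst3
  have h1 := key ((⊥ : Subgroup G).subgroupOf N) ⊥ inferInstance bot_le rfl
  exact h1.of_equiv (QuotientGroup.quotientBot (G := G))

end Pool.MP_e4938c_al
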