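import Pool.Agent.Lib.MP_e4938c_al.SwapSolv
import Pool.Agent.Lib.MP_e4938c_al.Solv

/-!
# Stability for groups with a chain of normal subgroups (MP_e4938c)
-/

namespace Pool.MP_e4938c_al

open Subgroup Function

universe u

variable {k d : ℕ}

/-- A group of spread at least two is swap connected. -/
theorem SwapConn.of_spread {G : Type u} [Group G] (hk : 1 ≤ k) (h : SpreadTwo G) :
    SwapConn k d G := by
  classical
  by_cases hcomm : ∀ a b : G, a * b = b * a
  · exact SwapConn.of_comm hk hcomm
  · intro x m hx hm
    have hex : ∀ z : Fin d → G, Gen z → ∃ i, z i ≠ 1 := by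
      intro z hz
      by_contra hcon
      push Not at hcon
      apply hcomm
      have h1 : (⊤ : Subgroup G) ≤ ⊥ := by
        rw [← hz, closure_le]
        rintro _ ⟨i, rfl⟩
        rw [hcon i]
        exact one_mem _
      intro a b
      have ha : a = 1 := (mem_bot).mp (h1 (mem_top a))
      have hb : b = 1 := (mem_bot).mp (h1 (mem_top b))
      rw [ha, hb]
    -- there is another index
    have hother : ∀ i : Fin d, ∃ l, l ≠ i := by
      intro i
      by_contra hcon
      push Not at hcon
      apply hcomm
      have h1 : ∀ z, z ∈ zpowers (x i) := by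
        intro z
        have hz : z ∈ closure (Set.range x) := by rw [hx]; exact mem_top _
        have hr : Set.range x ⊆ {x i} := by
          rintro _ ⟨l, rfl⟩
          rw [hcon l]
          rfl
        have := Subgroup.closure_mono hr hz
        rwa [← zpowers_eq_closure] at this
      intro a b
      obtain ⟨p, rfl⟩ := h1 a
      obtain ⟨q, rfl⟩ := h1 b
      simp only []
      rw [← zpow_add, ← zpow_add, add_comm]
    have hgen2 : ∀ (z : Fin d → G) (i l : Fin d), closure {z i, z l} = ⊤ → Gen z := by
      intro z i l h1
      unfold Gen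
      rw [eq_top_iff, ← h1, closure_le]
      rintro _ (rfl | rfl)
      · exact Subgroup.subset_closure ⟨i, rfl⟩
      · exact Subgroup.subset_closure ⟨l, rfl⟩
    -- a tuple with two prescribed generating entries is connected to every other such tuple
    have hfix : ∀ (z w : Fin d → G) (i l : Fin d), closure {z i, z l} = ⊤ → z i = w i →
        z l = w l → Relation.ReflTransGen (Step Gen k) z w := by
      intro z w i l h1 h2 h3
      apply chain_all hk
      intro v hv
      apply hgen2 v i l
      have h4 : v i = z i := by
        rcases hv i with h | h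
        · exact h
        · rw [h, h2]
      have h5 : v l = z l := by
        rcases hv l with h | h
        · exact h
        · rw [h, h3]
      rw [h4, h5]
      exact h1
    have hstep1 : ∀ (z : Fin d → G) (l : Fin d) (c : G), Gen (update z l c) →
        Step Gen k z (update z l c) := by
      intro z l c hg
      exact ⟨hg, {l}, by simpa using hk, fun j hj => by rw [update_of_ne (by simpa using hj)]⟩
    obtain ⟨i, hi⟩ := hex x hx
    obtain ⟨j, hj⟩ := hex m hm
    obtain ⟨l, hl⟩ := hother i
    obtain ⟨c, hc1, hc2⟩ := h _ _ hi hj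
    -- the tuple `(x i at i, c at l)`
    have hA : Relation.ReflTransGen (Step Gen k) x (update x l c) := by
      refine Relation.ReflTransGen.single (hstep1 x l c ?_)
      apply hgen2 _ i l
      rw [update_self, update_of_ne hl.symm]
      exact hc1
    by_cases hij : j = i
    · subst hij
      have hB : Relation.ReflTransGen (Step Gen k) (update x l c)
          (update (update x l c) j (m j)) := by
        refine Relation.ReflTransGen.single (hstep1 _ j (m j) ?_)
        apply hgen2 _ j l
        rw [update_self, update_of_ne hl, update_self]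
        exact hc2
      have hC : Relation.ReflTransGen (Step Gen k) (update (update x l c) j (m j))
          (update m l c) := by
        apply hfix _ _ j l
        · rw [update_self, update_of_ne hl, update_self]
          exact hc2
        · rw [update_self, update_of_ne hl.symm]
        · rw [update_of_ne hl, update_self, update_self]
      have hD : Relation.ReflTransGen (Step Gen k) (update m l c) m := by
        refine Relation.ReflTransGen.single ⟨hm, {l}, by simpa using hk, fun p hp => ?_⟩
        rw [update_of_ne (by simpa using hp)]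
      exact ((hA.trans hB).trans hC).trans hD
    · -- `j ≠ i`: use `l = j`
      have hij' : i ≠ j := fun h => hij h.symm
      have hcne : c ≠ 1 := by
        rintro rfl
        apply hcomm
        have h1 : ∀ z, z ∈ zpowers (x i) := by
          intro z
          have h2 : closure ({x i, 1} : Set G) ≤ zpowers (x i) := by
            rw [closure_le]
            rintro _ (rfl | rfl)
            · exact mem_zpowers _
            · exact one_mem _
          rw [hc1] at h2
          exact h2 (mem_top z)
        intro a b
        obtain ⟨p, rfl⟩ := h1 a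
        obtain ⟨q, rfl⟩ := h1 b
        simp only []
        rw [← zpow_add, ← zpow_add, add_comm]
      obtain ⟨e, he1, he2⟩ := h _ _ hcne hj
      -- `x ~ (x i, c) ~ (e, c) ~ (e, m j) ~ m` in the places `i, j`
      have g1 : closure {update x j c i, update x j c j} = ⊤ := by
        rw [update_self, update_of_ne hij']
        exact hc1
      have hA' : Relation.ReflTransGen (Step Gen k) x (update x j c) :=
        Relation.ReflTransGen.single (hstep1 x j c (hgen2 _ i j g1))
      have g2 : closure {update (update x j c) i e i, update (update x j c) i e j} = ⊤ := by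
        rw [update_self, update_of_ne hij, update_self, Set.pair_comm]
        exact he1
      have hB : Relation.ReflTransGen (Step Gen k) (update x j c)
          (update (update x j c) i e) :=
        Relation.ReflTransGen.single (hstep1 _ i e (hgen2 _ i j g2))
      let w : Fin d → G := update (update (update x j c) i e) j (m j)
      have g3 : closure {w i, w j} = ⊤ := by
        simp only [w]
        rw [update_self, update_of_ne hij', update_self, Set.pair_comm]
        exact he2
      have hC : Relation.ReflTransGen (Step Gen k) (update (update x j c) i e) w :=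
        Relation.ReflTransGen.single (hstep1 _ j (m j) (hgen2 _ i j g3))
      have hD : Relation.ReflTransGen (Step Gen k) w (update m i e) := by
        apply hfix _ _ i j g3
        · simp only [w]
          rw [update_of_ne hij', update_self, update_self]
        · simp only [w]
          rw [update_self, update_of_ne hij]
      have hE : Relation.ReflTransGen (Step Gen k) (update m i e) m := by
        refine Relation.ReflTransGen.single ⟨hm, {i}, by simpa using hk, fun p hp => ?_⟩
        rw [update_of_ne (by simpa using hp)]
      exact (((hA'.trans hB).trans hC).trans hD).trans hE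

/-- The chain theorem. -/
theorem stable_of_chain {G : Type u} [Group G] (hk : 1 ≤ k) (N₀ N₁ N₂ N₃ : Subgroup G)
    [N₀.Normal] [N₁.Normal] [N₂.Normal] [N₃.Normal] (h01 : N₁ ≤ N₀) (h12 : N₂ ≤ N₁)
    (h23 : N₃ ≤ N₂)
    (h0 : (∃ g : Fin k → G ⧸ N₀, Gen g) ∨ Group.IsNilpotent (G ⧸ N₀) ∨ SpreadTwo (G ⧸ N₀) ∨
      SwapConn k d (G ⧸ N₀))
    (h1 : N₀ = N₁ ∨ 2 ≤ k ∧ Finite (N₀.map (QuotientGroup.mk' N₁)) ∧
      Group.IsSolvable (N₀.map (QuotientGroup.mk' N₁)))
    (h2 : Finite (N₁.map (QuotientGroup.mk' N₂)) ∧
      ∃ c : Fin k → G ⧸ N₂, N₁.map (QuotientGroup.mk' N₂) ≤ closure (Set.range c))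
    (h3 : Group.IsSolvable (N₂.map (QuotientGroup.mk' N₃)) ∧
      WellFoundedGT (Subgroup (N₂.map (QuotientGroup.mk' N₃))) ∧
      (Finite (N₂.map (QuotientGroup.mk' N₃)) ∨ 2 ≤ k))
    (h4 : ∀ K : Subgroup G, K ⊔ N₃ = ⊤ → K = ⊤) : Stable k d G := by
  have s0 : SwapConn k d (G ⧸ N₀) := by
    rcases h0 with ⟨g, hg⟩ | h0 | h0 | h0
    · exact SwapConn.of_gen hk hg
    · exact SwapConn.of_nilpotent hk
    · exact SwapConn.of_spread hk h0
    · exact h0
  have s1 : SwapConn k d (G ⧸ N₁) := by
    rcases h1 with h1 | ⟨hk2, hfin, hsol⟩
    · subst h1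
      exact s0
    · have : (N₀.map (QuotientGroup.mk' N₁)).Normal :=
        Subgroup.Normal.map inferInstance _ (QuotientGroup.mk'_surjective N₁)
      exact SwapConn.of_solvable hk2 (N₀.map (QuotientGroup.mk' N₁)) hsol
        (s0.of_equiv (QuotientGroup.quotientQuotientEquivQuotient N₁ N₀ h01).symm)
  have s2 : Stable k d (G ⧸ N₂) := by
    obtain ⟨hfin, c, hc⟩ := h2
    have : (N₁.map (QuotientGroup.mk' N₂)).Normal :=
      Subgroup.Normal.map inferInstance _ (QuotientGroup.mk'_surjective N₂)
    exact Stable.of_finite (N₁.map (QuotientGroup.mk' N₂)) hc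
      (s1.of_equiv (QuotientGroup.quotientQuotientEquivQuotient N₂ N₁ h12).symm)
  have s3 : Stable k d (G ⧸ N₃) := by
    obtain ⟨hsol, hmax, hfin⟩ := h3
    have : (N₂.map (QuotientGroup.mk' N₃)).Normal :=
      Subgroup.Normal.map inferInstance _ (QuotientGroup.mk'_surjective N₃)
    exact Stable.of_solvable hk (N₂.map (QuotientGroup.mk' N₃)) hsol hmax hfin
      (s2.of_equiv (QuotientGroup.quotientQuotientEquivQuotient N₃ N₂ h23).symm)
  exact Stable.of_superfluous hk N₃ h4 s3

/-! ### The numbers of the problem -/

/-- The least number of generators. -/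
noncomputable def genRank (G : Type*) [Group G] : ℕ := sInf {n | ∃ x : Fin n → G, Gen x}

/-- The least number of relators over all generating families with `genRank G` members. -/
noncomputable def relRank (G : Type*) [Group G] : ℕ∞ :=
  ⨅ (x : Fin (genRank G) → G) (_ : Gen x), relCount x

theorem exists_basis (G : Type*) [Group G] [hfg : Group.FG G] :
    ∃ x : Fin (genRank G) → G, Gen x := by
  obtain ⟨S, hS⟩ := (Group.fg_def.mp hfg : (⊤ : Subgroup G).FG)
  have hne : {n | ∃ x : Fin n → G, Gen x}.Nonempty := by
    refine ⟨S.card, fun i => (S.equivFin.symm i : G), ?_⟩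
    unfold Gen
    rw [← hS]
    congr 1
    ext g
    constructor
    · rintro ⟨i, rfl⟩
      exact (S.equivFin.symm i).2
    · intro hg
      exact ⟨S.equivFin ⟨g, hg⟩, by simp⟩
  exact Nat.sInf_mem hne

theorem r_add_le {G : Type*} [Group G] (hfg : Group.FG G) {n : ℕ∞} {a : ℕ∞}
    (h : ∀ x : Fin (genRank G) → G, Gen x → a ≤ relCount x + n) : a ≤ relRank G + n := by
  obtain ⟨x₀, hx₀⟩ := exists_basis G
  have hne : {c : ℕ∞ | ∃ x : Fin (genRank G) → G, Gen x ∧ relCount x = c}.Nonempty :=
    ⟨_, x₀, hx₀, rfl⟩
  obtain ⟨x, hx, hxr⟩ := csInf_mem hne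
  have hr : relRank G = relCount x := by
    apply le_antisymm
    · exact iInf₂_le x hx
    · refine le_iInf₂ fun z hz => ?_
      rw [hxr]
      exact csInf_le' ⟨z, hz, rfl⟩
  rw [hr]
  exact h x hx

/-- Cyclic groups: the kernel does not depend on the generator. -/
theorem relCount_cyclic {G : Type*} [Group G] {x m : Fin 1 → G} (hx : Gen x) (hm : Gen m) :
    relCount m ≤ relCount x := by
  have hz : ∀ z : FreeGroup (Fin 1), ∃ n : ℤ, z = FreeGroup.of 0 ^ n := by
    intro z
    have h1 : z ∈ closure (Set.range (FreeGroup.of : Fin 1 → FreeGroup (Fin 1))) := by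
      rw [FreeGroup.closure_range_of]
      exact mem_top _
    have h2 : Set.range (FreeGroup.of : Fin 1 → FreeGroup (Fin 1)) = {FreeGroup.of 0} := by
      ext w
      constructor
      · rintro ⟨i, rfl⟩
        rw [Subsingleton.elim i 0]
        rfl
      · rintro rfl
        exact ⟨0, rfl⟩
    rw [h2, ← zpowers_eq_closure] at h1
    obtain ⟨n, hn⟩ := h1
    exact ⟨n, hn.symm⟩
  have hgen : ∀ y : Fin 1 → G, Gen y → ∀ g : G, g ∈ zpowers (y 0) := by
    intro y hy g
    have h1 : g ∈ closure (Set.range y) := by rw [hy]; exact mem_top _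
    have h2 : Set.range y = {y 0} := by
      ext w
      constructor
      · rintro ⟨i, rfl⟩
        rw [Subsingleton.elim i 0]
        rfl
      · rintro rfl
        exact ⟨0, rfl⟩
    rwa [h2, ← zpowers_eq_closure] at h1
  have hker : ∀ y y' : Fin 1 → G, Gen y → Gen y' →
      (FreeGroup.lift y).ker ≤ (FreeGroup.lift y').ker := by
    intro y y' hy _ z hzk
    obtain ⟨n, rfl⟩ := hz z
    have h1 : y 0 ^ n = 1 := by
      have h2 : FreeGroup.lift y (FreeGroup.of 0 ^ n) = 1 := hzk
      simpa using h2
    change FreeGroup.lift y' (FreeGroup.of 0 ^ n) = 1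
    obtain ⟨p, hp⟩ := hgen y hy (y' 0)
    have hp' : y' 0 = y 0 ^ p := hp.symm
    rw [map_zpow, FreeGroup.lift_apply_of, hp', ← zpow_mul, mul_comm, zpow_mul, h1, one_zpow]
  have he : (FreeGroup.lift m).ker = (FreeGroup.lift x).ker :=
    le_antisymm (hker m x hm hx) (hker x m hx hm)
  unfold relCount
  rw [he]

end Pool.MP_e4938c_al
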