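import Pool.Agent.Lib.MP_e4938c_al.Stable

/-!
# Soluble normal subgroups (MP_e4938c)
-/

namespace Pool.MP_e4938c_al

open Subgroup Function

universe u

variable {Q : Type u} [Group Q]

/-- The last nontrivial term of the derived series. -/
theorem exists_abelian {N : Subgroup Q} [N.Normal] (hsol : Group.IsSolvable N) (hN : N ≠ ⊥) :
    ∃ E : Subgroup Q, E.Normal ∧ E ≤ N ∧ E ≠ ⊥ ∧ ∀ a ∈ E, ∀ b ∈ E, a * b = b * a := by
  classical
  have hex : ∃ n, derivedSeries N n = ⊥ := hsol.solvable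
  let n := Nat.find hex
  have hn : derivedSeries N n = ⊥ := Nat.find_spec hex
  have hn0 : n ≠ 0 := by
    intro h0
    rw [h0, derivedSeries_zero] at hn
    apply hN
    rw [eq_bot_iff]
    intro x hx
    have h1 : (⟨x, hx⟩ : N) ∈ (⊥ : Subgroup N) := hn ▸ mem_top _
    rw [mem_bot] at h1 ⊢
    exact congrArg Subtype.val h1
  obtain ⟨p, hp⟩ := Nat.exists_eq_succ_of_ne_zero hn0
  have hpne : derivedSeries N p ≠ ⊥ := Nat.find_min hex (by omega)
  rw [hp, derivedSeries_succ] at hn
  have hchar : (derivedSeries N p).Characteristic := inferInstance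
  refine ⟨(derivedSeries N p).map N.subtype, inferInstance, ?_, ?_, ?_⟩
  · rintro _ ⟨x, _, rfl⟩
    exact x.2
  · intro h1
    apply hpne
    rwa [map_eq_bot_iff_of_injective _ N.subtype_injective] at h1
  · rintro _ ⟨x, hx, rfl⟩ _ ⟨y, hy, rfl⟩
    have h1 : x * y * x⁻¹ * y⁻¹ ∈ (⊥ : Subgroup N) := by
      rw [← hn]
      exact commutator_mem_commutator hx hy
    rw [mem_bot] at h1
    have h2 : x * y = y * x := by
      rw [mul_inv_eq_one, mul_inv_eq_iff_eq_mul] at h1
      exact h1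
    exact congrArg Subtype.val h2

/-- The maximal condition on subgroups implies that all subgroups are finitely generated. -/
theorem fg_of_wf {E : Type*} [Group E] (h : WellFoundedGT (Subgroup E)) (K : Subgroup E) :
    K.FG := by
  classical
  have hne : {L : Subgroup E | L.FG ∧ L ≤ K}.Nonempty := ⟨⊥, ⟨∅, by simp⟩, bot_le⟩
  obtain ⟨L, ⟨hL, hLK⟩, hmax⟩ := h.wf.has_min _ hne
  have hKL : K ≤ L := by
    intro x hx
    by_contra hxL
    have h1 : L ⊔ zpowers x ≤ K := sup_le hLK (by simpa using hx)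
    have h2 : (L ⊔ zpowers x).FG := hL.sup (by
      rw [zpowers_eq_closure]
      exact ⟨{x}, by simp⟩)
    apply hmax _ ⟨h2, h1⟩
    refine lt_of_le_of_ne le_sup_left fun heq => hxL ?_
    rw [heq]
    exact mem_sup_right (mem_zpowers x)
  rwa [le_antisymm hKL hLK]

theorem fg_map {E F : Type*} [Group E] [Group F] (f : E →* F) {K : Subgroup E} (h : K.FG) :
    (K.map f).FG := by
  classical
  obtain ⟨S, hS⟩ := h
  exact ⟨S.image f, by rw [Finset.coe_image, ← MonoidHom.map_closure, hS]⟩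

/-- Submodules of equal rank. -/
theorem exists_zsmul_mem {M : Type*} [AddCommGroup M] [IsNoetherian ℤ M]
    {S T : Submodule ℤ M} (hST : S ≤ T) (hr : Module.finrank ℤ T ≤ Module.finrank ℤ S)
    {x : M} (hx : x ∈ T) : ∃ n : ℤ, n ≠ 0 ∧ n • x ∈ S := by
  have h1 := (S.submoduleOf T).finrank_quotient_add_finrank
  have h2 : Module.finrank ℤ (S.submoduleOf T) = Module.finrank ℤ S :=
    (Submodule.submoduleOfEquivOfLe hST).finrank_eq
  have h3 : Module.finrank ℤ (T ⧸ S.submoduleOf T) = 0 := by omega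
  rw [Module.finrank_eq_zero_iff_isTorsion] at h3
  obtain ⟨a, ha⟩ := @h3 (Submodule.Quotient.mk ⟨x, hx⟩)
  refine ⟨a, nonZeroDivisors.coe_ne_zero a, ?_⟩
  have h4 : Submodule.Quotient.mk (p := S.submoduleOf T) ((a : ℤ) • (⟨x, hx⟩ : T)) = 0 := ha
  rw [Submodule.Quotient.mk_eq_zero] at h4
  exact h4

/-- In a nontrivial abelian normal subgroup with the maximal condition there is a nontrivial
element whose normal closure is finite modulo the normal closure of each of its nontrivial
elements. -/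
theorem exists_justInfinite {E : Subgroup Q} (hEn : E.Normal) (hne : E ≠ ⊥)
    (hab : ∀ a ∈ E, ∀ b ∈ E, a * b = b * a) (hmax : WellFoundedGT (Subgroup E)) :
    ∃ a ∈ E, a ≠ 1 ∧ ∀ b ∈ normalClosure {a}, b ≠ 1 →
      Finite ((normalClosure {a}).map (QuotientGroup.mk' (normalClosure {b}))) := by
  classical
  let _ : CommGroup E :=
    { (inferInstance : Group E) with
      mul_comm := fun a b => Subtype.ext (hab a a.2 b b.2) }
  let S : Subgroup Q → Submodule ℤ (Additive E) := fun B =>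
    AddSubgroup.toIntSubmodule (Subgroup.toAddSubgroup (B.subgroupOf E))
  have hnoeth : IsNoetherian ℤ (Additive E) := by
    rw [isNoetherian_iff']
    let e : Subgroup E ≃o Submodule ℤ (Additive E) :=
      Subgroup.toAddSubgroup.trans AddSubgroup.toIntSubmodule
    exact e.symm.strictMono.wellFoundedGT
  have hSmem : ∀ (B : Subgroup Q) (x : E), Additive.ofMul x ∈ S B ↔ (x : Q) ∈ B := by
    intro B x
    exact Iff.rfl
  have hSmono : ∀ B C : Subgroup Q, B ≤ C → S B ≤ S C := by
    intro B C hBC x hx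
    exact hBC hx
  -- minimise the rank
  have hex : ∃ n : ℕ, ∃ a ∈ E, a ≠ 1 ∧ Module.finrank ℤ (S (normalClosure {a})) = n := by
    obtain ⟨a, ha⟩ := Subgroup.ne_bot_iff_exists_ne_one.mp hne
    exact ⟨_, a, a.2, fun h => ha (Subtype.ext h), rfl⟩
  obtain ⟨a, haE, ha1, har⟩ := Nat.find_spec hex
  refine ⟨a, haE, ha1, ?_⟩
  intro b hb hb1
  have hAE : normalClosure {a} ≤ E := nc_le hEn haE
  have hBA : normalClosure {b} ≤ normalClosure {a} := nc_le inferInstance hb
  have hrk : Module.finrank ℤ (S (normalClosure {a})) ≤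
      Module.finrank ℤ (S (normalClosure {b})) := by
    rw [har]
    exact Nat.find_min' hex ⟨b, hAE hb, hb1, rfl⟩
  have hpow : ∀ x ∈ normalClosure {a}, ∃ n : ℤ, n ≠ 0 ∧ x ^ n ∈ normalClosure {b} := by
    intro x hx
    obtain ⟨n, hn, hnx⟩ := exists_zsmul_mem (hSmono _ _ hBA) hrk
      (x := Additive.ofMul (⟨x, hAE hx⟩ : E)) hx
    refine ⟨n, hn, ?_⟩
    exact hnx
  let π := QuotientGroup.mk' (normalClosure {b})
  obtain ⟨A, hA⟩ : ∃ A : Subgroup (Q ⧸ normalClosure {b}), A = (normalClosure {a}).map π :=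
    ⟨_, rfl⟩
  have hAcomm : ∀ x y : A, x * y = y * x := by
    rintro ⟨x, hx⟩ ⟨y, hy⟩
    apply Subtype.ext
    subst hA
    obtain ⟨x, hx, rfl⟩ := hx
    obtain ⟨y, hy, rfl⟩ := hy
    change π x * π y = π y * π x
    rw [← map_mul, ← map_mul, hab x (hAE hx) y (hAE hy)]
  have hAfg : A.FG := by
    have h1 : ((normalClosure {a}).subgroupOf E).FG := fg_of_wf hmax _
    have h2 : (((normalClosure {a}).subgroupOf E).map E.subtype).FG := fg_map _ h1
    have h3 : ((normalClosure {a}).subgroupOf E).map E.subtype = normalClosure {a} := by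
      rw [subgroupOf_map_subtype]
      exact inf_eq_left.mpr hAE
    rw [h3] at h2
    rw [hA]
    exact fg_map _ h2
  rw [← hA]
  let _ : CommGroup A := { (inferInstance : Group A) with mul_comm := hAcomm }
  have hAfg' : Group.FG A := (Group.fg_iff_subgroup_fg A).mpr hAfg
  apply CommGroup.finite_of_fg_isMulTorsion
  rintro ⟨x, hx⟩
  subst hA
  obtain ⟨x, hx, rfl⟩ := hx
  obtain ⟨n, hn, hnx⟩ := hpow x hx
  rw [isOfFinOrder_iff_zpow_eq_one]
  refine ⟨n, hn, ?_⟩
  apply Subtype.ext
  change π x ^ n = 1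
  rw [← map_zpow, QuotientGroup.mk'_apply, QuotientGroup.eq_one_iff]
  exact hnx

end Pool.MP_e4938c_al
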