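import Pool.Agent.Lib.MP_e4938c_al.Basic

/-!
# Folding in a free product, part A: moves, the side function, connected sets (MP_e4938c)
-/

namespace Pool.MP_e4938c_al

open Subgroup Function

universe u

section nielsen

variable {ι G : Type*} [Group G]

/-- Entries outside `I` may be multiplied on both sides by words in the entries in `I`. -/
theorem NEq.sub (I : Set ι) {x x' : ι → G} (hI : ∀ i ∈ I, x' i = x i)
    (hI' : ∀ i ∉ I, ∃ a ∈ closure (x '' I), ∃ b ∈ closure (x '' I), x' i = a * x i * b) :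
    NEq x x' := by
  classical
  let e : I ⊕ (Iᶜ : Set ι) ≃ ι := Equiv.Set.sumCompl I
  apply NEq.of_reindex e
  have h1 : x ∘ e = Sum.elim (fun i : I => x i) (fun i : (Iᶜ : Set ι) => x i) := by
    funext j
    rcases j with j | j <;> simp [e]
  have h2 : x' ∘ e = Sum.elim (fun i : I => x i) (fun i : (Iᶜ : Set ι) => x' i) := by
    funext j
    rcases j with j | j
    · simp [e, hI j.1 j.2]
    · simp [e]
  rw [h1, h2]
  apply NEq.slots
  intro k
  have h3 : Set.range (fun i : I => x i) = x '' I := by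
    ext g
    simp
  rw [h3]
  exact hI' k k.2

/-- Conjugation by an element of the generated subgroup. -/
theorem NEq.conj {x : ι → G} {g : G} (hg : g ∈ closure (Set.range x)) :
    NEq x (fun i => g * x i * g⁻¹) := by
  rw [← FreeGroup.range_lift_eq_closure] at hg
  obtain ⟨w, rfl⟩ := hg
  refine ⟨MulAut.conj w, fun a => ?_⟩
  simp [MulAut.conj_apply]

end nielsen

section side

variable {G : Type u} [Group G] {T : Type}

/-- `G` is the free product of the subgroups `S t`: the universal property. -/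
structure FP (S : T → Subgroup G) : Prop where
  lift : ∀ (P : Type u) [Group P] (f : ∀ t, S t →* P), ∃ F : G →* P, ∀ t (a : S t), F a = f t a
  gen : ⨆ t, S t = ⊤

/-- The side function: the factor of the first letter of the normal form. -/
theorem exists_side {S : T → Subgroup G} (hS : FP S) :
    ∃ s : G → Option T, (∀ t, ∀ c ∈ S t, c ≠ 1 → s c = some t) ∧
      ∀ g c t, c ∈ S t → g ≠ 1 → g * c ≠ 1 → s (g * c) = s g := by
  classical
  let R : G →* Equiv.Perm (G × Option T) :=
    { toFun := fun g => Equiv.prodCongr (Equiv.mulRight g⁻¹) (Equiv.refl _)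
      map_one' := by
        ext p <;> simp
      map_mul' := by
        intro a b
        ext p <;> simp [mul_assoc] }
  have hR : ∀ g p, R g p = (p.1 * g⁻¹, p.2) := fun g p => rfl
  let τ : T → Equiv.Perm (G × Option T) := fun t =>
    Equiv.swap ((1 : G), none) ((1 : G), some t)
  have hτ1 : ∀ t p, (τ t p).1 = p.1 := by
    intro t p
    simp only [τ, Equiv.swap_apply_def]
    split_ifs with h1 h2
    · rw [h1]
    · rw [h2]
    · rfl
  have hτ2 : ∀ t (p : G × Option T), p.1 ≠ 1 → τ t p = p := by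
    intro t p hp
    apply Equiv.swap_apply_of_ne_of_ne
    · rintro rfl
      exact hp rfl
    · rintro rfl
      exact hp rfl
  obtain ⟨F, hF⟩ := hS.lift (Equiv.Perm (G × Option T))
    (fun t => ((MulAut.conj (τ t)).toMonoidHom.comp R).comp (S t).subtype)
  have hF' : ∀ t, ∀ c ∈ S t, ∀ p, F c p = τ t (R c (τ t p)) := by
    intro t c hc p
    rw [hF t ⟨c, hc⟩]
    have : (τ t)⁻¹ = τ t := Equiv.swap_inv _ _
    simp [MulAut.conj_apply, this]
  have hF1 : ∀ g p, (F g p).1 = p.1 * g⁻¹ := by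
    let K : Subgroup G :=
      { carrier := {g | ∀ p, (F g p).1 = p.1 * g⁻¹}
        one_mem' := by
          intro p
          simp
        mul_mem' := by
          intro a b ha hb p
          rw [map_mul, Equiv.Perm.mul_apply, ha, hb]
          group
        inv_mem' := by
          intro a ha p
          have h := ha ((F a⁻¹) p)
          rw [← Equiv.Perm.mul_apply, ← map_mul, mul_inv_cancel, map_one,
            Equiv.Perm.one_apply] at h
          rw [h]
          group }
    have hK : (⊤ : Subgroup G) ≤ K := by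
      rw [← hS.gen]
      apply iSup_le
      intro t c hc p
      rw [hF' t c hc, hτ1, hR]
      simp [hτ1]
    intro g
    exact hK (mem_top g)
  refine ⟨fun g => (F g⁻¹ (1, none)).2, ?_, ?_⟩
  · intro t c hc hc1
    have h1 : τ t ((1 : G), none) = (1, some t) := Equiv.swap_apply_left _ _
    have h2 : F c⁻¹ (1, none) = (c, some t) := by
      rw [hF' t _ (inv_mem hc), h1, hR]
      simp only [inv_inv, one_mul]
      exact hτ2 t _ hc1
    simp only [h2]
  · intro g c t hc hg hgc
    have h1 : F g⁻¹ (1, none) = (g, (F g⁻¹ (1, none)).2) := by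
      ext1
      · rw [hF1]
        simp
      · rfl
    have h2 : F (g * c)⁻¹ (1, none) = (g * c, (F g⁻¹ (1, none)).2) := by
      rw [mul_inv_rev, map_mul, Equiv.Perm.mul_apply, h1, hF' t _ (inv_mem hc),
        hτ2 t (g, (F g⁻¹ (1, none)).2) hg, hR]
      simp only [inv_inv]
      exact hτ2 t _ hgc
    simp only [h2]

end side

section conn

variable {G : Type*} [Group G] {T : Type*}

/-- Adjacency in the Cayley graph with respect to the union of the factors. -/
def Adj (S : T → Subgroup G) (v w : G) : Prop := ∃ t, v⁻¹ * w ∈ S t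

theorem Adj.symm {S : T → Subgroup G} {v w : G} (h : Adj S v w) : Adj S w v := by
  obtain ⟨t, ht⟩ := h
  refine ⟨t, ?_⟩
  have := inv_mem ht
  simpa using this

theorem Adj.mul {S : T → Subgroup G} {v w : G} (g : G) : Adj S (g * v) (g * w) ↔ Adj S v w := by
  unfold Adj
  simp [mul_assoc]

/-- Connected sets. -/
def Conn (S : T → Subgroup G) (Y : Set G) : Prop :=
  ∀ C ⊆ Y, C.Nonempty → (∀ v ∈ C, ∀ w ∈ Y, Adj S v w → w ∈ C) → Y ⊆ C

theorem Conn.union {S : T → Subgroup G} {Y₁ Y₂ : Set G} (h₁ : Conn S Y₁) (h₂ : Conn S Y₂)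
    {y : G} (hy₁ : y ∈ Y₁) (hy₂ : y ∈ Y₂) : Conn S (Y₁ ∪ Y₂) := by
  intro C hC hne hcl
  have k₁ : (C ∩ Y₁).Nonempty → Y₁ ⊆ C := fun h =>
    (h₁ (C ∩ Y₁) Set.inter_subset_right h
      (fun v hv w hw hvw => ⟨hcl v hv.1 w (Or.inl hw) hvw, hw⟩)).trans Set.inter_subset_left
  have k₂ : (C ∩ Y₂).Nonempty → Y₂ ⊆ C := fun h =>
    (h₂ (C ∩ Y₂) Set.inter_subset_right h
      (fun v hv w hw hvw => ⟨hcl v hv.1 w (Or.inr hw) hvw, hw⟩)).trans Set.inter_subset_left
  obtain ⟨c, hc⟩ := hne
  rcases hC hc with hc' | hc'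
  · have a := k₁ ⟨c, hc, hc'⟩
    exact Set.union_subset a (k₂ ⟨y, a hy₁, hy₂⟩)
  · have a := k₂ ⟨c, hc, hc'⟩
    exact Set.union_subset (k₁ ⟨y, a hy₂, hy₁⟩) a

theorem Conn.image {S : T → Subgroup G} {Y : Set G} (h : Conn S Y) (g : G) :
    Conn S ((fun v => g * v) '' Y) := by
  intro C hC hne hcl
  have key : Y ⊆ {v ∈ Y | g * v ∈ C} := by
    apply h
    · exact fun v hv => hv.1
    · obtain ⟨c, hc⟩ := hne
      obtain ⟨v, hv, hvc⟩ := hC hc
      refine ⟨v, hv, ?_⟩
      have : g * v = c := hvc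
      rwa [this]
    · intro v hv w hw hvw
      exact ⟨hw, hcl _ hv.2 _ ⟨w, hw, rfl⟩ ((Adj.mul g).2 hvw)⟩
  rintro _ ⟨v, hv, rfl⟩
  exact (key hv).2

theorem Conn.pair {S : T → Subgroup G} {v w : G} (h : Adj S v w) : Conn S {v, w} := by
  intro C hC hne hcl
  obtain ⟨c, hc⟩ := hne
  rcases hC hc with rfl | h'
  · have hw : w ∈ C := hcl _ hc w (by simp) h
    rintro a (rfl | ha)
    · exact hc
    · rw [Set.mem_singleton_iff] at ha
      rwa [ha]
  · rw [Set.mem_singleton_iff] at h'
    subst h'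
    have hv : v ∈ C := hcl _ hc v (by simp) h.symm
    rintro a (rfl | ha)
    · exact hv
    · rw [Set.mem_singleton_iff] at ha
      rwa [ha]

/-- Every element lies with `1` in a finite connected set. -/
theorem exists_conn {S : T → Subgroup G} (hS : ⨆ t, S t = ⊤) (g : G) :
    ∃ Y : Set G, Y.Finite ∧ Conn S Y ∧ (1 : G) ∈ Y ∧ g ∈ Y := by
  have hg : g ∈ ⨆ t, S t := hS ▸ mem_top g
  refine Subgroup.iSup_induction S (C := fun g => ∃ Y : Set G, Y.Finite ∧ Conn S Y ∧
    (1 : G) ∈ Y ∧ g ∈ Y) hg ?_ ?_ ?_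
  · intro t c hc
    refine ⟨{1, c}, by simp, Conn.pair ⟨t, by simpa using hc⟩, by simp, by simp⟩
  · refine ⟨{1}, by simp, ?_, by simp, by simp⟩
    intro C hC hne _
    obtain ⟨c, hc⟩ := hne
    have := hC hc
    rw [Set.mem_singleton_iff] at this
    subst this
    intro a ha
    rw [Set.mem_singleton_iff] at ha
    rwa [ha]
  · rintro a b ⟨Y₁, f₁, c₁, o₁, m₁⟩ ⟨Y₂, f₂, c₂, o₂, m₂⟩
    refine ⟨Y₁ ∪ (fun v => a * v) '' Y₂, f₁.union (f₂.image _), ?_, Or.inl o₁,
      Or.inr ⟨b, m₂, rfl⟩⟩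
    exact c₁.union (c₂.image a) m₁ ⟨1, o₂, by simp⟩

/-- A finite family lies with `1` in a finite connected set. -/
theorem exists_conn_family {S : T → Subgroup G} (hS : ⨆ t, S t = ⊤) {ι : Type*} [Finite ι]
    (x : ι → G) :
    ∃ Y : Set G, Y.Finite ∧ Conn S Y ∧ (1 : G) ∈ Y ∧ ∀ i, x i ∈ Y := by
  choose Y hY using fun i => exists_conn hS (x i)
  refine ⟨{1} ∪ ⋃ i, Y i, ?_, ?_, Or.inl rfl, fun i => Or.inr (Set.mem_iUnion.2 ⟨i, (hY i).2.2.2⟩)⟩
  · exact (Set.finite_singleton _).union (Set.finite_iUnion fun i => (hY i).1)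
  · intro C hC hne hcl
    have k : ∀ i, (C ∩ Y i).Nonempty → Y i ⊆ C := fun i h =>
      ((hY i).2.1 (C ∩ Y i) Set.inter_subset_right h
        (fun v hv w hw hvw => ⟨hcl v hv.1 w (Or.inr (Set.mem_iUnion.2 ⟨i, hw⟩)) hvw, hw⟩)).trans
        Set.inter_subset_left
    have h1 : (1 : G) ∈ C := by
      obtain ⟨c, hc⟩ := hne
      rcases hC hc with hc' | hc'
      · rw [Set.mem_singleton_iff] at hc'
        rwa [hc'] at hc
      · obtain ⟨i, hi⟩ := Set.mem_iUnion.1 hc'
        exact k i ⟨c, hc, hi⟩ (hY i).2.2.1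
    apply Set.union_subset
    · simpa using h1
    · apply Set.iUnion_subset
      intro i
      exact k i ⟨1, h1, (hY i).2.2.1⟩

end conn

end Pool.MP_e4938c_al
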