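import Pool.Agent.Lib.MP_e4938c_al.FoldA

/-!
# Folding in a free product, part B: the fold (MP_e4938c)
-/

namespace Pool.MP_e4938c_al

open Subgroup Function

universe u

variable {G : Type u} [Group G] {T : Type} {ι : Type*}

/-- `g` maps some vertex of `Y` to a vertex of `Y` of the same type. -/
def Good (S : T → Subgroup G) (Y : Set G) (g : G) : Prop :=
  ∃ t, ∃ u ∈ Y, ∃ u' ∈ Y, u'⁻¹ * g * u ∈ S t

/-- The vertex `v S_t` lies on the `σ`-side of `z`. -/
def Near (s : G → Option T) (z : G) (σ : T) (v : G) (t : T) : Prop :=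
  (v ≠ z ∧ s (z⁻¹ * v) = some σ) ∨ (v = z ∧ t = σ)

/-- The fold. -/
theorem fold {S : T → Subgroup G} {s : G → Option T}
    (hs1 : ∀ t, ∀ c ∈ S t, c ≠ 1 → s c = some t)
    (hs2 : ∀ g c t, c ∈ S t → g ≠ 1 → g * c ≠ 1 → s (g * c) = s g)
    {Y : Set G} (hfin : Y.Finite) (hY : Conn S Y) {x : ι → G} (I : Set ι) {σ : T} {y z h : G}
    (hy : y ∈ Y) (hz : z ∈ Y) (hyz : y ≠ z) (hh : h * y = z) (hσ : s (z⁻¹ * y) = some σ)
    (hI : ∀ i ∈ I, ∃ t, ∃ u ∈ Y, ∃ u' ∈ Y, Near s z σ u t ∧ Near s z σ u' t ∧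
      u'⁻¹ * x i * u ∈ S t)
    (hI' : ∀ i ∉ I, Good S Y (x i))
    (hgen : h ∈ closure (x '' I)) :
    ∃ (Y' : Set G) (x' : ι → G), NEq x x' ∧ Y'.Finite ∧ Conn S Y' ∧ Y'.Nonempty ∧
      Y'.ncard < Y.ncard ∧ ∀ i, Good S Y' (x' i) := by
  classical
  -- near and far parts
  let N : Set G := {v | v ∈ Y ∧ v ≠ z ∧ s (z⁻¹ * v) = some σ}
  let Fz : Set G := {v | v ∈ Y ∧ (v = z ∨ s (z⁻¹ * v) ≠ some σ)}
  have hyN : y ∈ N := ⟨hy, hyz, hσ⟩
  have hzF : z ∈ Fz := ⟨hz, Or.inl rfl⟩
  have hne : ∀ {v}, v ≠ z → z⁻¹ * v ≠ 1 := by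
    intro v hv h1
    apply hv
    have := inv_mul_eq_one.1 h1
    exact this.symm
  -- adjacency preserves sides
  have hadj : ∀ v w, v ≠ z → w ≠ z → Adj S v w → s (z⁻¹ * v) = s (z⁻¹ * w) := by
    rintro v w hv hw ⟨t, ht⟩
    have h1 : z⁻¹ * w = (z⁻¹ * v) * (v⁻¹ * w) := by group
    rw [h1]
    symm
    apply hs2 _ _ t ht (hne hv)
    rw [← h1]
    exact hne hw
  -- neighbours of z
  have hadjz : ∀ v t, v ≠ z → z⁻¹ * v ∈ S t → s (z⁻¹ * v) = some t := fun v t hv hvt =>
    hs1 t _ hvt (hne hv)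
  -- a near neighbour of z
  have hm : ∃ m ∈ N, z⁻¹ * m ∈ S σ := by
    by_contra hcon
    push Not at hcon
    have hYN : Y ⊆ N := by
      apply hY N (fun v hv => hv.1) ⟨y, hyN⟩
      intro v hv w hw hvw
      by_cases hwz : w = z
      · exfalso
        subst hwz
        obtain ⟨t, ht⟩ := hvw.symm
        have h1 := hadjz v t hv.2.1 ht
        rw [hv.2.2, Option.some_inj] at h1
        subst h1
        exact hcon v hv ht
      · exact ⟨hw, hwz, by rw [← hadj v w hv.2.1 hwz hvw]; exact hv.2.2⟩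
    exact (hYN hz).2.1 rfl
  obtain ⟨m, hmN, hmz⟩ := hm
  -- near part connected
  have hNconn : Conn S N := by
    intro C hC hCne hcl
    by_cases hex : ∃ v ∈ C, Adj S v z
    · obtain ⟨v₀, hv₀, hadj₀⟩ := hex
      have hall : ∀ w ∈ N, Adj S w z → w ∈ C := by
        intro w hw hwz
        obtain ⟨t₁, ht₁⟩ := hadj₀.symm
        obtain ⟨t₂, ht₂⟩ := hwz.symm
        have e₁ := hadjz v₀ t₁ (hC hv₀).2.1 ht₁
        have e₂ := hadjz w t₂ hw.2.1 ht₂
        rw [(hC hv₀).2.2, Option.some_inj] at e₁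
        rw [hw.2.2, Option.some_inj] at e₂
        subst e₁
        subst e₂
        refine hcl v₀ hv₀ w hw ⟨σ, ?_⟩
        have : v₀⁻¹ * w = (z⁻¹ * v₀)⁻¹ * (z⁻¹ * w) := by group
        rw [this]
        exact mul_mem (inv_mem ht₁) ht₂
      have hYC : Y ⊆ C ∪ Fz := by
        apply hY
        · exact Set.union_subset (fun v hv => (hC hv).1) (fun v hv => hv.1)
        · exact ⟨v₀, Or.inl hv₀⟩
        · intro v hv w hw hvw
          by_cases hwz : w = z
          · subst hwz
            exact Or.inr hzF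
          by_cases hwN : s (z⁻¹ * w) = some σ
          · left
            rcases hv with hv | hv
            · exact hcl v hv w ⟨hw, hwz, hwN⟩ hvw
            · rcases hv.2 with rfl | hv'
              · exact hall w ⟨hw, hwz, hwN⟩ hvw.symm
              · by_cases hvz : v = z
                · subst hvz
                  exact hall w ⟨hw, hwz, hwN⟩ hvw.symm
                · exact absurd ((hadj v w hvz hwz hvw).trans hwN) hv'
          · exact Or.inr ⟨hw, Or.inr hwN⟩
      intro w hw
      rcases hYC hw.1 with h1 | h1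
      · exact h1
      · rcases h1.2 with h2 | h2
        · exact absurd h2 hw.2.1
        · exact absurd hw.2.2 h2
    · push Not at hex
      exfalso
      have hYC : Y ⊆ C := by
        apply hY C (fun v hv => (hC hv).1) hCne
        intro v hv w hw hvw
        have hwz : w ≠ z := by
          rintro rfl
          exact hex v hv hvw
        exact hcl v hv w ⟨hw, hwz, by rw [← hadj v w (hC hv).2.1 hwz hvw]; exact (hC hv).2.2⟩ hvw
      exact (hC (hYC hz)).2.1 rfl
  -- far part with z connected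
  have hFconn : Conn S Fz := by
    intro C hC hCne hcl
    by_cases hzC : z ∈ C
    · have hYC : Y ⊆ C ∪ N := by
        apply hY
        · exact Set.union_subset (fun v hv => (hC hv).1) (fun v hv => hv.1)
        · exact ⟨z, Or.inl hzC⟩
        · intro v hv w hw hvw
          by_cases hwz : w = z
          · subst hwz
            exact Or.inl hzC
          by_cases hwN : s (z⁻¹ * w) = some σ
          · exact Or.inr ⟨hw, hwz, hwN⟩
          · left
            rcases hv with hv | hv
            · exact hcl v hv w ⟨hw, Or.inr hwN⟩ hvw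
            · exact absurd ((hadj v w hv.2.1 hwz hvw).symm.trans hv.2.2) hwN
      intro w hw
      rcases hYC hw.1 with h1 | h1
      · exact h1
      · rcases hw.2 with h2 | h2
        · rwa [h2]
        · exact absurd h1.2.2 h2
    · exfalso
      have hYC : Y ⊆ C := by
        apply hY C (fun v hv => (hC hv).1) hCne
        intro v hv w hw hvw
        by_cases hwz : w = z
        · subst hwz
          exact hcl v hv w hzF hvw
        · have hvz : v ≠ z := by
            rintro rfl
            exact hzC hv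
          have hv' : s (z⁻¹ * v) ≠ some σ := by
            rcases (hC hv).2 with h2 | h2
            · exact absurd h2 hvz
            · exact h2
          exact hcl v hv w ⟨hw, Or.inr (by rw [← hadj v w hvz hwz hvw]; exact hv')⟩ hvw
      exact hzC (hYC hz)
  -- the new set
  let Y' : Set G := N ∪ (fun v => h⁻¹ * v) '' Fz
  have hhz : h⁻¹ * z = y := by
    rw [← hh]
    group
  have hyY' : y ∈ (fun v => h⁻¹ * v) '' Fz := ⟨z, hzF, hhz⟩
  have hY'conn : Conn S Y' := hNconn.union (hFconn.image h⁻¹) hyN hyY'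
  have hcard : Y'.ncard < Y.ncard := by
    let F0 : Set G := {v | v ∈ Y ∧ v ≠ z ∧ s (z⁻¹ * v) ≠ some σ}
    have e1 : Y' = N ∪ (fun v => h⁻¹ * v) '' F0 := by
      apply Set.Subset.antisymm
      · apply Set.union_subset Set.subset_union_left
        rintro _ ⟨v, hv, rfl⟩
        by_cases hvz : v = z
        · subst hvz
          left
          change h⁻¹ * v ∈ N
          rwa [hhz]
        · rcases hv.2 with h2 | h2
          · exact absurd h2 hvz
          · exact Or.inr ⟨v, ⟨hv.1, hvz, h2⟩, rfl⟩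
      · apply Set.union_subset Set.subset_union_left
        rintro _ ⟨v, hv, rfl⟩
        exact Or.inr ⟨v, ⟨hv.1, Or.inr hv.2.2⟩, rfl⟩
    have fN : N.Finite := hfin.subset fun v hv => hv.1
    have fF : F0.Finite := hfin.subset fun v hv => hv.1
    calc Y'.ncard = (N ∪ (fun v => h⁻¹ * v) '' F0).ncard := by rw [e1]
      _ ≤ N.ncard + ((fun v => h⁻¹ * v) '' F0).ncard := Set.ncard_union_le _ _
      _ ≤ N.ncard + F0.ncard := Nat.add_le_add_left (Set.ncard_image_le fF) _
      _ = (N ∪ F0).ncard := by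
          rw [Set.ncard_union_eq _ fN fF]
          rw [Set.disjoint_left]
          rintro v hv hv'
          exact hv'.2.2 hv.2.2
      _ < Y.ncard := by
          apply Set.ncard_lt_ncard _ hfin
          refine ⟨Set.union_subset (fun v hv => hv.1) (fun v hv => hv.1), fun hsub => ?_⟩
          rcases hsub hz with h1 | h1
          · exact h1.2.1 rfl
          · exact h1.2.1 rfl
  -- witnesses
  have key : ∀ i, ∃ t u u', u ∈ Y ∧ u' ∈ Y ∧ u'⁻¹ * x i * u ∈ S t ∧
      (i ∈ I → Near s z σ u t ∧ Near s z σ u' t) := by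
    intro i
    by_cases hi : i ∈ I
    · obtain ⟨t, u, hu, u', hu', n1, n2, hw⟩ := hI i hi
      exact ⟨t, u, u', hu, hu', hw, fun _ => ⟨n1, n2⟩⟩
    · obtain ⟨t, u, hu, u', hu', hw⟩ := hI' i hi
      exact ⟨t, u, u', hu, hu', hw, fun h => absurd h hi⟩
  choose t u u' hu hu' hw hN using key
  let c : G → T → G := fun v t => if Near s z σ v t then 1 else h⁻¹
  have hc : ∀ v t, c v t ∈ closure (x '' I) := by
    intro v t
    simp only [c]
    split_ifs
    · exact one_mem _
    · exact inv_mem hgen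
  have hvert : ∀ v ∈ Y, ∀ t, ∃ v' ∈ Y', ∃ d ∈ S t, v' = c v t * v * d := by
    intro v hv t
    by_cases hn : Near s z σ v t
    · simp only [c, if_pos hn, one_mul]
      rcases hn with hn | hn
      · exact ⟨v, Or.inl ⟨hv, hn.1, hn.2⟩, 1, one_mem _, by simp⟩
      · obtain ⟨rfl, rfl⟩ := hn
        exact ⟨m, Or.inl hmN, v⁻¹ * m, hmz, by group⟩
    · simp only [c, if_neg hn]
      refine ⟨h⁻¹ * v, Or.inr ⟨v, ⟨hv, ?_⟩, rfl⟩, 1, one_mem _, by simp⟩
      by_cases hvz : v = z
      · exact Or.inl hvz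
      · right
        intro h1
        exact hn (Or.inl ⟨hvz, h1⟩)
  refine ⟨Y', fun i => c (u' i) (t i) * x i * (c (u i) (t i))⁻¹, ?_, ?_, hY'conn, ⟨y, Or.inl hyN⟩,
    hcard, ?_⟩
  · apply NEq.sub I
    · intro i hi
      have := hN i hi
      simp [c, this.1, this.2]
    · intro i _
      exact ⟨_, hc _ _, _, inv_mem (hc _ _), rfl⟩
  · exact (hfin.subset fun v hv => hv.1).union
      ((hfin.subset fun v (hv : v ∈ Fz) => hv.1).image _)
  · intro i
    obtain ⟨v, hv, d, hd, hvd⟩ := hvert (u i) (hu i) (t i)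
    obtain ⟨v', hv', d', hd', hvd'⟩ := hvert (u' i) (hu' i) (t i)
    refine ⟨t i, v, hv, v', hv', ?_⟩
    have : v'⁻¹ * (c (u' i) (t i) * x i * (c (u i) (t i))⁻¹) * v =
        d'⁻¹ * ((u' i)⁻¹ * x i * u i) * d := by
      rw [hvd, hvd']
      group
    rw [this]
    exact mul_mem (mul_mem (inv_mem hd') (hw i)) hd

end Pool.MP_e4938c_al
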