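import Pool.Agent.Lib.MP_e4938c_al.FoldB

/-!
# Folding in a free product, part C: holonomy and star form (MP_e4938c)
-/

namespace Pool.MP_e4938c_al

open Subgroup Function

universe u

variable {G : Type u} [Group G] {T : Type} {ι : Type*}

/-- Paths with holonomy. -/
inductive Hol (E : G → G → G → Prop) (y : G) : G → G → Prop
  | refl : Hol E y 1 y
  | step {h z k w : G} : Hol E y h z → E z k w → Hol E y (k * h) w

theorem Hol.one_step {E : G → G → G → Prop} {z k w : G} (h : E z k w) : Hol E z k w := by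
  have := Hol.step Hol.refl h
  rwa [mul_one] at this

theorem Hol.trans {E : G → G → G → Prop} {y h z k w : G} (h1 : Hol E y h z)
    (h2 : Hol E z k w) : Hol E y (k * h) w := by
  induction h2 with
  | refl => simpa using h1
  | step _ e ih =>
    rw [mul_assoc]
    exact Hol.step ih e

theorem Hol.symm {E : G → G → G → Prop} (hE : ∀ z k w, E z k w → E w k⁻¹ z) {y h z : G}
    (h1 : Hol E y h z) : Hol E z h⁻¹ y := by
  induction h1 with
  | refl => simpa using Hol.refl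
  | step _ e ih =>
    rw [mul_inv_rev]
    exact (Hol.one_step (hE _ _ _ e)).trans ih

theorem Hol.mono {E E' : G → G → G → Prop} (hE : ∀ z k w, E z k w → Hol E' z k w) {y h z : G}
    (h1 : Hol E y h z) : Hol E' y h z := by
  induction h1 with
  | refl => exact Hol.refl
  | step _ e ih => exact ih.trans (hE _ _ _ e)

/-- A family with its witnesses. -/
structure Dat (ι : Type*) (T G : Type*) where
  x : ι → G
  t : ι → T
  u : ι → G
  v : ι → G

/-- The witnesses are right. -/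
def Dat.Ok (D : Dat ι T G) (S : T → Subgroup G) (Y : Set G) : Prop :=
  ∀ i, D.u i ∈ Y ∧ D.v i ∈ Y ∧ (D.v i)⁻¹ * D.x i * D.u i ∈ S (D.t i)

/-- Oriented edges. -/
def Dat.OE (D : Dat ι T G) (τ : T) (i : ι) (a b k : G) : Prop :=
  D.t i = τ ∧ ((a = D.u i ∧ b = D.v i ∧ k = D.x i) ∨ (a = D.v i ∧ b = D.u i ∧ k = (D.x i)⁻¹))

/-- Elementary steps. -/
def Dat.El (D : Dat ι T G) (S : T → Subgroup G) (Y : Set G) (τ : T) (z k w : G) : Prop :=
  z ∈ Y ∧ w ∈ Y ∧ ((k = 1 ∧ z⁻¹ * w ∈ S τ) ∨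
    ∃ i a b, D.OE τ i a b k ∧ z⁻¹ * a ∈ S τ ∧ b⁻¹ * w ∈ S τ)

theorem mem_flip {H : Subgroup G} {a b : G} (h : a⁻¹ * b ∈ H) : b⁻¹ * a ∈ H := by
  have := inv_mem h
  simpa using this

theorem mem_chain {H : Subgroup G} {a b c : G} (h : a⁻¹ * b ∈ H) (h' : b⁻¹ * c ∈ H) :
    a⁻¹ * c ∈ H := by
  have := mul_mem h h'
  have e : a⁻¹ * b * (b⁻¹ * c) = a⁻¹ * c := by group
  rwa [e] at this

theorem Dat.OE.symm {D : Dat ι T G} {τ : T} {i : ι} {a b k : G} (h : D.OE τ i a b k) :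
    D.OE τ i b a k⁻¹ := by
  obtain ⟨h0, ⟨rfl, rfl, rfl⟩ | ⟨rfl, rfl, rfl⟩⟩ := h
  · exact ⟨h0, Or.inr ⟨rfl, rfl, rfl⟩⟩
  · exact ⟨h0, Or.inl ⟨rfl, rfl, by simp⟩⟩

theorem Dat.El.symm {D : Dat ι T G} {S : T → Subgroup G} {Y : Set G} {τ : T} {z k w : G}
    (h : D.El S Y τ z k w) : D.El S Y τ w k⁻¹ z := by
  obtain ⟨hz, hw, ⟨rfl, h⟩ | ⟨i, a, b, h1, h2, h3⟩⟩ := h
  · exact ⟨hw, hz, Or.inl ⟨by simp, mem_flip h⟩⟩
  · exact ⟨hw, hz, Or.inr ⟨i, b, a, h1.symm, mem_flip h3, mem_flip h2⟩⟩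

theorem Dat.OE.mem {D : Dat ι T G} {S : T → Subgroup G} {Y : Set G} (hD : D.Ok S Y) {τ : T}
    {i : ι} {a b k : G} (h : D.OE τ i a b k) : a ∈ Y ∧ b ∈ Y ∧ b⁻¹ * k * a ∈ S τ := by
  obtain ⟨h1, h2, h3⟩ := hD i
  obtain ⟨rfl, ⟨rfl, rfl, rfl⟩ | ⟨rfl, rfl, rfl⟩⟩ := h
  · exact ⟨h1, h2, h3⟩
  · refine ⟨h2, h1, ?_⟩
    have := inv_mem h3
    simpa [mul_assoc] using this

/-- The number of endpoints of type `τ` which are not the vertex of `y`. -/
noncomputable def Dat.meas (D : Dat ι T G) (S : T → Subgroup G) (τ : T) (y : G) : ℕ :=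
  {j | D.t j = τ ∧ y⁻¹ * D.u j ∉ S τ}.ncard + {j | D.t j = τ ∧ y⁻¹ * D.v j ∉ S τ}.ncard

/-- The slide. -/
theorem Dat.slide [Finite ι] {D : Dat ι T G} {S : T → Subgroup G} {Y : Set G} (hD : D.Ok S Y)
    {τ : T} {y : G} {i : ι} {a b k : G} (hOE : D.OE τ i a b k) (ha : y⁻¹ * a ∈ S τ)
    (hb : y⁻¹ * b ∉ S τ) {j₀ : ι} (hj : j₀ ≠ i) (hjt : D.t j₀ = τ)
    (hj₀ : b⁻¹ * D.u j₀ ∈ S τ ∨ b⁻¹ * D.v j₀ ∈ S τ) :
    ∃ D' : Dat ι T G, NEq D.x D'.x ∧ D'.Ok S Y ∧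
      (∀ z h w, D.El S Y τ z h w → Hol (D'.El S Y τ) z h w) ∧
      D'.meas S τ y < D.meas S τ y := by
  classical
  obtain ⟨haY, hbY, hk⟩ := hOE.mem hD
  let P : ι → G → Prop := fun j w => j ≠ i ∧ D.t j = τ ∧ b⁻¹ * w ∈ S τ
  let f : ι → G → G := fun j w => if P j w then k⁻¹ else 1
  let e : ι → G → G := fun j w => if P j w then a else w
  have hPi : ∀ w, ¬ P i w := fun w h => h.1 rfl
  have hef : ∀ j w, ∃ d ∈ S (D.t j), e j w = f j w * w * d := by
    intro j w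
    by_cases hP : P j w
    · simp only [e, f, if_pos hP]
      refine ⟨w⁻¹ * k * a, ?_, by group⟩
      rw [hP.2.1]
      have e1 : w⁻¹ * k * a = (w⁻¹ * b) * (b⁻¹ * k * a) := by group
      rw [e1]
      exact mul_mem (mem_flip hP.2.2) hk
    · simp only [e, f, if_neg hP]
      exact ⟨1, one_mem _, by simp⟩
  have heY : ∀ j w, w ∈ Y → e j w ∈ Y := by
    intro j w hw
    simp only [e]
    split_ifs
    · exact haY
    · exact hw
  have hkx : k ∈ closure (D.x '' {i}) := by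
    have : D.x i ∈ closure (D.x '' {i}) := subset_closure ⟨i, rfl, rfl⟩
    obtain ⟨_, ⟨-, -, rfl⟩ | ⟨-, -, rfl⟩⟩ := hOE
    · exact this
    · exact inv_mem this
  have hfx : ∀ j w, f j w ∈ closure (D.x '' {i}) := by
    intro j w
    simp only [f]
    split_ifs
    · exact inv_mem hkx
    · exact one_mem _
  let D' : Dat ι T G :=
    { x := fun j => f j (D.v j) * D.x j * (f j (D.u j))⁻¹
      t := D.t
      u := fun j => e j (D.u j)
      v := fun j => e j (D.v j) }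
  have hD'i : D'.x i = D.x i ∧ D'.u i = D.u i ∧ D'.v i = D.v i := by
    simp [D', f, e, hPi]
  have hOE' : D'.OE τ i a b k := by
    unfold Dat.OE
    rw [hD'i.1, hD'i.2.1, hD'i.2.2]
    exact hOE
  refine ⟨D', ?_, ?_, ?_, ?_⟩
  · apply NEq.sub {i}
    · intro j hj'
      rw [Set.mem_singleton_iff] at hj'
      subst hj'
      exact hD'i.1
    · intro j _
      exact ⟨_, hfx _ _, _, inv_mem (hfx _ _), rfl⟩
  · intro j
    obtain ⟨h1, h2, h3⟩ := hD j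
    refine ⟨heY _ _ h1, heY _ _ h2, ?_⟩
    obtain ⟨d, hd, hd'⟩ := hef j (D.u j)
    obtain ⟨d₂, hd₂, hd₂'⟩ := hef j (D.v j)
    have e1 : (D'.v j)⁻¹ * D'.x j * D'.u j = d₂⁻¹ * ((D.v j)⁻¹ * D.x j * D.u j) * d := by
      simp only [D']
      rw [hd', hd₂']
      group
    rw [e1]
    exact mul_mem (mul_mem (inv_mem hd₂) h3) hd
  · intro z h w hE
    obtain ⟨hz, hw, ⟨rfl, h1⟩ | ⟨j, a', b', h1, h2, h3⟩⟩ := hE
    · exact Hol.one_step ⟨hz, hw, Or.inl ⟨rfl, h1⟩⟩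
    · -- the vertex step
      have hα : ∀ z p, z ∈ Y → p ∈ Y → z⁻¹ * p ∈ S τ → D'.El S Y τ z (f j p) (e j p) := by
        intro z p hz hp hzp
        refine ⟨hz, heY _ _ hp, ?_⟩
        by_cases hP : P j p
        · right
          simp only [e, f, if_pos hP]
          exact ⟨i, b, a, hOE'.symm, mem_chain hzp (mem_flip hP.2.2), by simp⟩
        · left
          simp only [e, f, if_neg hP]
          exact ⟨trivial, hzp⟩
      have hab := h1.mem hD
      have hz' := hα z a' hz hab.1 h2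
      have hw' := (hα w b' hw hab.2.1 (mem_flip h3)).symm
      have hmid : D'.El S Y τ (e j a') (f j b' * h * (f j a')⁻¹) (e j b') := by
        refine ⟨heY _ _ hab.1, heY _ _ hab.2.1, Or.inr ⟨j, e j a', e j b', ?_, by simp, by simp⟩⟩
        obtain ⟨h0, ⟨rfl, rfl, rfl⟩ | ⟨rfl, rfl, rfl⟩⟩ := h1
        · exact ⟨h0, Or.inl ⟨rfl, rfl, rfl⟩⟩
        · refine ⟨h0, Or.inr ⟨rfl, rfl, ?_⟩⟩
          simp [D', mul_assoc]
      have := ((Hol.one_step hz').trans (Hol.one_step hmid)).trans (Hol.one_step hw')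
      have e1 : (f j b')⁻¹ * (f j b' * h * (f j a')⁻¹ * f j a') = h := by group
      rwa [e1] at this
  · have hsub : ∀ (w : ι → G),
        {j | D'.t j = τ ∧ y⁻¹ * e j (w j) ∉ S τ} ⊆ {j | D.t j = τ ∧ y⁻¹ * w j ∉ S τ} := by
      intro w j hj'
      refine ⟨hj'.1, ?_⟩
      have h2 := hj'.2
      by_cases hP : P j (w j)
      · simp only [e, if_pos hP] at h2
        exact absurd ha h2
      · simpa only [e, if_neg hP] using h2
    have hstrict : ∀ (w : ι → G), b⁻¹ * w j₀ ∈ S τ →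
        {j | D'.t j = τ ∧ y⁻¹ * e j (w j) ∉ S τ} ⊂ {j | D.t j = τ ∧ y⁻¹ * w j ∉ S τ} := by
      intro w hw
      refine ⟨hsub w, fun hcon => ?_⟩
      have hm : j₀ ∈ {j | D.t j = τ ∧ y⁻¹ * w j ∉ S τ} := by
        refine ⟨hjt, fun h2 => hb ?_⟩
        exact mem_chain h2 (mem_flip hw)
      have h2 := (hcon hm).2
      have hP : P j₀ (w j₀) := ⟨hj, hjt, hw⟩
      simp only [e, if_pos hP] at h2
      exact h2 ha
    have c1 := Set.ncard_le_ncard (hsub D.u) (Set.toFinite _)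
    have c2 := Set.ncard_le_ncard (hsub D.v) (Set.toFinite _)
    change {j | D'.t j = τ ∧ y⁻¹ * e j (D.u j) ∉ S τ}.ncard +
      {j | D'.t j = τ ∧ y⁻¹ * e j (D.v j) ∉ S τ}.ncard <
      {j | D.t j = τ ∧ y⁻¹ * D.u j ∉ S τ}.ncard + {j | D.t j = τ ∧ y⁻¹ * D.v j ∉ S τ}.ncard
    rcases hj₀ with h0 | h0
    · have c3 := Set.ncard_lt_ncard (hstrict D.u h0) (Set.toFinite _)
      omega
    · have c3 := Set.ncard_lt_ncard (hstrict D.v h0) (Set.toFinite _)
      omega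

/-- Star form at the vertex of `y`. -/
def Dat.Star (D : Dat ι T G) (S : T → Subgroup G) (τ : T) (y : G) : Prop :=
  ∀ i a b k, D.OE τ i a b k → y⁻¹ * a ∈ S τ → y⁻¹ * b ∉ S τ → ∀ j, j ≠ i → D.t j = τ →
    b⁻¹ * D.u j ∉ S τ ∧ b⁻¹ * D.v j ∉ S τ

theorem Dat.exists_star [Finite ι] {S : T → Subgroup G} {Y : Set G} {τ : T} {y h z : G} (m : ℕ) :
    ∀ D : Dat ι T G, D.Ok S Y → Hol (D.El S Y τ) y h z → D.meas S τ y = m →
    ∃ D' : Dat ι T G, NEq D.x D'.x ∧ D'.Ok S Y ∧ Hol (D'.El S Y τ) y h z ∧ D'.Star S τ y := by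
  induction m using Nat.strong_induction_on with
  | _ m ih =>
    intro D hD hol hm
    by_cases hst : D.Star S τ y
    · exact ⟨D, NEq.refl _, hD, hol, hst⟩
    · unfold Dat.Star at hst
      push Not at hst
      obtain ⟨i, a, b, k, hOE, ha, hb, j, hj, hjt, h0⟩ := hst
      have h0' : b⁻¹ * D.u j ∈ S τ ∨ b⁻¹ * D.v j ∈ S τ := by
        by_cases hh : b⁻¹ * D.u j ∈ S τ
        · exact Or.inl hh
        · exact Or.inr (h0 hh)
      obtain ⟨D₁, n₁, ok₁, el₁, m₁⟩ := D.slide hD hOE ha hb hj hjt h0'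
      obtain ⟨D₂, n₂, ok₂, hol₂, st₂⟩ := ih (D₁.meas S τ y) (hm ▸ m₁) D₁ ok₁ (hol.mono el₁) rfl
      exact ⟨D₂, n₁.trans n₂, ok₂, hol₂, st₂⟩

/-- Loops at the vertex of `y`. -/
def Dat.loops (D : Dat ι T G) (S : T → Subgroup G) (τ : T) (y : G) : Set ι :=
  {j | D.t j = τ ∧ y⁻¹ * D.u j ∈ S τ ∧ y⁻¹ * D.v j ∈ S τ}

/-- Holonomies in star form. -/
theorem Dat.Star.hol {D : Dat ι T G} {S : T → Subgroup G} {Y : Set G} {τ : T} {y h z : G}
    (hst : D.Star S τ y) (hol : Hol (D.El S Y τ) y h z) :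
    (y⁻¹ * z ∈ S τ ∧ h ∈ closure (D.x '' D.loops S τ y)) ∨
    ∃ i a b k h₀, D.OE τ i a b k ∧ y⁻¹ * a ∈ S τ ∧ y⁻¹ * b ∉ S τ ∧ b⁻¹ * z ∈ S τ ∧
      h₀ ∈ closure (D.x '' D.loops S τ y) ∧ h = k * h₀ := by
  induction hol with
  | refl => exact Or.inl ⟨by simp, one_mem _⟩
  | @step h z k w _ hE ih =>
    obtain ⟨hz, hw, ⟨rfl, h1⟩ | ⟨i, a, b, h1, h2, h3⟩⟩ := hE
    · rw [one_mul]
      rcases ih with ⟨g1, g2⟩ | ⟨i, a, b, k, h₀, g1, g2, g3, g4, g5, g6⟩
      · exact Or.inl ⟨mem_chain g1 h1, g2⟩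
      · exact Or.inr ⟨i, a, b, k, h₀, g1, g2, g3, mem_chain g4 h1, g5, g6⟩
    · rcases ih with ⟨g1, g2⟩ | ⟨i', a', b', k', h₀, g1, g2, g3, g4, g5, g6⟩
      · have hya : y⁻¹ * a ∈ S τ := mem_chain g1 h2
        by_cases hyb : y⁻¹ * b ∈ S τ
        · left
          refine ⟨mem_chain hyb h3, mul_mem ?_ g2⟩
          obtain ⟨h0, ⟨rfl, rfl, rfl⟩ | ⟨rfl, rfl, rfl⟩⟩ := h1
          · exact subset_closure ⟨i, ⟨h0, hya, hyb⟩, rfl⟩
          · exact inv_mem (subset_closure ⟨i, ⟨h0, hyb, hya⟩, rfl⟩)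
        · exact Or.inr ⟨i, a, b, k, h, h1, hya, hyb, h3, g2, rfl⟩
      · have hb'a : b'⁻¹ * a ∈ S τ := mem_chain g4 h2
        by_cases hii : i = i'
        · subst hii
          obtain ⟨h0, h1'⟩ := h1
          obtain ⟨h0', g1'⟩ := g1
          have hno : ∀ p, a = p → a' = p → False := by
            rintro p rfl rfl
            exact g3 (mem_chain g2 (mem_flip hb'a))
          rcases h1' with ⟨e1, e2, e3⟩ | ⟨e1, e2, e3⟩ <;>
            rcases g1' with ⟨f1, f2, f3⟩ | ⟨f1, f2, f3⟩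
          · exact (hno _ e1 f1).elim
          · left
            refine ⟨?_, ?_⟩
            · apply mem_chain _ h3
              rw [e2, ← f1]
              exact g2
            · rw [g6, e3, f3]
              simpa using g5
          · left
            refine ⟨?_, ?_⟩
            · apply mem_chain _ h3
              rw [e2, ← f1]
              exact g2
            · rw [g6, e3, f3]
              simpa using g5
          · exact (hno _ e1 f1).elim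
        · exfalso
          have := hst i' a' b' k' g1 g2 g3 i hii h1.1
          obtain ⟨h0, ⟨rfl, rfl, rfl⟩ | ⟨rfl, rfl, rfl⟩⟩ := h1
          · exact this.1 hb'a
          · exact this.2 hb'a

end Pool.MP_e4938c_al
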