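import Pool.Agent.Lib.MP_e4938c_al.FoldC

/-!
# Folding in a free product, part D: the terminal case and the theorem (MP_e4938c)
-/

namespace Pool.MP_e4938c_al

open Subgroup Function

universe u

variable {G : Type u} [Group G] {T : Type}

theorem side_ne_none {S : T → Subgroup G} (hS : ⨆ t, S t = ⊤) {s : G → Option T}
    (hs1 : ∀ t, ∀ c ∈ S t, c ≠ 1 → s c = some t)
    (hs2 : ∀ g c t, c ∈ S t → g ≠ 1 → g * c ≠ 1 → s (g * c) = s g) {g : G} (hg : g ≠ 1) :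
    ∃ σ, s g = some σ := by
  obtain ⟨Y, -, hY, h1, hgY⟩ := exists_conn hS g
  have key : Y ⊆ {v | v ∈ Y ∧ (v = 1 ∨ ∃ σ, s v = some σ)} := by
    apply hY
    · exact fun v hv => hv.1
    · exact ⟨1, h1, Or.inl rfl⟩
    · rintro v ⟨hv, hv'⟩ w hw ⟨t, ht⟩
      refine ⟨hw, ?_⟩
      by_cases hw1 : w = 1
      · exact Or.inl hw1
      right
      by_cases hv1 : v = 1
      · subst hv1
        rw [inv_one, one_mul] at ht
        exact ⟨t, hs1 t w ht hw1⟩
      · rcases hv' with h | ⟨σ, hσ⟩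
        · exact absurd h hv1
        · refine ⟨σ, ?_⟩
          have e : w = v * (v⁻¹ * w) := by group
          rw [e, hs2 v _ t ht hv1 (by rw [← e]; exact hw1)]
          exact hσ
  rcases (key hgY).2 with h | h
  · exact absurd h hg
  · exact h

/-- If the holonomy identifies two points of `Y`, one can fold. -/
theorem exists_smaller {ι : Type*} [Finite ι] {S : T → Subgroup G} (hS : ⨆ t, S t = ⊤)
    {s : G → Option T}
    (hs1 : ∀ t, ∀ c ∈ S t, c ≠ 1 → s c = some t)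
    (hs2 : ∀ g c t, c ∈ S t → g ≠ 1 → g * c ≠ 1 → s (g * c) = s g)
    {Y : Set G} (hfin : Y.Finite) (hY : Conn S Y) {D : Dat ι T G} (hD : D.Ok S Y)
    {τ : T} {y z h : G} (hy : y ∈ Y) (hz : z ∈ Y) (hol : Hol (D.El S Y τ) y h z)
    (hh : h * y = z) (hyz : y ≠ z) :
    ∃ (Y' : Set G) (x' : ι → G), NEq D.x x' ∧ Y'.Finite ∧ Conn S Y' ∧ Y'.Nonempty ∧
      Y'.ncard < Y.ncard ∧ ∀ i, Good S Y' (x' i) := by
  classical
  obtain ⟨D', n, ok, hol', st⟩ := Dat.exists_star (D.meas S τ y) D hD hol rfl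
  have hzy1 : z⁻¹ * y ≠ 1 := by
    intro h1
    exact hyz (inv_mul_eq_one.1 h1).symm
  rcases st.hol hol' with ⟨g1, g2⟩ | ⟨i, a, b, k, h₀, g1, g2, g3, g4, g5, g6⟩
  · have hzy : z⁻¹ * y ∈ S τ := mem_flip g1
    have hnear : ∀ p, y⁻¹ * p ∈ S τ → Near s z τ p τ := by
      intro p hp
      by_cases hpz : p = z
      · exact Or.inr ⟨hpz, rfl⟩
      · left
        refine ⟨hpz, hs1 τ _ (mem_chain hzy hp) ?_⟩
        intro h1
        exact hpz (inv_mul_eq_one.1 h1).symm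
    have cI : ∀ j ∈ D'.loops S τ y, ∃ t, ∃ u ∈ Y, ∃ u' ∈ Y, Near s z τ u t ∧ Near s z τ u' t ∧
        u'⁻¹ * D'.x j * u ∈ S t := by
      intro j hj
      obtain ⟨q1, q2, q3⟩ := ok j
      refine ⟨τ, D'.u j, q1, D'.v j, q2, hnear _ hj.2.1, hnear _ hj.2.2, ?_⟩
      rw [← hj.1]
      exact q3
    have cI' : ∀ j ∉ D'.loops S τ y, Good S Y (D'.x j) := by
      intro j _
      obtain ⟨q1, q2, q3⟩ := ok j
      exact ⟨D'.t j, D'.u j, q1, D'.v j, q2, q3⟩
    obtain ⟨Y', x', h1, h2⟩ := fold hs1 hs2 hfin hY (x := D'.x) (D'.loops S τ y) hy hz hyz hh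
      (hs1 τ _ hzy hzy1) cI cI' g2
    exact ⟨Y', x', n.trans h1, h2⟩
  · obtain ⟨σ, hσ⟩ := side_ne_none hS hs1 hs2 hzy1
    have hnloop : i ∉ D'.loops S τ y := by
      rintro ⟨-, l1, l2⟩
      obtain ⟨-, ⟨-, rfl, -⟩ | ⟨-, rfl, -⟩⟩ := g1
      · exact g3 l2
      · exact g3 l1
    have hh₀ : h₀ ∈ closure (D'.x '' {i}ᶜ) := by
      refine closure_mono (Set.image_mono ?_) g5
      intro j hj
      rw [Set.mem_compl_iff, Set.mem_singleton_iff]
      rintro rfl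
      exact hnloop hj
    -- the new generator
    obtain ⟨xi, hxi, hxi'⟩ : ∃ xi, (∃ a ∈ closure (D'.x '' {i}ᶜ), ∃ b ∈ closure (D'.x '' {i}ᶜ),
        xi = a * D'.x i * b) ∧ (xi = h ∨ xi = h⁻¹) := by
      obtain ⟨-, ⟨-, -, rfl⟩ | ⟨-, -, rfl⟩⟩ := g1
      · exact ⟨h, ⟨1, one_mem _, h₀, hh₀, by rw [g6]; group⟩, Or.inl rfl⟩
      · exact ⟨h⁻¹, ⟨h₀⁻¹, inv_mem hh₀, 1, one_mem _, by rw [g6]; group⟩, Or.inr rfl⟩
    have n' : NEq D'.x (update D'.x i xi) := by
      apply NEq.sub {i}ᶜ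
      · intro j hj
        exact update_of_ne hj _ _
      · intro j hj
        have hji : j = i := by simpa using hj
        subst hji
        simpa using hxi
    have near1 : Near s z σ y σ := Or.inl ⟨hyz, hσ⟩
    have near2 : Near s z σ z σ := Or.inr ⟨rfl, rfl⟩
    have cI : ∀ j ∈ ({i} : Set ι), ∃ t, ∃ u ∈ Y, ∃ u' ∈ Y, Near s z σ u t ∧ Near s z σ u' t ∧
        u'⁻¹ * update D'.x i xi j * u ∈ S t := by
      intro j hj
      rw [Set.mem_singleton_iff] at hj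
      subst hj
      rw [update_self]
      rcases hxi' with rfl | rfl
      · exact ⟨σ, y, hy, z, hz, near1, near2, by rw [← hh]; simp⟩
      · exact ⟨σ, z, hz, y, hy, near2, near1, by rw [← hh]; simp⟩
    have cI' : ∀ j ∉ ({i} : Set ι), Good S Y (update D'.x i xi j) := by
      intro j hj
      rw [Set.mem_singleton_iff] at hj
      rw [update_of_ne hj]
      obtain ⟨q1, q2, q3⟩ := ok j
      exact ⟨D'.t j, D'.u j, q1, D'.v j, q2, q3⟩
    have cg : h ∈ closure (update D'.x i xi '' {i}) := by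
      have hmem : xi ∈ closure (update D'.x i xi '' {i}) := subset_closure ⟨i, rfl, by simp⟩
      rcases hxi' with rfl | rfl
      · exact hmem
      · exact inv_mem_iff.1 hmem
    obtain ⟨Y', x', h1, h2⟩ := fold hs1 hs2 hfin hY (x := update D'.x i xi) {i} hy hz hyz hh
      hσ cI cI' cg
    exact ⟨Y', x', (n.trans n').trans h1, h2⟩

/-- Translations on sets of pairs. -/
def transR (G : Type u) [Group G] : G →* Equiv.Perm (Set (G × G)) where
  toFun c :=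
    { toFun := fun A => {p | (p.1, p.2 * c) ∈ A}
      invFun := fun A => {p | (p.1, p.2 * c⁻¹) ∈ A}
      left_inv := by
        intro A
        ext p
        simp
      right_inv := by
        intro A
        ext p
        simp }
  map_one' := by
    ext A p
    simp
  map_mul' a b := by
    ext A p
    simp [mul_assoc]

/-- The terminal case: without identifications `Y` is a point. -/
theorem terminal {ι : Type*} {S : T → Subgroup G} (hS : FP S)
    {Y : Set G} (hY : Conn S Y) {D : Dat ι T G} (hD : D.Ok S Y) (hgen : Gen D.x)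
    (himm : ∀ τ y h z, y ∈ Y → z ∈ Y → Hol (D.El S Y τ) y h z → h * y = z → y = z)
    {y₀ v : G} (hy₀ : y₀ ∈ Y) (hv : v ∈ Y) : v = y₀ := by
  classical
  let W : Type u := Set (G × G)
  let Ω : Type u := Y ⊕ W
  let R : G →* Equiv.Perm W := transR G
  have hR : ∀ c (A : Set (G × G)) p, p ∈ (R c A : Set (G × G)) ↔ (p.1, p.2 * c) ∈ A :=
    fun c A p => Iff.rfl
  let ρ : G →* Equiv.Perm Ω :=
    (Equiv.Perm.sumCongrHom Y W).comp ((1 : G →* Equiv.Perm Y).prod R)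
  have hρ : ∀ c A, ρ c (Sum.inr A) = Sum.inr (R c A) := fun c A => rfl
  let im : T → Y → W := fun τ y => {p | ∃ h, Hol (D.El S Y τ) y h p.1 ∧ h * y = p.2}
  have him : ∀ τ, Injective (im τ) := by
    intro τ y y' hyy'
    have h1 : ((y' : G), (y' : G)) ∈ im τ y' := ⟨1, Hol.refl, by simp⟩
    rw [← hyy'] at h1
    obtain ⟨h, h2, h3⟩ := h1
    exact Subtype.ext (himm τ y h y' y.2 y'.2 h2 h3)
  let f : T → Y ⊕ Y → Ω := fun τ => Sum.map id (im τ)
  have hf : ∀ τ, Injective (f τ) := fun τ => Injective.sumMap injective_id (him τ)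
  let sw : Equiv.Perm (Y ⊕ Y) := Equiv.sumComm Y Y
  let θ : T → Equiv.Perm Ω := fun τ => sw.extendDomain (Equiv.ofInjective (f τ) (hf τ))
  have hθ1 : ∀ τ y, θ τ (Sum.inl y) = Sum.inr (im τ y) := by
    intro τ y
    exact Equiv.Perm.extendDomain_apply_image sw
      (Equiv.ofInjective (f τ) (hf τ)) (Sum.inl y)
  have hθ2 : ∀ τ y, θ τ (Sum.inr (im τ y)) = Sum.inl y := by
    intro τ y
    exact Equiv.Perm.extendDomain_apply_image sw
      (Equiv.ofInjective (f τ) (hf τ)) (Sum.inr y)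
  obtain ⟨F, hF⟩ := hS.lift (Equiv.Perm Ω)
    (fun t => ((MulAut.conj (θ t)).toMonoidHom.comp ρ).comp (S t).subtype)
  have hF' : ∀ t, ∀ c ∈ S t, ∀ p, F c p = θ t (ρ c ((θ t)⁻¹ p)) := by
    intro t c hc p
    rw [hF t ⟨c, hc⟩]
    simp [MulAut.conj_apply]
  -- the basic fact
  have key : ∀ (τ : T) (c : G) (y z : Y) (k : G), c ∈ S τ → Hol (D.El S Y τ) y k z →
      k * y = z * c → F c (Sum.inl y) = Sum.inl z := by
    intro τ c y z k hc hol hk
    rw [hF' τ c hc]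
    have e1 : (θ τ)⁻¹ (Sum.inl y) = Sum.inr (im τ y) := by
      rw [Equiv.Perm.inv_eq_iff_eq, hθ2]
    rw [e1, hρ]
    have e2 : R c (im τ y) = im τ z := by
      ext ⟨w, g⟩
      rw [hR]
      constructor
      · rintro ⟨h, h1, h2⟩
        refine ⟨h * k⁻¹, (hol.symm fun _ _ _ => Dat.El.symm).trans h1, ?_⟩
        simp only at h2 ⊢
        have e3 : (z : G) = k * y * c⁻¹ := by rw [hk]; group
        rw [e3]
        have e4 : h * k⁻¹ * (k * ↑y * c⁻¹) = (h * y) * c⁻¹ := by group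
        rw [e4, h2]
        group
      · rintro ⟨h, h1, h2⟩
        refine ⟨h * k, hol.trans h1, ?_⟩
        simp only at h2 ⊢
        rw [mul_assoc, hk, ← mul_assoc, h2]
    rw [e2, hθ2]
  -- transport
  let P : Y := ⟨y₀, hy₀⟩
  have htr : ∀ w (hw : w ∈ Y), F (w⁻¹ * y₀) (Sum.inl P) = Sum.inl ⟨w, hw⟩ := by
    have hYC : Y ⊆ {w | ∃ hw : w ∈ Y, F (w⁻¹ * y₀) (Sum.inl P) = Sum.inl ⟨w, hw⟩} := by
      apply hY
      · rintro w ⟨hw, -⟩
        exact hw
      · refine ⟨y₀, hy₀, ?_⟩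
        simp [P]
      · rintro w ⟨hw, hw'⟩ w' hw₁ ⟨t, ht⟩
        refine ⟨hw₁, ?_⟩
        have e1 : w'⁻¹ * y₀ = (w'⁻¹ * w) * (w⁻¹ * y₀) := by group
        rw [e1, map_mul, Equiv.Perm.mul_apply, hw']
        apply key t _ ⟨w, hw⟩ ⟨w', hw₁⟩ 1 (mem_flip ht)
        · exact Hol.one_step ⟨hw, hw₁, Or.inl ⟨rfl, ht⟩⟩
        · simp
    intro w hw
    exact (hYC hw).2
  have hstab : ∀ i, F (y₀⁻¹ * D.x i * y₀) (Sum.inl P) = Sum.inl P := by
    intro i
    obtain ⟨h1, h2, h3⟩ := hD i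
    have e1 : y₀⁻¹ * D.x i * y₀ =
        ((D.v i)⁻¹ * y₀)⁻¹ * ((D.v i)⁻¹ * D.x i * D.u i) * ((D.u i)⁻¹ * y₀) := by group
    rw [e1, map_mul, map_mul, Equiv.Perm.mul_apply, Equiv.Perm.mul_apply, htr _ h1, map_inv,
      Equiv.Perm.inv_eq_iff_eq, htr _ h2]
    apply key (D.t i) _ ⟨_, h1⟩ ⟨_, h2⟩ (D.x i) h3
    · exact Hol.one_step ⟨h1, h2, Or.inr ⟨i, D.u i, D.v i, ⟨rfl, Or.inl ⟨rfl, rfl, rfl⟩⟩, by simp,
        by simp⟩⟩
    · simp [mul_assoc]
  let K : Subgroup G :=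
    { carrier := {g | F (y₀⁻¹ * g * y₀) (Sum.inl P) = Sum.inl P}
      one_mem' := by
        simp
      mul_mem' := by
        intro a b ha hb
        have e1 : y₀⁻¹ * (a * b) * y₀ = (y₀⁻¹ * a * y₀) * (y₀⁻¹ * b * y₀) := by group
        have ha' : F (y₀⁻¹ * a * y₀) (Sum.inl P) = Sum.inl P := ha
        have hb' : F (y₀⁻¹ * b * y₀) (Sum.inl P) = Sum.inl P := hb
        change F (y₀⁻¹ * (a * b) * y₀) (Sum.inl P) = Sum.inl P
        rw [e1, map_mul, Equiv.Perm.mul_apply, hb', ha']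
      inv_mem' := by
        intro a ha
        have ha' : F (y₀⁻¹ * a * y₀) (Sum.inl P) = Sum.inl P := ha
        change F (y₀⁻¹ * a⁻¹ * y₀) (Sum.inl P) = Sum.inl P
        have e1 : y₀⁻¹ * a⁻¹ * y₀ = (y₀⁻¹ * a * y₀)⁻¹ := by group
        rw [e1, map_inv, Equiv.Perm.inv_eq_iff_eq, ha'] }
  have hK : K = ⊤ := by
    rw [eq_top_iff, ← hgen, closure_le]
    rintro _ ⟨i, rfl⟩
    exact hstab i
  have h1 : y₀ * v⁻¹ ∈ K := hK ▸ mem_top _
  have h2 : F (y₀⁻¹ * (y₀ * v⁻¹) * y₀) (Sum.inl P) = Sum.inl P := h1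
  have e1 : y₀⁻¹ * (y₀ * v⁻¹) * y₀ = v⁻¹ * y₀ := by group
  rw [e1, htr v hv] at h2
  have h3 := Sum.inl_injective h2
  exact congrArg Subtype.val h3

/-- **Grushko-Neumann**, subgroup form. -/
theorem grushko_aux {ι : Type*} [Finite ι] {S : T → Subgroup G} (hS : FP S)
    {s : G → Option T} (hs1 : ∀ t, ∀ c ∈ S t, c ≠ 1 → s c = some t)
    (hs2 : ∀ g c t, c ∈ S t → g ≠ 1 → g * c ≠ 1 → s (g * c) = s g) (m : ℕ) :
    ∀ (Y : Set G) (x : ι → G), Y.Finite → Conn S Y → Y.Nonempty → (∀ i, Good S Y (x i)) →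
      Gen x → Y.ncard = m → ∃ x', NEq x x' ∧ ∀ i, ∃ t, x' i ∈ S t := by
  induction m using Nat.strong_induction_on with
  | _ m ih =>
    intro Y x hfin hY hne hgood hgen hm
    choose t u hu v hv hw using hgood
    let D : Dat ι T G := ⟨x, t, u, v⟩
    have hD : D.Ok S Y := fun i => ⟨hu i, hv i, hw i⟩
    by_cases himm : ∀ τ y h z, y ∈ Y → z ∈ Y → Hol (D.El S Y τ) y h z → h * y = z → y = z
    · obtain ⟨y₀, hy₀⟩ := hne
      have hall : ∀ w ∈ Y, w = y₀ := fun w hw => terminal hS hY hD hgen himm hy₀ hw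
      refine ⟨fun i => y₀⁻¹ * x i * y₀, ?_, fun i => ⟨t i, ?_⟩⟩
      · have h1 : y₀⁻¹ ∈ closure (Set.range x) := by
          have : closure (Set.range x) = ⊤ := hgen
          rw [this]
          exact mem_top _
        have := NEq.conj h1
        simpa using this
      · have := hw i
        rwa [hall _ (hu i), hall _ (hv i)] at this
    · push Not at himm
      obtain ⟨τ, y, h, z, hy, hz, hol, hh, hyz⟩ := himm
      obtain ⟨Y', x', n, f', c', ne', lt', g'⟩ :=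
        exists_smaller hS.gen hs1 hs2 hfin hY hD hy hz hol hh hyz
      obtain ⟨x'', n'', h''⟩ := ih Y'.ncard (hm ▸ lt') Y' x' f' c' ne' g' (n.gen hgen) rfl
      exact ⟨x'', n.trans n'', h''⟩

/-- **Grushko-Neumann**, subgroup form. -/
theorem grushko_sub {ι : Type*} [Finite ι] {S : T → Subgroup G} (hS : FP S) (t₀ : T)
    {x : ι → G} (hx : Gen x) : ∃ x', NEq x x' ∧ ∀ i, ∃ t, x' i ∈ S t := by
  obtain ⟨s, hs1, hs2⟩ := exists_side hS
  obtain ⟨Y, f, c, o, m⟩ := exists_conn_family hS.gen x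
  refine grushko_aux hS hs1 hs2 Y.ncard Y x f c ⟨1, o⟩ (fun i => ?_) hx rfl
  exact ⟨t₀, 1, o, x i, m i, by simp⟩

end Pool.MP_e4938c_al
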