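import Pool.Agent.Lib.MP_e4938c_al.Grushko
import Pool.Agent.Lib.MP_e4938c_al.Chain

/-!
# Free products (MP_e4938c)
-/

namespace Pool.MP_e4938c_al

open Subgroup Function

universe u

theorem NEq.perm {α : Type*} {G : Type*} [Group G] (σ : α ≃ α) (x : α → G) :
    NEq x (x ∘ σ) := ⟨FreeGroup.freeGroupCongr σ, fun a => by simp⟩

/-- Nielsen equivalence on the first and the third part. -/
theorem NEq.elim_fst {α β κ : Type*} {G : Type*} [Group G] {a a' : α → G} (b : β → G)
    {c c' : κ → G} (h : NEq (Sum.elim a c) (Sum.elim a' c')) :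
    NEq (Sum.elim (Sum.elim a b) c) (Sum.elim (Sum.elim a' b) c') := by
  let E : (α ⊕ β) ⊕ κ ≃ (α ⊕ κ) ⊕ β :=
    { toFun := Sum.elim (Sum.elim (fun a => Sum.inl (Sum.inl a)) Sum.inr)
        (fun k => Sum.inl (Sum.inr k))
      invFun := Sum.elim (Sum.elim (fun a => Sum.inl (Sum.inl a)) Sum.inr)
        (fun k => Sum.inl (Sum.inr k))
      left_inv := by rintro ((a | b) | k) <;> rfl
      right_inv := by rintro ((a | k) | b) <;> rfl }
  have h1 := (h.elim_left b).reindex E.symm
  have e : ∀ (z : α → G) (c : κ → G), Sum.elim (Sum.elim z c) b ∘ E.symm.symm =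
      Sum.elim (Sum.elim z b) c := by
    intro z c
    funext j
    rcases j with (j | j) | j <;> rfl
  rwa [e, e] at h1

/-- Nielsen equivalence on the second and the third part. -/
theorem NEq.elim_snd {α β κ : Type*} {G : Type*} [Group G] (a : α → G) {b b' : β → G}
    {c c' : κ → G} (h : NEq (Sum.elim b c) (Sum.elim b' c')) :
    NEq (Sum.elim (Sum.elim a b) c) (Sum.elim (Sum.elim a b') c') := by
  have h1 := (h.elim_fst a).reindex (Equiv.sumCongr (Equiv.sumComm β α) (Equiv.refl κ))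
  have e : ∀ (z : β → G) (c : κ → G), Sum.elim (Sum.elim z a) c ∘
      (Equiv.sumCongr (Equiv.sumComm β α) (Equiv.refl κ)).symm =
      Sum.elim (Sum.elim a z) c := by
    intro z c
    funext j
    rcases j with (j | j) | j <;> rfl
  rwa [e, e] at h1

theorem Stable.mono_left {G : Type*} [Group G] {j k n : ℕ} (h : Stable j n G) (hjk : j ≤ k) :
    Stable k n G := by
  obtain ⟨r, rfl⟩ := Nat.exists_eq_add_of_le hjk
  intro x m hx hm
  have h1 := (h x m hx hm).elim_left (fun _ : Fin r => (1 : G))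
  have h2 := h1.reindex ((Equiv.sumAssoc (Fin n) (Fin j) (Fin r)).trans
    (Equiv.sumCongr (Equiv.refl (Fin n)) finSumFinEquiv))
  have e : ∀ z : Fin n → G, Sum.elim (Sum.elim z (fun _ : Fin j => (1 : G)))
      (fun _ : Fin r => (1 : G)) ∘ ((Equiv.sumAssoc (Fin n) (Fin j) (Fin r)).trans
      (Equiv.sumCongr (Equiv.refl (Fin n)) finSumFinEquiv)).symm =
      Sum.elim z (fun _ : Fin (j + r) => (1 : G)) := by
    intro z
    funext i
    obtain ⟨i', rfl⟩ := ((Equiv.sumAssoc (Fin n) (Fin j) (Fin r)).trans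
      (Equiv.sumCongr (Equiv.refl (Fin n)) finSumFinEquiv)).surjective i
    rw [Function.comp_apply, Equiv.symm_apply_apply]
    rcases i' with (i' | i') | i' <;> rfl
  rwa [e, e] at h2

/-- The normal form of a generating family of a group all of whose generating families of each
length are stably equivalent. -/
theorem exists_pad {A : Type*} [Group A] {k dA p : ℕ} (hU : Stable k p A) {z : Fin dA → A}
    (hz : Gen z) (hp : dA ≤ p) {a : Fin p → A} (ha : Gen a) :
    ∃ (r : ℕ) (E : Fin dA ⊕ Fin r ≃ Fin p),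
      NEq (Sum.elim a (fun _ : Fin k => (1 : A)))
        (Sum.elim (Sum.elim z (fun _ => (1 : A)) ∘ E.symm) (fun _ : Fin k => (1 : A))) := by
  obtain ⟨r, rfl⟩ := Nat.exists_eq_add_of_le hp
  refine ⟨r, finSumFinEquiv, hU _ _ ?_ ha⟩
  have h1 : Gen (Sum.elim z (fun _ : Fin r => (1 : A))) := hz.elim _
  exact h1.comp_equiv finSumFinEquiv.symm

theorem genRank_le {G : Type*} [Group G] {n : ℕ} {x : Fin n → G} (hx : Gen x) :
    genRank G ≤ n := Nat.sInf_le ⟨x, hx⟩

/-- Stability passes to free products. -/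
theorem stable_coprod_aux {A B : Type u} [Group A] [Group B] {k n : ℕ} [Group.FG A] [Group.FG B]
    (hA : ∀ n, Stable k n A) (hB : ∀ n, Stable k n B) {z : Fin (genRank A) → A}
    (hz : Gen z) {w : Fin (genRank B) → B} (hw : Gen w) {x : Fin n → Monoid.Coprod A B}
    (hx : Gen x) : ∃ (r : ℕ) (E : (Fin (genRank A) ⊕ Fin (genRank B)) ⊕ Fin r ≃ Fin n),
      NEq (Sum.elim x (fun _ : Fin k => (1 : Monoid.Coprod A B)))
        (Sum.elim (Sum.elim (Sum.elim ((Monoid.Coprod.inl : A →* Monoid.Coprod A B) ∘ z)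
          ((Monoid.Coprod.inr : B →* Monoid.Coprod A B) ∘ w)) (fun _ => 1) ∘ E.symm)
          (fun _ : Fin k => (1 : Monoid.Coprod A B))) := by
  obtain ⟨p, q, e, a, b, ha, hb, hab⟩ := grushko hx
  obtain ⟨r₁, E₁, h₁⟩ := exists_pad (hA p) hz (genRank_le ha) ha
  obtain ⟨r₂, E₂, h₂⟩ := exists_pad (hB q) hw (genRank_le hb) hb
  let inl : A →* Monoid.Coprod A B := Monoid.Coprod.inl
  let inr : B →* Monoid.Coprod A B := Monoid.Coprod.inr
  have h₁' := h₁.map inl
  have h₂' := h₂.map inr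
  rw [comp_elim_one, comp_elim_one] at h₁' h₂'
  let F : (Fin (genRank A) ⊕ Fin (genRank B)) ⊕ Fin (r₁ + r₂) ≃ Fin n :=
    ((Equiv.sumCongr (Equiv.refl _) finSumFinEquiv.symm).trans
      (Equiv.sumSumSumComm _ _ _ _)).trans ((Equiv.sumCongr E₁ E₂).trans e)
  refine ⟨r₁ + r₂, F, ?_⟩
  -- the chain
  have s1 : NEq (Sum.elim (x ∘ e) (fun _ : Fin k => (1 : Monoid.Coprod A B)))
      (Sum.elim (Sum.elim (inl ∘ Sum.elim z (fun _ => 1) ∘ E₁.symm)
        (inr ∘ Sum.elim w (fun _ => 1) ∘ E₂.symm)) (fun _ => 1)) :=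
    ((hab.elim_left _).trans (h₁'.elim_fst _)).trans (h₂'.elim_snd _)
  have s2 := s1.reindex (Equiv.sumCongr e (Equiv.refl (Fin k)))
  have e1 : Sum.elim (x ∘ e) (fun _ : Fin k => (1 : Monoid.Coprod A B)) ∘
      (Equiv.sumCongr e (Equiv.refl (Fin k))).symm = Sum.elim x (fun _ => 1) := by
    funext j
    rcases j with j | j <;> simp
  rw [e1] at s2
  refine s2.trans (NEq.of_eq ?_)
  funext j
  rcases j with j | j
  · obtain ⟨i, rfl⟩ := F.surjective j
    have hj : ∀ i, F i = e ((Equiv.sumCongr E₁ E₂) ((Equiv.sumSumSumComm _ _ _ _)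
      ((Equiv.sumCongr (Equiv.refl _) finSumFinEquiv.symm) i))) := fun i => rfl
    simp only [Function.comp_apply, Equiv.sumCongr_symm, Equiv.sumCongr_apply, Sum.map_inl,
      Sum.elim_inl, Equiv.symm_apply_apply]
    rw [hj, Equiv.symm_apply_apply]
    rcases i with (i | i) | i
    · simp [inl]
    · simp [inr]
    · obtain ⟨i', rfl⟩ := finSumFinEquiv.surjective i
      rcases i' with i' | i'
      · simp
      · simp
  · simp

theorem Stable.coprod {A B : Type u} [Group A] [Group B] [Group.FG A] [Group.FG B] {k : ℕ}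
    (hA : ∀ n, Stable k n A) (hB : ∀ n, Stable k n B) (n : ℕ) :
    Stable k n (Monoid.Coprod A B) := by
  intro x m hx hm
  obtain ⟨z, hz⟩ := exists_basis A
  obtain ⟨w, hw⟩ := exists_basis B
  obtain ⟨r, E, h⟩ := stable_coprod_aux hA hB hz hw hx
  obtain ⟨r', E', h'⟩ := stable_coprod_aux hA hB hz hw hm
  have hr : r = r' := by
    have h1 := Fintype.card_congr E
    have h2 := Fintype.card_congr E'
    simp only [Fintype.card_sum, Fintype.card_fin] at h1 h2
    omega
  subst hr
  refine h'.trans (NEq.trans ?_ h.symm)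
  apply NEq.elim_left
  have h3 := NEq.perm (E'.symm.trans E).symm ((Sum.elim (Sum.elim
    ((Monoid.Coprod.inl : A →* Monoid.Coprod A B) ∘ z)
    ((Monoid.Coprod.inr : B →* Monoid.Coprod A B) ∘ w)) (fun _ : Fin r => 1)) ∘ E'.symm)
  refine h3.trans (NEq.of_eq ?_)
  funext j
  simp

end Pool.MP_e4938c_al
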