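import Pool.Agent.Lib.MP_e4938c_al.Red

/-!
# The relative theorem, final form (MP_e4938c)
-/

namespace Pool.MP_e4938c_al

open Subgroup Function

universe u

theorem RMove.map {α : Type*} {G H : Type*} [Group G] [Group H] {C : Subgroup G} (f : G →* H)
    {v w : α → G} (h : RMove C v w) : RMove (C.map f) (f ∘ v) (f ∘ w) := by
  obtain ⟨S, h1, h2⟩ := h
  refine ⟨S, fun a ha => by simp [h1 a ha], fun a ha => ?_⟩
  obtain ⟨g, hg, h, hh, e⟩ := h2 a ha
  have hmap : closure ((f ∘ v) '' Sᶜ) ⊔ C.map f = (closure (v '' Sᶜ) ⊔ C).map f := by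
    rw [Subgroup.map_sup, MonoidHom.map_closure, Set.image_comp]
  rw [hmap]
  exact ⟨f g, ⟨g, hg, rfl⟩, f h, ⟨h, hh, rfl⟩, by simp [e]⟩

theorem RConn.map {α : Type*} {G H : Type*} [Group G] [Group H] {C : Subgroup G} (f : G →* H)
    {v w : α → G} (h : RConn C v w) : RConn (C.map f) (f ∘ v) (f ∘ w) := by
  induction h with
  | refl => exact RConn.refl _
  | tail _ h ih =>
    refine ih.trans ?_
    rcases h with h | h
    · exact RConn.of_NEq (h.map f)
    · exact RConn.of_move (h.map f)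

/-- Connectedness relative to the subgroup generated by `c` gives stability. -/
theorem Stable.of_rconn {G : Type u} [Group G] {k d : ℕ} (c : Fin k → G)
    (h : ∀ z m : Fin d → G, Gen z → Gen m → RConn (closure (Set.range c)) m z) :
    Stable k d G := by
  intro z m hz hm
  exact ((NEq.slots_free hm _ c).trans (h z m hz hm).toNEq).trans (NEq.slots_free hz c _)

theorem RConn.of_reindex {α β : Type*} {G : Type*} [Group G] {C : Subgroup G} (e : α ≃ β)
    {v w : α → G} (h : RConn C v w) : RConn C (v ∘ e.symm) (w ∘ e.symm) := by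
  induction h with
  | refl => exact RConn.refl _
  | tail _ h ih =>
    refine ih.trans ?_
    rcases h with h | h
    · exact RConn.of_NEq (h.reindex e)
    · obtain ⟨S, h1, h2⟩ := h
      rename_i u w _
      refine RConn.of_move ⟨e.symm ⁻¹' S, fun a ha => h1 _ ha, fun a ha => ?_⟩
      have himg : (u ∘ e.symm) '' (e.symm ⁻¹' S)ᶜ = u '' Sᶜ := by
        rw [Set.image_comp, ← Set.preimage_compl, Set.image_preimage_eq _ e.symm.surjective]
      rw [himg]
      exact h2 _ ha

/-- **The relative theorem.** -/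
theorem Stable.of_relative {G : Type u} [Group G] {k e d : ℕ} (hk : 1 ≤ k) (c : Fin k → G)
    (x : Fin e → G) (B A N : Subgroup G) [hBn : B.Normal] [hAn : A.Normal] [hNn : N.Normal]
    (hAN : A ≤ N)
    (hB : Group.IsSolvable B ∧ WellFoundedGT (Subgroup B) ∧ (Finite B ∨ 2 ≤ k))
    (hA : ∀ K : Subgroup G, closure (Set.range c) ⊔ B ≤ K → K ⊔ A = ⊤ → K = ⊤)
    (hNA : Group.IsSolvable (N.map (QuotientGroup.mk' A)) ∧
      WellFoundedGT (Subgroup (N.map (QuotientGroup.mk' A))) ∧
      (Finite (N.map (QuotientGroup.mk' A)) ∨ e + 2 ≤ d))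
    (hN : Group.IsNilpotent (G ⧸ N) ∨ (∀ K₁ K₂ : Subgroup G,
      (closure (Set.range c) ⊔ B) ⊔ N ≤ K₁ → (closure (Set.range c) ⊔ B) ⊔ N ≤ K₂ →
      K₁ ⊔ K₂ = ⊤ → K₁ = ⊤ ∨ K₂ = ⊤) ∨
      (B ≤ N ∧ closure (Set.range x) ⊔ N = ⊤ ∧ RedundantClass (G ⧸ N)))
    (hx : closure (Set.range x) ⊔ (closure (Set.range c) ⊔ B) = ⊤) (hed : e < d) :
    Stable k d G := by
  obtain ⟨n, rfl⟩ : ∃ n, d = e + (n + 1) := ⟨d - e - 1, by omega⟩
  obtain ⟨hBsol, hBmax, hBfin⟩ := hB
  refine Stable.of_solvable hk B hBsol hBmax hBfin ?_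
  let π := QuotientGroup.mk' B
  have hπ : Surjective π := QuotientGroup.mk'_surjective B
  apply Stable.of_rconn (π ∘ c)
  have hC : (closure (Set.range c) ⊔ B).map π = closure (Set.range (π ∘ c)) := by
    have hB0 : B.map π = ⊥ := by
      rw [Subgroup.map_eq_bot_iff, QuotientGroup.ker_mk']
    rw [Subgroup.map_sup, MonoidHom.map_closure, ← Set.range_comp, hB0, sup_bot_eq]
  have hfin : Finite (N.map (QuotientGroup.mk' A)) ∨ 1 ≤ n := by
    rcases hNA.2.2 with h | h
    · exact Or.inl h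
    · exact Or.inr (by omega)
  let E : Fin e ⊕ Fin (n + 1) ≃ Fin (e + (n + 1)) := finSumFinEquiv
  obtain ⟨C, hCd⟩ : ∃ C, C = closure (Set.range c) ⊔ B := ⟨_, rfl⟩
  rw [← hCd] at hA hx hC
  -- in `G ⧸ A`
  let ρ := QuotientGroup.mk' A
  have hρ : Surjective ρ := QuotientGroup.mk'_surjective A
  have hNm : (N.map ρ).Normal := hNn.map ρ hρ
  have htop : ∀ {α : Type} (z : α → G) (D : Subgroup G), closure (Set.range z) ⊔ D = ⊤ →
      closure (Set.range (ρ ∘ z)) ⊔ D.map ρ = ⊤ := by
    intro α z D hz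
    rw [Set.range_comp, ← MonoidHom.map_closure, ← Subgroup.map_sup, hz,
      Subgroup.map_top_of_surjective _ hρ]
  have e₃ := (QuotientGroup.quotientQuotientEquivQuotient A N hAN).symm
  have hbase : RPred (fun u : Fin e ⊕ Fin (n + 1) → G ⧸ A =>
      B ≤ N → closure (Set.range u) ⊔ N.map ρ = ⊤) (C.map ρ) (ρ ∘ x) (N.map ρ) := by
    rcases hN with hnil | hu | ⟨hBN, hxN, hR⟩
    · exact rbase_nilpotent (N.map ρ) (Group.nilpotent_of_mulEquiv e₃) (htop x C hx) _
    · refine rbase_unique (N.map ρ) ?_ (htop x C hx) _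
      intro K₁ K₂ h1 h2 h3
      have hN : ∀ K : Subgroup (G ⧸ A), C.map ρ ⊔ N.map ρ ≤ K → C ⊔ N ≤ K.comap ρ := by
        intro K hK
        rw [← Subgroup.map_sup] at hK
        exact Subgroup.map_le_iff_le_comap.mp hK
      have h4 : K₁.comap ρ ⊔ K₂.comap ρ = ⊤ := by
        rw [comap_sup_eq _ _ _ hρ, h3, comap_top]
      rw [← hCd] at hu
      rcases hu _ _ (hN K₁ h1) (hN K₂ h2) h4 with h5 | h5
      · left
        rw [← map_comap_eq_self_of_surjective hρ K₁, h5,
          Subgroup.map_top_of_surjective _ hρ]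
      · right
        rw [← map_comap_eq_self_of_surjective hρ K₂, h5,
          Subgroup.map_top_of_surjective _ hρ]
    · intro u hP hu
      exact rbase_redundant (N.map ρ) (RedundantClass.equiv _ _ e₃ hR) (htop x N hxN) u
        (hP hBN) hu
  -- every generating family is connected with `(x, 1)`
  have key : ∀ m : Fin (e + (n + 1)) → G ⧸ B, Gen m →
      RConn (closure (Set.range (π ∘ c))) m
        ((π ∘ Sum.elim x (fun _ : Fin (n + 1) => (1 : G))) ∘ E.symm) := by
    intro m hm
    have hlift : ∀ j, ∃ g, π g = m j := fun j => hπ (m j)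
    choose m' hm' using hlift
    have hm'e : π ∘ m' = m := funext hm'
    have hvB : closure (Set.range (m' ∘ E)) ⊔ B = ⊤ := by
      have h2 : (closure (Set.range (m' ∘ E))).map π = ⊤ := by
        rw [MonoidHom.map_closure, ← Set.range_comp, ← Function.comp_assoc, hm'e,
          E.surjective.range_comp]
        exact hm
      have h3 := congrArg (Subgroup.comap π) h2
      rwa [comap_map_eq, QuotientGroup.ker_mk', comap_top] at h3
    have hv : closure (Set.range (m' ∘ E)) ⊔ C = ⊤ := by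
      rw [eq_top_iff, ← hvB, hCd]
      exact sup_le_sup_left le_sup_right _
    have hvN : B ≤ N → closure (Set.range (ρ ∘ m' ∘ E)) ⊔ N.map ρ = ⊤ := by
      intro hBN
      apply htop
      rw [eq_top_iff, ← hvB]
      exact sup_le_sup_left hBN _
    have h0 := relative_of_base (N.map ρ) hNA.1 hNA.2.1 (htop x C hx) hfin hbase
      (ρ ∘ m' ∘ E) hvN (htop _ C hv)
    have h1 := relative_last A hA (m' ∘ E) hv h0
    have h2 := (h1.map π).of_reindex E
    rw [hC] at h2
    have e1 : (π ∘ m' ∘ E) ∘ E.symm = m := by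
      funext j
      simp [← hm'e]
    rw [e1] at h2
    exact h2
  intro z m hz hm
  exact (key m hm).trans (key z hz).symm

end Pool.MP_e4938c_al
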