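import Pool.Agent.Lib.MP_e4938c_al.FreeProd
import Pool.Agent.Lib.MP_e4938c_al.Rel3

/-!
# Quotients that are free products (MP_e4938c)
-/

namespace Pool.MP_e4938c_al

open Subgroup Function

universe u

/-- The smallest class of groups that contains the groups with `j` generators, the nilpotent
and the finite soluble groups (if `j ≥ 1`), and the soluble groups with the maximal condition on
subgroups (if `j ≥ 2`), and is closed under free products of finitely generated groups and
isomorphic copies. -/
inductive FreeProductClass (j : ℕ) : ∀ (Q : Type u) [Group Q], Prop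
  | gen (Q : Type u) [Group Q] (g : Fin j → Q) (hg : Gen g) : FreeProductClass j Q
  | nilpotent (Q : Type u) [Group Q] (hj : 1 ≤ j) (h : Group.IsNilpotent Q) :
      FreeProductClass j Q
  | soluble (Q : Type u) [Group Q] (hj : 1 ≤ j) (h : Group.IsSolvable Q)
      (h' : WellFoundedGT (Subgroup Q)) (h'' : Finite Q ∨ 2 ≤ j) : FreeProductClass j Q
  | coprod (A B : Type u) [Group A] [Group B] (hA : Group.FG A) (hB : Group.FG B)
      (h : FreeProductClass j A) (h' : FreeProductClass j B) :
      FreeProductClass j (Monoid.Coprod A B)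
  | equiv (A B : Type u) [Group A] [Group B] (e : A ≃* B) (h : FreeProductClass j A) :
      FreeProductClass j B

theorem FreeProductClass.stable {j : ℕ} {Q : Type u} [Group Q] (h : FreeProductClass j Q) :
    ∀ n, Stable j n Q := by
  induction h with
  | gen Q g hg => exact fun n => Stable.of_gen hg
  | nilpotent Q hj h => exact fun n => Stable.of_nilpotent hj
  | soluble Q hj h h' h'' =>
    intro n
    have hs : Group.IsSolvable (⊤ : Subgroup Q) :=
      Group.isSolvable_of_surjective (f := (Subgroup.topEquiv (G := Q)).symm.toMonoidHom)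
        Subgroup.topEquiv.symm.surjective
    have hw : WellFoundedGT (Subgroup (⊤ : Subgroup Q)) := by
      have e : Subgroup (⊤ : Subgroup Q) ≃o Subgroup Q := (Subgroup.topEquiv (G := Q)).mapSubgroup
      exact e.strictMono.wellFoundedGT
    have hf : Finite (⊤ : Subgroup Q) ∨ 2 ≤ j := by
      rcases h'' with h'' | h''
      · left
        exact Finite.of_equiv Q (Subgroup.topEquiv (G := Q)).symm.toEquiv
      · exact Or.inr h''
    refine Stable.of_solvable hj ⊤ hs hw hf ?_
    have : Subsingleton (Q ⧸ (⊤ : Subgroup Q)) := QuotientGroup.subsingleton_quotient_top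
    exact Stable.of_comm hj (fun a b => Subsingleton.elim _ _)
  | coprod A B hA hB _ _ ih ih' => exact Stable.coprod ih ih'
  | equiv A B e _ ih => exact fun n => (ih n).of_equiv e

theorem RConn.elim_right {α β : Type*} {G : Type*} [Group G] {C : Subgroup G} (c : α → G)
    {v w : β → G} (h : NEq v w) : RConn C (Sum.elim c v) (Sum.elim c w) := by
  have h1 := (h.elim_left c).reindex (Equiv.sumComm β α)
  have e : ∀ z : β → G, Sum.elim z c ∘ (Equiv.sumComm β α).symm = Sum.elim c z := by
    intro z
    funext j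
    rcases j with j | j <;> rfl
  rw [e, e] at h1
  exact RConn.of_NEq h1

/-- Normal form relative to a subgroup that contains the first factor. -/
theorem rconn_coprod_aux {A B : Type u} [Group A] [Group B] {n : ℕ} [Group.FG A] [Group.FG B]
    (hB : ∀ n, Stable (genRank A) n B) {w : Fin (genRank B) → B} (hw : Gen w)
    {C : Subgroup (Monoid.Coprod A B)}
    (hC : (Monoid.Coprod.inl : A →* Monoid.Coprod A B).range ≤ C)
    {x : Fin n → Monoid.Coprod A B} (hx : Gen x) :
    ∃ (r : ℕ) (E : Fin r ⊕ Fin (genRank B) ≃ Fin n),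
      RConn C x (Sum.elim (fun _ => 1) ((Monoid.Coprod.inr : B →* Monoid.Coprod A B) ∘ w) ∘
        E.symm) := by
  obtain ⟨p, q, e, a, b, ha, hb, hab⟩ := grushko hx
  obtain ⟨r₂, E₂, h₂⟩ := exists_pad ((hB q).mono_left (genRank_le ha)) hw (genRank_le hb) hb
  let inl : A →* Monoid.Coprod A B := Monoid.Coprod.inl
  let inr : B →* Monoid.Coprod A B := Monoid.Coprod.inr
  have h₂' := h₂.map inr
  rw [comp_elim_one, comp_elim_one] at h₂'
  have s1 : RConn C (x ∘ e) (Sum.elim (inl ∘ a) (inr ∘ b)) := RConn.of_NEq hab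
  have s2 : RConn C (Sum.elim (inl ∘ a) (inr ∘ b)) (Sum.elim (fun _ : Fin p => 1) (inr ∘ b)) := by
    apply RConn.slots'
    intro i
    exact ⟨1, one_mem _, (inl (a i))⁻¹, mem_sup_right (inv_mem (hC ⟨a i, rfl⟩)), by simp⟩
  have s3 : RConn C (Sum.elim (fun _ : Fin p => 1) (inr ∘ b))
      (Sum.elim (fun _ : Fin p => 1) (inr ∘ Sum.elim w (fun _ => (1 : B)) ∘ E₂.symm)) := by
    have h3 := h₂'.reindex (Equiv.sumComm (Fin q) (Fin p))
    have e1 : ∀ z : Fin q → Monoid.Coprod A B, Sum.elim z (fun _ : Fin p => 1) ∘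
        (Equiv.sumComm (Fin q) (Fin p)).symm = Sum.elim (fun _ => 1) z := by
      intro z
      funext j
      rcases j with j | j <;> rfl
    rw [e1, e1] at h3
    exact RConn.of_NEq h3
  let F : Fin (p + r₂) ⊕ Fin (genRank B) ≃ Fin n :=
    (((Equiv.sumCongr finSumFinEquiv.symm (Equiv.refl _)).trans (Equiv.sumAssoc _ _ _)).trans
      (Equiv.sumCongr (Equiv.refl _) ((Equiv.sumComm _ _).trans E₂))).trans e
  refine ⟨p + r₂, F, ?_⟩
  have s4 := ((s1.trans s2).trans s3).of_reindex e
  have e1 : (x ∘ e) ∘ e.symm = x := by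
    funext j
    simp
  rw [e1] at s4
  refine s4.trans (RConn.of_eq ?_)
  funext j
  obtain ⟨i, rfl⟩ := F.surjective j
  have hj : ∀ i, F i = e ((Equiv.sumCongr (Equiv.refl _) ((Equiv.sumComm _ _).trans E₂))
    ((Equiv.sumAssoc _ _ _) ((Equiv.sumCongr finSumFinEquiv.symm (Equiv.refl _)) i))) :=
    fun i => rfl
  simp only [Function.comp_apply, Equiv.symm_apply_apply]
  rw [hj, Equiv.symm_apply_apply]
  rcases i with i | i
  · obtain ⟨i', rfl⟩ := finSumFinEquiv.surjective i
    rcases i' with i' | i'
    · simp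
    · simp
  · simp [inr]

/-- Relative to a subgroup that contains the first factor, all generating families of a free
product of the same length are connected. -/
theorem rconn_coprod {A B : Type u} [Group A] [Group B] {n : ℕ} [Group.FG A] [Group.FG B]
    (hB : ∀ n, Stable (genRank A) n B) {C : Subgroup (Monoid.Coprod A B)}
    (hC : (Monoid.Coprod.inl : A →* Monoid.Coprod A B).range ≤ C)
    {x m : Fin n → Monoid.Coprod A B} (hx : Gen x) (hm : Gen m) : RConn C m x := by
  obtain ⟨w, hw⟩ := exists_basis B
  obtain ⟨r, E, h⟩ := rconn_coprod_aux hB hw hC hx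
  obtain ⟨r', E', h'⟩ := rconn_coprod_aux hB hw hC hm
  have hr : r = r' := by
    have h1 := Fintype.card_congr E
    have h2 := Fintype.card_congr E'
    simp only [Fintype.card_sum, Fintype.card_fin] at h1 h2
    omega
  subst hr
  refine h'.trans (RConn.trans ?_ h.symm)
  apply RConn.of_NEq
  have h3 := NEq.perm (E'.symm.trans E).symm ((Sum.elim (fun _ : Fin r => 1)
    ((Monoid.Coprod.inr : B →* Monoid.Coprod A B) ∘ w)) ∘ E'.symm)
  refine h3.trans (NEq.of_eq ?_)
  funext j
  simp

/-- Connectedness in a quotient by a normal subgroup contained in `C`. -/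
theorem RConn.of_quotient {G : Type*} [Group G] {H : Type*} [Group H] {α : Type*}
    {C : Subgroup G} (f : G →* H) (hf : f.ker ≤ C) {v w : α → G}
    (h : RConn (C.map f) (f ∘ v) (f ∘ w)) : RConn C v w := by
  obtain ⟨v', hv', he⟩ := h.exists_lift f
  refine hv'.trans (RConn.of_move ⟨Set.univ, fun a ha => absurd (Set.mem_univ a) ha,
    fun a _ => ⟨1, one_mem _, (v' a)⁻¹ * w a, mem_sup_right (hf ?_), by group⟩⟩)
  have h1 : f (v' a) = f (w a) := congrFun he a
  rw [MonoidHom.mem_ker, map_mul, map_inv, h1, inv_mul_cancel]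

/-- Groups with a quotient that is a free product. -/
theorem Stable.of_coprod_quotient {G : Type u} [Group G] {A B : Type u} [Group A] [Group B]
    [Group.FG A] [Group.FG B] (hB : ∀ n, Stable (genRank A) n B)
    (f : G →* Monoid.Coprod A B) (hf : Surjective f) {k d : ℕ} (c : Fin k → G)
    (hker : f.ker ≤ closure (Set.range c))
    (hc : ∀ a : A, ∃ g ∈ closure (Set.range c), f g = Monoid.Coprod.inl a) : Stable k d G := by
  apply Stable.of_rconn c
  intro z m hz hm
  apply RConn.of_quotient f hker
  refine rconn_coprod hB ?_ (hz.map f hf) (hm.map f hf)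
  rintro _ ⟨a, rfl⟩
  obtain ⟨g, hg, hga⟩ := hc a
  exact ⟨g, hg, hga⟩

/-- The rank of a free product. -/
theorem genRank_coprod {G : Type u} [Group G] (hfg : Group.FG G) {A B : Type u} [Group A]
    [Group B] (f : G →* Monoid.Coprod A B) (hf : Surjective f) :
    genRank A + genRank B ≤ genRank G := by
  obtain ⟨x, hx⟩ := exists_basis G
  obtain ⟨p, q, e, a, b, ha, hb, _⟩ := grushko (hx.map f hf)
  have h1 := Fintype.card_congr e
  simp only [Fintype.card_sum, Fintype.card_fin] at h1
  have h2 := genRank_le ha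
  have h3 := genRank_le hb
  omega

end Pool.MP_e4938c_al
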