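import Pool.Agent.Lib.MP_e4938c_al.FreeProd2

/-!
# Quotients that are free products, final form (MP_e4938c)
-/

namespace Pool.MP_e4938c_al

open Subgroup Function

universe u

/-- Groups with a quotient that is a free product. -/
theorem Stable.of_coprod_quotient' {G : Type u} [Group G] {P Q : Type u} [Group P] [Group Q]
    [Nontrivial P] (hP : Group.FG P) (hQ : Group.FG Q)
    (hstab : ∀ n, Stable (genRank P) n Q)
    (f : G →* Monoid.Coprod P Q) (hf : Surjective f) {k d : ℕ} (c : Fin k → G)
    (B : Subgroup G) [hBn : B.Normal] (hBf : B ≤ f.ker)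
    (hB : Group.IsSolvable B ∧ WellFoundedGT (Subgroup B) ∧ (Finite B ∨ 2 ≤ k))
    (hker : ∀ K : Subgroup G, closure (Set.range c) ⊔ B ≤ K → K ⊔ f.ker = ⊤ → K = ⊤)
    (hc : ∀ a : P, ∃ g ∈ closure (Set.range c), f g = Monoid.Coprod.inl a) :
    Stable k d G := by
  have hk : 1 ≤ k := by
    rcases Nat.eq_zero_or_pos k with h0 | h0
    · exfalso
      subst h0
      obtain ⟨a, ha⟩ := exists_ne (1 : P)
      obtain ⟨g, hg, hga⟩ := hc a
      rw [Set.range_eq_empty, Subgroup.closure_empty, mem_bot] at hg
      rw [hg, map_one] at hga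
      have h1 := congrArg (Monoid.Coprod.fst : Monoid.Coprod P Q →* P) hga
      rw [map_one, Monoid.Coprod.fst_apply_inl] at h1
      exact ha h1.symm
    · exact h0
  obtain ⟨hBsol, hBmax, hBfin⟩ := hB
  refine Stable.of_solvable hk B hBsol hBmax hBfin ?_
  let π := QuotientGroup.mk' B
  have hπ : Surjective π := QuotientGroup.mk'_surjective B
  apply Stable.of_rconn (π ∘ c)
  obtain ⟨C, hCd⟩ : ∃ C, C = closure (Set.range c) ⊔ B := ⟨_, rfl⟩
  rw [← hCd] at hker
  have hC : C.map π = closure (Set.range (π ∘ c)) := by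
    have hB0 : B.map π = ⊥ := by
      rw [Subgroup.map_eq_bot_iff, QuotientGroup.ker_mk']
    rw [hCd, Subgroup.map_sup, MonoidHom.map_closure, ← Set.range_comp, hB0, sup_bot_eq]
  have hCP : (Monoid.Coprod.inl : P →* Monoid.Coprod P Q).range ≤ C.map f := by
    rintro _ ⟨a, rfl⟩
    obtain ⟨g, hg, hga⟩ := hc a
    exact ⟨g, hCd ▸ mem_sup_left hg, hga⟩
  obtain ⟨w, hw⟩ := exists_basis Q
  -- lifts of the basis of `Q`
  have hwl : ∀ j, ∃ g, f g = (Monoid.Coprod.inr : Q →* Monoid.Coprod P Q) (w j) :=
    fun j => hf _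
  choose w' hw' using hwl
  have hP0 : genRank P ≠ 0 := by
    intro h0
    obtain ⟨z, hz⟩ := exists_basis P
    have : IsEmpty (Fin (genRank P)) := by rw [h0]; infer_instance
    have h1 : closure (Set.range z) = ⊥ := by
      rw [Set.range_eq_empty, Subgroup.closure_empty]
    have h2 : (⊥ : Subgroup P) = ⊤ := h1 ▸ hz
    exact bot_ne_top h2
  -- every generating family is connected with a permutation of `(w', 1)`
  have key : ∀ m : Fin d → G ⧸ B, Gen m →
      ∃ (r : ℕ) (E : Fin (genRank Q) ⊕ Fin r ≃ Fin d),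
      RConn (closure (Set.range (π ∘ c))) m
        ((π ∘ Sum.elim w' (fun _ : Fin r => (1 : G))) ∘ E.symm) := by
    intro m hm
    have hlift : ∀ j, ∃ g, π g = m j := fun j => hπ (m j)
    choose m' hm' using hlift
    have hm'e : π ∘ m' = m := funext hm'
    have hvB : closure (Set.range m') ⊔ B = ⊤ := by
      have h2 : (closure (Set.range m')).map π = ⊤ := by
        rw [MonoidHom.map_closure, ← Set.range_comp, hm'e]
        exact hm
      have h3 := congrArg (Subgroup.comap π) h2
      rwa [comap_map_eq, QuotientGroup.ker_mk', comap_top] at h3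
    have hgen : Gen (f ∘ m') := by
      unfold Gen
      have h1 := congrArg (Subgroup.map f) hvB
      have hB0 : B.map f = ⊥ := by
        rw [Subgroup.map_eq_bot_iff]
        exact hBf
      rw [Subgroup.map_sup, hB0, sup_bot_eq, Subgroup.map_top_of_surjective f hf,
        MonoidHom.map_closure, ← Set.range_comp] at h1
      exact h1
    obtain ⟨r, E, hr⟩ := rconn_coprod_aux hstab hw hCP hgen
    -- `r` is positive
    have hr1 : 1 ≤ r := by
      obtain ⟨p, q, e, a, b, ha, hb, _⟩ := grushko hgen
      have h1 := Fintype.card_congr e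
      have h2 := Fintype.card_congr E
      simp only [Fintype.card_sum, Fintype.card_fin] at h1 h2
      have h3 := genRank_le ha
      have h4 := genRank_le hb
      omega
    obtain ⟨v, hv, hve⟩ := hr.exists_lift f
    have hvC : closure (Set.range v) ⊔ C = ⊤ := by
      rw [hv.sup_eq, eq_top_iff, ← hvB, hCd]
      exact sup_le_sup_left le_sup_right _
    let E' : Fin (genRank Q) ⊕ Fin r ≃ Fin d := (Equiv.sumComm _ _).trans E
    have hne : Nonempty (Fin r) := ⟨⟨0, hr1⟩⟩
    have hv1 : ∀ i : Fin r, v (E (Sum.inl i)) ∈ f.ker := by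
      intro i
      have h1 := congrFun hve (E (Sum.inl i))
      rw [MonoidHom.mem_ker]
      simpa using h1
    have hv2 : ∀ j : Fin (genRank Q), (v (E (Sum.inr j)))⁻¹ * w' j ∈ f.ker := by
      intro j
      have h1 := congrFun hve (E (Sum.inr j))
      rw [MonoidHom.mem_ker, map_mul, map_inv, inv_mul_eq_one, hw']
      simpa using h1
    have hvE : v ∘ E' = Sum.elim (fun j => v (E (Sum.inr j))) (fun i => v (E (Sum.inl i))) := by
      funext j
      rcases j with j | j <;> rfl
    have h1 : RConn C (v ∘ E') (Sum.elim w' (fun _ : Fin r => (1 : G))) := by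
      rw [hvE]
      refine rstep_superfluous hker ?_ hv1 hv2
      rw [← hvE, E'.surjective.range_comp]
      exact hvC
    have h2 := h1.of_reindex E'
    have e1 : (v ∘ E') ∘ E'.symm = v := by
      funext j
      simp
    rw [e1] at h2
    have h3 := (hv.trans h2).map π
    rw [hC, hm'e] at h3
    exact ⟨r, E', h3⟩
  intro z m hz hm
  obtain ⟨r, E, h⟩ := key z hz
  obtain ⟨r', E', h'⟩ := key m hm
  have hrr : r = r' := by
    have h1 := Fintype.card_congr E
    have h2 := Fintype.card_congr E'
    simp only [Fintype.card_sum, Fintype.card_fin] at h1 h2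
    omega
  subst hrr
  refine h'.trans (RConn.trans ?_ h.symm)
  apply RConn.of_NEq
  have h3 := NEq.perm (E'.symm.trans E).symm ((π ∘ Sum.elim w' (fun _ : Fin r => (1 : G))) ∘ E'.symm)
  refine h3.trans (NEq.of_eq ?_)
  funext j
  simp

end Pool.MP_e4938c_al
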