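import Pool.Agent.Lib.MP_e4938c_al.Swap

/-!
# Gaschütz' lemma with a fixed part (MP_e4938c)
-/

namespace Pool.MP_e4938c_al

open Subgroup Function

variable {α : Type*} {G : Type*} [Group G]

theorem sup_top_of_gen_quotient {A : Subgroup G} [A.Normal] {z : α → G}
    (h : Gen (QuotientGroup.mk' A ∘ z)) : closure (Set.range z) ⊔ A = ⊤ := by
  unfold Gen at h
  rw [Set.range_comp, ← MonoidHom.map_closure] at h
  have h1 := congrArg (comap (QuotientGroup.mk' A)) h
  rwa [comap_map_eq, QuotientGroup.ker_mk', comap_top] at h1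

/-- The lifts of a tuple which are prescribed on `S`. -/
def lifts (A : Subgroup G) [A.Normal] (S : Set α) (y : α → G) (p : α → G ⧸ A) :
    Set (α → G) :=
  {z | (∀ i, QuotientGroup.mk' A (z i) = p i) ∧ ∀ i ∈ S, z i = y i}

theorem lifts_finite [Finite α] (A : Subgroup G) [A.Normal] [Finite A] (S : Set α) (y : α → G)
    (p : α → G ⧸ A) : (lifts A S y p).Finite := by
  have hfib : ∀ q : G ⧸ A, {g : G | QuotientGroup.mk' A g = q}.Finite := by
    intro q
    obtain ⟨g, rfl⟩ := QuotientGroup.mk'_surjective A q
    apply (Set.finite_range (fun a : A => g * (a : G))).subset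
    intro g' hg'
    have h1 : g⁻¹ * g' ∈ A := QuotientGroup.eq.mp (Eq.symm hg')
    exact ⟨⟨_, h1⟩, by simp⟩
  apply (Set.Finite.pi' fun i => hfib (p i)).subset
  intro z hz i
  exact hz.1 i

theorem gaschuetz_count [Finite α] (A : Subgroup G) [A.Normal] [Finite A] (S : Set α)
    (y : α → G) (n : ℕ) : ∀ H : Subgroup G, Nat.card (H ⊓ A : Subgroup G) ≤ n →
    (∀ i ∈ S, y i ∈ H) → H ⊔ A = ⊤ → ∀ p p' : α → G ⧸ A, Gen p → Gen p' →
    (∀ i ∈ S, p i = QuotientGroup.mk' A (y i)) → (∀ i ∈ S, p' i = QuotientGroup.mk' A (y i)) →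
    ({z ∈ lifts A S y p | closure (Set.range z) = H} : Set (α → G)).ncard =
      ({z ∈ lifts A S y p' | closure (Set.range z) = H} : Set (α → G)).ncard := by
  classical
  induction n with
  | zero =>
    intro H hH
    exfalso
    have hfin : Finite (H ⊓ A : Subgroup G) :=
      Set.Finite.subset (Set.toFinite (A : Set G)) inf_le_right
    have : 0 < Nat.card (H ⊓ A : Subgroup G) := Nat.card_pos
    omega
  | succ n ih =>
    intro H hH hyH hHA p p' hp hp' hpS hp'S
    let Z : (α → G ⧸ A) → Finset (α → G) := fun q => (lifts_finite A S y q).toFinset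
    have hZ : ∀ q z, z ∈ Z q ↔ z ∈ lifts A S y q := fun q z => Set.Finite.mem_toFinset _
    let cl : (α → G) → Subgroup G := fun z => closure (Set.range z)
    have hE : ∀ (q : α → G ⧸ A) (K : Subgroup G),
        ({z ∈ lifts A S y q | closure (Set.range z) = K} : Set (α → G)).ncard =
        ((Z q).filter fun z => cl z = K).card := by
      intro q K
      rw [← Set.ncard_coe_finset]
      congr 1
      ext z
      simp [hZ, cl]
    -- the total number of lifts in `H`
    have hlift : ∀ q : α → G ⧸ A, (∀ i ∈ S, q i = QuotientGroup.mk' A (y i)) →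
        ∃ h : α → G, (∀ i, h i ∈ H) ∧ (∀ i, QuotientGroup.mk' A (h i) = q i) ∧
          ∀ i ∈ S, h i = y i := by
      intro q hq
      have h1 : ∀ i, ∃ h ∈ H, QuotientGroup.mk' A h = q i := by
        intro i
        obtain ⟨g, hg⟩ := QuotientGroup.mk'_surjective A (q i)
        have hgm : g ∈ H ⊔ A := by rw [hHA]; exact mem_top _
        rw [mem_sup_of_normal_right] at hgm
        obtain ⟨h, hh, a, ha, rfl⟩ := hgm
        refine ⟨h, hh, ?_⟩
        rw [← hg, map_mul]
        have : QuotientGroup.mk' A a = 1 := by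
          rwa [QuotientGroup.mk'_apply, QuotientGroup.eq_one_iff]
        rw [this, mul_one]
      choose h hh hhq using h1
      refine ⟨fun i => if i ∈ S then y i else h i, fun i => ?_, fun i => ?_, fun i hi => ?_⟩
      · by_cases hi : i ∈ S
        · simp [hi, hyH i hi]
        · simp [hi, hh i]
      · by_cases hi : i ∈ S
        · simp only [if_pos hi]
          exact (hq i hi).symm
        · simp only [if_neg hi]
          exact hhq i
      · simp [hi]
    have hle : ∀ q q' : α → G ⧸ A, (∀ i ∈ S, q i = QuotientGroup.mk' A (y i)) →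
        (∀ i ∈ S, q' i = QuotientGroup.mk' A (y i)) →
        ((Z q).filter fun z => cl z ≤ H).card ≤ ((Z q').filter fun z => cl z ≤ H).card := by
      intro q q' hq hq'
      obtain ⟨h, hh1, hh2, hh3⟩ := hlift q hq
      obtain ⟨h', hh'1, hh'2, hh'3⟩ := hlift q' hq'
      apply Finset.card_le_card_of_injOn (fun z i => h' i * (h i)⁻¹ * z i)
      · intro z hz
        have hz' := Finset.mem_filter.mp (Finset.mem_coe.mp hz)
        obtain ⟨hz1, hz2⟩ := hz'
        rw [hZ] at hz1
        apply Finset.mem_coe.mpr
        rw [Finset.mem_filter, hZ]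
        refine ⟨⟨fun i => ?_, fun i hi => ?_⟩, ?_⟩
        · beta_reduce
          rw [map_mul, map_mul, map_inv, hh'2, hh2, hz1.1]
          group
        · beta_reduce
          rw [hh'3 i hi, hh3 i hi, hz1.2 i hi]
          group
        · change Subgroup.closure _ ≤ H
          rw [closure_le]
          rintro _ ⟨i, rfl⟩
          have h1 : z i ∈ H := hz2 (Subgroup.subset_closure ⟨i, rfl⟩)
          exact H.mul_mem (H.mul_mem (hh'1 i) (H.inv_mem (hh1 i))) h1
      · intro z _ w _ hzw
        funext i
        have := congrFun hzw i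
        simpa using this
    have htot : ((Z p).filter fun z => cl z ≤ H).card =
        ((Z p').filter fun z => cl z ≤ H).card :=
      le_antisymm (hle p p' hpS hp'S) (hle p' p hp'S hpS)
    -- the proper subgroups
    let 𝒦 : Finset (Subgroup G) := ((Z p ∪ Z p').image cl).filter fun K => K < H
    have hsplit : ∀ q, q = p ∨ q = p' → ((Z q).filter fun z => cl z ≤ H).card =
        ((Z q).filter fun z => cl z = H).card +
          ∑ K ∈ 𝒦, ((Z q).filter fun z => cl z = K).card := by
      intro q hq
      have h1 : ((Z q).filter fun z => cl z ≤ H) =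
          ((Z q).filter fun z => cl z = H) ∪ ((Z q).filter fun z => cl z < H) := by
        ext z
        simp only [Finset.mem_filter, Finset.mem_union]
        rw [le_iff_eq_or_lt]
        tauto
      have h2 : Disjoint ((Z q).filter fun z => cl z = H) ((Z q).filter fun z => cl z < H) := by
        rw [Finset.disjoint_filter]
        intro z _ h3 h4
        exact h4.ne h3
      rw [h1, Finset.card_union_of_disjoint h2]
      congr 1
      have h3 : ∀ z ∈ ((Z q).filter fun z => cl z < H), cl z ∈ 𝒦 := by
        intro z hz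
        rw [Finset.mem_filter] at hz
        apply Finset.mem_filter.mpr
        refine ⟨Finset.mem_image.mpr ⟨z, ?_, rfl⟩, hz.2⟩
        rw [Finset.mem_union]
        rcases hq with rfl | rfl
        · exact Or.inl hz.1
        · exact Or.inr hz.1
      rw [Finset.card_eq_sum_card_fiberwise h3]
      apply Finset.sum_congr rfl
      intro K hK
      congr 1
      ext z
      simp only [Finset.mem_filter]
      constructor
      · rintro ⟨⟨h4, _⟩, h5⟩
        exact ⟨h4, h5⟩
      · rintro ⟨h4, h5⟩
        refine ⟨⟨h4, ?_⟩, h5⟩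
        rw [h5]
        exact (Finset.mem_filter.mp hK).2
    have hK : ∀ K ∈ 𝒦, ((Z p).filter fun z => cl z = K).card =
        ((Z p').filter fun z => cl z = K).card := by
      intro K hK
      obtain ⟨hK1, hKH⟩ := Finset.mem_filter.mp hK
      obtain ⟨z, hz, hzK⟩ := Finset.mem_image.mp hK1
      rw [Finset.mem_union, hZ, hZ] at hz
      have hzS : ∀ i ∈ S, z i = y i := by
        rcases hz with hz | hz
        · exact hz.2
        · exact hz.2
      have hzg : Gen (QuotientGroup.mk' A ∘ z) := by
        rcases hz with hz | hz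
        · have e : QuotientGroup.mk' A ∘ z = p := funext hz.1
          rw [e]
          exact hp
        · have e : QuotientGroup.mk' A ∘ z = p' := funext hz.1
          rw [e]
          exact hp'
      have hKA : K ⊔ A = ⊤ := by
        rw [← hzK]
        exact sup_top_of_gen_quotient hzg
      have hKS : ∀ i ∈ S, y i ∈ K := by
        intro i hi
        rw [← hzS i hi, ← hzK]
        exact Subgroup.subset_closure ⟨i, rfl⟩
      have hlt : (K ⊓ A : Subgroup G) < (H ⊓ A : Subgroup G) := by
        refine lt_of_le_of_ne (inf_le_inf_right A hKH.le) fun heq => ?_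
        apply hKH.not_ge
        intro h hh
        have hhm : h ∈ K ⊔ A := by rw [hKA]; exact mem_top _
        rw [mem_sup_of_normal_right] at hhm
        obtain ⟨k, hk, a, ha, rfl⟩ := hhm
        have h1 : a ∈ (H ⊓ A : Subgroup G) := by
          refine ⟨?_, ha⟩
          have h2 := H.mul_mem (H.inv_mem (hKH.le hk)) hh
          simpa using h2
        rw [← heq] at h1
        exact K.mul_mem hk h1.1
      have hfin : Finite (H ⊓ A : Subgroup G) :=
        Set.Finite.subset (Set.toFinite (A : Set G)) inf_le_right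
      have hcard : Nat.card (K ⊓ A : Subgroup G) ≤ n := by
        have h3 : ((K ⊓ A : Subgroup G) : Set G) ⊂ ((H ⊓ A : Subgroup G) : Set G) := hlt
        have h4 := Set.ncard_lt_ncard h3 (Set.toFinite ((H ⊓ A : Subgroup G) : Set G))
        have h5 : Nat.card (K ⊓ A : Subgroup G) < Nat.card (H ⊓ A : Subgroup G) := h4
        omega
      have := ih K hcard hKS hKA p p' hp hp' hpS hp'S
      rwa [hE, hE] at this
    rw [hE, hE]
    have h1 := hsplit p (Or.inl rfl)
    have h2 := hsplit p' (Or.inr rfl)
    have h3 := Finset.sum_congr (rfl : 𝒦 = 𝒦) hK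
    omega

/-- **Gaschütz' lemma with a fixed part.** Let `A` be a finite normal subgroup, `y` a
generating family and `p` a generating family of `G ⧸ A` which agrees with `y` on `S`. Then `p`
lifts to a generating family of `G` which agrees with `y` on `S`. -/
theorem gaschuetz [Finite α] (A : Subgroup G) [A.Normal] [Finite A] (S : Set α) {y : α → G}
    (hy : Gen y) {p : α → G ⧸ A} (hp : Gen p)
    (hS : ∀ i ∈ S, p i = QuotientGroup.mk' A (y i)) :
    ∃ z : α → G, Gen z ∧ QuotientGroup.mk' A ∘ z = p ∧ ∀ i ∈ S, z i = y i := by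
  have hcount := gaschuetz_count A S y _ ⊤ le_rfl (fun i _ => mem_top _) (by simp)
    (QuotientGroup.mk' A ∘ y) p (hy.map _ (QuotientGroup.mk'_surjective A)) hp
    (fun i _ => rfl) hS
  have h1 : y ∈ ({z ∈ lifts A S y (QuotientGroup.mk' A ∘ y) | closure (Set.range z) = ⊤} :
      Set (α → G)) := ⟨⟨fun i => rfl, fun i _ => rfl⟩, hy⟩
  have hfin : ∀ q : α → G ⧸ A,
      ({z ∈ lifts A S y q | closure (Set.range z) = ⊤} : Set (α → G)).Finite :=
    fun q => (lifts_finite A S y q).subset fun z hz => hz.1
  have h2 : 0 < ({z ∈ lifts A S y (QuotientGroup.mk' A ∘ y) | closure (Set.range z) = ⊤} :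
      Set (α → G)).ncard := (Set.ncard_pos (hfin _)).mpr ⟨y, h1⟩
  rw [hcount] at h2
  obtain ⟨z, hz, hzg⟩ := (Set.ncard_pos (hfin _)).mp h2
  exact ⟨z, hzg, funext hz.1, hz.2⟩

/-- A chain in the quotient by a finite normal subgroup lifts, up to the last tuple. -/
theorem lift_chain_finite {k : ℕ} [Finite α] (A : Subgroup G) [A.Normal] [Finite A]
    {x : α → G} (hx : Gen x) {w : α → G ⧸ A}
    (h : Relation.ReflTransGen (Step Gen k) (QuotientGroup.mk' A ∘ x) w) :
    ∃ z : α → G, QuotientGroup.mk' A ∘ z = w ∧ Gen z ∧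
      Relation.ReflTransGen (Step Gen k) x z := by
  induction h with
  | refl => exact ⟨x, rfl, hx, Relation.ReflTransGen.refl⟩
  | @tail b c _ hbc ih =>
    obtain ⟨z, hz, hzg, hch⟩ := ih
    obtain ⟨hc, J, hJ, hJc⟩ := hbc
    obtain ⟨u, hu, huc, huz⟩ := gaschuetz A {i | i ∉ J} hzg hc (by
      intro i hi
      rw [hJc i hi]
      exact (congrFun hz i).symm)
    exact ⟨u, huc, hu, hch.tail ⟨hu, J, hJ, fun j hj => huz j hj⟩⟩

/-- Stability for extensions by a finite normal subgroup which is contained in a subgroup with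
`k` generators. -/
theorem Stable.of_finite {k d : ℕ} (A : Subgroup G) [A.Normal] [Finite A] {c : Fin k → G}
    (hc : A ≤ closure (Set.range c)) (h : SwapConn k d (G ⧸ A)) : Stable k d G := by
  intro x m hx hm
  have hπ := QuotientGroup.mk'_surjective A
  obtain ⟨z, hz, hzg, hch⟩ := lift_chain_finite A hm
    (h _ _ (hm.map _ hπ) (hx.map (QuotientGroup.mk' A) hπ))
  refine (neq_of_chain hm hch).trans ((NEq.slots_free hzg _ c).trans
    (NEq.trans ?_ (NEq.slots_free hx c _)))
  apply NEq.slots'
  intro i
  refine ⟨1, one_mem _, (z i)⁻¹ * x i, hc ?_, by group⟩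
  exact QuotientGroup.eq.mp (congrFun hz i)

end Pool.MP_e4938c_al
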