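import Pool.Agent.Lib.MP_e4938c_al.FoldD

/-!
# The Grushko-Neumann theorem (MP_e4938c)
-/

namespace Pool.MP_e4938c_al

open Subgroup Function

universe u

/-- The two factors of a free product, as subgroups. -/
def facS (A B : Type u) [Group A] [Group B] : Bool → Subgroup (Monoid.Coprod A B)
  | true => (Monoid.Coprod.inl : A →* Monoid.Coprod A B).range
  | false => (Monoid.Coprod.inr : B →* Monoid.Coprod A B).range

theorem facS_FP (A B : Type u) [Group A] [Group B] : FP (facS A B) := by
  constructor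
  · intro P _ f
    let f₁ : A →* P := (f true).comp (Monoid.Coprod.inl : A →* Monoid.Coprod A B).rangeRestrict
    let f₂ : B →* P := (f false).comp (Monoid.Coprod.inr : B →* Monoid.Coprod A B).rangeRestrict
    refine ⟨Monoid.Coprod.lift f₁ f₂, ?_⟩
    rintro (_ | _) ⟨_, x, rfl⟩
    · simp only [Monoid.Coprod.lift_apply_inr]
      rfl
    · simp only [Monoid.Coprod.lift_apply_inl]
      rfl
  · rw [eq_top_iff, ← Monoid.Coprod.range_inl_sup_range_inr]
    exact sup_le (le_iSup (facS A B) true) (le_iSup (facS A B) false)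

/-- Grushko-Neumann: a finite generating family of a free product is Nielsen equivalent to a
family whose members lie in the two factors. -/
theorem grushko {A B : Type u} [Group A] [Group B] {n : ℕ} {x : Fin n → Monoid.Coprod A B}
    (hx : Gen x) : ∃ (p q : ℕ) (e : Fin p ⊕ Fin q ≃ Fin n) (a : Fin p → A) (b : Fin q → B),
      Gen a ∧ Gen b ∧ NEq (x ∘ e) (Sum.elim ((Monoid.Coprod.inl : A →* Monoid.Coprod A B) ∘ a)
        ((Monoid.Coprod.inr : B →* Monoid.Coprod A B) ∘ b)) := by
  classical
  obtain ⟨x', n₁, hx'⟩ := grushko_sub (facS_FP A B) true hx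
  choose t ht using hx'
  let I : Type := {i : Fin n // t i = true}
  let J : Type := {i : Fin n // ¬ t i = true}
  let eI : I ≃ Fin (Fintype.card I) := Fintype.equivFin I
  let eJ : J ≃ Fin (Fintype.card J) := Fintype.equivFin J
  let e : Fin (Fintype.card I) ⊕ Fin (Fintype.card J) ≃ Fin n :=
    (Equiv.sumCongr eI.symm eJ.symm).trans (Equiv.sumCompl fun i => t i = true)
  have hA : ∀ k : Fin (Fintype.card I), ∃ a : A, Monoid.Coprod.inl a = x' (eI.symm k).1 := by
    intro k
    have h1 := ht (eI.symm k).1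
    rw [(eI.symm k).2] at h1
    exact h1
  have hB : ∀ k : Fin (Fintype.card J), ∃ b : B, Monoid.Coprod.inr b = x' (eJ.symm k).1 := by
    intro k
    have h1 := ht (eJ.symm k).1
    rw [Bool.eq_false_of_not_eq_true (eJ.symm k).2] at h1
    exact h1
  choose a ha using hA
  choose b hb using hB
  have hxe : x' ∘ e = Sum.elim ((Monoid.Coprod.inl : A →* Monoid.Coprod A B) ∘ a)
        ((Monoid.Coprod.inr : B →* Monoid.Coprod A B) ∘ b) := by
    funext j
    rcases j with j | j
    · exact (ha j).symm
    · exact (hb j).symm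
  have hgen : Gen (Sum.elim ((Monoid.Coprod.inl : A →* Monoid.Coprod A B) ∘ a)
        ((Monoid.Coprod.inr : B →* Monoid.Coprod A B) ∘ b)) := by
    rw [← hxe]
    exact Gen.comp_equiv e (n₁.gen hx)
  refine ⟨_, _, e, a, b, ?_, ?_, ?_⟩
  · have h1 := hgen.map (Monoid.Coprod.fst : Monoid.Coprod A B →* A)
      (fun g => ⟨Monoid.Coprod.inl g, by simp⟩)
    unfold Gen at h1 ⊢
    rw [eq_top_iff, ← h1, closure_le]
    rintro _ ⟨j | j, rfl⟩
    · exact subset_closure ⟨j, by simp⟩
    · simp only [comp_apply, Sum.elim_inr, Monoid.Coprod.fst_apply_inr]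
      exact one_mem _
  · have h1 := hgen.map (Monoid.Coprod.snd : Monoid.Coprod A B →* B)
      (fun g => ⟨Monoid.Coprod.inr g, by simp⟩)
    unfold Gen at h1 ⊢
    rw [eq_top_iff, ← h1, closure_le]
    rintro _ ⟨j | j, rfl⟩
    · simp only [comp_apply, Sum.elim_inl, Monoid.Coprod.snd_apply_inl]
      exact one_mem _
    · exact subset_closure ⟨j, by simp⟩
  · rw [← hxe]
    have h1 : NEq (x ∘ e) (x' ∘ e) := by
      have := n₁.reindex e.symm
      simpa using this
    exact h1

end Pool.MP_e4938c_al
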