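import Pool.Agent.Lib.MP_e4938c_al.Steps

/-!
# Stable range of abelian normal subgroups (MP_e4938c)
-/

namespace Pool.MP_e4938c_al

open Subgroup Function

universe u

variable {Q : Type u} [Group Q]

theorem nc_le {N : Subgroup Q} (hN : N.Normal) {x : Q} (h : x ∈ N) : normalClosure {x} ≤ N :=
  normalClosure_le_normal (Set.singleton_subset_iff.mpr h)

/-- Lifting generators over a finite minimal normal subgroup. -/
theorem simple_lift {A I : Subgroup Q} {a : Q} (ha : normalClosure {a} = A)
    (hIn : I.Normal) (hIA : I ≤ A) [Finite I]
    (hmin : ∀ J : Subgroup Q, J.Normal → J ≤ I → J = ⊥ ∨ J = I) {c : Q}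
    (h : normalClosure {c} ⊔ I = A) : ∃ u ∈ I, normalClosure {c * u} = A := by
  by_contra hcon
  push Not at hcon
  have hcA : c ∈ A := h ▸ mem_sup_left (subset_normalClosure rfl)
  have hAn : A.Normal := ha ▸ normalClosure_normal
  have hle : ∀ u ∈ I, normalClosure {c * u} ≤ A := by
    intro u hu
    exact nc_le hAn (mul_mem hcA (hIA hu))
  have hsup : ∀ u ∈ I, normalClosure {c * u} ⊔ I = A := by
    intro u hu
    apply le_antisymm (sup_le (hle u hu) hIA)
    conv_lhs => rw [← h]
    refine sup_le (nc_le inferInstance ?_) le_sup_right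
    have h1 : c * u ∈ normalClosure {c * u} ⊔ I := mem_sup_left (subset_normalClosure rfl)
    have h2 : u⁻¹ ∈ normalClosure {c * u} ⊔ I := mem_sup_right (inv_mem hu)
    have h3 := mul_mem h1 h2
    simpa using h3
  have hinf : ∀ u ∈ I, normalClosure {c * u} ⊓ I = ⊥ := by
    intro u hu
    rcases hmin (normalClosure {c * u} ⊓ I) inferInstance inf_le_right with h1 | h1
    · exact h1
    · exfalso
      apply hcon u hu
      have h2 : I ≤ normalClosure {c * u} := by
        rw [← h1]
        exact inf_le_left
      rw [← hsup u hu]
      exact (sup_eq_left.mpr h2).symm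
  have hdec : ∀ u : I, ∃ w : I, a * (w : Q)⁻¹ ∈ normalClosure {c * (u : Q)} := by
    intro u
    have h1 : a ∈ normalClosure {c * (u : Q)} ⊔ I := by
      rw [hsup u u.2, ← ha]
      exact subset_normalClosure rfl
    rw [mem_sup_of_normal_right] at h1
    obtain ⟨z, hz, w, hw, hzw⟩ := h1
    refine ⟨⟨w, hw⟩, ?_⟩
    rw [← hzw]
    simpa using hz
  choose f hf using hdec
  have hfi : Injective f := by
    intro u v huv
    obtain ⟨b, hb⟩ : ∃ b, b = a * (f u : Q)⁻¹ := ⟨_, rfl⟩
    have hbu : b ∈ normalClosure {c * (u : Q)} := hb ▸ hf u
    have hbv : b ∈ normalClosure {c * (v : Q)} := by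
      rw [hb, huv]
      exact hf v
    have hbI : normalClosure {b} ⊔ I = A := by
      apply le_antisymm
      · exact sup_le (nc_le hAn (hle u u.2 hbu)) hIA
      · conv_lhs => rw [← ha]
        refine nc_le inferInstance ?_
        have h1 : b ∈ normalClosure {b} ⊔ I := mem_sup_left (subset_normalClosure rfl)
        have h2 : (f u : Q) ∈ normalClosure {b} ⊔ I := mem_sup_right (f u).2
        have h3 := mul_mem h1 h2
        rw [hb] at h3 ⊢
        simpa using h3
    have hC : ∀ w : I, b ∈ normalClosure {c * (w : Q)} →
        c * (w : Q) ∈ normalClosure {b} := by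
      intro w hbw
      have h1 : c * (w : Q) ∈ normalClosure {b} ⊔ I := by
        rw [hbI]
        exact mul_mem hcA (hIA w.2)
      rw [mem_sup_of_normal_right] at h1
      obtain ⟨b', hb', i, hi, hbi⟩ := h1
      have h2 : b' ∈ normalClosure {c * (w : Q)} := by
        exact nc_le inferInstance hbw hb'
      have h4 : i ∈ normalClosure {c * (w : Q)} := by
        have h5 : c * (w : Q) ∈ normalClosure {c * (w : Q)} := subset_normalClosure rfl
        have h6 := mul_mem (inv_mem h2) h5
        rw [← hbi] at h6
        simpa [mul_assoc, ← hbi] using h6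
      have h7 : i ∈ normalClosure {c * (w : Q)} ⊓ I := ⟨h4, hi⟩
      rw [hinf w w.2, mem_bot] at h7
      rw [← hbi, h7, mul_one]
      exact hb'
    have h1 := hC u hbu
    have h2 := hC v hbv
    have h3 : (u : Q)⁻¹ * v ∈ normalClosure {b} := by
      have := mul_mem (inv_mem h1) h2
      simpa [mul_assoc] using this
    have h4 : (u : Q)⁻¹ * v ∈ normalClosure {c * (u : Q)} ⊓ I := by
      have h6 : (u : Q)⁻¹ * v ∈ I := I.mul_mem (I.inv_mem u.2) v.2
      exact ⟨nc_le inferInstance hbu h3, h6⟩
    rw [hinf u u.2, mem_bot] at h4
    have h5 : (v : Q) = u := by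
      have := congrArg (fun t => (u : Q) * t) h4
      simpa using this
    exact Subtype.ext h5.symm
  have hfs : Surjective f := Finite.surjective_of_injective hfi
  obtain ⟨u, hu⟩ := hfs 1
  have h1 := hf u
  rw [hu] at h1
  apply hcon u u.2
  apply le_antisymm (hle u u.2)
  conv_lhs => rw [← ha]
  exact nc_le inferInstance (by simpa using h1)

theorem map_normalClosure_singleton {W : Subgroup Q} [W.Normal] (x : Q) :
    (normalClosure {x}).map (QuotientGroup.mk' W) =
      normalClosure {QuotientGroup.mk' W x} := by
  rw [map_normalClosure _ _ (QuotientGroup.mk'_surjective W), Set.image_singleton]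

theorem sup_eq_of_map_eq {W X Y : Subgroup Q} [W.Normal] (hW : W ≤ Y)
    (h : X.map (QuotientGroup.mk' W) = Y.map (QuotientGroup.mk' W)) : X ⊔ W = Y := by
  have h1 := congrArg (comap (QuotientGroup.mk' W)) h
  rw [comap_map_eq, comap_map_eq, QuotientGroup.ker_mk'] at h1
  rw [h1]
  exact sup_eq_left.mpr hW

/-- Lifting generators in a finite normal subgroup which is the normal closure of one
element. -/
theorem finite_lift {A I : Subgroup Q} {a : Q} (ha : normalClosure {a} = A)
    (hIn : I.Normal) (hIA : I ≤ A) [Finite A] {c : Q}
    (h : normalClosure {c} ⊔ I = A) : ∃ u ∈ I, normalClosure {c * u} = A := by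
  classical
  have hIfin : Finite I := Set.Finite.subset (Set.toFinite (A : Set Q)) hIA
  have hcA : c ∈ A := h ▸ mem_sup_left (subset_normalClosure rfl)
  -- choose `W` of least order
  have key : ∀ n : ℕ, ∀ W : Subgroup Q, Nat.card W ≤ n → W.Normal → W ≤ I →
      (∃ u ∈ I, normalClosure {c * u} ⊔ W = A) → ∃ u ∈ I, normalClosure {c * u} = A := by
    intro n
    induction n with
    | zero =>
      intro W hW _ hWI _
      have hWfin : Finite W := Set.Finite.subset (Set.toFinite (I : Set Q)) hWI
      have : 0 < Nat.card W := Nat.card_pos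
      omega
    | succ n ih =>
      intro W hW hWn hWI ⟨u, hu, huW⟩
      have hWfin : Finite W := Set.Finite.subset (Set.toFinite (I : Set Q)) hWI
      by_cases hbot : W = ⊥
      · refine ⟨u, hu, ?_⟩
        rwa [hbot, sup_bot_eq] at huW
      · -- a maximal normal subgroup strictly below `W`
        have hfinset : {V : Subgroup Q | V.Normal ∧ V < W}.Finite := by
          have h1 : {V : Subgroup Q | V ≤ W}.Finite := by
            have h2 : Finite (Set (W : Set Q)) := inferInstance
            apply Set.Finite.of_injOn (f := fun V : Subgroup Q => (V : Set Q))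
              (t := 𝒫 (W : Set Q))
            · intro V hV
              exact hV
            · intro V _ V' _ hVV
              exact SetLike.coe_injective hVV
            · exact (Set.toFinite (W : Set Q)).powerset
          exact h1.subset fun V hV => hV.2.le
        have hne : {V : Subgroup Q | V.Normal ∧ V < W}.Nonempty :=
          ⟨⊥, inferInstance, bot_lt_iff_ne_bot.mpr hbot⟩
        obtain ⟨V, hVmax⟩ := hfinset.exists_maximal hne
        obtain ⟨hVn, hVW⟩ := hVmax.prop
        have := hVn
        let π := QuotientGroup.mk' V
        have hπ : Surjective π := QuotientGroup.mk'_surjective V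
        have hmap : (normalClosure {c * u}).map π ⊔ W.map π = A.map π := by
          rw [← Subgroup.map_sup, huW]
        rw [map_normalClosure_singleton] at hmap
        have ha' : normalClosure {π a} = A.map π := by
          rw [← map_normalClosure_singleton, ha]
        have hfinW : Finite (W.map π) := by
          have : (W.map π : Set (Q ⧸ V)) = π '' (W : Set Q) := rfl
          exact (Set.toFinite (π '' (W : Set Q)))
        obtain ⟨w, hw, hwA⟩ := simple_lift ha' (hWn.map π hπ)
          (map_mono (hWI.trans hIA)) (by
            intro J hJ hJW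
            have hcom : J.comap π ≤ W := by
              intro x hx
              have h1 : π x ∈ W.map π := hJW hx
              obtain ⟨y, hy, hyx⟩ := h1
              have h2 : y⁻¹ * x ∈ V := QuotientGroup.eq.mp hyx
              have h3 := mul_mem hy (hVW.le h2)
              simpa using h3
            have hVc : V ≤ J.comap π := by
              intro x hx
              have h1 : π x = 1 := by
                rwa [QuotientGroup.mk'_apply, QuotientGroup.eq_one_iff]
              change π x ∈ J
              rw [h1]
              exact one_mem _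
            rcases hcom.lt_or_eq with hlt | heq
            · left
              have h1 : J.comap π ≤ V := hVmax.le_of_ge ⟨hJ.comap π, hlt⟩ hVc
              rw [eq_bot_iff]
              intro y hy
              obtain ⟨x, rfl⟩ := hπ y
              have h2 : x ∈ V := h1 hy
              rw [mem_bot]
              rwa [QuotientGroup.mk'_apply, QuotientGroup.eq_one_iff]
            · right
              rw [← heq, map_comap_eq_self_of_surjective hπ]) hmap
        obtain ⟨w, hw, rfl⟩ := hw
        have h1 : normalClosure {c * u * w} ⊔ V = A := by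
          apply sup_eq_of_map_eq (hVW.le.trans (hWI.trans hIA))
          rw [map_normalClosure_singleton, map_mul]
          exact hwA
        have hVcard : Nat.card V ≤ n := by
          have h2 : Nat.card V < Nat.card W := by
            have h3 : (V : Set Q) ⊂ (W : Set Q) := hVW
            have h4 := Set.ncard_lt_ncard h3 (Set.toFinite (W : Set Q))
            exact h4
          omega
        refine ih V hVcard hVn (hVW.le.trans hWI) ⟨u * w, mul_mem hu (hWI hw), ?_⟩
        rwa [← mul_assoc]
  exact key _ I le_rfl hIn le_rfl ⟨1, one_mem _, by rwa [mul_one]⟩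

theorem finite_map_of_le {A B B' : Subgroup Q} [B.Normal] [B'.Normal] (hBB : B ≤ B')
    (h : Finite (A.map (QuotientGroup.mk' B))) : Finite (A.map (QuotientGroup.mk' B')) := by
  have h1 : (A.map (QuotientGroup.mk' B') : Set (Q ⧸ B')) =
      (QuotientGroup.map B B' (MonoidHom.id Q) hBB) '' (A.map (QuotientGroup.mk' B)) := by
    ext y
    constructor
    · rintro ⟨x, hx, rfl⟩
      exact ⟨QuotientGroup.mk' B x, ⟨x, hx, rfl⟩, rfl⟩
    · rintro ⟨_, ⟨x, hx, rfl⟩, rfl⟩
      exact ⟨x, hx, rfl⟩
  have h2 : (A.map (QuotientGroup.mk' B') : Set (Q ⧸ B')).Finite := by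
    rw [h1]
    exact Set.Finite.image _ (Set.toFinite _)
  exact h2

/-- One member of the family is changed. -/
theorem lift_one {κ : Type*} [DecidableEq κ] {A I : Subgroup Q} {a : Q}
    (ha : normalClosure {a} = A) (hIn : I.Normal) (hIA : I ≤ A) (i₁ : κ) (c : κ → Q)
    (hfin : Finite (A.map (QuotientGroup.mk' (normalClosure (c '' {i₁}ᶜ)))))
    (h : normalClosure (Set.range c) ⊔ I = A) :
    ∃ u ∈ I, normalClosure (Set.range (update c i₁ (c i₁ * u))) = A := by
  have hAn : A.Normal := ha ▸ normalClosure_normal
  have hc : ∀ k, c k ∈ A := fun k => h ▸ mem_sup_left (subset_normalClosure ⟨k, rfl⟩)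
  obtain ⟨B, hBdef⟩ : ∃ B, B = normalClosure (c '' {i₁}ᶜ) := ⟨_, rfl⟩
  have hBn : B.Normal := hBdef ▸ normalClosure_normal
  have hBA : B ≤ A := by
    rw [hBdef]
    apply normalClosure_le_normal
    rintro _ ⟨k, _, rfl⟩
    exact hc k
  have hcB : ∀ k, k ≠ i₁ → c k ∈ B := by
    intro k hk
    rw [hBdef]
    exact subset_normalClosure ⟨k, by simpa using hk, rfl⟩
  let π := QuotientGroup.mk' B
  have hπ : Surjective π := QuotientGroup.mk'_surjective B
  have hfinA : Finite (A.map π) := by
    subst hBdef
    exact hfin
  have ha' : normalClosure {π a} = A.map π := by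
    rw [← map_normalClosure_singleton, ha]
  have hmap : normalClosure {π (c i₁)} ⊔ I.map π = A.map π := by
    rw [← map_normalClosure_singleton, ← Subgroup.map_sup]
    apply le_antisymm
    · exact map_mono (sup_le (nc_le hAn (hc i₁)) hIA)
    · rw [← h, map_le_iff_le_comap, comap_map_eq, QuotientGroup.ker_mk']
      apply sup_le
      · apply normalClosure_le_normal
        rintro _ ⟨j, rfl⟩
        by_cases hj : j = i₁
        · subst hj
          exact mem_sup_left (mem_sup_left (subset_normalClosure rfl))
        · exact mem_sup_right (hcB j hj)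
      · exact le_sup_of_le_left le_sup_right
  obtain ⟨w, hw, hwA⟩ := finite_lift ha' (hIn.map π hπ) (map_mono hIA) hmap
  obtain ⟨u, hu, rfl⟩ := hw
  have h1 : normalClosure {c i₁ * u} ⊔ B = A := by
    apply sup_eq_of_map_eq hBA
    rw [map_normalClosure_singleton, map_mul]
    exact hwA
  refine ⟨u, hu, ?_⟩
  apply le_antisymm
  · apply normalClosure_le_normal
    rintro _ ⟨j, rfl⟩
    by_cases hj : j = i₁
    · subst hj
      simpa using mul_mem (hc j) (hIA hu)
    · simpa [update_of_ne hj] using hc j
  · conv_lhs => rw [← h1]
    refine sup_le (nc_le inferInstance (subset_normalClosure ⟨i₁, by simp⟩)) ?_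
    rw [hBdef]
    apply normalClosure_le_normal
    rintro _ ⟨k, hk, rfl⟩
    have hk' : k ≠ i₁ := by simpa using hk
    exact subset_normalClosure ⟨k, by simp [update_of_ne hk']⟩

/-- A finite normal subgroup which is the normal closure of one element satisfies the stable
range condition for every nonempty family. -/
theorem stableRange_finite {κ : Type*} [Nonempty κ] {A : Subgroup Q} {a : Q}
    (ha : normalClosure {a} = A) [Finite A] : StableRange κ A := by
  classical
  intro I hIn hIA c hc h
  let i₁ : κ := Classical.arbitrary κ
  obtain ⟨u, hu, huA⟩ := lift_one ha hIn hIA i₁ c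
    (Set.Finite.image _ (Set.toFinite (A : Set Q))) h
  refine ⟨fun k => if k = i₁ then u else 1, fun k => ?_, ?_⟩
  · by_cases hk : k = i₁
    · simp [hk, hu]
    · simp [hk]
  · have e : (fun k => c k * if k = i₁ then u else 1) = update c i₁ (c i₁ * u) := by
      funext k
      by_cases hk : k = i₁
      · subst hk
        simp
      · simp [hk]
    rw [e]
    exact huA

/-- A normal subgroup which is the normal closure of one element, and which is finite modulo
the normal closure of each of its nontrivial elements, satisfies the stable range condition for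
families with at least two members. -/
theorem stableRange_justInfinite {κ : Type*} [Nontrivial κ] {A : Subgroup Q} {a : Q}
    (ha : normalClosure {a} = A)
    (hfin : ∀ b ∈ A, b ≠ 1 → Finite (A.map (QuotientGroup.mk' (normalClosure {b})))) :
    StableRange κ A := by
  classical
  intro I hIn hIA c hc h
  have hAn : A.Normal := ha ▸ normalClosure_normal
  obtain ⟨i₀, i₁, h01⟩ := exists_pair_ne κ
  by_cases hI : I = ⊥
  · refine ⟨fun _ => 1, fun _ => one_mem _, ?_⟩
    rw [hI, sup_bot_eq] at h
    simpa using h
  · obtain ⟨b₀, hb₀, hne⟩ : ∃ b₀ ∈ I, c i₀ * b₀ ≠ 1 := by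
      by_cases hc0 : c i₀ = 1
      · obtain ⟨b, hb⟩ := Subgroup.ne_bot_iff_exists_ne_one.mp hI
        refine ⟨b, b.2, ?_⟩
        rw [hc0, one_mul]
        exact fun h1 => hb (Subtype.ext h1)
      · exact ⟨1, one_mem _, by simpa using hc0⟩
    let c' : κ → Q := update c i₀ (c i₀ * b₀)
    have hc' : normalClosure (Set.range c') ⊔ I = A := by
      apply le_antisymm
      · apply sup_le _ hIA
        apply normalClosure_le_normal
        rintro _ ⟨j, rfl⟩
        by_cases hj : j = i₀
        · subst hj
          simpa [c'] using mul_mem (hc j) (hIA hb₀)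
        · simpa [c', update_of_ne hj] using hc j
      · rw [← h]
        apply sup_le _ le_sup_right
        apply normalClosure_le_normal
        rintro _ ⟨j, rfl⟩
        have h1 : c' j ∈ normalClosure (Set.range c') ⊔ I :=
          mem_sup_left (subset_normalClosure ⟨j, rfl⟩)
        by_cases hj : j = i₀
        · subst hj
          have h2 : b₀⁻¹ ∈ normalClosure (Set.range c') ⊔ I := mem_sup_right (inv_mem hb₀)
          have h3 := mul_mem h1 h2
          simpa [c'] using h3
        · simpa [c', update_of_ne hj] using h1
    have hmem : c i₀ * b₀ ∈ normalClosure (c' '' {i₁}ᶜ) :=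
      subset_normalClosure ⟨i₀, by simpa using h01, by simp [c']⟩
    obtain ⟨u, hu, huA⟩ := lift_one ha hIn hIA i₁ c'
      (finite_map_of_le (nc_le inferInstance hmem)
        (hfin _ (mul_mem (hc i₀) (hIA hb₀)) hne)) hc'
    refine ⟨fun k => if k = i₀ then b₀ else if k = i₁ then u else 1, fun k => ?_, ?_⟩
    · by_cases hk : k = i₀
      · simp [hk, hb₀]
      · by_cases hk1 : k = i₁
        · beta_reduce
          rw [if_neg hk, if_pos hk1]
          exact hu
        · simp [hk, hk1]
    · have e : (fun k => c k * if k = i₀ then b₀ else if k = i₁ then u else 1) =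
          update c' i₁ (c' i₁ * u) := by
        funext k
        by_cases hk1 : k = i₁
        · subst hk1
          simp [c', h01.symm]
        · by_cases hk : k = i₀
          · subst hk
            simp [c', update_of_ne hk1]
          · simp [c', hk, hk1]
      rw [e]
      exact huA

end Pool.MP_e4938c_al
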