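import Pool.Agent.Lib.MP_e4938c_al.Chain

/-!
# Nilpotent normal subgroups with Nielsen equivalent generating tuples above (MP_e4938c)
-/

namespace Pool.MP_e4938c_al

open Subgroup Function

universe u

variable {ι κ α : Type*} {G : Type*} [Group G]

/-- Inversion of one entry. -/
theorem NEq.update_inv [DecidableEq α] (v : α → G) (i : α) :
    NEq v (update v i (v i)⁻¹) := by
  let f : FreeGroup α →* FreeGroup α :=
    FreeGroup.lift (update FreeGroup.of i (FreeGroup.of i)⁻¹)
  have h1 : f.comp f = MonoidHom.id _ := by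
    ext a
    by_cases ha : a = i
    · subst ha
      simp [f]
    · simp [f, update_of_ne ha]
  refine ⟨MonoidHom.toMulEquiv f f h1 h1, fun a => ?_⟩
  by_cases ha : a = i
  · subst ha
    simp [f]
  · simp [f, update_of_ne ha]

/-- In a nilpotent normal subgroup `A` the commutator subgroup of `A` is superfluous. -/
theorem nilpotent_normal_superfluous {A : Subgroup G} [A.Normal] (hnil : Group.IsNilpotent A) :
    ∀ K : Subgroup G, K ⊔ ⁅A, A⁆ = ⊤ → K = ⊤ := by
  intro K hK
  have hA' : ⁅A, A⁆ ≤ A := commutator_le_right A A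
  have hmap : (commutator A).map A.subtype = ⁅A, A⁆ := by
    rw [commutator_def, map_commutator, ← MonoidHom.range_eq_map, range_subtype]
  have h1 : K.subgroupOf A ⊔ commutator A = ⊤ := by
    rw [eq_top_iff]
    intro a _
    have h2 : (a : G) ∈ K ⊔ ⁅A, A⁆ := by rw [hK]; exact mem_top _
    rw [mem_sup_of_normal_right] at h2
    obtain ⟨k, hk, b, hb, hkb⟩ := h2
    have hbA : b ∈ A := hA' hb
    have hkA : k ∈ A := by
      have h3 := A.mul_mem a.2 (A.inv_mem hbA)
      rw [← hkb] at h3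
      simpa using h3
    rw [← hmap] at hb
    obtain ⟨b', hb', rfl⟩ := hb
    have h4 : a = (⟨k, hkA⟩ : A) * b' := Subtype.ext hkb.symm
    rw [h4]
    exact mul_mem (mem_sup_left hk) (mem_sup_right hb')
  have h5 := nilpotent_superfluous A _ h1
  have h6 : A ≤ K := by
    intro a ha
    have : (⟨a, ha⟩ : A) ∈ K.subgroupOf A := by rw [h5]; exact mem_top _
    exact this
  rw [← hK]
  exact (sup_eq_left.mpr (hA'.trans h6)).symm

/-- Nielsen equivalence with trivial entries passes over superfluous normal subgroups. -/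
theorem neq_of_superfluous [Finite ι] [Nonempty κ] (B : Subgroup G) [B.Normal]
    (hB : ∀ K : Subgroup G, K ⊔ B = ⊤ → K = ⊤) {x m : ι → G} (hx : Gen x) (hm : Gen m)
    (h : NEq (Sum.elim (QuotientGroup.mk' B ∘ m) (fun _ : κ => 1))
      (Sum.elim (QuotientGroup.mk' B ∘ x) (fun _ : κ => 1))) :
    NEq (Sum.elim m (fun _ : κ => (1 : G))) (Sum.elim x (fun _ : κ => (1 : G))) := by
  rw [← comp_elim_one] at h
  obtain ⟨v, hv, hvx⟩ := h.exists_lift (QuotientGroup.mk' B)
  have hvg : Gen v := hv.gen (hm.elim _)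
  have e : v = Sum.elim (v ∘ Sum.inl) (v ∘ Sum.inr) := (Sum.elim_comp_inl_inr v).symm
  rw [e] at hv hvg
  refine hv.trans (step_superfluous hB hvg ?_ ?_)
  · intro j
    have h3 : QuotientGroup.mk' B (v (Sum.inr j)) = 1 := congrFun hvx (Sum.inr j)
    rwa [QuotientGroup.mk'_apply, QuotientGroup.eq_one_iff] at h3
  · intro i
    exact QuotientGroup.eq.mp (congrFun hvx (Sum.inl i))

/-- **Main lemma.** If the images in `G ⧸ A` are Nielsen equivalent, `A` is nilpotent and the
normal closure of the family `c`, then the tuples become Nielsen equivalent after adding as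
many trivial entries as `c` has members. -/
theorem neq_of_nilpotent [Finite ι] [Nonempty κ] {A : Subgroup G} [hAn : A.Normal]
    (hnil : Group.IsNilpotent A) {c : κ → G} (hc : normalClosure (Set.range c) = A)
    {x m : ι → G} (hx : Gen x) (hm : Gen m)
    (h : NEq (QuotientGroup.mk' A ∘ m) (QuotientGroup.mk' A ∘ x)) :
    NEq (Sum.elim m (fun _ : κ => (1 : G))) (Sum.elim x (fun _ : κ => (1 : G))) := by
  obtain ⟨v, hv, hvx⟩ := h.exists_lift (QuotientGroup.mk' A)
  have hvg : Gen v := hv.gen hm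
  have hvxA : ∀ i, (v i)⁻¹ * x i ∈ A := fun i => QuotientGroup.eq.mp (congrFun hvx i)
  refine (hv.elim_left _).trans ?_
  have hBA : ⁅A, A⁆ ≤ A := commutator_le_right A A
  refine neq_of_superfluous ⁅A, A⁆ (nilpotent_normal_superfluous hnil) hx hvg ?_
  let π := QuotientGroup.mk' ⁅A, A⁆
  have hπ : Surjective π := QuotientGroup.mk'_surjective _
  have hAbar : (A.map π).Normal := hAn.map π hπ
  have hab : ∀ a ∈ A.map π, ∀ b ∈ A.map π, a * b = b * a := by
    rintro _ ⟨a, ha, rfl⟩ _ ⟨b, hb, rfl⟩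
    rw [← map_mul, ← map_mul]
    apply QuotientGroup.eq.mpr
    have h1 : b⁻¹ * a⁻¹ * (b⁻¹)⁻¹ * (a⁻¹)⁻¹ ∈ ⁅A, A⁆ :=
      commutator_mem_commutator (A.inv_mem hb) (A.inv_mem ha)
    have e : (a * b)⁻¹ * (b * a) = b⁻¹ * a⁻¹ * (b⁻¹)⁻¹ * (a⁻¹)⁻¹ := by group
    rw [e]
    exact h1
  have hcbar : normalClosure (Set.range (π ∘ c)) = A.map π := by
    rw [Set.range_comp, ← map_normalClosure _ π hπ, hc]
  have hvbar : Gen (π ∘ v) := hvg.map π hπ
  have hxbar : Gen (π ∘ x) := hx.map π hπ
  have htop : closure (Set.range (π ∘ v)) ⊔ A.map π = ⊤ := by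
    have : closure (Set.range (π ∘ v)) = ⊤ := hvbar
    rw [this]
    exact top_sup_eq _
  refine ((NEq.slots_free hvbar _ (π ∘ c)).trans
    (sweep_abelian hab hcbar htop fun i => ?_)).trans (NEq.slots_free hxbar _ _)
  refine ⟨(v i)⁻¹ * x i, hvxA i, ?_⟩
  simp

/-- In an abelian group generated by `ι` elements, all generating families indexed by
`ι ⊕ Unit` are Nielsen equivalent. -/
theorem abelian_zero (ι : Type) [Finite ι] {Q : Type u} [CommGroup Q] {z : ι → Q}
    (hz : Gen z) {x : ι ⊕ Unit → Q} (hx : Gen x) :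
    NEq x (Sum.elim z (fun _ => (1 : Q))) := by
  obtain ⟨m, hm, hm1⟩ := exists_last_trivial hz x
  have hmg : Gen m := hm.gen hx
  have e : m = Sum.elim (m ∘ Sum.inl) (fun _ => (1 : Q)) := by
    funext j
    rcases j with j | j
    · rfl
    · exact hm1
  rw [e] at hmg hm
  exact hm.trans (abelian_base_aux ι Unit Q z (m ∘ Sum.inl) hz hmg.of_elim_one)

/-- The same for families indexed by `Fin (n + 2)`, with an explicit normal form. -/
theorem abelian_zero_fin {n : ℕ} {Q : Type u} [Group Q] (hQ : ∀ a b : Q, a * b = b * a)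
    {z : Fin (n + 1) → Q} (hz : Gen z) {x : Fin (n + 2) → Q} (hx : Gen x) :
    NEq x (Fin.cons 1 z) := by
  let _ : CommGroup Q := { (inferInstance : Group Q) with mul_comm := hQ }
  let e : Fin (n + 2) ≃ Fin (n + 1) ⊕ Unit :=
    (finSuccEquiv (n + 1)).trans (Equiv.optionEquivSumPUnit (Fin (n + 1)))
  have h := abelian_zero (Fin (n + 1)) hz (hx.comp_equiv e.symm)
  have h2 := h.reindex e.symm
  have e1 : (x ∘ e.symm) ∘ e.symm.symm = x := by
    funext i
    simp
  have e2 : Sum.elim z (fun _ => (1 : Q)) ∘ e.symm.symm = Fin.cons 1 z := by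
    funext i
    refine Fin.cases ?_ (fun j => ?_) i
    · simp [e]
    · simp [e]
  rwa [e1, e2] at h2

end Pool.MP_e4938c_al
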