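import Pool.Agent.Lib.MP_e4938c_al.NilpAb

/-!
# Nilpotent-by-abelian groups with small abelian quotient (MP_e4938c)
-/

namespace Pool.MP_e4938c_al

open Subgroup Function

universe u

variable {G : Type u} [Group G]

theorem comm_of_gen {α : Type*} {Q : Type*} [Group Q] {y : α → Q} (hy : Gen y)
    (h : ∀ i j, y i * y j = y j * y i) : ∀ a b : Q, a * b = b * a := by
  have h1 : ∀ (j : α) (a : Q), a * y j = y j * a := by
    intro j a
    have hle : closure (Set.range y) ≤ centralizer {y j} := by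
      rw [closure_le]
      rintro _ ⟨i, rfl⟩
      rw [SetLike.mem_coe, mem_centralizer_singleton_iff]
      exact h i j
    have ha : a ∈ centralizer {y j} := hle (by rw [hy]; exact mem_top _)
    rw [mem_centralizer_singleton_iff] at ha
    exact ha
  intro a b
  have hle : closure (Set.range y) ≤ centralizer {a} := by
    rw [closure_le]
    rintro _ ⟨i, rfl⟩
    rw [SetLike.mem_coe, mem_centralizer_singleton_iff]
    exact (h1 i a).symm
  have hb : b ∈ centralizer {a} := hle (by rw [hy]; exact mem_top _)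
  rw [mem_centralizer_singleton_iff] at hb
  exact hb.symm

/-- If the generators commute modulo a normal subgroup, then it contains the commutator
subgroup. -/
theorem commutator_le_of_gen {α : Type*} {y : α → G} (hy : Gen y) (B : Subgroup G) [B.Normal]
    (h : ∀ i j, QuotientGroup.mk' B (y i) * QuotientGroup.mk' B (y j) =
      QuotientGroup.mk' B (y j) * QuotientGroup.mk' B (y i)) : commutator G ≤ B := by
  have hc := comm_of_gen (hy.map (QuotientGroup.mk' B) (QuotientGroup.mk'_surjective B)) h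
  rw [commutator_def, commutator_le]
  intro g _ g' _
  change g * g' * g⁻¹ * g'⁻¹ ∈ B
  rw [← QuotientGroup.eq_one_iff, ← QuotientGroup.mk'_apply, map_mul, map_mul, map_mul,
    hc (QuotientGroup.mk' B g), map_inv, map_inv]
  group

theorem normal_of_commutator_le {B : Subgroup G} (h : commutator G ≤ B) : B.Normal := by
  constructor
  intro n hn g
  have h1 : g * n * g⁻¹ * n⁻¹ ∈ B := h (by
    rw [commutator_def]
    exact commutator_mem_commutator (mem_top g) (mem_top n))
  have h2 := B.mul_mem h1 hn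
  rwa [inv_mul_cancel_right] at h2

theorem comm_of_equiv {Q : Type*} [Group Q] {R : Type*} [CommGroup R] (φ : Q ≃* R) :
    ∀ a b : Q, a * b = b * a := by
  intro a b
  apply φ.injective
  rw [map_mul, map_mul, mul_comm]

/-- Groups with a nilpotent normal subgroup and infinite cyclic quotient. -/
theorem neq_by_int {A : Subgroup G} [A.Normal] (hnil : Group.IsNilpotent A)
    (φ : G ⧸ A ≃* Multiplicative ℤ) {n : ℕ} {x m : Fin (n + 2) → G} (hx : Gen x)
    (hm : Gen m) :
    NEq (Sum.elim m (fun _ : {j : Fin (n + 2) // j ≠ 1} => (1 : G)))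
      (Sum.elim x (fun _ : {j : Fin (n + 2) // j ≠ 1} => (1 : G))) := by
  classical
  let π := QuotientGroup.mk' A
  have hπ : Surjective π := QuotientGroup.mk'_surjective A
  have hQ := comm_of_equiv φ
  let t : G ⧸ A := φ.symm (Multiplicative.ofAdd 1)
  have ht : ∀ k : ℤ, φ (t ^ k) = Multiplicative.ofAdd k := by
    intro k
    rw [map_zpow]
    simp only [t, MulEquiv.apply_symm_apply]
    rw [← ofAdd_zsmul, smul_eq_mul, mul_one]
  let z : Fin (n + 1) → G ⧸ A := fun i => if i = 0 then t else 1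
  have hz : Gen z := by
    unfold Gen
    rw [eq_top_iff]
    intro q _
    have h1 : q = t ^ (Multiplicative.toAdd (φ q)) := by
      apply φ.injective
      rw [ht, ofAdd_toAdd]
    rw [h1]
    have h2 : t ∈ closure (Set.range z) := Subgroup.subset_closure ⟨0, by simp [z]⟩
    exact Subgroup.zpow_mem _ h2 _
  let w : Fin (n + 2) → G ⧸ A := Fin.cons 1 z
  have hw1 : w 1 = t := by
    have : (1 : Fin (n + 2)) = Fin.succ 0 := rfl
    rw [this]
    simp [w, z]
  have hw : ∀ j : Fin (n + 2), j ≠ 1 → w j = 1 := by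
    intro j
    refine Fin.cases ?_ (fun i => ?_) j
    · intro _
      simp [w]
    · intro hi
      have hi0 : i ≠ 0 := by
        rintro rfl
        exact hi rfl
      simp [w, z, hi0]
  have hnf : ∀ y : Fin (n + 2) → G, Gen y → NEq (π ∘ y) w := fun y hy =>
    abelian_zero_fin hQ hz (hy.map π hπ)
  obtain ⟨x', hx', hx'w⟩ := (hnf x hx).exists_lift π
  have hx'g : Gen x' := hx'.gen hx
  have hx'A : ∀ j, j ≠ 1 → x' j ∈ A := by
    intro j hj
    have h1 : π (x' j) = 1 := by
      rw [← hw j hj, ← hx'w]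
      rfl
    rwa [QuotientGroup.mk'_apply, QuotientGroup.eq_one_iff] at h1
  have hx'1 : π (x' 1) = t := by
    rw [← hw1, ← hx'w]
    rfl
  let c : {j : Fin (n + 2) // j ≠ 1} → G := fun j => x' j
  have hc : normalClosure (Set.range c) = A := by
    obtain ⟨B, hB⟩ : ∃ B, B = normalClosure (Set.range c) := ⟨_, rfl⟩
    have hBn : B.Normal := hB ▸ normalClosure_normal
    have hBA : B ≤ A := by
      rw [hB]
      apply normalClosure_le_normal
      rintro _ ⟨j, rfl⟩
      exact hx'A j j.2
    rw [← hB]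
    apply le_antisymm hBA
    intro a ha
    have h1 : a ∈ zpowers (x' 1) ⊔ B := by
      have h2 : (⊤ : Subgroup G) ≤ zpowers (x' 1) ⊔ B := by
        rw [← hx'g, closure_le]
        rintro _ ⟨j, rfl⟩
        by_cases hj : j = 1
        · rw [hj]
          exact mem_sup_left (mem_zpowers _)
        · apply mem_sup_right
          rw [hB]
          exact subset_normalClosure ⟨⟨j, hj⟩, rfl⟩
      exact h2 (mem_top a)
    rw [mem_sup_of_normal_right] at h1
    obtain ⟨_, ⟨k, rfl⟩, b, hb, hab⟩ := h1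
    have h3 : π b = 1 := by
      rw [QuotientGroup.mk'_apply, QuotientGroup.eq_one_iff]
      exact hBA hb
    have h4 : π a = 1 := by
      rwa [QuotientGroup.mk'_apply, QuotientGroup.eq_one_iff]
    rw [← hab, map_mul, h3, mul_one] at h4
    have h5 : t ^ k = 1 := by
      rw [← hx'1, ← map_zpow]
      exact h4
    have h6 := ht k
    rw [h5, map_one] at h6
    have h7 : k = 0 := by
      have := congrArg Multiplicative.toAdd h6
      simpa using this.symm
    rw [← hab, h7]
    simpa using hb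
  have : Nonempty {j : Fin (n + 2) // j ≠ 1} := ⟨⟨0, by simp⟩⟩
  exact neq_of_nilpotent hnil hc hx hm ((hnf m hm).trans (hnf x hx).symm)

/-- Groups with a nilpotent normal subgroup and an abelian quotient with two generators, for at
least three generators. -/
theorem neq_by_two {A : Subgroup G} [A.Normal] (hnil : Group.IsNilpotent A)
    (hQ : ∀ a b : G ⧸ A, a * b = b * a) (t₁ t₂ : G ⧸ A) (ht : closure {t₁, t₂} = ⊤)
    (hA : A = commutator G ∨ ∀ p q : ℤ, t₁ ^ p * t₂ ^ q = 1 → p = 0 ∧ q = 0)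
    {n : ℕ} {x m : Fin (n + 3) → G} (hx : Gen x) (hm : Gen m) :
    NEq (Sum.elim m (fun _ : {j : Fin (n + 3) // j ≠ 1 ∧ j ≠ 2} ⊕ Unit => (1 : G)))
      (Sum.elim x (fun _ : {j : Fin (n + 3) // j ≠ 1 ∧ j ≠ 2} ⊕ Unit => (1 : G))) := by
  classical
  let π := QuotientGroup.mk' A
  have hπ : Surjective π := QuotientGroup.mk'_surjective A
  let z : Fin (n + 2) → G ⧸ A := fun i => if i = 0 then t₁ else if i = 1 then t₂ else 1
  have hz : Gen z := by
    unfold Gen
    rw [eq_top_iff, ← ht, closure_le]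
    rintro _ (rfl | rfl)
    · exact Subgroup.subset_closure ⟨0, by simp [z]⟩
    · exact Subgroup.subset_closure ⟨1, by simp [z]⟩
  let w : Fin (n + 3) → G ⧸ A := Fin.cons 1 z
  have hw1 : w 1 = t₁ := by
    have : (1 : Fin (n + 3)) = Fin.succ 0 := rfl
    rw [this]
    simp [w, z]
  have hw2 : w 2 = t₂ := by
    change (Fin.cons 1 z : Fin (n + 3) → G ⧸ A) (Fin.succ 1) = t₂
    rw [Fin.cons_succ]
    simp [z]
  have hw : ∀ j : Fin (n + 3), j ≠ 1 → j ≠ 2 → w j = 1 := by
    intro j
    refine Fin.cases ?_ (fun i => ?_) j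
    · intro _ _
      simp [w]
    · intro hi hi'
      have hi0 : i ≠ 0 := by
        rintro rfl
        exact hi rfl
      have hi1 : i ≠ 1 := by
        rintro rfl
        exact hi' rfl
      simp [w, z, hi0, hi1]
  have hnf : ∀ y : Fin (n + 3) → G, Gen y → NEq (π ∘ y) w := fun y hy =>
    abelian_zero_fin hQ hz (hy.map π hπ)
  obtain ⟨x', hx', hx'w⟩ := (hnf x hx).exists_lift π
  have hx'g : Gen x' := hx'.gen hx
  have hx'A : ∀ j, j ≠ 1 → j ≠ 2 → x' j ∈ A := by
    intro j hj hj'
    have h1 : π (x' j) = 1 := by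
      rw [← hw j hj hj', ← hx'w]
      rfl
    rwa [QuotientGroup.mk'_apply, QuotientGroup.eq_one_iff] at h1
  have hx'1 : π (x' 1) = t₁ := by
    rw [← hw1, ← hx'w]
    rfl
  have hx'2 : π (x' 2) = t₂ := by
    rw [← hw2, ← hx'w]
    rfl
  let c : {j : Fin (n + 3) // j ≠ 1 ∧ j ≠ 2} ⊕ Unit → G :=
    Sum.elim (fun j => x' j) (fun _ => x' 1 * x' 2 * (x' 1)⁻¹ * (x' 2)⁻¹)
  have hc : normalClosure (Set.range c) = A := by
    obtain ⟨B, hB⟩ : ∃ B, B = normalClosure (Set.range c) := ⟨_, rfl⟩
    have hBn : B.Normal := hB ▸ normalClosure_normal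
    have hcommA : x' 1 * x' 2 * (x' 1)⁻¹ * (x' 2)⁻¹ ∈ A := by
      rw [← QuotientGroup.eq_one_iff, ← QuotientGroup.mk'_apply, map_mul, map_mul, map_mul,
        hQ (QuotientGroup.mk' A (x' 1)), map_inv, map_inv]
      group
    have hBA : B ≤ A := by
      rw [hB]
      apply normalClosure_le_normal
      rintro _ ⟨j, rfl⟩
      rcases j with j | j
      · exact hx'A j j.2.1 j.2.2
      · exact hcommA
    have hjB : ∀ j, j ≠ 1 → j ≠ 2 → x' j ∈ B := by
      intro j hj hj'
      rw [hB]
      exact subset_normalClosure ⟨Sum.inl ⟨j, hj, hj'⟩, rfl⟩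
    have hcB : x' 1 * x' 2 * (x' 1)⁻¹ * (x' 2)⁻¹ ∈ B := by
      rw [hB]
      exact subset_normalClosure ⟨Sum.inr (), rfl⟩
    have hcomm : commutator G ≤ B := by
      apply commutator_le_of_gen hx'g B
      have hone : ∀ j, j ≠ 1 → j ≠ 2 → QuotientGroup.mk' B (x' j) = 1 := by
        intro j hj hj'
        rw [QuotientGroup.mk'_apply, QuotientGroup.eq_one_iff]
        exact hjB j hj hj'
      have h12 : QuotientGroup.mk' B (x' 1) * QuotientGroup.mk' B (x' 2) =
          QuotientGroup.mk' B (x' 2) * QuotientGroup.mk' B (x' 1) := by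
        have h1 : QuotientGroup.mk' B (x' 1 * x' 2 * (x' 1)⁻¹ * (x' 2)⁻¹) = 1 := by
          rwa [QuotientGroup.mk'_apply, QuotientGroup.eq_one_iff]
        rw [map_mul, map_mul, map_mul, map_inv, map_inv, mul_inv_eq_one,
          mul_inv_eq_iff_eq_mul] at h1
        exact h1
      intro i j
      by_cases hi1 : i = 1
      · by_cases hj1 : j = 1
        · rw [hi1, hj1]
        · by_cases hj2 : j = 2
          · rw [hi1, hj2, h12]
          · rw [hone j hj1 hj2, mul_one, one_mul]
      · by_cases hi2 : i = 2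
        · by_cases hj1 : j = 1
          · rw [hi2, hj1, h12]
          · by_cases hj2 : j = 2
            · rw [hi2, hj2]
            · rw [hone j hj1 hj2, mul_one, one_mul]
        · rw [hone i hi1 hi2, mul_one, one_mul]
    rw [← hB]
    apply le_antisymm hBA
    rcases hA with hA | hA
    · rw [hA]
      exact hcomm
    · intro a ha
      have hB2 : (zpowers (x' 2) ⊔ B).Normal :=
        normal_of_commutator_le (hcomm.trans le_sup_right)
      have h1 : a ∈ zpowers (x' 1) ⊔ (zpowers (x' 2) ⊔ B) := by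
        have h2 : (⊤ : Subgroup G) ≤ zpowers (x' 1) ⊔ (zpowers (x' 2) ⊔ B) := by
          rw [← hx'g, closure_le]
          rintro _ ⟨j, rfl⟩
          by_cases hj : j = 1
          · rw [hj]
            exact mem_sup_left (mem_zpowers _)
          · by_cases hj' : j = 2
            · rw [hj']
              exact mem_sup_right (mem_sup_left (mem_zpowers _))
            · exact mem_sup_right (mem_sup_right (hjB j hj hj'))
        exact h2 (mem_top a)
      rw [mem_sup_of_normal_right] at h1
      obtain ⟨_, ⟨p, rfl⟩, b₁, hb₁, hab₁⟩ := h1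
      rw [mem_sup_of_normal_right] at hb₁
      obtain ⟨_, ⟨q, rfl⟩, b, hb, hab⟩ := hb₁
      have h3 : π b = 1 := by
        rw [QuotientGroup.mk'_apply, QuotientGroup.eq_one_iff]
        exact hBA hb
      have h4 : π a = 1 := by
        rwa [QuotientGroup.mk'_apply, QuotientGroup.eq_one_iff]
      rw [← hab₁, ← hab, map_mul, map_mul, h3, mul_one] at h4
      have h5 : t₁ ^ p * t₂ ^ q = 1 := by
        rw [← hx'1, ← hx'2, ← map_zpow, ← map_zpow]
        exact h4
      obtain ⟨hp, hq⟩ := hA p q h5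
      rw [← hab₁, ← hab, hp, hq]
      simpa using hb
  exact neq_of_nilpotent hnil hc hx hm ((hnf m hm).trans (hnf x hx).symm)

/-- Generating pairs of `ℤ/a × ℤ/b`, where `a ∣ b` and the units of `ℤ/a` are `±1`. -/
theorem zmod_pairs (a b : ℕ) (hab : a ∣ b) (hu : ∀ v : (ZMod a)ˣ, v = 1 ∨ v = -1)
    {x : Fin 2 → Multiplicative (ZMod a × ZMod b)} (hx : Gen x) :
    NEq x ![Multiplicative.ofAdd ((1, 0) : ZMod a × ZMod b),
      Multiplicative.ofAdd ((0, 1) : ZMod a × ZMod b)] := by
  classical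
  let E₁ : Multiplicative (ZMod a × ZMod b) := Multiplicative.ofAdd (1, 0)
  let E₂ : Multiplicative (ZMod a × ZMod b) := Multiplicative.ofAdd (0, 1)
  have hE₁ : ∀ k : ℤ, E₁ ^ k = Multiplicative.ofAdd ((k : ZMod a), (0 : ZMod b)) := by
    intro k
    simp only [E₁]
    rw [← ofAdd_zsmul]
    simp
  have hE₂ : ∀ k : ℤ, E₂ ^ k = Multiplicative.ofAdd ((0 : ZMod a), (k : ZMod b)) := by
    intro k
    simp only [E₂]
    rw [← ofAdd_zsmul]
    simp
  let π := QuotientGroup.mk' (zpowers E₁)
  have hπ : Surjective π := QuotientGroup.mk'_surjective _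
  let z : Fin 1 → Multiplicative (ZMod a × ZMod b) ⧸ zpowers E₁ := fun _ => π E₂
  have hz : Gen z := by
    unfold Gen
    rw [eq_top_iff]
    intro q _
    obtain ⟨g, rfl⟩ := hπ q
    obtain ⟨k, hk⟩ := ZMod.intCast_surjective (Multiplicative.toAdd g).1
    obtain ⟨l, hl⟩ := ZMod.intCast_surjective (Multiplicative.toAdd g).2
    have h1 : g = E₂ ^ l * E₁ ^ k := by
      rw [hE₁, hE₂, ← ofAdd_add]
      apply Multiplicative.toAdd.injective
      simp [hk, hl]
    have h2 : π (E₁ ^ k) = 1 := by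
      rw [QuotientGroup.mk'_apply, QuotientGroup.eq_one_iff]
      exact ⟨k, rfl⟩
    rw [h1, map_mul, h2, mul_one, map_zpow]
    have h3 : π E₂ ∈ Subgroup.closure (Set.range z) := Subgroup.subset_closure ⟨0, rfl⟩
    exact Subgroup.zpow_mem _ h3 _
  have h0 : NEq (π ∘ x) (Fin.cons 1 z) :=
    abelian_zero_fin (fun a b => mul_comm a b) hz (hx.map π hπ)
  obtain ⟨x', hx', hx'w⟩ := h0.exists_lift π
  have hx'g : Gen x' := hx'.gen hx
  have h00 : π (x' 0) = 1 := by
    have := congrFun hx'w 0
    simpa using this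
  have h01 : π (x' 1) = π E₂ := by
    have := congrFun hx'w 1
    simpa [z] using this
  rw [QuotientGroup.mk'_apply, QuotientGroup.eq_one_iff] at h00
  obtain ⟨u, hu0⟩ := h00
  have h02 : E₂⁻¹ * x' 1 ∈ zpowers E₁ := QuotientGroup.eq.mp h01.symm
  obtain ⟨s, hs⟩ := h02
  simp only at hu0 hs
  have hx0 : x' 0 = Multiplicative.ofAdd ((u : ZMod a), (0 : ZMod b)) := by
    rw [← hu0, hE₁]
  have hx1 : x' 1 = E₂ * E₁ ^ s := by
    rw [hs]
    group
  have hx1' : x' 1 = Multiplicative.ofAdd ((s : ZMod a), (1 : ZMod b)) := by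
    rw [hx1, hE₁]
    simp only [E₂]
    rw [← ofAdd_add]
    simp
  -- `u` is a unit
  have hunit : IsUnit (u : ZMod a) := by
    have h1 : E₁ ∈ Subgroup.closure ({x' 0, x' 1} : Set _) := by
      have h2 : Set.range x' = {x' 0, x' 1} := by
        ext g
        constructor
        · rintro ⟨i, rfl⟩
          fin_cases i
          · exact Or.inl rfl
          · exact Or.inr rfl
        · rintro (rfl | rfl)
          · exact ⟨0, rfl⟩
          · exact ⟨1, rfl⟩
      rw [← h2]
      have : Subgroup.closure (Set.range x') = ⊤ := hx'g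
      rw [this]
      exact mem_top _
    rw [Subgroup.mem_closure_pair] at h1
    obtain ⟨p, q, hpq⟩ := h1
    rw [hx0, hx1'] at hpq
    have h3 := congrArg Multiplicative.toAdd hpq
    simp only [toAdd_mul, toAdd_zpow, toAdd_ofAdd, E₁, Prod.smul_mk, Prod.mk_add_mk,
      Prod.mk.injEq, zsmul_eq_mul, mul_zero, zero_add, mul_one] at h3
    obtain ⟨h4, h5⟩ := h3
    have h6 : (q : ZMod a) = 0 := by
      rw [ZMod.intCast_zmod_eq_zero_iff_dvd] at h5 ⊢
      exact (Int.natCast_dvd_natCast.mpr hab).trans h5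
    rw [h6, zero_mul, add_zero] at h4
    exact IsUnit.of_mul_eq_one (p : ZMod a) (by rw [mul_comm]; exact h4)
  obtain ⟨U, hU⟩ := hunit
  -- make the first entry `E₁`
  obtain ⟨x'', hx'', hx''0, hx''1⟩ : ∃ x'' : Fin 2 → Multiplicative (ZMod a × ZMod b),
      NEq x' x'' ∧ x'' 0 = E₁ ∧ x'' 1 = x' 1 := by
    rcases hu U with h1 | h1
    · refine ⟨x', NEq.refl _, ?_, rfl⟩
      rw [hx0, ← hU, h1]
      rfl
    · refine ⟨update x' 0 (x' 0)⁻¹, NEq.update_inv x' 0, ?_, by simp⟩
      rw [update_self, hx0, ← hU, h1]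
      simp only [E₁]
      rw [← ofAdd_neg]
      simp
  have hfin : NEq x'' (update x'' 1 (x'' 1 * x'' 0 ^ (-s))) :=
    update_mul_zpow x'' (by decide) (-s)
  refine (hx'.trans hx'').trans (hfin.trans (NEq.of_eq ?_))
  funext i
  fin_cases i
  · simp [hx''0, E₁]
  · simp only [Fin.mk_one, update_self, hx''0, hx''1, hx1]
    rw [mul_assoc, ← zpow_add, add_neg_cancel, zpow_zero, mul_one]
    rfl

/-- Two generators, `G'` nilpotent, `G/G'` isomorphic to `ℤ/a × ℤ/b`. -/
theorem neq_pair (hnil : Group.IsNilpotent (commutator G)) (a b : ℕ) (hab : a ∣ b)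
    (hu : ∀ v : (ZMod a)ˣ, v = 1 ∨ v = -1)
    (φ : G ⧸ commutator G ≃* Multiplicative (ZMod a × ZMod b)) {x m : Fin 2 → G}
    (hx : Gen x) (hm : Gen m) :
    NEq (Sum.elim m (fun _ : Unit => (1 : G))) (Sum.elim x (fun _ : Unit => (1 : G))) := by
  let π := QuotientGroup.mk' (commutator G)
  have hπ : Surjective π := QuotientGroup.mk'_surjective _
  have hnf : ∀ y : Fin 2 → G, Gen y → NEq (π ∘ y)
      (φ.symm ∘ ![Multiplicative.ofAdd ((1, 0) : ZMod a × ZMod b),
        Multiplicative.ofAdd ((0, 1) : ZMod a × ZMod b)]) := by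
    intro y hy
    have h1 : Gen (φ.toMonoidHom ∘ (π ∘ y)) := (hy.map π hπ).map φ.toMonoidHom φ.surjective
    have h2 := (zmod_pairs a b hab hu h1).map φ.symm.toMonoidHom
    have e : (φ.symm.toMonoidHom : _ → G ⧸ commutator G) ∘ (φ.toMonoidHom ∘ (π ∘ y)) = π ∘ y := by
      funext i
      simp
    rw [e] at h2
    exact h2
  let c : Unit → G := fun _ => x 0 * x 1 * (x 0)⁻¹ * (x 1)⁻¹
  have hc : normalClosure (Set.range c) = commutator G := by
    obtain ⟨B, hB⟩ : ∃ B, B = normalClosure (Set.range c) := ⟨_, rfl⟩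
    have hBn : B.Normal := hB ▸ normalClosure_normal
    have hcB : x 0 * x 1 * (x 0)⁻¹ * (x 1)⁻¹ ∈ B := by
      rw [hB]
      exact subset_normalClosure ⟨(), rfl⟩
    rw [← hB]
    apply le_antisymm
    · rw [hB]
      apply normalClosure_le_normal
      rintro _ ⟨_, rfl⟩
      change x 0 * x 1 * (x 0)⁻¹ * (x 1)⁻¹ ∈ commutator G
      rw [commutator_def]
      exact commutator_mem_commutator (mem_top _) (mem_top _)
    · apply commutator_le_of_gen hx B
      have h12 : QuotientGroup.mk' B (x 0) * QuotientGroup.mk' B (x 1) =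
          QuotientGroup.mk' B (x 1) * QuotientGroup.mk' B (x 0) := by
        have h1 : QuotientGroup.mk' B (x 0 * x 1 * (x 0)⁻¹ * (x 1)⁻¹) = 1 := by
          rwa [QuotientGroup.mk'_apply, QuotientGroup.eq_one_iff]
        rw [map_mul, map_mul, map_mul, map_inv, map_inv, mul_inv_eq_one,
          mul_inv_eq_iff_eq_mul] at h1
        exact h1
      intro i j
      fin_cases i <;> fin_cases j
      · rfl
      · exact h12
      · exact h12.symm
      · rfl
  exact neq_of_nilpotent hnil hc hx hm ((hnf m hm).trans (hnf x hx).symm)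

end Pool.MP_e4938c_al
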