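import Pool.Agent.Lib.MP_e4938c_al.NilpAb2
import Pool.Agent.Lib.MP_e4938c_al.Chain

/-!
# Nilpotent by abelian groups, final form (MP_e4938c)
-/

namespace Pool.MP_e4938c_al

open Subgroup Function

universe u

variable {G : Type u} [Group G]

/-- From a bound for all pairs of generating families to the numbers of the problem. -/
theorem bound_of_forall (hfg : Group.FG G) {N e : ℕ} (hN : genRank G = N) (he : e + 1 ≤ N)
    (h : ∀ x m : Fin N → G, Gen x → Gen m → relCount m ≤ relCount x + e)
    (m : Fin (genRank G) → G) (hm : Gen m) : relCount m + 1 ≤ genRank G + relRank G := by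
  subst hN
  have h1 : relCount m ≤ relRank G + e := r_add_le hfg (fun x hx => h x m hx hm)
  have h5 : ((e : ℕ∞) + 1) ≤ (genRank G : ℕ∞) := by exact_mod_cast he
  calc relCount m + 1 ≤ relRank G + e + 1 := by gcongr
    _ = relRank G + (e + 1) := by rw [add_assoc]
    _ ≤ relRank G + genRank G := by gcongr
    _ = genRank G + relRank G := add_comm _ _

theorem genRank_ne_zero [Nontrivial G] (hfg : Group.FG G) : genRank G ≠ 0 := by
  intro h
  obtain ⟨x, hx⟩ := exists_basis G
  have : IsEmpty (Fin (genRank G)) := by rw [h]; infer_instance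
  have h1 : closure (Set.range x) = ⊥ := by
    rw [Set.range_eq_empty, Subgroup.closure_empty]
  have h2 : (⊥ : Subgroup G) = ⊤ := h1 ▸ hx
  exact bot_ne_top h2

theorem card_ne_one (n : ℕ) : ENat.card {j : Fin (n + 2) // j ≠ 1} = (n + 1 : ℕ) := by
  rw [ENat.card_eq_coe_fintype_card]
  congr 1
  simp

theorem card_ne_two (n : ℕ) :
    ENat.card ({j : Fin (n + 3) // j ≠ 1 ∧ j ≠ 2} ⊕ Unit) ≤ (n + 2 : ℕ) := by
  have h1 : ENat.card {j : Fin (n + 3) // j ≠ 1} = (n + 2 : ℕ) := card_ne_one (n + 1)
  rw [← h1]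
  let f : {j : Fin (n + 3) // j ≠ 1 ∧ j ≠ 2} ⊕ Unit → {j : Fin (n + 3) // j ≠ 1} :=
    Sum.elim (fun j => ⟨j.1, j.2.1⟩) (fun _ => ⟨2, by
      intro h
      have h' : (2 : Fin (n + 3)).val = 1 := by rw [h]; rfl
      have h'' : (2 : Fin (n + 3)).val = 2 := rfl
      omega⟩)
  apply ENat.card_le_card_of_injective (f := f)
  rintro (a | a) (b | b) hab
  · simp only [f, Sum.elim_inl, Subtype.mk.injEq] at hab
    rw [Subtype.ext hab]
  · simp only [f, Sum.elim_inl, Sum.elim_inr, Subtype.mk.injEq] at hab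
    exact absurd hab a.2.2
  · simp only [f, Sum.elim_inl, Sum.elim_inr, Subtype.mk.injEq] at hab
    exact absurd hab.symm b.2.2
  · rfl

/-- A generating pair of `ℤ × ℤ` is independent. -/
theorem indep_of_gen {x : Fin 2 → Multiplicative (ℤ × ℤ)} (hx : Gen x) {p q : ℤ}
    (h : x 0 ^ p * x 1 ^ q = 1) : p = 0 ∧ q = 0 := by
  let f : (ℤ × ℤ) →ₗ[ℤ] (ℤ × ℤ) :=
    LinearMap.coprod (LinearMap.toSpanSingleton ℤ (ℤ × ℤ) (Multiplicative.toAdd (x 0)))
      (LinearMap.toSpanSingleton ℤ (ℤ × ℤ) (Multiplicative.toAdd (x 1)))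
  have hf : ∀ a b : ℤ, f (a, b) = Multiplicative.toAdd (x 0 ^ a * x 1 ^ b) := by
    intro a b
    simp only [f, LinearMap.coprod_apply, LinearMap.toSpanSingleton_apply, toAdd_mul,
      toAdd_zpow]
  have hr : Set.range x = {x 0, x 1} := by
    ext g
    constructor
    · rintro ⟨i, rfl⟩
      fin_cases i
      · exact Or.inl rfl
      · exact Or.inr rfl
    · rintro (rfl | rfl)
      · exact ⟨0, rfl⟩
      · exact ⟨1, rfl⟩
  have hsurj : Surjective f := by
    intro v
    have h1 : Multiplicative.ofAdd v ∈ Subgroup.closure (Set.range x) := by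
      have : Subgroup.closure (Set.range x) = ⊤ := hx
      rw [this]
      exact mem_top _
    rw [hr, Subgroup.mem_closure_pair] at h1
    obtain ⟨a, b, hab⟩ := h1
    refine ⟨(a, b), ?_⟩
    rw [hf, hab]
    rfl
  have hinj : Injective f := OrzechProperty.injective_of_surjective_endomorphism f hsurj
  have h2 : f (p, q) = f 0 := by
    rw [hf, h, map_zero]
    rfl
  have h3 := hinj h2
  exact ⟨congrArg Prod.fst h3, congrArg Prod.snd h3⟩

/-- If `G` has two generators and `G ⧸ A` is free abelian of rank two, then `A` is the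
commutator subgroup. -/
theorem eq_commutator {A : Subgroup G} [A.Normal] (φ : G ⧸ A ≃* Multiplicative (ℤ × ℤ))
    {x : Fin 2 → G} (hx : Gen x) : A = commutator G := by
  have hQ : ∀ a b : G ⧸ A, a * b = b * a := by
    intro a b
    apply φ.injective
    rw [map_mul, map_mul, mul_comm]
  have hcA : commutator G ≤ A := by
    rw [commutator_def, commutator_le]
    intro g _ h _
    rw [← QuotientGroup.eq_one_iff, commutatorElement_def]
    have := hQ (g : G ⧸ A) (h : G ⧸ A)
    rw [QuotientGroup.mk_mul, QuotientGroup.mk_mul, QuotientGroup.mk_mul, QuotientGroup.mk_inv,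
      QuotientGroup.mk_inv, this]
    group
  apply le_antisymm _ hcA
  intro a ha
  have hr : Set.range x = {x 0, x 1} := by
    ext g
    constructor
    · rintro ⟨i, rfl⟩
      fin_cases i
      · exact Or.inl rfl
      · exact Or.inr rfl
    · rintro (rfl | rfl)
      · exact ⟨0, rfl⟩
      · exact ⟨1, rfl⟩
  -- in the abelianisation
  have h1 : Abelianization.of a ∈ closure ({Abelianization.of (x 0), Abelianization.of (x 1)} :
      Set (Abelianization G)) := by
    have h2 : (closure (Set.range x)).map (Abelianization.of : G →* _) =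
        closure {Abelianization.of (x 0), Abelianization.of (x 1)} := by
      rw [MonoidHom.map_closure, hr, Set.image_pair]
    rw [← h2]
    refine ⟨a, ?_, rfl⟩
    have : closure (Set.range x) = ⊤ := hx
    rw [this]
    exact mem_top _
  rw [Subgroup.mem_closure_pair] at h1
  obtain ⟨p, q, hpq⟩ := h1
  have h3 : a⁻¹ * (x 0 ^ p * x 1 ^ q) ∈ commutator G := by
    rw [← map_zpow, ← map_zpow, ← map_mul] at hpq
    have h4 : Abelianization.of a = Abelianization.of (x 0 ^ p * x 1 ^ q) := hpq.symm
    have h5 : (QuotientGroup.mk a : G ⧸ commutator G) = QuotientGroup.mk (x 0 ^ p * x 1 ^ q) :=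
      h4
    exact QuotientGroup.eq.mp h5
  have h6 : x 0 ^ p * x 1 ^ q ∈ A := by
    have := A.mul_mem ha (hcA h3)
    simpa using this
  let y : Fin 2 → Multiplicative (ℤ × ℤ) := fun i => φ (QuotientGroup.mk' A (x i))
  have hy : Gen y := (hx.map (QuotientGroup.mk' A) (QuotientGroup.mk'_surjective A)).map
    φ.toMonoidHom φ.surjective
  have h7 : y 0 ^ p * y 1 ^ q = 1 := by
    have h8 : QuotientGroup.mk' A (x 0 ^ p * x 1 ^ q) = 1 := by
      rw [QuotientGroup.mk'_apply, QuotientGroup.eq_one_iff]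
      exact h6
    have h9 : y 0 ^ p * y 1 ^ q = φ (QuotientGroup.mk' A (x 0 ^ p * x 1 ^ q)) := by
      simp only [y, map_mul, map_zpow]
    rw [h9, h8, map_one]
  obtain ⟨hp, hq⟩ := indep_of_gen hy h7
  rw [hp, hq, zpow_zero, zpow_zero, mul_one, mul_one] at h3
  have := (commutator G).inv_mem h3
  simpa using this

end Pool.MP_e4938c_al
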