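import Pool.Agent.Lib.MP_e4938c_al.Rel2
import Pool.Agent.Lib.MP_e4938c_al.FreeProd

/-!
# Groups with one class of redundant generating families (MP_e4938c)
-/

namespace Pool.MP_e4938c_al

open Subgroup Function

universe u

/-- The smallest class of groups that contains the nilpotent and the finite soluble groups and
is closed under free products of finitely generated groups and isomorphic copies. -/
inductive RedundantClass : ∀ (Q : Type u) [Group Q], Prop
  | nilpotent (Q : Type u) [Group Q] (h : Group.IsNilpotent Q) : RedundantClass Q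
  | soluble (Q : Type u) [Group Q] (h : Group.IsSolvable Q) (h' : Finite Q) : RedundantClass Q
  | coprod (A B : Type u) [Group A] [Group B] (hA : Group.FG A) (hB : Group.FG B)
      (h : RedundantClass A) (h' : RedundantClass B) : RedundantClass (Monoid.Coprod A B)
  | equiv (A B : Type u) [Group A] [Group B] (e : A ≃* B) (h : RedundantClass A) :
      RedundantClass B

theorem RedundantClass.stable {Q : Type u} [Group Q] (h : RedundantClass Q) :
    ∀ n, Stable 1 n Q := by
  induction h with
  | nilpotent Q h => exact fun n => Stable.of_nilpotent le_rfl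
  | soluble Q h h' =>
    intro n
    have hs : Group.IsSolvable (⊤ : Subgroup Q) :=
      Group.isSolvable_of_surjective (f := (Subgroup.topEquiv (G := Q)).symm.toMonoidHom)
        Subgroup.topEquiv.symm.surjective
    have hf : Finite (⊤ : Subgroup Q) := Finite.of_equiv Q (Subgroup.topEquiv (G := Q)).symm.toEquiv
    have hw : WellFoundedGT (Subgroup (⊤ : Subgroup Q)) := inferInstance
    refine Stable.of_solvable le_rfl ⊤ hs hw (Or.inl hf) ?_
    have : Subsingleton (Q ⧸ (⊤ : Subgroup Q)) := QuotientGroup.subsingleton_quotient_top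
    exact Stable.of_comm le_rfl (fun a b => Subsingleton.elim _ _)
  | coprod A B hA hB _ _ ih ih' => exact Stable.coprod ih ih'
  | equiv A B e _ ih => exact fun n => (ih n).of_equiv e

theorem RConn.bot_toNEq {α : Type*} {G : Type*} [Group G] {v w : α → G}
    (h : RConn (⊥ : Subgroup G) v w) : NEq v w := by
  let c : Fin 0 → G := fun i => i.elim0
  have hc : closure (Set.range c) = ⊥ := by
    rw [Set.range_eq_empty, Subgroup.closure_empty]
  rw [← hc] at h
  have h1 := h.toNEq.reindex (Equiv.sumEmpty α (Fin 0))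
  have e : ∀ z : α → G, Sum.elim z c ∘ (Equiv.sumEmpty α (Fin 0)).symm = z := by
    intro z
    funext j
    simp
  rwa [e, e] at h1

theorem exists_trivial_last {G : Type*} [Group G] {n : ℕ} {β : Type*}
    {v : Fin n ⊕ Fin 1 → G} (e : β ≃ Fin n ⊕ Fin 1) {u : β → G} (h : NEq (v ∘ e) u) {b₀ : β}
    (hb : u b₀ = 1) : ∃ Y : Fin n → G, NEq v (Sum.elim Y (fun _ => 1)) := by
  classical
  let E : Fin n ⊕ Fin 1 ≃ β := e.symm.trans (Equiv.swap (e.symm (Sum.inr 0)) b₀)
  have hE : E (Sum.inr 0) = b₀ := by simp [E]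
  refine ⟨u ∘ E ∘ Sum.inl, ?_⟩
  have h1 := h.reindex E.symm
  have h2 : NEq v (v ∘ (E.trans e)) := NEq.perm (E.trans e) v
  refine h2.trans (NEq.trans h1 (NEq.of_eq ?_))
  funext j
  rcases j with j | j
  · rfl
  · have : j = 0 := Subsingleton.elim _ _
    subst this
    change u (E (Sum.inr 0)) = 1
    rw [hE, hb]

/-- A padded generating family. -/
theorem exists_padded {A : Type*} [Group A] [Group.FG A] {p : ℕ} (h : genRank A ≤ p) :
    ∃ y : Fin p → A, Gen y := by
  obtain ⟨z, hz⟩ := exists_basis A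
  obtain ⟨r, rfl⟩ := Nat.exists_eq_add_of_le h
  exact ⟨Sum.elim z (fun _ : Fin r => 1) ∘ finSumFinEquiv.symm,
    (hz.elim _).comp_equiv finSumFinEquiv.symm⟩

theorem redundant_base {Q : Type u} [Group Q] (N : Subgroup Q) [N.Normal]
    (hN : Group.IsNilpotent (Q ⧸ N)) (hsol : Group.IsSolvable N) (hfin : Finite N) {n : ℕ}
    {y₀ : Fin n → Q} (hy₀ : Gen y₀) {v : Fin n ⊕ Fin 1 → Q} (hv : Gen v) :
    NEq v (Sum.elim y₀ (fun _ => 1)) := by
  apply RConn.bot_toNEq
  have hy : closure (Set.range y₀) ⊔ ⊥ = ⊤ := by rw [sup_bot_eq]; exact hy₀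
  have hv' : closure (Set.range v) ⊔ ⊥ = ⊤ := by rw [sup_bot_eq]; exact hv
  exact relative_of_base (n := 0) N hsol inferInstance hy (Or.inl hfin)
    (rbase_nilpotent N hN hy (fun _ => True)) v trivial hv'

theorem RedundantClass.exists_trivial {Q : Type u} [Group Q] (h : RedundantClass Q) :
    ∀ (n : ℕ), (∃ y₀ : Fin n → Q, Gen y₀) → ∀ v : Fin n ⊕ Fin 1 → Q, Gen v →
      ∃ Y : Fin n → Q, NEq v (Sum.elim Y (fun _ => 1)) := by
  induction h with
  | nilpotent Q h =>
    rintro n ⟨y₀, hy₀⟩ v hv
    have hN : Group.IsNilpotent (Q ⧸ (⊥ : Subgroup Q)) :=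
      Group.nilpotent_of_mulEquiv (QuotientGroup.quotientBot (G := Q)).symm
    exact ⟨y₀, redundant_base ⊥ hN inferInstance inferInstance hy₀ hv⟩
  | soluble Q h h' =>
    rintro n ⟨y₀, hy₀⟩ v hv
    have : Subsingleton (Q ⧸ (⊤ : Subgroup Q)) := QuotientGroup.subsingleton_quotient_top
    have hs : Group.IsSolvable (⊤ : Subgroup Q) :=
      Group.isSolvable_of_surjective (f := (Subgroup.topEquiv (G := Q)).symm.toMonoidHom)
        Subgroup.topEquiv.symm.surjective
    have hf : Finite (⊤ : Subgroup Q) := Finite.of_equiv Q (Subgroup.topEquiv (G := Q)).symm.toEquiv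
    exact ⟨y₀, redundant_base ⊤ inferInstance hs hf hy₀ hv⟩
  | coprod A B hA hB _ _ ih ih' =>
    rintro n ⟨y₀, hy₀⟩ v hv
    obtain ⟨p₀, q₀, e₀, a₀, b₀, ha₀, hb₀, _⟩ := grushko hy₀
    have hn : genRank A + genRank B ≤ n := by
      have h1 := Fintype.card_congr e₀
      simp only [Fintype.card_sum, Fintype.card_fin] at h1
      have h2 := genRank_le ha₀
      have h3 := genRank_le hb₀
      omega
    obtain ⟨p, q, e, a, b, ha, hb, hab⟩ := grushko (hv.comp_equiv finSumFinEquiv.symm)
    have hpq := Fintype.card_congr e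
    simp only [Fintype.card_sum, Fintype.card_fin] at hpq
    have hpq' : genRank A < p ∨ genRank B < q := by omega
    rcases hpq' with hp | hq
    · obtain ⟨p', rfl⟩ : ∃ p', p = p' + 1 := ⟨p - 1, by omega⟩
      obtain ⟨y, hy⟩ := ih p' (exists_padded (by omega)) (a ∘ finSumFinEquiv)
        (ha.comp_equiv finSumFinEquiv)
      have h1 := hy.reindex finSumFinEquiv
      have e1 : (a ∘ finSumFinEquiv) ∘ (finSumFinEquiv (m := p') (n := 1)).symm = a := by
        funext j
        simp
      rw [e1] at h1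
      have h2 := (h1.map (Monoid.Coprod.inl : A →* Monoid.Coprod A B)).elim_left
        ((Monoid.Coprod.inr : B →* Monoid.Coprod A B) ∘ b)
      exact exists_trivial_last (e.trans finSumFinEquiv.symm) (hab.trans h2)
        (b₀ := Sum.inl (finSumFinEquiv (Sum.inr 0))) (by simp)
    · obtain ⟨q', rfl⟩ : ∃ q', q = q' + 1 := ⟨q - 1, by omega⟩
      obtain ⟨y, hy⟩ := ih' q' (exists_padded (by omega)) (b ∘ finSumFinEquiv)
        (hb.comp_equiv finSumFinEquiv)
      have h1 := hy.reindex finSumFinEquiv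
      have e1 : (b ∘ finSumFinEquiv) ∘ (finSumFinEquiv (m := q') (n := 1)).symm = b := by
        funext j
        simp
      rw [e1] at h1
      have h2 := ((h1.map (Monoid.Coprod.inr : B →* Monoid.Coprod A B)).elim_left
        ((Monoid.Coprod.inl : A →* Monoid.Coprod A B) ∘ a)).reindex
        (Equiv.sumComm (Fin (q' + 1)) (Fin p))
      have e2 : ∀ z : Fin (q' + 1) → Monoid.Coprod A B, Sum.elim z
          ((Monoid.Coprod.inl : A →* Monoid.Coprod A B) ∘ a) ∘
          (Equiv.sumComm (Fin (q' + 1)) (Fin p)).symm =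
          Sum.elim ((Monoid.Coprod.inl : A →* Monoid.Coprod A B) ∘ a) z := by
        intro z
        funext j
        rcases j with j | j <;> rfl
      rw [e2, e2] at h2
      exact exists_trivial_last (e.trans finSumFinEquiv.symm) (hab.trans h2)
        (b₀ := Sum.inr (finSumFinEquiv (Sum.inr 0))) (by simp)
  | equiv A B e _ ih =>
    rintro n ⟨y₀, hy₀⟩ v hv
    obtain ⟨Y, hY⟩ := ih n ⟨e.symm ∘ y₀, hy₀.map e.symm.toMonoidHom e.symm.surjective⟩
      (e.symm ∘ v) (hv.map e.symm.toMonoidHom e.symm.surjective)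
    have h1 := hY.map e.toMonoidHom
    rw [comp_elim_one] at h1
    have e1 : (e.toMonoidHom : A → B) ∘ (e.symm ∘ v) = v := by
      funext j
      simp
    rw [e1] at h1
    exact ⟨_, h1⟩

/-- All generating families of the same length are equivalent if the length is not minimal. -/
theorem RedundantClass.one_class {Q : Type u} [Group Q] (h : RedundantClass Q) {α : Type}
    [Fintype α] {n : ℕ} (hα : Fintype.card α = n + 1) (hn : ∃ y₀ : Fin n → Q, Gen y₀)
    {v w : α → Q} (hv : Gen v) (hw : Gen w) : NEq v w := by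
  let E : Fin n ⊕ Fin 1 ≃ α := Fintype.equivOfCardEq (by simp [hα])
  apply NEq.of_reindex E
  obtain ⟨Y, hY⟩ := h.exists_trivial n hn (v ∘ E) (hv.comp_equiv E)
  obtain ⟨Y', hY'⟩ := h.exists_trivial n hn (w ∘ E) (hw.comp_equiv E)
  have h1 : Gen Y := (hY.gen (hv.comp_equiv E)).of_elim_one
  have h2 : Gen Y' := (hY'.gen (hw.comp_equiv E)).of_elim_one
  exact (hY.trans (h.stable n Y' Y h2 h1)).trans hY'.symm

/-- The base: a free product of nilpotent and finite soluble groups. -/
theorem rbase_redundant {e : ℕ} {G : Type u} [Group G] {C : Subgroup G}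
    (N : Subgroup G) [hNn : N.Normal] (hR : RedundantClass (G ⧸ N)) {x : Fin e → G}
    (hxN : closure (Set.range x) ⊔ N = ⊤) {n : ℕ} :
    RPred (fun v : Fin e ⊕ Fin (n + 1) → G => closure (Set.range v) ⊔ N = ⊤) C x N := by
  intro v hP _
  let π := QuotientGroup.mk' N
  have hgen : ∀ {α : Type} (z : α → G), closure (Set.range z) ⊔ N = ⊤ → Gen (π ∘ z) := by
    intro α z hz
    unfold Gen
    have hN : N.map π = ⊥ := by
      rw [Subgroup.map_eq_bot_iff, QuotientGroup.ker_mk']
    rw [Set.range_comp, ← MonoidHom.map_closure]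
    have h1 := congrArg (Subgroup.map π) hz
    rw [Subgroup.map_sup, hN, sup_bot_eq,
      Subgroup.map_top_of_surjective π (QuotientGroup.mk'_surjective N)] at h1
    exact h1
  have hx := hgen x hxN
  have hy : ∃ y₀ : Fin (e + n) → G ⧸ N, Gen y₀ :=
    ⟨Sum.elim (π ∘ x) (fun _ : Fin n => 1) ∘ finSumFinEquiv.symm,
      (hx.elim _).comp_equiv finSumFinEquiv.symm⟩
  have h1 : NEq (π ∘ v) (Sum.elim (π ∘ x) (fun _ => 1)) :=
    hR.one_class (n := e + n) (by simp [add_assoc]) hy (hgen v hP) (hx.elim _)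
  obtain ⟨w, hw, he⟩ := h1.exists_lift π
  refine ⟨w, RConn.of_NEq hw, fun i => ?_, fun k => ?_⟩
  · exact QuotientGroup.eq.mp (congrFun he (Sum.inl i))
  · have h2 := congrFun he (Sum.inr k)
    have h3 : π (w (Sum.inr k)) = 1 := h2
    rwa [QuotientGroup.mk'_apply, QuotientGroup.eq_one_iff] at h3

end Pool.MP_e4938c_al
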