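import Pool.Agent.Lib.MP_e4938c_al.Steps

/-!
# Nielsen moves relative to a subgroup (MP_e4938c)
-/

namespace Pool.MP_e4938c_al

open Subgroup Function

variable {α ι κ : Type*} {G H : Type*} [Group G] [Group H]

/-- Multiply the entries in a set `S` of places on both sides by elements of the subgroup
generated by `C` and the other entries. -/
def RMove (C : Subgroup G) (v w : α → G) : Prop :=
  ∃ S : Set α, (∀ a, a ∉ S → w a = v a) ∧ ∀ a ∈ S,
    ∃ g ∈ closure (v '' Sᶜ) ⊔ C, ∃ h ∈ closure (v '' Sᶜ) ⊔ C, w a = g * v a * h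

/-- Chains of Nielsen equivalences and moves relative to `C`. -/
def RConn (C : Subgroup G) : (α → G) → (α → G) → Prop :=
  Relation.ReflTransGen fun v w => NEq v w ∨ RMove C v w

omit [Group G] in
theorem RMove.image_eq {v w : α → G} {S : Set α} (h : ∀ a, a ∉ S → w a = v a) :
    w '' Sᶜ = v '' Sᶜ :=
  Set.image_congr fun a ha => h a ha

theorem RMove.symm {C : Subgroup G} {v w : α → G} (h : RMove C v w) : RMove C w v := by
  obtain ⟨S, h1, h2⟩ := h
  refine ⟨S, fun a ha => (h1 a ha).symm, fun a ha => ?_⟩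
  obtain ⟨g, hg, h, hh, e⟩ := h2 a ha
  rw [RMove.image_eq h1]
  refine ⟨g⁻¹, inv_mem hg, h⁻¹, inv_mem hh, ?_⟩
  rw [e]
  group

theorem RConn.refl {C : Subgroup G} (v : α → G) : RConn C v v := Relation.ReflTransGen.refl

theorem RConn.of_eq {C : Subgroup G} {v w : α → G} (h : v = w) : RConn C v w :=
  h ▸ RConn.refl v

theorem RConn.trans {C : Subgroup G} {u v w : α → G} (h : RConn C u v) (h' : RConn C v w) :
    RConn C u w := Relation.ReflTransGen.trans h h'

theorem RConn.symm {C : Subgroup G} {v w : α → G} (h : RConn C v w) : RConn C w v := by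
  induction h with
  | refl => exact RConn.refl _
  | tail _ h ih =>
    refine RConn.trans (Relation.ReflTransGen.single ?_) ih
    rcases h with h | h
    · exact Or.inl h.symm
    · exact Or.inr h.symm

theorem RConn.of_NEq {C : Subgroup G} {v w : α → G} (h : NEq v w) : RConn C v w :=
  Relation.ReflTransGen.single (Or.inl h)

theorem RConn.of_move {C : Subgroup G} {v w : α → G} (h : RMove C v w) : RConn C v w :=
  Relation.ReflTransGen.single (Or.inr h)

theorem NEq.closure_eq {v w : α → G} (h : NEq v w) :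
    closure (Set.range w) = closure (Set.range v) := by
  obtain ⟨φ, hφ⟩ := h
  rw [← FreeGroup.range_lift_eq_closure, ← FreeGroup.range_lift_eq_closure]
  ext g
  constructor
  · rintro ⟨z, rfl⟩
    exact ⟨φ z, NEq.lift_eq hφ z⟩
  · rintro ⟨z, rfl⟩
    refine ⟨φ.symm z, ?_⟩
    rw [← NEq.lift_eq hφ, MulEquiv.apply_symm_apply]

theorem RMove.sup_le {C : Subgroup G} {v w : α → G} (h : RMove C v w) :
    closure (Set.range w) ⊔ C ≤ closure (Set.range v) ⊔ C := by
  obtain ⟨S, h1, h2⟩ := h
  apply _root_.sup_le _ le_sup_right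
  rw [closure_le]
  rintro _ ⟨a, rfl⟩
  have hle : closure (v '' Sᶜ) ⊔ C ≤ closure (Set.range v) ⊔ C :=
    sup_le_sup_right (Subgroup.closure_mono (Set.image_subset_range _ _)) _
  have hv : v a ∈ closure (Set.range v) ⊔ C := mem_sup_left (Subgroup.subset_closure ⟨a, rfl⟩)
  by_cases ha : a ∈ S
  · obtain ⟨g, hg, h, hh, e⟩ := h2 a ha
    rw [SetLike.mem_coe, e]
    exact mul_mem (mul_mem (hle hg) hv) (hle hh)
  · rw [SetLike.mem_coe, h1 a ha]
    exact hv

theorem RConn.sup_eq {C : Subgroup G} {v w : α → G} (h : RConn C v w) :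
    closure (Set.range w) ⊔ C = closure (Set.range v) ⊔ C := by
  induction h with
  | refl => rfl
  | tail _ h ih =>
    rw [← ih]
    rcases h with h | h
    · rw [h.closure_eq]
    · exact le_antisymm h.sup_le h.symm.sup_le

/-- Lifting. -/
theorem RConn.exists_lift {C : Subgroup G} (f : G →* H) {v : α → G} {w : α → H}
    (h : RConn (C.map f) (f ∘ v) w) : ∃ v', RConn C v v' ∧ f ∘ v' = w := by
  classical
  induction h with
  | refl => exact ⟨v, RConn.refl v, rfl⟩
  | tail _ h ih =>
    obtain ⟨u, hu, rfl⟩ := ih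
    rcases h with h | h
    · obtain ⟨u', hu', he⟩ := h.exists_lift f
      exact ⟨u', hu.trans (RConn.of_NEq hu'), he⟩
    · rename_i w' _
      obtain ⟨S, h1, h2⟩ := h
      have h3 : ∀ a, ∃ g ∈ closure (u '' Sᶜ) ⊔ C, ∃ h ∈ closure (u '' Sᶜ) ⊔ C,
          a ∈ S → w' a = f (g * u a * h) := by
        intro a
        by_cases ha : a ∈ S
        · obtain ⟨g, hg, h, hh, e⟩ := h2 a ha
          have hmap : closure ((f ∘ u) '' Sᶜ) ⊔ C.map f = (closure (u '' Sᶜ) ⊔ C).map f := by
            rw [Subgroup.map_sup, MonoidHom.map_closure, Set.image_comp]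
          rw [hmap] at hg hh
          obtain ⟨g', hg', rfl⟩ := hg
          obtain ⟨h', hh', rfl⟩ := hh
          exact ⟨g', hg', h', hh', fun _ => by rw [e]; simp⟩
        · exact ⟨1, one_mem _, 1, one_mem _, fun h => absurd h ha⟩
      choose g hg h hh he using h3
      refine ⟨fun a => if a ∈ S then g a * u a * h a else u a,
        hu.trans (RConn.of_move ⟨S, fun a ha => by simp [ha], fun a ha =>
          ⟨g a, hg a, h a, hh a, by simp [ha]⟩⟩), ?_⟩
      funext a
      by_cases ha : a ∈ S
      · simp only [Function.comp_apply, ha, if_true]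
        exact (he a ha).symm
      · simp only [Function.comp_apply, ha, if_false]
        exact (h1 a ha).symm

/-- A move relative to the subgroup generated by `c` is a Nielsen equivalence if `c` is
adjoined. -/
theorem RMove.toNEq {c : κ → G} {v w : α → G} (h : RMove (closure (Set.range c)) v w) :
    NEq (Sum.elim v c) (Sum.elim w c) := by
  classical
  obtain ⟨S, h1, h2⟩ := h
  let e : ({a // a ∉ S} ⊕ κ) ⊕ {a // a ∈ S} ≃ α ⊕ κ :=
    { toFun := Sum.elim (Sum.elim (fun a => Sum.inl a.1) Sum.inr) (fun a => Sum.inl a.1)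
      invFun := Sum.elim (fun a => if h : a ∈ S then Sum.inr ⟨a, h⟩ else Sum.inl (Sum.inl ⟨a, h⟩))
        (fun k => Sum.inl (Sum.inr k))
      left_inv := by
        rintro ((⟨a, ha⟩ | k) | ⟨a, ha⟩)
        · simp [ha]
        · simp
        · simp [ha]
      right_inv := by
        rintro (a | k)
        · by_cases ha : a ∈ S
          · simp [ha]
          · simp [ha]
        · simp }
  apply NEq.of_reindex e
  let y : {a // a ∉ S} ⊕ κ → G := Sum.elim (fun a => v a.1) c
  have ev : Sum.elim v c ∘ e = Sum.elim y (fun a => v a.1) := by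
    funext j
    rcases j with (j | j) | j <;> rfl
  have ew : Sum.elim w c ∘ e = Sum.elim y (fun a => w a.1) := by
    funext j
    rcases j with (j | j) | j
    · exact h1 j.1 j.2
    · rfl
    · rfl
  rw [ev, ew]
  apply NEq.slots
  rintro ⟨a, ha⟩
  obtain ⟨g, hg, h, hh, he⟩ := h2 a ha
  have hy : closure (v '' Sᶜ) ⊔ closure (Set.range c) ≤ closure (Set.range y) := by
    apply _root_.sup_le
    · rw [closure_le]
      rintro _ ⟨b, hb, rfl⟩
      exact Subgroup.subset_closure ⟨Sum.inl ⟨b, hb⟩, rfl⟩
    · rw [closure_le]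
      rintro _ ⟨k, rfl⟩
      exact Subgroup.subset_closure ⟨Sum.inr k, rfl⟩
  exact ⟨g, hy hg, h, hy hh, he⟩

theorem RConn.toNEq {c : κ → G} {v w : α → G} (h : RConn (closure (Set.range c)) v w) :
    NEq (Sum.elim v c) (Sum.elim w c) := by
  induction h with
  | refl => exact NEq.refl _
  | tail _ h ih =>
    refine ih.trans ?_
    rcases h with h | h
    · exact h.elim_left c
    · exact h.toNEq

/-! ### The steps -/

theorem RConn.slots {C : Subgroup G} (y : ι → G) {c c' : κ → G}
    (h : ∀ k, ∃ a ∈ closure (Set.range y) ⊔ C, ∃ b ∈ closure (Set.range y) ⊔ C,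
      c' k = a * c k * b) : RConn C (Sum.elim y c) (Sum.elim y c') := by
  apply RConn.of_move
  refine ⟨Set.range Sum.inr, ?_, ?_⟩
  · rintro (i | k) hk
    · rfl
    · exact absurd ⟨k, rfl⟩ hk
  · rintro _ ⟨k, rfl⟩
    have : (Sum.elim y c) '' (Set.range Sum.inr)ᶜ = Set.range y := by
      ext g
      constructor
      · rintro ⟨i | k, hk, rfl⟩
        · exact ⟨i, rfl⟩
        · exact absurd ⟨k, rfl⟩ hk
      · rintro ⟨i, rfl⟩
        refine ⟨Sum.inl i, ?_, rfl⟩
        rintro ⟨k, hk⟩
        cases hk
    rw [this]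
    exact h k

theorem RConn.slots' {C : Subgroup G} (c : κ → G) {y y' : ι → G}
    (h : ∀ i, ∃ a ∈ closure (Set.range c) ⊔ C, ∃ b ∈ closure (Set.range c) ⊔ C,
      y' i = a * y i * b) : RConn C (Sum.elim y c) (Sum.elim y' c) := by
  apply RConn.of_move
  refine ⟨Set.range Sum.inl, ?_, ?_⟩
  · rintro (i | k) hk
    · exact absurd ⟨i, rfl⟩ hk
    · rfl
  · rintro _ ⟨i, rfl⟩
    have : (Sum.elim y c) '' (Set.range Sum.inl)ᶜ = Set.range c := by
      ext g
      constructor
      · rintro ⟨i | k, hk, rfl⟩
        · exact absurd ⟨i, rfl⟩ hk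
        · exact ⟨k, rfl⟩
      · rintro ⟨k, rfl⟩
        refine ⟨Sum.inr k, ?_, rfl⟩
        rintro ⟨i, hi⟩
        cases hi
    rw [this]
    exact h i

theorem RConn.slots_free {C : Subgroup G} {y : ι → G} (hy : closure (Set.range y) ⊔ C = ⊤)
    (c c' : κ → G) : RConn C (Sum.elim y c) (Sum.elim y c') := by
  apply RConn.slots
  intro k
  refine ⟨1, one_mem _, (c k)⁻¹ * c' k, ?_, by group⟩
  rw [hy]
  exact mem_top _

theorem rsweep [Finite ι] (C A : Subgroup G) (c : κ → G)
    (hstep : ∀ y : ι → G, closure (Set.range y) ⊔ (C ⊔ A) = ⊤ → ∀ i, ∀ a ∈ A, ∀ z : ι → G,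
      z i = y i * a → (∀ j, j ≠ i → z j = y j) → RConn C (Sum.elim y c) (Sum.elim z c))
    {x y : ι → G} (hy : closure (Set.range y) ⊔ (C ⊔ A) = ⊤)
    (hxy : ∀ i, (y i)⁻¹ * x i ∈ A) : RConn C (Sum.elim y c) (Sum.elim x c) := by
  classical
  have := Fintype.ofFinite ι
  have key : ∀ s : Finset ι,
      RConn C (Sum.elim y c) (Sum.elim (fun i => if i ∈ s then x i else y i) c) := by
    intro s
    induction s using Finset.induction_on with
    | empty => exact RConn.of_eq (by simp)
    | insert i s his ih =>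
      refine ih.trans (hstep _ ?_ i ((y i)⁻¹ * x i) (hxy i) _ ?_ ?_)
      · refine sup_top_of_congr hy fun j => ?_
        by_cases hj : j ∈ s
        · simpa [hj] using mem_sup_right (hxy j)
        · simp [hj]
      · simp [his]
      · intro j hj
        simp [hj]
  have := key Finset.univ
  simpa using this

/-- A single swap with the help of a slot. -/
theorem rswap [Nonempty κ] {C : Subgroup G} {y z : ι → G}
    (hy : closure (Set.range y) ⊔ C = ⊤) (hz : closure (Set.range z) ⊔ C = ⊤) (i : ι)
    (h : ∀ j, j ≠ i → z j = y j) (c₀ : κ → G) :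
    RConn C (Sum.elim y c₀) (Sum.elim z c₀) := by
  classical
  let k₀ : κ := Classical.arbitrary κ
  let c : κ → G := fun _ => (y i)⁻¹ * z i
  refine (RConn.slots_free hy _ c).trans (RConn.trans ?_ (RConn.slots_free hz c _))
  apply RConn.slots'
  intro j
  by_cases hj : j = i
  · subst hj
    exact ⟨1, one_mem _, (y j)⁻¹ * z j, mem_sup_left (Subgroup.subset_closure ⟨k₀, rfl⟩),
      by group⟩
  · exact ⟨1, one_mem _, 1, one_mem _, by simp [h j hj]⟩

/-- The step over a normal subgroup which is superfluous relative to `C`. -/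
theorem rstep_superfluous [Finite ι] [Nonempty κ] {C A : Subgroup G}
    (hA : ∀ K : Subgroup G, C ≤ K → K ⊔ A = ⊤ → K = ⊤) {x y : ι → G} {c : κ → G}
    (hv : closure (Set.range (Sum.elim y c)) ⊔ C = ⊤) (hc : ∀ k, c k ∈ A)
    (hxy : ∀ i, (y i)⁻¹ * x i ∈ A) :
    RConn C (Sum.elim y c) (Sum.elim x (fun _ => (1 : G))) := by
  have hA' : ∀ z : ι → G, closure (Set.range z) ⊔ (C ⊔ A) = ⊤ →
      closure (Set.range z) ⊔ C = ⊤ := fun z hz => hA _ le_sup_right (by rw [sup_assoc]; exact hz)
  have hy : closure (Set.range y) ⊔ (C ⊔ A) = ⊤ := by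
    rw [eq_top_iff, ← hv]
    apply _root_.sup_le _ (le_sup_left.trans le_sup_right)
    rw [closure_le]
    rintro _ ⟨j, rfl⟩
    rcases j with i | k
    · exact mem_sup_left (Subgroup.subset_closure ⟨i, rfl⟩)
    · exact mem_sup_right (mem_sup_right (hc k))
  refine (RConn.slots_free (hA' y hy) c (fun _ => 1)).trans (rsweep C A _ ?_ hy hxy)
  intro y hy i a ha z hz1 hz2
  refine rswap (hA' _ hy) (hA' _ (sup_top_of_congr hy fun j => ?_)) i hz2 _
  by_cases hj : j = i
  · subst hj
    simpa [hz1] using mem_sup_right ha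
  · simp [hz2 j hj]

/-- Abelian normal subgroup generated, as a normal subgroup, by the slots. -/
theorem rsweep_abelian [Finite ι] {C A : Subgroup G} [A.Normal]
    (hab : ∀ a ∈ A, ∀ b ∈ A, a * b = b * a) {c : κ → G}
    (hc : normalClosure (Set.range c) = A) {x y : ι → G}
    (hy : closure (Set.range y) ⊔ (C ⊔ A) = ⊤) (hxy : ∀ i, (y i)⁻¹ * x i ∈ A) :
    RConn C (Sum.elim y c) (Sum.elim x c) := by
  classical
  have hcA : ∀ k, c k ∈ A := fun k => hc ▸ subset_normalClosure ⟨k, rfl⟩
  have hconj : ∀ b ∈ A, ∀ k, b * c k * b⁻¹ = c k := by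
    intro b hb k
    rw [hab b hb _ (hcA k)]
    group
  refine rsweep C A c ?_ hy hxy
  have key : ∀ a, a ∈ closure (Group.conjugatesOfSet (Set.range c)) →
      ∀ y : ι → G, closure (Set.range y) ⊔ (C ⊔ A) = ⊤ → ∀ i, ∀ z : ι → G,
      z i = y i * a → (∀ j, j ≠ i → z j = y j) → RConn C (Sum.elim y c) (Sum.elim z c) := by
    intro a ha
    have hsub : closure (Group.conjugatesOfSet (Set.range c)) ≤ A := by
      rw [← hc]
      exact le_of_eq rfl
    induction ha using closure_induction with
    | mem a ha =>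
      intro y hy i z hz1 hz2
      rw [Group.mem_conjugatesOfSet_iff] at ha
      obtain ⟨_, ⟨k, rfl⟩, hconj'⟩ := ha
      rw [isConj_iff] at hconj'
      obtain ⟨g, hg⟩ := hconj'
      have hgm : g ∈ (closure (Set.range y) ⊔ C) ⊔ A := by
        rw [sup_assoc, hy]
        exact mem_top _
      rw [mem_sup_of_normal_right] at hgm
      obtain ⟨h, hh, b, hb, rfl⟩ := hgm
      have ha' : a = h * c k * h⁻¹ := by
        rw [← hg]
        have := hconj b hb k
        calc h * b * c k * (h * b)⁻¹ = h * (b * c k * b⁻¹) * h⁻¹ := by group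
          _ = h * c k * h⁻¹ := by rw [this]
      have haA : a ∈ A := by
        rw [ha']
        exact Normal.conj_mem inferInstance _ (hcA k) h
      have hyz : ∀ j, (y j)⁻¹ * z j ∈ C ⊔ A := by
        intro j
        by_cases hj : j = i
        · subst hj
          simpa [hz1] using mem_sup_right haA
        · simp [hz2 j hj]
      have hz := sup_top_of_congr hy hyz
      have hhm : h ∈ (closure (Set.range z) ⊔ C) ⊔ A := by
        rw [sup_assoc, hz]
        exact mem_top _
      rw [mem_sup_of_normal_right] at hhm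
      obtain ⟨h', hh', b', hb', hhh⟩ := hhm
      have ha'' : a = h' * c k * h'⁻¹ := by
        rw [ha', ← hhh]
        have := hconj b' hb' k
        calc h' * b' * c k * (h' * b')⁻¹ = h' * (b' * c k * b'⁻¹) * h'⁻¹ := by group
          _ = h' * c k * h'⁻¹ := by rw [this]
      have s1 : RConn C (Sum.elim y c) (Sum.elim y (update c k a)) := by
        apply RConn.slots
        intro l
        by_cases hl : l = k
        · subst hl
          exact ⟨h, hh, h⁻¹, inv_mem hh, by simp [ha']⟩
        · exact ⟨1, one_mem _, 1, one_mem _, by simp [update_of_ne hl]⟩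
      have s2 : RConn C (Sum.elim y (update c k a)) (Sum.elim z (update c k a)) := by
        apply RConn.slots'
        intro j
        by_cases hj : j = i
        · subst hj
          exact ⟨1, one_mem _, a, mem_sup_left (Subgroup.subset_closure ⟨k, by simp⟩),
            by simp [hz1]⟩
        · exact ⟨1, one_mem _, 1, one_mem _, by simp [hz2 j hj]⟩
      have s3 : RConn C (Sum.elim z (update c k a)) (Sum.elim z c) := by
        apply RConn.slots
        intro l
        by_cases hl : l = k
        · subst hl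
          refine ⟨h'⁻¹, inv_mem hh', h', hh', ?_⟩
          simp only [update_self]
          rw [ha'']
          group
        · exact ⟨1, one_mem _, 1, one_mem _, by simp [update_of_ne hl]⟩
      exact (s1.trans s2).trans s3
    | one =>
      intro y hy i z hz1 hz2
      apply RConn.of_eq
      congr 1
      funext j
      by_cases hj : j = i
      · subst hj
        simp [hz1]
      · simp [hz2 j hj]
    | mul a b ha hb iha ihb =>
      intro y hy i z hz1 hz2
      have haA := hsub ha
      have hu : closure (Set.range (update y i (y i * a))) ⊔ (C ⊔ A) = ⊤ := by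
        refine sup_top_of_congr hy fun j => ?_
        by_cases hj : j = i
        · subst hj
          simpa using mem_sup_right haA
        · simp [update_of_ne hj]
      refine (iha y hy i (update y i (y i * a)) (by simp) fun j hj => by
        simp [update_of_ne hj]).trans (ihb _ hu i z (by simp [hz1, mul_assoc])
          fun j hj => by simp [update_of_ne hj, hz2 j hj])
    | inv a ha iha =>
      intro y hy i z hz1 hz2
      have haA := hsub ha
      have hz : closure (Set.range z) ⊔ (C ⊔ A) = ⊤ := by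
        refine sup_top_of_congr hy fun j => ?_
        by_cases hj : j = i
        · subst hj
          simpa [hz1] using mem_sup_right haA
        · simp [hz2 j hj]
      exact (iha z hz i y (by simp [hz1]) fun j hj => (hz2 j hj).symm).symm
  intro y hy i a ha z hz1 hz2
  refine key a ?_ y hy i z hz1 hz2
  rw [← hc] at ha
  exact ha

/-- The step over an abelian normal subgroup with the stable range condition. -/
theorem rstep_abelian [Finite ι] {C A : Subgroup G} [hAn : A.Normal]
    (hab : ∀ a ∈ A, ∀ b ∈ A, a * b = b * a) (hsr : StableRange κ A) {x y : ι → G} {c : κ → G}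
    (hx : closure (Set.range x) ⊔ C = ⊤)
    (hv : closure (Set.range (Sum.elim y c)) ⊔ C = ⊤) (hc : ∀ k, c k ∈ A)
    (hxy : ∀ i, (y i)⁻¹ * x i ∈ A) :
    RConn C (Sum.elim y c) (Sum.elim x (fun _ => (1 : G))) := by
  have hy : closure (Set.range y) ⊔ (C ⊔ A) = ⊤ := by
    rw [eq_top_iff, ← hv]
    apply _root_.sup_le _ (le_sup_left.trans le_sup_right)
    rw [closure_le]
    rintro _ ⟨j, rfl⟩
    rcases j with i | k
    · exact mem_sup_left (Subgroup.subset_closure ⟨i, rfl⟩)
    · exact mem_sup_right (mem_sup_right (hc k))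
  -- the intersection with the subgroup generated by `y` and `C`
  obtain ⟨Y, hY⟩ : ∃ Y, Y = closure (Set.range y) ⊔ C := ⟨_, rfl⟩
  have hYA : Y ⊔ A = ⊤ := by
    rw [hY, sup_assoc]
    exact hy
  let I : Subgroup G := Y ⊓ A
  have hIn : I.Normal := by
    constructor
    intro n hn g
    have hgm : g ∈ Y ⊔ A := by rw [hYA]; exact mem_top _
    rw [mem_sup_of_normal_right] at hgm
    obtain ⟨h, hh, b, hb, rfl⟩ := hgm
    have e : h * b * n * (h * b)⁻¹ = h * n * h⁻¹ := by
      have := hab b hb n hn.2
      calc h * b * n * (h * b)⁻¹ = h * (b * n) * b⁻¹ * h⁻¹ := by group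
        _ = h * (n * b) * b⁻¹ * h⁻¹ := by rw [this]
        _ = h * n * h⁻¹ := by group
    rw [e]
    have hm : h * n * h⁻¹ ∈ Y :=
      Subgroup.mul_mem _ (Subgroup.mul_mem _ hh hn.1) (Subgroup.inv_mem _ hh)
    exact ⟨hm, hAn.conj_mem _ hn.2 h⟩
  have hle : normalClosure (Set.range c) ⊔ I ≤ A := by
    apply _root_.sup_le _ inf_le_right
    apply normalClosure_le_normal
    rintro _ ⟨k, rfl⟩
    exact hc k
  have hsup : normalClosure (Set.range c) ⊔ I = A := by
    apply le_antisymm hle
    intro a ha
    have htop : Y ⊔ (normalClosure (Set.range c) ⊔ I) = ⊤ := by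
      rw [eq_top_iff, ← hv]
      apply _root_.sup_le
      · rw [closure_le]
        rintro _ ⟨j, rfl⟩
        rcases j with i | k
        · refine mem_sup_left ?_
          rw [hY]
          exact mem_sup_left (Subgroup.subset_closure ⟨i, rfl⟩)
        · exact mem_sup_right (mem_sup_left (subset_normalClosure ⟨k, rfl⟩))
      · rw [hY]
        exact le_sup_right.trans le_sup_left
    have ham : a ∈ Y ⊔ (normalClosure (Set.range c) ⊔ I) := by
      rw [htop]; exact mem_top _
    rw [mem_sup_of_normal_right] at ham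
    obtain ⟨h, hh, b, hb, rfl⟩ := ham
    have hbA : b ∈ A := hle hb
    have hhA : h ∈ A := by
      have := mul_mem ha (inv_mem hbA)
      simpa using this
    exact mul_mem (mem_sup_right ⟨hh, hhA⟩) hb
  obtain ⟨b, hbI, hbn⟩ := hsr I hIn inf_le_right c hc hsup
  have s1 : RConn C (Sum.elim y c) (Sum.elim y fun k => c k * b k) := by
    apply RConn.slots
    intro k
    refine ⟨1, one_mem _, b k, ?_, by simp⟩
    have := (hbI k).1
    rwa [hY] at this
  exact (s1.trans (rsweep_abelian hab hbn hy hxy)).trans (RConn.slots_free hx _ _)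

end Pool.MP_e4938c_al
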