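import Pool.Agent.Lib.MP_e4938c_al.Rel
import Pool.Agent.Lib.MP_e4938c_al.Chain
import Pool.Agent.Lib.MP_e4938c_al.NilpAb2

/-!
# The relative theorem for nilpotent and soluble quotients (MP_e4938c)
-/

namespace Pool.MP_e4938c_al

open Subgroup Function

universe u

/-! ### Abelian groups -/

theorem abelian_oneclass {ι : Type} [Finite ι] {B : Type u} [CommGroup B] {x : ι → B}
    (hx : Gen x) (n : ℕ) : ∀ v : ι ⊕ Fin (n + 1) → B, Gen v →
      NEq v (Sum.elim x (fun _ => (1 : B))) := by
  induction n with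
  | zero =>
    intro v hv
    let e : ι ⊕ Unit ≃ ι ⊕ Fin 1 := Equiv.sumCongr (Equiv.refl ι) (Equiv.ofUnique Unit (Fin 1))
    obtain ⟨m', hm', h1⟩ := exists_last_trivial hx (v ∘ e)
    have hg : Gen m' := hm'.gen (hv.comp_equiv e)
    have em : m' = Sum.elim (m' ∘ Sum.inl) (fun _ : Unit => (1 : B)) := by
      funext j
      rcases j with j | j
      · rfl
      · exact h1
    rw [em] at hg hm'
    have h2 := abelian_base_aux ι Unit B x (m' ∘ Sum.inl) hx hg.of_elim_one
    apply NEq.of_reindex e
    have e2 : Sum.elim x (fun _ : Fin 1 => (1 : B)) ∘ e = Sum.elim x (fun _ : Unit => (1 : B)) := by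
      funext j
      rcases j with j | j <;> rfl
    rw [e2]
    exact hm'.trans h2
  | succ n ih =>
    intro v hv
    let e : (ι ⊕ Fin (n + 1)) ⊕ Unit ≃ ι ⊕ Fin (n + 1 + 1) :=
      (Equiv.sumAssoc ι (Fin (n + 1)) Unit).trans (Equiv.sumCongr (Equiv.refl ι)
        ((Equiv.optionEquivSumPUnit (Fin (n + 1))).symm.trans finSuccEquivLast.symm))
    have hg : Gen (Sum.elim x (fun _ : Fin (n + 1) => (1 : B))) := hx.elim _
    obtain ⟨m', hm', h1⟩ := exists_last_trivial hg (v ∘ e)
    have hg' : Gen m' := hm'.gen (hv.comp_equiv e)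
    have em : m' = Sum.elim (m' ∘ Sum.inl) (fun _ : Unit => (1 : B)) := by
      funext j
      rcases j with j | j
      · rfl
      · exact h1
    rw [em] at hg' hm'
    have h2 := (ih (m' ∘ Sum.inl) hg'.of_elim_one).elim_left (fun _ : Unit => (1 : B))
    apply NEq.of_reindex e
    have e2 : Sum.elim x (fun _ : Fin (n + 1 + 1) => (1 : B)) ∘ e =
        Sum.elim (Sum.elim x (fun _ : Fin (n + 1) => (1 : B))) (fun _ : Unit => (1 : B)) := by
      funext j
      rcases j with (j | j) | j <;> rfl
    rw [e2]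
    exact hm'.trans h2

theorem abelian_oneclass' {ι : Type} [Finite ι] {B : Type u} [Group B]
    (hB : ∀ a b : B, a * b = b * a) {x : ι → B} (hx : Gen x) (n : ℕ)
    (v : ι ⊕ Fin (n + 1) → B) (hv : Gen v) : NEq v (Sum.elim x (fun _ => (1 : B))) := by
  let _ : CommGroup B := { ‹Group B› with mul_comm := hB }
  exact abelian_oneclass hx n v hv

/-! ### The property of normal subgroups -/

section

variable {ι κ : Type*} {G : Type*} [Group G]

/-- Every family with the property `P` which generates together with `C` is connected with one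
that is congruent to `(x, 1)` modulo `L`. -/
def RPred (P : (ι ⊕ κ → G) → Prop) (C : Subgroup G) (x : ι → G) (L : Subgroup G) : Prop :=
  ∀ v : ι ⊕ κ → G, P v → closure (Set.range v) ⊔ C = ⊤ →
    ∃ w, RConn C v w ∧ (∀ i, (w (Sum.inl i))⁻¹ * x i ∈ L) ∧ ∀ k, w (Sum.inr k) ∈ L

theorem RPred.of_step {P : (ι ⊕ κ → G) → Prop} {C : Subgroup G} {x : ι → G}
    {L L' : Subgroup G} [L.Normal]
    (hstep : ∀ (y : ι → G ⧸ L) (c : κ → G ⧸ L),
      closure (Set.range (Sum.elim y c)) ⊔ C.map (QuotientGroup.mk' L) = ⊤ →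
      (∀ k, c k ∈ L'.map (QuotientGroup.mk' L)) →
      (∀ i, (y i)⁻¹ * QuotientGroup.mk' L (x i) ∈ L'.map (QuotientGroup.mk' L)) →
      RConn (C.map (QuotientGroup.mk' L)) (Sum.elim y c)
        (Sum.elim (QuotientGroup.mk' L ∘ x) (fun _ => 1)))
    (h : RPred P C x L') : RPred P C x L := by
  intro v hP hv
  obtain ⟨w, hw, hw1, hw2⟩ := h v hP hv
  let π := QuotientGroup.mk' L
  have hwt : closure (Set.range w) ⊔ C = ⊤ := by rw [hw.sup_eq, hv]
  have hwt' : closure (Set.range (Sum.elim (π ∘ w ∘ Sum.inl) (π ∘ w ∘ Sum.inr))) ⊔ C.map π =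
      ⊤ := by
    have e : Sum.elim (π ∘ w ∘ Sum.inl) (π ∘ w ∘ Sum.inr) = π ∘ w := by
      funext j
      rcases j with j | j <;> rfl
    rw [e, Set.range_comp, ← MonoidHom.map_closure, ← Subgroup.map_sup, hwt,
      Subgroup.map_top_of_surjective π (QuotientGroup.mk'_surjective L)]
  have h1 := hstep (π ∘ w ∘ Sum.inl) (π ∘ w ∘ Sum.inr) hwt' (fun k => ⟨_, hw2 k, rfl⟩)
    (fun i => ⟨_, hw1 i, by simp [π]⟩)
  have e : Sum.elim (π ∘ w ∘ Sum.inl) (π ∘ w ∘ Sum.inr) = π ∘ w := by
    funext j
    rcases j with j | j <;> rfl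
  rw [e] at h1
  obtain ⟨w', hw', he⟩ := h1.exists_lift π
  refine ⟨w', hw.trans hw', fun i => ?_, fun k => ?_⟩
  · have h2 := congrFun he (Sum.inl i)
    exact QuotientGroup.eq.mp h2
  · have h2 := congrFun he (Sum.inr k)
    have h3 : π (w' (Sum.inr k)) = 1 := h2
    rwa [QuotientGroup.mk'_apply, QuotientGroup.eq_one_iff] at h3

end

/-- The base: an abelian quotient. -/
theorem rbase_abelian {ι : Type} [Finite ι] {G : Type u} [Group G] {C L : Subgroup G} [L.Normal]
    (hL : commutator G ≤ L) {x : ι → G} (hx : closure (Set.range x) ⊔ C = ⊤) (n : ℕ)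
    (P : (ι ⊕ Fin (n + 1) → G) → Prop) : RPred P C x L := by
  intro v _ hv
  obtain ⟨M, hM⟩ : ∃ M, M = C ⊔ L := ⟨_, rfl⟩
  have hMn : M.Normal := normal_of_commutator_le (hL.trans (hM ▸ le_sup_right))
  let π := QuotientGroup.mk' M
  have hab : ∀ a b : G ⧸ M, a * b = b * a := by
    intro a b
    obtain ⟨g, rfl⟩ := QuotientGroup.mk'_surjective M a
    obtain ⟨h, rfl⟩ := QuotientGroup.mk'_surjective M b
    rw [← map_mul, ← map_mul]
    apply QuotientGroup.eq.mpr
    have h1 : (g * h)⁻¹ * (h * g) = h⁻¹ * g⁻¹ * h * g := by group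
    rw [h1]
    apply (hL.trans (hM ▸ le_sup_right) : commutator G ≤ M)
    rw [commutator_def]
    have h2 : h⁻¹ * g⁻¹ * h * g = h⁻¹ * g⁻¹ * (h⁻¹)⁻¹ * (g⁻¹)⁻¹ := by group
    rw [h2]
    exact commutator_mem_commutator (mem_top h⁻¹) (mem_top g⁻¹)
  have hgen : ∀ {α : Type} (z : α → G), closure (Set.range z) ⊔ C = ⊤ → Gen (π ∘ z) := by
    intro α z hz
    unfold Gen
    have hC : C.map π = ⊥ := by
      rw [Subgroup.map_eq_bot_iff, QuotientGroup.ker_mk', hM]
      exact le_sup_left
    rw [Set.range_comp, ← MonoidHom.map_closure]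
    have h1 := congrArg (Subgroup.map π) hz
    rw [Subgroup.map_sup, hC, sup_bot_eq,
      Subgroup.map_top_of_surjective π (QuotientGroup.mk'_surjective M)] at h1
    exact h1
  obtain ⟨w, hw, he⟩ := (abelian_oneclass' hab (hgen x hx) n (π ∘ v) (hgen v hv)).exists_lift π
  -- correct with elements of `C`
  have h1 : ∀ i, ∃ c ∈ C, (w (Sum.inl i) * c)⁻¹ * x i ∈ L := by
    intro i
    have h2 : (w (Sum.inl i))⁻¹ * x i ∈ C ⊔ L := hM ▸ QuotientGroup.eq.mp (congrFun he (Sum.inl i))
    rw [mem_sup_of_normal_right] at h2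
    obtain ⟨c, hc, l, hl, hcl⟩ := h2
    refine ⟨c, hc, ?_⟩
    have h3 : (w (Sum.inl i) * c)⁻¹ * x i = l := by
      have : x i = w (Sum.inl i) * (c * l) := by rw [hcl]; group
      rw [this]
      group
    rwa [h3]
  have h2 : ∀ k, ∃ c ∈ C, w (Sum.inr k) * c ∈ L := by
    intro k
    have h3 : π (w (Sum.inr k)) = 1 := congrFun he (Sum.inr k)
    rw [QuotientGroup.mk'_apply, QuotientGroup.eq_one_iff, hM, sup_comm,
      mem_sup_of_normal_left] at h3
    obtain ⟨l, hl, c, hc, hlc⟩ := h3
    refine ⟨c⁻¹, inv_mem hc, ?_⟩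
    rw [← hlc]
    simpa using hl
  choose c₁ hc₁ hc₁' using h1
  choose c₂ hc₂ hc₂' using h2
  refine ⟨Sum.elim (fun i => w (Sum.inl i) * c₁ i) (fun k => w (Sum.inr k) * c₂ k),
    (RConn.of_NEq hw).trans (RConn.of_move ⟨Set.univ, fun a ha => absurd (Set.mem_univ a) ha,
      ?_⟩), fun i => hc₁' i, fun k => hc₂' k⟩
  rintro (i | k) _
  · exact ⟨1, one_mem _, c₁ i, mem_sup_right (hc₁ i), by simp⟩
  · exact ⟨1, one_mem _, c₂ k, mem_sup_right (hc₂ k), by simp⟩

/-- Induction along a soluble normal subgroup with the maximal condition. -/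
theorem solvable_induction {G : Type u} [Group G] (κ : Type) [Nonempty κ] (N : Subgroup G)
    [hNn : N.Normal] (hsol : Group.IsSolvable N) (hmax : WellFoundedGT (Subgroup N))
    (hfin : Finite N ∨ Nontrivial κ) (P : Subgroup G → Prop) (hN : P N)
    (hstep : ∀ (L L' : Subgroup G) [L.Normal] [L'.Normal], L ≤ L' →
      (∀ a ∈ L'.map (QuotientGroup.mk' L), ∀ b ∈ L'.map (QuotientGroup.mk' L), a * b = b * a) →
      StableRange κ (L'.map (QuotientGroup.mk' L)) → P L' → P L) : P ⊥ := by
  have key : ∀ K : Subgroup N, ∀ (L : Subgroup G) (_ : L.Normal), L ≤ N →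
      L.subgroupOf N = K → P L := by
    intro K
    induction K using hmax.wf.induction with
    | h K ih =>
    intro L hLn hLN hLK
    by_cases hL : L = N
    · subst hL
      exact hN
    · let π := QuotientGroup.mk' L
      have hπ : Surjective π := QuotientGroup.mk'_surjective L
      have hNbar : (N.map π).Normal := hNn.map π hπ
      have hNne : N.map π ≠ ⊥ := by
        intro h1
        apply hL
        apply le_antisymm hLN
        intro x hx
        have h2 : π x ∈ N.map π := ⟨x, hx, rfl⟩
        rw [h1, mem_bot] at h2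
        rwa [QuotientGroup.mk'_apply, QuotientGroup.eq_one_iff] at h2
      have hsolbar : Group.IsSolvable (N.map π) := by
        let f : N →* N.map π := π.subgroupMap N
        have hf : Surjective f := π.subgroupMap_surjective N
        exact Group.isSolvable_of_surjective hf
      obtain ⟨E, hEn, hEN, hEne, hEab⟩ := exists_abelian hsolbar hNne
      -- the element
      obtain ⟨a, haE, ha1, hsr⟩ : ∃ a ∈ E, a ≠ 1 ∧ StableRange κ (normalClosure {a}) := by
        rcases hfin with hfin | hk2
        · obtain ⟨a, ha⟩ := Subgroup.ne_bot_iff_exists_ne_one.mp hEne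
          refine ⟨a, a.2, fun h => ha (Subtype.ext h), ?_⟩
          have h1 : (N.map π : Set (G ⧸ L)).Finite := Set.Finite.image _ (Set.toFinite (N : Set G))
          have h2 : Finite (normalClosure {(a : G ⧸ L)}) := by
            have h3 : normalClosure {(a : G ⧸ L)} ≤ N.map π := (nc_le hEn a.2).trans hEN
            exact h1.subset h3
          exact stableRange_finite rfl
        · obtain ⟨a, haE, ha1, hji⟩ := exists_justInfinite hEn hEne hEab (wf_image hmax hEN)
          refine ⟨a, haE, ha1, ?_⟩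
          exact stableRange_justInfinite rfl hji
      obtain ⟨A, hA⟩ : ∃ A : Subgroup (G ⧸ L), A = normalClosure {a} := ⟨_, rfl⟩
      rw [← hA] at hsr
      have hAn : A.Normal := hA ▸ normalClosure_normal
      have hAE : A ≤ E := hA ▸ nc_le hEn haE
      have haA : a ∈ A := hA ▸ subset_normalClosure rfl
      obtain ⟨L', hL'⟩ : ∃ L' : Subgroup G, L' = A.comap π := ⟨_, rfl⟩
      have hL'n : L'.Normal := hL' ▸ hAn.comap π
      have hLL' : L ≤ L' := by
        intro x hx
        rw [hL']
        have h1 : π x = 1 := by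
          rwa [QuotientGroup.mk'_apply, QuotientGroup.eq_one_iff]
        change π x ∈ A
        rw [h1]
        exact one_mem _
      have hL'N : L' ≤ N := by
        intro x hx
        rw [hL'] at hx
        obtain ⟨n, hn, hnx⟩ := hEN (hAE hx)
        have h1 : n⁻¹ * x ∈ L := QuotientGroup.eq.mp hnx
        have h2 := mul_mem hn (hLN h1)
        simpa using h2
      have hmapL' : L'.map π = A := by
        rw [hL', map_comap_eq_self_of_surjective hπ]
      have hlt : L.subgroupOf N < L'.subgroupOf N := by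
        refine lt_of_le_of_ne (fun x hx => hLL' hx) fun heq => ha1 ?_
        obtain ⟨x, rfl⟩ := hπ a
        have hx' : x ∈ L' := by
          rw [hL']
          exact haA
        have h1 : (⟨x, hL'N hx'⟩ : N) ∈ L'.subgroupOf N := hx'
        rw [← heq] at h1
        have h2 : x ∈ L := h1
        rwa [QuotientGroup.mk'_apply, QuotientGroup.eq_one_iff]
      have hst : P L' := ih (L'.subgroupOf N) (hLK ▸ hlt) L' hL'n hL'N rfl
      apply hstep L L' hLL'
      · change ∀ a ∈ L'.map π, ∀ b ∈ L'.map π, a * b = b * a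
        rw [hmapL']
        exact fun x hx y hy => hEab x (hAE hx) y (hAE hy)
      · change StableRange κ (L'.map π)
        rw [hmapL']
        exact hsr
      · exact hst
  exact key ((⊥ : Subgroup G).subgroupOf N) ⊥ inferInstance bot_le rfl

/-- At most one maximal subgroup contains `C`: all generating families are connected. -/
theorem rconn_unique {α : Type*} [Finite α] [Nontrivial α] {H : Type*} [Group H]
    {C : Subgroup H} (hu : ∀ K₁ K₂ : Subgroup H, C ≤ K₁ → C ≤ K₂ → K₁ ⊔ K₂ = ⊤ →
      K₁ = ⊤ ∨ K₂ = ⊤) {v w : α → H} (hv : closure (Set.range v) ⊔ C = ⊤)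
    (hw : closure (Set.range w) ⊔ C = ⊤) : RConn C v w := by
  classical
  have := Fintype.ofFinite α
  -- a good entry
  have hgood : ∀ z : α → H, closure (Set.range z) ⊔ C = ⊤ → ∃ j, closure {z j} ⊔ C = ⊤ := by
    intro z hz
    by_contra hcon
    push Not at hcon
    have hC : C ≠ ⊤ := by
      intro h
      obtain ⟨j, _⟩ := exists_pair_ne α
      exact hcon j (by rw [h]; exact sup_top_eq _)
    have key : ∀ s : Finset α, closure (z '' (s : Set α)) ⊔ C ≠ ⊤ := by
      intro s
      induction s using Finset.induction_on with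
      | empty => simpa using hC
      | insert a s _ ih =>
        intro h
        have h1 : (closure {z a} ⊔ C) ⊔ (closure (z '' (s : Set α)) ⊔ C) = ⊤ := by
          rw [eq_top_iff, ← h, Finset.coe_insert, Set.image_insert_eq, Set.insert_eq,
            Subgroup.closure_union]
          apply _root_.sup_le
          · apply _root_.sup_le
            · exact le_sup_left.trans le_sup_left
            · exact le_sup_left.trans le_sup_right
          · exact le_sup_right.trans le_sup_right
        rcases hu _ _ le_sup_right le_sup_right h1 with h2 | h2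
        · exact hcon a h2
        · exact ih h2
    apply key Finset.univ
    simpa using hz
  have hfree : ∀ z z' : α → H, ∀ j, closure {z j} ⊔ C = ⊤ → z' j = z j → RConn C z z' := by
    intro z z' j hj hjj
    apply RConn.of_move
    refine ⟨{j}ᶜ, fun a ha => ?_, fun a _ => ?_⟩
    · have : a = j := by simpa using ha
      rw [this, hjj]
    · refine ⟨1, one_mem _, (z a)⁻¹ * z' a, ?_, by group⟩
      rw [compl_compl, Set.image_singleton, hj]
      exact mem_top _
  obtain ⟨j, hj⟩ := hgood v hv
  obtain ⟨i, hi⟩ := hgood w hw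
  by_cases hij : i = j
  · obtain ⟨l, hl⟩ := exists_ne j
    let z : α → H := update v l (w i)
    let z' : α → H := update w l (w i)
    have h1 : RConn C v z := hfree v z j hj (by simp [z, update_of_ne hl.symm])
    have h2 : RConn C z z' := hfree z z' l (by simpa [z] using hi) (by simp [z, z'])
    have h3 : RConn C z' w := by
      refine hfree z' w i ?_ ?_
      · have : z' i = w i := by
          simp only [z']
          rw [hij, update_of_ne hl.symm]
        rw [this]
        exact hi
      · simp only [z']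
        rw [hij, update_of_ne hl.symm]
    exact (h1.trans h2).trans h3
  · let z : α → H := update w j (v j)
    have h1 : RConn C v z := hfree v z j hj (by simp [z])
    have hzi : z i = w i := by
      simp only [z]
      rw [update_of_ne hij]
    have h2 : RConn C z w := hfree z w i (by rw [hzi]; exact hi) hzi.symm
    exact h1.trans h2

/-- From the base to the bottom along a soluble normal subgroup. -/
theorem relative_of_base {ι : Type} [Finite ι] {G : Type u} [Group G] {C : Subgroup G}
    (N : Subgroup G) [hNn : N.Normal] (hsol : Group.IsSolvable N)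
    (hmax : WellFoundedGT (Subgroup N)) {x : ι → G}
    (hx : closure (Set.range x) ⊔ C = ⊤) {n : ℕ} (hfin : Finite N ∨ 1 ≤ n)
    {P : (ι ⊕ Fin (n + 1) → G) → Prop} (hbase : RPred P C x N)
    (v : ι ⊕ Fin (n + 1) → G) (hP : P v) (hv : closure (Set.range v) ⊔ C = ⊤) :
    RConn C v (Sum.elim x (fun _ => (1 : G))) := by
  have hκ : Finite N ∨ Nontrivial (Fin (n + 1)) := by
    rcases hfin with h | h
    · exact Or.inl h
    · exact Or.inr (Fin.nontrivial_iff_two_le.mpr (by omega))
  have hbot : RPred P C x ⊥ := by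
    refine solvable_induction (Fin (n + 1)) N hsol hmax hκ (RPred P C x) hbase ?_
    intro L L' hLn hL'n _ hab hsr h
    have hL'm : (L'.map (QuotientGroup.mk' L)).Normal :=
      hL'n.map _ (QuotientGroup.mk'_surjective L)
    refine RPred.of_step ?_ h
    intro y c h1 h2 h3
    refine rstep_abelian hab hsr ?_ h1 h2 h3
    rw [Set.range_comp, ← MonoidHom.map_closure, ← Subgroup.map_sup, hx,
      Subgroup.map_top_of_surjective _ (QuotientGroup.mk'_surjective L)]
  obtain ⟨w, hw, hw1, hw2⟩ := hbot v hP hv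
  refine hw.trans (RConn.of_eq ?_)
  funext j
  rcases j with i | k
  · have h1 := hw1 i
    rw [mem_bot, inv_mul_eq_one] at h1
    exact h1
  · exact (mem_bot).mp (hw2 k)

/-- The base: a nilpotent quotient. -/
theorem rbase_nilpotent {ι : Type} [Finite ι] {G : Type u} [Group G] {C : Subgroup G}
    (N : Subgroup G) [hNn : N.Normal] (hnil : Group.IsNilpotent (G ⧸ N)) {x : ι → G}
    (hx : closure (Set.range x) ⊔ C = ⊤) {n : ℕ} (P : (ι ⊕ Fin (n + 1) → G) → Prop) :
    RPred P C x N := by
  obtain ⟨L', hL'⟩ : ∃ L' : Subgroup G,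
    L' = (commutator (G ⧸ N)).comap (QuotientGroup.mk' N) := ⟨_, rfl⟩
  have hL'n : L'.Normal := by
    rw [hL']
    infer_instance
  have hcomm : commutator G ≤ L' := by
    rw [hL', ← Subgroup.map_le_iff_le_comap, commutator_def, Subgroup.map_commutator]
    exact commutator_mono le_top le_top
  have hmap : L'.map (QuotientGroup.mk' N) = commutator (G ⧸ N) := by
    rw [hL', map_comap_eq_self_of_surjective (QuotientGroup.mk'_surjective N)]
  refine RPred.of_step (L' := L') ?_ (rbase_abelian hcomm hx n P)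
  intro y c h1 h2 h3
  rw [hmap] at h2 h3
  exact rstep_superfluous (fun K _ hK => nilpotent_superfluous (G ⧸ N) K hK) h1 h2 h3

/-- The base: at most one maximal subgroup contains `C` and `N`. -/
theorem rbase_unique {ι : Type} [Finite ι] {G : Type u} [Group G] {C : Subgroup G}
    (N : Subgroup G) [hNn : N.Normal]
    (hu : ∀ K₁ K₂ : Subgroup G, C ⊔ N ≤ K₁ → C ⊔ N ≤ K₂ → K₁ ⊔ K₂ = ⊤ → K₁ = ⊤ ∨ K₂ = ⊤)
    {x : ι → G} (hx : closure (Set.range x) ⊔ C = ⊤) {n : ℕ}
    (P : (ι ⊕ Fin (n + 1) → G) → Prop) : RPred P C x N := by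
  rcases isEmpty_or_nonempty ι with hι | hι
  · have hC : C = ⊤ := by
      rw [Set.range_eq_empty, Subgroup.closure_empty, bot_sup_eq] at hx
      exact hx
    intro v _ _
    refine ⟨Sum.elim x (fun _ => 1), RConn.of_move ⟨Set.univ,
      fun a ha => absurd (Set.mem_univ a) ha, fun a _ =>
      ⟨1, one_mem _, (v a)⁻¹ * Sum.elim x (fun _ => 1) a, ?_, by group⟩⟩,
      fun i => by simp, fun k => one_mem _⟩
    rw [hC, sup_top_eq]
    exact mem_top _
  · have hnt : Nontrivial (ι ⊕ Fin (n + 1)) := by
      obtain ⟨i⟩ := hι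
      exact ⟨Sum.inl i, Sum.inr 0, by simp⟩
    intro v _ hv
    let π := QuotientGroup.mk' N
    have hπ : Surjective π := QuotientGroup.mk'_surjective N
    have htop : ∀ {α : Type} (z : α → G), closure (Set.range z) ⊔ C = ⊤ →
        closure (Set.range (π ∘ z)) ⊔ C.map π = ⊤ := by
      intro α z hz
      rw [Set.range_comp, ← MonoidHom.map_closure, ← Subgroup.map_sup, hz,
        Subgroup.map_top_of_surjective _ hπ]
    have hx' : closure (Set.range (Sum.elim x (fun _ : Fin (n + 1) => (1 : G)))) ⊔ C = ⊤ := by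
      rw [eq_top_iff, ← hx]
      apply sup_le_sup_right
      apply Subgroup.closure_mono
      rintro _ ⟨i, rfl⟩
      exact ⟨Sum.inl i, rfl⟩
    have hu' : ∀ K₁ K₂ : Subgroup (G ⧸ N), C.map π ≤ K₁ → C.map π ≤ K₂ → K₁ ⊔ K₂ = ⊤ →
        K₁ = ⊤ ∨ K₂ = ⊤ := by
      intro K₁ K₂ h1 h2 h3
      have hN : ∀ K : Subgroup (G ⧸ N), C.map π ≤ K → C ⊔ N ≤ K.comap π := by
        intro K hK
        apply _root_.sup_le (Subgroup.map_le_iff_le_comap.mp hK)
        intro g hg
        have : π g = 1 := by
          rwa [QuotientGroup.mk'_apply, QuotientGroup.eq_one_iff]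
        rw [mem_comap, this]
        exact one_mem _
      have h4 : K₁.comap π ⊔ K₂.comap π = ⊤ := by
        rw [comap_sup_eq _ _ _ hπ, h3, comap_top]
      rcases hu _ _ (hN K₁ h1) (hN K₂ h2) h4 with h5 | h5
      · left
        rw [← map_comap_eq_self_of_surjective hπ K₁, h5,
          Subgroup.map_top_of_surjective _ hπ]
      · right
        rw [← map_comap_eq_self_of_surjective hπ K₂, h5,
          Subgroup.map_top_of_surjective _ hπ]
    obtain ⟨w, hw, he⟩ := (rconn_unique hu' (htop v hv) (htop _ hx')).exists_lift π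
    refine ⟨w, hw, fun i => ?_, fun k => ?_⟩
    · exact QuotientGroup.eq.mp (congrFun he (Sum.inl i))
    · have h2 := congrFun he (Sum.inr k)
      have h3 : π (w (Sum.inr k)) = 1 := by
        rw [← map_one π]
        exact h2
      rwa [QuotientGroup.mk'_apply, QuotientGroup.eq_one_iff] at h3

/-- The last step, over a normal subgroup which is superfluous relative to `C`. -/
theorem relative_last {ι : Type} [Finite ι] {G : Type u} [Group G] {C : Subgroup G}
    (A : Subgroup G) [hAn : A.Normal]
    (hA : ∀ K : Subgroup G, C ≤ K → K ⊔ A = ⊤ → K = ⊤) {x : ι → G} {n : ℕ}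
    (v : ι ⊕ Fin (n + 1) → G) (hv : closure (Set.range v) ⊔ C = ⊤)
    (h : RConn (C.map (QuotientGroup.mk' A)) (QuotientGroup.mk' A ∘ v)
      (Sum.elim (QuotientGroup.mk' A ∘ x) (fun _ => 1))) :
    RConn C v (Sum.elim x (fun _ => (1 : G))) := by
  let π := QuotientGroup.mk' A
  obtain ⟨w, hw, he⟩ := h.exists_lift π
  have hwt : closure (Set.range w) ⊔ C = ⊤ := by rw [hw.sup_eq, hv]
  have e : w = Sum.elim (w ∘ Sum.inl) (w ∘ Sum.inr) := (Sum.elim_comp_inl_inr w).symm
  rw [e] at hw hwt
  refine hw.trans (rstep_superfluous hA hwt (fun k => ?_) (fun i => ?_))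
  · have h2 := congrFun he (Sum.inr k)
    have h3 : π (w (Sum.inr k)) = 1 := h2
    rwa [QuotientGroup.mk'_apply, QuotientGroup.eq_one_iff] at h3
  · exact QuotientGroup.eq.mp (congrFun he (Sum.inl i))

end Pool.MP_e4938c_al
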