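import Pool.Agent.Lib.MP_e4938c_al.AbelianBase
import Pool.Agent.Lib.MP_e4938c_al.Lift

/-!
# Stability: generating tuples which become Nielsen equivalent after adding trivial entries
# (MP_e4938c)
-/

namespace Pool.MP_e4938c_al

open Subgroup Function

universe u

variable {ι κ : Type*} {k d : ℕ}

/-- Any two generating `d`-tuples of `G` become Nielsen equivalent after adding `k` trivial
entries. -/
def Stable (k d : ℕ) (G : Type*) [Group G] : Prop :=
  ∀ x m : Fin d → G, Gen x → Gen m →
    NEq (Sum.elim m (fun _ : Fin k => (1 : G))) (Sum.elim x (fun _ : Fin k => (1 : G)))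

theorem comp_elim_one {G H : Type*} [Group G] [Group H] (f : G →* H) (x : ι → G) :
    f ∘ Sum.elim x (fun _ : κ => (1 : G)) = Sum.elim (f ∘ x) (fun _ : κ => (1 : H)) := by
  funext j
  rcases j with j | j <;> simp

theorem Gen.elim {G : Type*} [Group G] {x : ι → G} (hx : Gen x) (c : κ → G) :
    Gen (Sum.elim x c) := by
  unfold Gen at *
  rw [eq_top_iff, ← hx]
  apply Subgroup.closure_mono
  rintro _ ⟨i, rfl⟩
  exact ⟨Sum.inl i, rfl⟩

theorem Stable.of_equiv {G H : Type*} [Group G] [Group H] (e : G ≃* H)
    (h : Stable k d G) : Stable k d H := by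
  intro x m hx hm
  have h1 := h (e.symm ∘ x) (e.symm ∘ m) (hx.map e.symm.toMonoidHom e.symm.surjective)
    (hm.map e.symm.toMonoidHom e.symm.surjective)
  have h2 := h1.map e.toMonoidHom
  rw [comp_elim_one, comp_elim_one] at h2
  have aux : ∀ z : Fin d → H, (e.toMonoidHom : G → H) ∘ (e.symm ∘ z) = z := by
    intro z
    funext i
    simp
  rwa [aux, aux] at h2

/-- Lifting over a normal subgroup. -/
theorem Stable.of_step {G : Type*} [Group G] (A : Subgroup G) [A.Normal]
    (hstep : ∀ (x y : Fin d → G) (c : Fin k → G), Gen x → Gen (Sum.elim y c) →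
      (∀ j, c j ∈ A) → (∀ i, (y i)⁻¹ * x i ∈ A) →
      NEq (Sum.elim y c) (Sum.elim x (fun _ => (1 : G))))
    (h : Stable k d (G ⧸ A)) : Stable k d G := by
  intro x m hx hm
  let π := QuotientGroup.mk' A
  have hπ : Surjective π := QuotientGroup.mk'_surjective A
  have h1 := h (π ∘ x) (π ∘ m) (hx.map π hπ) (hm.map π hπ)
  rw [← comp_elim_one] at h1
  obtain ⟨v, hv, hvx⟩ := h1.exists_lift π
  have hvg : Gen v := hv.gen (hm.elim _)
  have e : v = Sum.elim (v ∘ Sum.inl) (v ∘ Sum.inr) := (Sum.elim_comp_inl_inr v).symm
  rw [e] at hv hvg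
  refine hv.trans (hstep x (v ∘ Sum.inl) (v ∘ Sum.inr) hx hvg ?_ ?_)
  · intro j
    have h2 := congrFun hvx (Sum.inr j)
    have h3 : π (v (Sum.inr j)) = 1 := h2
    rwa [QuotientGroup.mk'_apply, QuotientGroup.eq_one_iff] at h3
  · intro i
    have h2 := congrFun hvx (Sum.inl i)
    have h3 : π (v (Sum.inl i)) = π (x i) := h2
    exact QuotientGroup.eq.mp h3

theorem Stable.of_superfluous {G : Type*} [Group G] (hk : 1 ≤ k) (A : Subgroup G) [A.Normal]
    (hA : ∀ K : Subgroup G, K ⊔ A = ⊤ → K = ⊤) (h : Stable k d (G ⧸ A)) : Stable k d G := by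
  have : Nonempty (Fin k) := ⟨⟨0, hk⟩⟩
  exact Stable.of_step A (fun x y c _ hv hc hxy => step_superfluous hA hv hc hxy) h

theorem Stable.of_abelian {G : Type*} [Group G] (A : Subgroup G) [A.Normal]
    (hab : ∀ a ∈ A, ∀ b ∈ A, a * b = b * a) (hsr : StableRange (Fin k) A)
    (h : Stable k d (G ⧸ A)) : Stable k d G :=
  Stable.of_step A (fun _ _ _ hx hv hc hxy => step_abelian hab hsr hx hv hc hxy) h

/-- Two families which agree on a generating part are Nielsen equivalent. -/
theorem NEq.of_agree {α : Type*} [Finite α] {G : Type*} [Group G] {v w : α → G} {S : Set α}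
    (hS : closure (v '' S) = ⊤) (h : ∀ a ∈ S, v a = w a) : NEq v w := by
  classical
  have := Fintype.ofFinite α
  have key : ∀ s : Finset α, NEq v (fun a => if a ∈ s then w a else v a) := by
    intro s
    induction s using Finset.induction_on with
    | empty => exact NEq.of_eq (by simp)
    | insert a s has ih =>
      refine ih.trans ?_
      by_cases ha : a ∈ S
      · apply NEq.of_eq
        funext b
        by_cases hb : b = a
        · subst hb
          simp [has, h b ha]
        · simp [hb]
      · let z : α → G := fun a => if a ∈ s then w a else v a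
        have hz : (z a)⁻¹ * w a ∈ closure (z '' {a}ᶜ) := by
          have h1 : closure (v '' S) ≤ closure (z '' {a}ᶜ) := by
            apply Subgroup.closure_mono
            rintro _ ⟨b, hb, rfl⟩
            have hba : b ≠ a := fun hba => ha (hba ▸ hb)
            refine ⟨b, by simpa using hba, ?_⟩
            by_cases hbs : b ∈ s
            · simp [z, hbs, h b hb]
            · simp [z, hbs]
          rw [hS] at h1
          exact h1 (mem_top _)
        have h2 := NEq.update_mul z a hz
        have e : update z a (z a * ((z a)⁻¹ * w a)) =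
            fun b => if b ∈ insert a s then w b else v b := by
          funext b
          by_cases hb : b = a
          · subst hb
            simp
          · simp [z, hb]
        rw [e] at h2
        exact h2
  have := key Finset.univ
  simpa using this

/-- A group generated by `k` elements. -/
theorem Stable.of_gen {G : Type*} [Group G] {g : Fin k → G} (hg : Gen g) : Stable k d G := by
  intro x m hx hm
  refine (NEq.slots_free hm _ g).trans (NEq.trans ?_ (NEq.slots_free hx g _))
  apply NEq.slots'
  intro i
  refine ⟨1, one_mem _, (m i)⁻¹ * x i, ?_, by group⟩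
  rw [hg]
  exact mem_top _

theorem Stable.of_comm {G : Type u} [Group G] (hk : 1 ≤ k) (h : ∀ a b : G, a * b = b * a) :
    Stable k d G := by
  have : Nonempty (Fin k) := ⟨⟨0, hk⟩⟩
  intro x m hx hm
  exact abelian_base h hx hm

/-- Any two nontrivial elements have a common mate. -/
def SpreadTwo (G : Type*) [Group G] : Prop :=
  ∀ a b : G, a ≠ 1 → b ≠ 1 → ∃ c : G, closure {a, c} = ⊤ ∧ closure {b, c} = ⊤

theorem Stable.of_spread {G : Type u} [Group G] (hk : 1 ≤ k) (h : SpreadTwo G) :
    Stable k d G := by
  classical
  by_cases hcomm : ∀ a b : G, a * b = b * a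
  · exact Stable.of_comm hk hcomm
  · intro x m hx hm
    have hex : ∀ z : Fin d → G, Gen z → ∃ i, z i ≠ 1 := by
      intro z hz
      by_contra hcon
      push Not at hcon
      apply hcomm
      have h1 : (⊤ : Subgroup G) ≤ ⊥ := by
        rw [← hz, closure_le]
        rintro _ ⟨i, rfl⟩
        rw [hcon i]
        exact one_mem _
      intro a b
      have ha : a = 1 := (mem_bot).mp (h1 (mem_top a))
      have hb : b = 1 := (mem_bot).mp (h1 (mem_top b))
      rw [ha, hb]
    obtain ⟨i, hi⟩ := hex x hx
    obtain ⟨j, hj⟩ := hex m hm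
    obtain ⟨c, hc1, hc2⟩ := h _ _ hi hj
    let κ₀ : Fin k := ⟨0, hk⟩
    let C : Fin k → G := fun _ => c
    -- a pair `z l, c` which generates allows to change all other entries
    have move : ∀ (z w : Fin d → G) (l : Fin d), closure {z l, c} = ⊤ → z l = w l →
        NEq (Sum.elim z C) (Sum.elim w C) := by
      intro z w l hl hzw
      apply NEq.of_agree (S := {Sum.inl l, Sum.inr κ₀})
      · rw [Set.image_pair]
        exact hl
      · intro a ha
        rcases ha with rfl | rfl
        · exact hzw
        · rfl
    suffices hmain : NEq (Sum.elim x C) (Sum.elim m C) from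
      ((NEq.slots_free hm _ C).trans hmain.symm).trans (NEq.slots_free hx C _)
    by_cases hij : i = j
    · -- another index
      obtain ⟨l, hl⟩ : ∃ l, l ≠ i := by
        by_contra hcon
        push Not at hcon
        apply hcomm
        have h1 : ∀ z, z ∈ zpowers (x i) := by
          intro z
          have hz : z ∈ closure (Set.range x) := by rw [hx]; exact mem_top _
          have hr : Set.range x ⊆ {x i} := by
            rintro _ ⟨l, rfl⟩
            rw [hcon l]
            rfl
          have := Subgroup.closure_mono hr hz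
          rwa [← zpowers_eq_closure] at this
        intro a b
        obtain ⟨p, rfl⟩ := h1 a
        obtain ⟨q, rfl⟩ := h1 b
        simp only []
        rw [← zpow_add, ← zpow_add, add_comm]
      subst hij
      have s1 : NEq (Sum.elim x C) (Sum.elim (update x l (m i)) C) :=
        move _ _ i hc1 (by rw [update_of_ne hl.symm])
      have s2 : NEq (Sum.elim (update x l (m i)) C) (Sum.elim (update m l (m i)) C) :=
        move _ _ l (by rw [update_self]; exact hc2) (by rw [update_self, update_self])
      have s3 : NEq (Sum.elim (update m l (m i)) C) (Sum.elim m C) :=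
        move _ _ i (by rw [update_of_ne hl.symm]; exact hc2) (by rw [update_of_ne hl.symm])
      exact (s1.trans s2).trans s3
    · have s1 : NEq (Sum.elim x C) (Sum.elim (update m i (x i)) C) :=
        move _ _ i hc1 (by rw [update_self])
      have hji : j ≠ i := fun h => hij h.symm
      have s2 : NEq (Sum.elim (update m i (x i)) C) (Sum.elim m C) :=
        move _ _ j (by rw [update_of_ne hji]; exact hc2) (by rw [update_of_ne hji])
      exact s1.trans s2

/-- In a nilpotent group the commutator subgroup is superfluous. -/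
theorem nilpotent_superfluous (G : Type u) [Group G] [Group.IsNilpotent G] :
    ∀ K : Subgroup G, K ⊔ commutator G = ⊤ → K = ⊤ := by
  refine Group.nilpotent_center_quotient_ind
    (P := fun G _ _ => ∀ K : Subgroup G, K ⊔ commutator G = ⊤ → K = ⊤) G ?_ ?_
  · intro G _ _ K _
    rw [eq_top_iff]
    intro x _
    rw [Subsingleton.elim x 1]
    exact one_mem _
  · intro G _ _ ih K hK
    let π := QuotientGroup.mk' (center G)
    have hπ : Surjective π := QuotientGroup.mk'_surjective _
    have h1 : K.map π ⊔ commutator (G ⧸ center G) = ⊤ := by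
      have h2 : (commutator G).map π = commutator (G ⧸ center G) := by
        rw [commutator_def, commutator_def, map_commutator, ← MonoidHom.range_eq_map,
          MonoidHom.range_eq_top.mpr hπ]
      rw [← h2, ← Subgroup.map_sup, hK, ← MonoidHom.range_eq_map, MonoidHom.range_eq_top.mpr hπ]
    have h3 := ih _ h1
    have h4 : K ⊔ center G = ⊤ := by
      have h5 := congrArg (comap π) h3
      rwa [comap_map_eq, QuotientGroup.ker_mk', comap_top] at h5
    have hdec : ∀ g : G, ∃ h ∈ K, ∃ z ∈ center G, h * z = g := by
      intro g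
      have : g ∈ K ⊔ center G := by rw [h4]; exact mem_top _
      rwa [mem_sup_of_normal_right] at this
    have hle : commutator G ≤ K := by
      rw [commutator_def, commutator_le]
      intro g _ g' _
      obtain ⟨h, hh, z, hz, rfl⟩ := hdec g
      obtain ⟨h', hh', z', hz', rfl⟩ := hdec g'
      change (h * z) * (h' * z') * (h * z)⁻¹ * (h' * z')⁻¹ ∈ K
      have e : (h * z) * (h' * z') * (h * z)⁻¹ * (h' * z')⁻¹ = h * h' * h⁻¹ * h'⁻¹ := by
        rw [mem_center_iff] at hz hz'
        have e1 : (h * z) * (h' * z') * (h * z)⁻¹ * (h' * z')⁻¹ =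
            h * (z * h') * z' * z⁻¹ * h⁻¹ * z'⁻¹ * h'⁻¹ := by group
        rw [e1, ← hz h']
        have e2 : h * (h' * z) * z' * z⁻¹ * h⁻¹ * z'⁻¹ * h'⁻¹ =
            h * h' * (z * (z' * z⁻¹)) * h⁻¹ * z'⁻¹ * h'⁻¹ := by group
        rw [e2, ← hz (z' * z⁻¹)]
        have e3 : h * h' * (z' * z⁻¹ * z) * h⁻¹ * z'⁻¹ * h'⁻¹ =
            h * h' * (z' * h⁻¹) * z'⁻¹ * h'⁻¹ := by group
        rw [e3, ← hz' h⁻¹]
        group
      rw [e]
      exact K.mul_mem (K.mul_mem (K.mul_mem hh hh') (K.inv_mem hh)) (K.inv_mem hh')
    rw [← hK]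
    exact (sup_eq_left.mpr hle).symm

theorem Stable.of_nilpotent {G : Type u} [Group G] [Group.IsNilpotent G] (hk : 1 ≤ k) :
    Stable k d G := by
  refine Stable.of_superfluous hk (commutator G) (nilpotent_superfluous G)
    (Stable.of_comm hk ?_)
  intro a b
  exact mul_comm (G := Abelianization G) a b

end Pool.MP_e4938c_al
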