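import Pool.Agent.Lib.MP_e4938c_al.Basic

/-!
# The steps: superfluous and abelian normal subgroups, swaps (MP_e4938c)
-/

namespace Pool.MP_e4938c_al

open Subgroup Function

variable {ι κ : Type*} {G : Type*} [Group G]

theorem sup_top_of_congr {A : Subgroup G} {y z : ι → G}
    (hy : closure (Set.range y) ⊔ A = ⊤) (h : ∀ i, (y i)⁻¹ * z i ∈ A) :
    closure (Set.range z) ⊔ A = ⊤ := by
  rw [eq_top_iff, ← hy]
  apply sup_le _ le_sup_right
  rw [closure_le]
  rintro _ ⟨i, rfl⟩
  have h1 : z i ∈ closure (Set.range z) ⊔ A :=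
    mem_sup_left (subset_closure ⟨i, rfl⟩)
  have h2 : (y i)⁻¹ * z i ∈ closure (Set.range z) ⊔ A := mem_sup_right (h i)
  have h3 := mul_mem h1 (inv_mem h2)
  have h4 : z i * ((y i)⁻¹ * z i)⁻¹ = y i := by group
  rwa [h4] at h3

/-- Change all entries one after the other. -/
theorem sweep [Finite ι] (A : Subgroup G) (c : κ → G)
    (hstep : ∀ y : ι → G, closure (Set.range y) ⊔ A = ⊤ → ∀ i, ∀ a ∈ A, ∀ z : ι → G,
      z i = y i * a → (∀ j, j ≠ i → z j = y j) → NEq (Sum.elim y c) (Sum.elim z c))
    {x y : ι → G} (hy : closure (Set.range y) ⊔ A = ⊤) (hxy : ∀ i, (y i)⁻¹ * x i ∈ A) :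
    NEq (Sum.elim y c) (Sum.elim x c) := by
  classical
  have := Fintype.ofFinite ι
  have key : ∀ s : Finset ι,
      NEq (Sum.elim y c) (Sum.elim (fun i => if i ∈ s then x i else y i) c) := by
    intro s
    induction s using Finset.induction_on with
    | empty => exact NEq.of_eq (by simp)
    | insert i s his ih =>
      refine ih.trans (hstep _ ?_ i ((y i)⁻¹ * x i) (hxy i) _ ?_ ?_)
      · refine sup_top_of_congr hy fun j => ?_
        by_cases hj : j ∈ s
        · simp [hj, hxy j]
        · simp [hj]
      · simp [his]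
      · intro j hj
        simp [hj]
  have := key Finset.univ
  simpa using this

/-- A single swap with the help of a trivial slot. -/
theorem NEq.swap [Nonempty κ] {y z : ι → G} (hy : Gen y) (hz : Gen z) (i : ι)
    (h : ∀ j, j ≠ i → z j = y j) :
    NEq (Sum.elim y (fun _ : κ => (1 : G))) (Sum.elim z (fun _ : κ => (1 : G))) := by
  classical
  let k₀ : κ := Classical.arbitrary κ
  let c : κ → G := fun _ => (y i)⁻¹ * z i
  refine (NEq.slots_free hy _ c).trans (NEq.trans ?_ (NEq.slots_free hz c _))
  apply NEq.slots'
  intro j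
  by_cases hj : j = i
  · subst hj
    exact ⟨1, one_mem _, (y j)⁻¹ * z j, subset_closure ⟨k₀, rfl⟩, by group⟩
  · exact ⟨1, one_mem _, 1, one_mem _, by simp [h j hj]⟩

theorem NEq.swaps [Nonempty κ] {y z : ι → G} (hy : Gen y)
    (h : Relation.ReflTransGen (fun y z : ι → G => Gen z ∧ ∃ i, ∀ j, j ≠ i → y j = z j) y z) :
    NEq (Sum.elim y (fun _ : κ => (1 : G))) (Sum.elim z (fun _ : κ => (1 : G))) ∧ Gen z := by
  induction h with
  | refl => exact ⟨NEq.refl _, hy⟩
  | tail _ hbc ih =>
    obtain ⟨hc, i, hi⟩ := hbc
    exact ⟨ih.1.trans (NEq.swap ih.2 hc i fun j hj => (hi j hj).symm), hc⟩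

/-- The step over a superfluous normal subgroup. -/
theorem step_superfluous [Finite ι] [Nonempty κ] {A : Subgroup G}
    (hA : ∀ K : Subgroup G, K ⊔ A = ⊤ → K = ⊤) {x y : ι → G} {c : κ → G}
    (hv : Gen (Sum.elim y c)) (hc : ∀ k, c k ∈ A) (hxy : ∀ i, (y i)⁻¹ * x i ∈ A) :
    NEq (Sum.elim y c) (Sum.elim x (fun _ => (1 : G))) := by
  have hy : closure (Set.range y) ⊔ A = ⊤ := by
    rw [eq_top_iff, ← hv, closure_le]
    rintro _ ⟨j, rfl⟩
    rcases j with i | k
    · exact mem_sup_left (subset_closure ⟨i, rfl⟩)
    · exact mem_sup_right (hc k)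
  refine (NEq.slots_free (hA _ hy) c (fun _ => 1)).trans (sweep A _ ?_ hy hxy)
  intro y hy i a ha z hz1 hz2
  refine NEq.swap (hA _ hy) (hA _ (sup_top_of_congr hy fun j => ?_)) i hz2
  by_cases hj : j = i
  · subst hj
    simpa [hz1] using ha
  · simp [hz2 j hj]

/-- Abelian normal subgroup generated, as a normal subgroup, by the slots. -/
theorem sweep_abelian [Finite ι] {A : Subgroup G} [A.Normal]
    (hab : ∀ a ∈ A, ∀ b ∈ A, a * b = b * a) {c : κ → G}
    (hc : normalClosure (Set.range c) = A) {x y : ι → G}
    (hy : closure (Set.range y) ⊔ A = ⊤) (hxy : ∀ i, (y i)⁻¹ * x i ∈ A) :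
    NEq (Sum.elim y c) (Sum.elim x c) := by
  classical
  have hcA : ∀ k, c k ∈ A := fun k => hc ▸ subset_normalClosure ⟨k, rfl⟩
  have hconj : ∀ b ∈ A, ∀ k, b * c k * b⁻¹ = c k := by
    intro b hb k
    rw [hab b hb _ (hcA k)]
    group
  refine sweep A c ?_ hy hxy
  have key : ∀ a, a ∈ closure (Group.conjugatesOfSet (Set.range c)) →
      ∀ y : ι → G, closure (Set.range y) ⊔ A = ⊤ → ∀ i, ∀ z : ι → G,
      z i = y i * a → (∀ j, j ≠ i → z j = y j) → NEq (Sum.elim y c) (Sum.elim z c) := by
    intro a ha
    have hsub : closure (Group.conjugatesOfSet (Set.range c)) ≤ A := by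
      rw [← hc]
      exact le_of_eq rfl
    induction ha using closure_induction with
    | mem a ha =>
      intro y hy i z hz1 hz2
      rw [Group.mem_conjugatesOfSet_iff] at ha
      obtain ⟨_, ⟨k, rfl⟩, hconj'⟩ := ha
      rw [isConj_iff] at hconj'
      obtain ⟨g, hg⟩ := hconj'
      have hgm : g ∈ closure (Set.range y) ⊔ A := by rw [hy]; exact mem_top _
      rw [mem_sup_of_normal_right] at hgm
      obtain ⟨h, hh, b, hb, rfl⟩ := hgm
      have ha' : a = h * c k * h⁻¹ := by
        rw [← hg]
        have := hconj b hb k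
        calc h * b * c k * (h * b)⁻¹ = h * (b * c k * b⁻¹) * h⁻¹ := by group
          _ = h * c k * h⁻¹ := by rw [this]
      have haA : a ∈ A := by
        rw [ha']
        exact Normal.conj_mem inferInstance _ (hcA k) h
      have hyz : ∀ j, (y j)⁻¹ * z j ∈ A := by
        intro j
        by_cases hj : j = i
        · subst hj
          simpa [hz1] using haA
        · simp [hz2 j hj]
      have hz := sup_top_of_congr hy hyz
      have hhm : h ∈ closure (Set.range z) ⊔ A := by rw [hz]; exact mem_top _
      rw [mem_sup_of_normal_right] at hhm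
      obtain ⟨h', hh', b', hb', hhh⟩ := hhm
      have ha'' : a = h' * c k * h'⁻¹ := by
        rw [ha', ← hhh]
        have := hconj b' hb' k
        calc h' * b' * c k * (h' * b')⁻¹ = h' * (b' * c k * b'⁻¹) * h'⁻¹ := by group
          _ = h' * c k * h'⁻¹ := by rw [this]
      have s1 : NEq (Sum.elim y c) (Sum.elim y (update c k a)) := by
        apply NEq.slots
        intro l
        by_cases hl : l = k
        · subst hl
          exact ⟨h, hh, h⁻¹, inv_mem hh, by simp [ha']⟩
        · exact ⟨1, one_mem _, 1, one_mem _, by simp [update_of_ne hl]⟩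
      have s2 : NEq (Sum.elim y (update c k a)) (Sum.elim z (update c k a)) := by
        apply NEq.slots'
        intro j
        by_cases hj : j = i
        · subst hj
          exact ⟨1, one_mem _, a, subset_closure ⟨k, by simp⟩, by simp [hz1]⟩
        · exact ⟨1, one_mem _, 1, one_mem _, by simp [hz2 j hj]⟩
      have s3 : NEq (Sum.elim z (update c k a)) (Sum.elim z c) := by
        apply NEq.slots
        intro l
        by_cases hl : l = k
        · subst hl
          refine ⟨h'⁻¹, inv_mem hh', h', hh', ?_⟩
          simp only [update_self]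
          rw [ha'']
          group
        · exact ⟨1, one_mem _, 1, one_mem _, by simp [update_of_ne hl]⟩
      exact (s1.trans s2).trans s3
    | one =>
      intro y hy i z hz1 hz2
      apply NEq.of_eq
      congr 1
      funext j
      by_cases hj : j = i
      · subst hj
        simp [hz1]
      · simp [hz2 j hj]
    | mul a b ha hb iha ihb =>
      intro y hy i z hz1 hz2
      have haA := hsub ha
      have hu : closure (Set.range (update y i (y i * a))) ⊔ A = ⊤ := by
        refine sup_top_of_congr hy fun j => ?_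
        by_cases hj : j = i
        · subst hj
          simpa using haA
        · simp [update_of_ne hj]
      refine (iha y hy i (update y i (y i * a)) (by simp) fun j hj => by
        simp [update_of_ne hj]).trans (ihb _ hu i z (by simp [hz1, mul_assoc])
          fun j hj => by simp [update_of_ne hj, hz2 j hj])
    | inv a ha iha =>
      intro y hy i z hz1 hz2
      have haA := hsub ha
      have hz : closure (Set.range z) ⊔ A = ⊤ := by
        refine sup_top_of_congr hy fun j => ?_
        by_cases hj : j = i
        · subst hj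
          simpa [hz1] using haA
        · simp [hz2 j hj]
      exact (iha z hz i y (by simp [hz1]) fun j hj => (hz2 j hj).symm).symm
  intro y hy i a ha z hz1 hz2
  refine key a ?_ y hy i z hz1 hz2
  rw [← hc] at ha
  exact ha

/-- The stable range condition of a normal subgroup `A`: whenever a family of `k` elements of
`A` generates `A` as a normal subgroup together with a normal subgroup `I ≤ A`, one can
multiply the members of the family by elements of `I` so that they generate `A` as a normal
subgroup. -/
def StableRange (κ : Type*) {G : Type*} [Group G] (A : Subgroup G) : Prop :=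
  ∀ I : Subgroup G, I.Normal → I ≤ A → ∀ c : κ → G, (∀ k, c k ∈ A) →
    normalClosure (Set.range c) ⊔ I = A →
    ∃ b : κ → G, (∀ k, b k ∈ I) ∧ normalClosure (Set.range fun k => c k * b k) = A

/-- The step over an abelian normal subgroup with the stable range condition. -/
theorem step_abelian [Finite ι] {A : Subgroup G} [hAn : A.Normal]
    (hab : ∀ a ∈ A, ∀ b ∈ A, a * b = b * a) (hsr : StableRange κ A) {x y : ι → G} {c : κ → G}
    (hx : Gen x) (hv : Gen (Sum.elim y c)) (hc : ∀ k, c k ∈ A)
    (hxy : ∀ i, (y i)⁻¹ * x i ∈ A) :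
    NEq (Sum.elim y c) (Sum.elim x (fun _ => (1 : G))) := by
  have hy : closure (Set.range y) ⊔ A = ⊤ := by
    rw [eq_top_iff, ← hv, closure_le]
    rintro _ ⟨j, rfl⟩
    rcases j with i | k
    · exact mem_sup_left (subset_closure ⟨i, rfl⟩)
    · exact mem_sup_right (hc k)
  -- the intersection with the subgroup generated by `y`
  let I : Subgroup G := closure (Set.range y) ⊓ A
  have hIn : I.Normal := by
    constructor
    intro n hn g
    have hgm : g ∈ closure (Set.range y) ⊔ A := by rw [hy]; exact mem_top _
    rw [mem_sup_of_normal_right] at hgm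
    obtain ⟨h, hh, b, hb, rfl⟩ := hgm
    have e : h * b * n * (h * b)⁻¹ = h * n * h⁻¹ := by
      have := hab b hb n hn.2
      calc h * b * n * (h * b)⁻¹ = h * (b * n) * b⁻¹ * h⁻¹ := by group
        _ = h * (n * b) * b⁻¹ * h⁻¹ := by rw [this]
        _ = h * n * h⁻¹ := by group
    rw [e]
    have hm : h * n * h⁻¹ ∈ closure (Set.range y) :=
      Subgroup.mul_mem _ (Subgroup.mul_mem _ hh hn.1) (Subgroup.inv_mem _ hh)
    exact ⟨hm, hAn.conj_mem _ hn.2 h⟩
  have hsup : normalClosure (Set.range c) ⊔ I = A := by
    apply le_antisymm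
    · apply sup_le _ inf_le_right
      apply normalClosure_le_normal
      rintro _ ⟨k, rfl⟩
      exact hc k
    · intro a ha
      have htop : closure (Set.range y) ⊔ (normalClosure (Set.range c) ⊔ I) = ⊤ := by
        rw [eq_top_iff, ← hv, closure_le]
        rintro _ ⟨j, rfl⟩
        rcases j with i | k
        · exact mem_sup_left (subset_closure ⟨i, rfl⟩)
        · exact mem_sup_right (mem_sup_left (subset_normalClosure ⟨k, rfl⟩))
      have ham : a ∈ closure (Set.range y) ⊔ (normalClosure (Set.range c) ⊔ I) := by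
        rw [htop]; exact mem_top _
      rw [mem_sup_of_normal_right] at ham
      obtain ⟨h, hh, b, hb, rfl⟩ := ham
      have hbA : b ∈ A := by
        have hle : normalClosure (Set.range c) ⊔ I ≤ A := by
          apply sup_le _ inf_le_right
          apply normalClosure_le_normal
          rintro _ ⟨k, rfl⟩
          exact hc k
        exact hle hb
      have hhA : h ∈ A := by
        have := mul_mem ha (inv_mem hbA)
        simpa using this
      exact mul_mem (mem_sup_right ⟨hh, hhA⟩) hb
  obtain ⟨b, hbI, hbn⟩ := hsr I hIn inf_le_right c hc hsup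
  have s1 : NEq (Sum.elim y c) (Sum.elim y fun k => c k * b k) := by
    apply NEq.slots
    intro k
    exact ⟨1, one_mem _, b k, (hbI k).1, by simp⟩
  exact (s1.trans (sweep_abelian hab hbn hy hxy)).trans (NEq.slots_free hx _ _)

end Pool.MP_e4938c_al
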