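import Pool.Agent.Lib.MP_e4938c_al.Stable

/-!
# Swap connectivity (MP_e4938c)
-/

namespace Pool.MP_e4938c_al

open Subgroup Function

universe u

/-- Change at most `k` entries and land in `P`. -/
def Step {α G : Type*} (P : (α → G) → Prop) (k : ℕ) (y z : α → G) : Prop :=
  P z ∧ ∃ J : Finset α, J.card ≤ k ∧ ∀ j, j ∉ J → z j = y j

/-- Any two generating `d`-tuples are connected by a chain of generating `d`-tuples in which
consecutive ones differ in at most `k` entries. -/
def SwapConn (k d : ℕ) (G : Type*) [Group G] : Prop :=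
  ∀ x m : Fin d → G, Gen x → Gen m → Relation.ReflTransGen (Step Gen k) x m

theorem Step.mono {α G : Type*} {P : (α → G) → Prop} {k l : ℕ} (hkl : k ≤ l) {y z : α → G}
    (h : Step P k y z) : Step P l y z := by
  obtain ⟨h1, J, hJ, h2⟩ := h
  exact ⟨h1, J, hJ.trans hkl, h2⟩

theorem chain_mono {α G : Type*} {P : (α → G) → Prop} {k l : ℕ} (hkl : k ≤ l) {y z : α → G}
    (h : Relation.ReflTransGen (Step P k) y z) : Relation.ReflTransGen (Step P l) y z := by
  induction h with
  | refl => exact Relation.ReflTransGen.refl
  | tail _ h ih => exact ih.tail (h.mono hkl)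

/-- The end of a chain which starts in `P` is in `P`. -/
theorem chain_end {α G : Type*} {P : (α → G) → Prop} {k : ℕ} {y z : α → G} (hy : P y)
    (h : Relation.ReflTransGen (Step P k) y z) : P z := by
  induction h with
  | refl => exact hy
  | tail _ h _ => exact h.1

/-- Change all entries one after the other. -/
theorem chain_all {α G : Type*} [Finite α] {P : (α → G) → Prop} {k : ℕ} (hk : 1 ≤ k)
    {y z : α → G} (h : ∀ w : α → G, (∀ i, w i = y i ∨ w i = z i) → P w) :
    Relation.ReflTransGen (Step P k) y z := by
  classical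
  have := Fintype.ofFinite α
  have key : ∀ s : Finset α,
      Relation.ReflTransGen (Step P k) y (fun i => if i ∈ s then z i else y i) := by
    intro s
    induction s using Finset.induction_on with
    | empty =>
      have e : (fun i => if i ∈ (∅ : Finset α) then z i else y i) = y := by simp
      rw [e]
    | insert i s his ih =>
      refine ih.tail ⟨h _ fun j => ?_, {i}, by simpa using hk, fun j hj => ?_⟩
      · by_cases hj : j ∈ insert i s
        · right
          simp only [if_pos hj]
        · left
          simp only [if_neg hj]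
      · have hj' : j ≠ i := by simpa using hj
        simp [hj']
  have := key Finset.univ
  simpa using this

/-- Lifting a chain if all lifts are good. -/
theorem lift_chain {α G Q : Type*} [Finite α] {f : G → Q} (hf : Surjective f)
    {P : (α → Q) → Prop} {P' : (α → G) → Prop} (hP : ∀ z : α → G, P (f ∘ z) → P' z)
    {k : ℕ} (hk : 1 ≤ k) {x m : α → G} (hx : P (f ∘ x))
    (h : Relation.ReflTransGen (Step P k) (f ∘ x) (f ∘ m)) :
    Relation.ReflTransGen (Step P' k) x m := by
  classical
  have key : ∀ w : α → Q, Relation.ReflTransGen (Step P k) (f ∘ x) w →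
      ∃ z : α → G, f ∘ z = w ∧ P w ∧ Relation.ReflTransGen (Step P' k) x z := by
    intro w hw
    induction hw with
    | refl => exact ⟨x, rfl, hx, Relation.ReflTransGen.refl⟩
    | @tail b c _ hbc ih =>
      obtain ⟨z, hz, _, hch⟩ := ih
      obtain ⟨hc, J, hJ, hJc⟩ := hbc
      choose g hg using hf
      have hfz : f ∘ (fun i => if i ∈ J then g (c i) else z i) = c := by
        funext i
        by_cases hi : i ∈ J
        · simp [hi, hg]
        · have h1 := congrFun hz i
          simp only [comp_apply] at h1
          simp [hi, h1, hJc i hi]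
      refine ⟨fun i => if i ∈ J then g (c i) else z i, hfz, hc, hch.tail ⟨?_, J, hJ, ?_⟩⟩
      · apply hP
        rw [hfz]
        exact hc
      · intro j hj
        simp [hj]
  obtain ⟨z, hz, hP1, hch⟩ := key _ h
  refine hch.trans (chain_all hk fun w hw => hP w ?_)
  have e : f ∘ w = f ∘ m := by
    funext i
    rcases hw i with h1 | h1
    · simp only [comp_apply, h1]
      exact congrFun hz i
    · simp only [comp_apply, h1]
  rw [e]
  exact hP1

/-- Reindexing. -/
theorem chain_reindex {α β G : Type*} (e : α ≃ β) {P : (α → G) → Prop} {P' : (β → G) → Prop}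
    (hP : ∀ z : β → G, P (z ∘ e) → P' z) {k : ℕ} {x m : β → G}
    (h : Relation.ReflTransGen (Step P k) (x ∘ e) (m ∘ e)) :
    Relation.ReflTransGen (Step P' k) x m := by
  have key : ∀ w : α → G, Relation.ReflTransGen (Step P k) (x ∘ e) w →
      Relation.ReflTransGen (Step P' k) x (w ∘ e.symm) := by
    intro w hw
    induction hw with
    | refl =>
      have e1 : (x ∘ e) ∘ e.symm = x := by
        funext i
        simp
      rw [e1]
    | @tail b c _ hbc ih =>
      obtain ⟨hc, J, hJ, hJc⟩ := hbc
      refine ih.tail ⟨hP _ ?_, J.map e.toEmbedding, by simpa using hJ, ?_⟩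
      · have e1 : (c ∘ e.symm) ∘ e = c := by
          funext i
          simp
        rwa [e1]
      · intro j hj
        apply hJc
        intro hj'
        exact hj (by simpa using hj')
  have h1 := key _ h
  have e1 : (m ∘ e) ∘ e.symm = m := by
    funext i
    simp
  rwa [e1] at h1

/-! ### Elementary Nielsen moves -/

/-- An elementary Nielsen move. -/
def NStep {α G : Type*} [Group G] (y z : α → G) : Prop :=
  ∃ o p, o ≠ p ∧ (∃ e : ℤ, z p = y p * y o ^ e) ∧ ∀ j, j ≠ p → z j = y j

theorem NStep.gen {α G : Type*} [Group G] {y z : α → G} (h : NStep y z) (hy : Gen y) :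
    Gen z := by
  obtain ⟨o, p, hop, ⟨e, he⟩, hj⟩ := h
  unfold Gen at *
  rw [eq_top_iff, ← hy, closure_le]
  rintro _ ⟨j, rfl⟩
  by_cases hjp : j = p
  · subst hjp
    have h1 : z j ∈ closure (Set.range z) := Subgroup.subset_closure ⟨j, rfl⟩
    have h2 : z o ∈ closure (Set.range z) := Subgroup.subset_closure ⟨o, rfl⟩
    have h3 := (closure (Set.range z)).mul_mem h1
      ((closure (Set.range z)).inv_mem ((closure (Set.range z)).zpow_mem h2 e))
    rw [he, hj o hop] at h3
    simpa using h3
  · rw [← hj j hjp]
    exact Subgroup.subset_closure ⟨j, rfl⟩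

theorem nchain_gen {α G : Type*} [Group G] {y z : α → G} (h : Relation.ReflTransGen NStep y z)
    (hy : Gen y) : Gen z := by
  induction h with
  | refl => exact hy
  | tail _ h ih => exact h.gen ih

theorem nchain_swap {α G : Type*} [Group G] {y z : α → G}
    (h : Relation.ReflTransGen NStep y z) (hy : Gen y) :
    Relation.ReflTransGen (Step Gen 1) y z := by
  classical
  induction h with
  | refl => exact Relation.ReflTransGen.refl
  | @tail b c hab h ih =>
    refine ih.tail ⟨h.gen (nchain_gen hab hy), ?_⟩
    obtain ⟨o, p, _, _, hj⟩ := h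
    exact ⟨{p}, by simp, fun j hjp => hj j (by simpa using hjp)⟩

theorem nchain_map {α G H : Type*} [Group G] [Group H] (f : G →* H) {y z : α → G}
    (h : Relation.ReflTransGen NStep y z) :
    Relation.ReflTransGen NStep (f ∘ y) (f ∘ z) := by
  induction h with
  | refl => exact Relation.ReflTransGen.refl
  | tail _ h ih =>
    refine ih.tail ?_
    obtain ⟨o, p, hop, ⟨e, he⟩, hj⟩ := h
    exact ⟨o, p, hop, ⟨e, by simp [he]⟩, fun j hjp => by simp [hj j hjp]⟩

theorem nchain_lift {α G H : Type*} [Group G] [Group H] (f : G →* H) {y : α → G} {w : α → H}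
    (h : Relation.ReflTransGen NStep (f ∘ y) w) :
    ∃ z, Relation.ReflTransGen NStep y z ∧ f ∘ z = w := by
  classical
  induction h with
  | refl => exact ⟨y, Relation.ReflTransGen.refl, rfl⟩
  | @tail b c _ h ih =>
    obtain ⟨z, hz, hzb⟩ := ih
    obtain ⟨o, p, hop, ⟨e, he⟩, hj⟩ := h
    have hb : ∀ j, b j = f (z j) := fun j => (congrFun hzb j).symm
    refine ⟨update z p (z p * z o ^ e),
      hz.tail ⟨o, p, hop, ⟨e, by simp⟩, fun j hjp => by simp [update_of_ne hjp]⟩, ?_⟩
    funext j
    by_cases hjp : j = p
    · subst hjp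
      simp [he, hb]
    · simp [update_of_ne hjp, hj j hjp, hb]

/-- Euclid's algorithm on an integral relation between the entries. -/
theorem exists_trivial_entry' {B : Type*} [CommGroup B]
    (htf : ∀ b : B, ∀ n : ℤ, n ≠ 0 → b ^ n = 1 → b = 1) {α : Type*} [Fintype α]
    (t : α) (n : ℕ) : ∀ N : α → B, ∀ k : α → ℤ, (∃ a, k a ≠ 0) →
      ∑ a, (k a).natAbs ≤ n → ∏ a, N a ^ k a = 1 →
      ∃ N', Relation.ReflTransGen NStep N N' ∧ N' t = 1 := by
  classical
  induction n with
  | zero =>
    intro N k ⟨a, ha⟩ hs _
    exfalso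
    have h0 : ∑ a, (k a).natAbs = 0 := le_antisymm hs (Nat.zero_le _)
    rw [Finset.sum_eq_zero_iff] at h0
    exact ha (Int.natAbs_eq_zero.mp (h0 a (Finset.mem_univ a)))
  | succ n ih =>
    intro N k hk hs hprod
    by_cases htwo : ∃ o p, o ≠ p ∧ k o ≠ 0 ∧ k p ≠ 0
    · -- two nonzero coefficients
      obtain ⟨o, p, hop, hko, hkp, hle⟩ : ∃ o p, o ≠ p ∧ k o ≠ 0 ∧ k p ≠ 0 ∧
          (k p).natAbs ≤ (k o).natAbs := by
        obtain ⟨o, p, hop, hko, hkp⟩ := htwo
        rcases le_total (k p).natAbs (k o).natAbs with h | h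
        · exact ⟨o, p, hop, hko, hkp, h⟩
        · exact ⟨p, o, hop.symm, hkp, hko, h⟩
      obtain ⟨e, he⟩ : ∃ e : ℤ, (k o - e * k p).natAbs < (k o).natAbs := by
        rcases lt_or_gt_of_ne hko with h1 | h1 <;> rcases lt_or_gt_of_ne hkp with h2 | h2
        · exact ⟨1, by omega⟩
        · exact ⟨-1, by omega⟩
        · exact ⟨-1, by omega⟩
        · exact ⟨1, by omega⟩
      let N₁ : α → B := update N p (N p * N o ^ e)
      let k₁ : α → ℤ := update k o (k o - e * k p)
      have hNN : NStep N N₁ :=
        ⟨o, p, hop, ⟨e, by simp [N₁]⟩, fun j hj => by simp [N₁, update_of_ne hj]⟩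
      have hk₁ : ∃ a, k₁ a ≠ 0 := ⟨p, by simpa [k₁, update_of_ne hop.symm] using hkp⟩
      have hlt : ∑ a, (k₁ a).natAbs < ∑ a, (k a).natAbs := by
        apply Finset.sum_lt_sum
        · intro a _
          by_cases ha : a = o
          · subst ha
            simpa [k₁] using he.le
          · simp [k₁, update_of_ne ha]
        · exact ⟨o, Finset.mem_univ o, by simpa [k₁] using he⟩
      have hprod₁ : ∏ a, N₁ a ^ k₁ a = 1 := by
        have hterm : ∀ a, N₁ a ^ k₁ a = N a ^ k a * (if a = p then N o ^ (e * k p) else 1) *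
            (if a = o then N o ^ (-(e * k p)) else 1) := by
          intro a
          by_cases hap : a = p
          · subst hap
            have hao : a ≠ o := hop.symm
            simp only [N₁, k₁, update_self, update_of_ne hao, if_neg hao, if_true, mul_one]
            rw [mul_zpow, zpow_mul]
          · by_cases hao : a = o
            · subst hao
              simp only [N₁, k₁, update_self, update_of_ne hap, if_neg hap, if_true, mul_one]
              rw [← zpow_add]
              congr 1
            · simp [N₁, k₁, hap, hao]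
        simp_rw [hterm]
        rw [Finset.prod_mul_distrib, Finset.prod_mul_distrib, hprod]
        simp
      obtain ⟨N', h1, h2⟩ := ih N₁ k₁ hk₁ (by omega) hprod₁
      exact ⟨N', Relation.ReflTransGen.head hNN h1, h2⟩
    · -- one nonzero coefficient
      push Not at htwo
      obtain ⟨o, hko⟩ := hk
      have hN : N o ^ k o = 1 := by
        rw [← hprod]
        symm
        apply Finset.prod_eq_single o
        · intro p _ hp
          rw [htwo o p hp.symm hko, zpow_zero]
        · intro h
          exact absurd (Finset.mem_univ o) h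
      have hNo : N o = 1 := htf _ _ hko hN
      by_cases hot : o = t
      · subst hot
        exact ⟨N, Relation.ReflTransGen.refl, hNo⟩
      · have hto : t ≠ o := fun h => hot h.symm
        let N₁ : α → B := update N o (N o * N t ^ (1 : ℤ))
        have h1 : NStep N N₁ :=
          ⟨t, o, hto, ⟨1, by simp [N₁]⟩, fun j hj => by simp [N₁, update_of_ne hj]⟩
        let N₂ : α → B := update N₁ t (N₁ t * N₁ o ^ (-1 : ℤ))
        have h2 : NStep N₁ N₂ :=
          ⟨o, t, hot, ⟨-1, by simp [N₂]⟩, fun j hj => by simp [N₂, update_of_ne hj]⟩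
        refine ⟨N₂, (Relation.ReflTransGen.single h1).tail h2, ?_⟩
        simp [N₂, N₁, update_of_ne hto, hNo]

/-- In an abelian group generated by `ι` elements, a family indexed by `ι ⊕ Unit` can be
transformed by elementary Nielsen moves into one whose last entry is trivial. -/
theorem exists_last_trivial' {ι : Type*} [Finite ι] {B : Type*} [CommGroup B] {g : ι → B}
    (hg : Gen g) (m : ι ⊕ Unit → B) :
    ∃ m', Relation.ReflTransGen NStep m m' ∧ m' (Sum.inr ()) = 1 := by
  classical
  have := Fintype.ofFinite ι
  let h : Multiplicative (ι → ℤ) →* B :=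
    { toFun := fun n => ∏ i, g i ^ (Multiplicative.toAdd n i)
      map_one' := by simp
      map_mul' := by
        intro a b
        simp [zpow_add, Finset.prod_mul_distrib] }
  have hsurj : Surjective h := by
    rw [← MonoidHom.range_eq_top, eq_top_iff, ← hg, closure_le]
    rintro _ ⟨i, rfl⟩
    refine ⟨Multiplicative.ofAdd (Pi.single i 1), ?_⟩
    change ∏ j, g j ^ (Pi.single i (1 : ℤ) : ι → ℤ) j = g i
    rw [Finset.prod_eq_single i]
    · simp
    · intro j _ hj
      simp [Pi.single_eq_of_ne hj]
    · intro hi
      exact absurd (Finset.mem_univ i) hi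
  choose N hN using fun j => hsurj (m j)
  -- an integral relation
  have hdep : ¬ LinearIndependent ℤ (fun j : ι ⊕ Unit => Multiplicative.toAdd (N j)) := by
    intro hli
    have h1 := hli.fintype_card_le_finrank
    simp at h1
  rw [Fintype.not_linearIndependent_iff] at hdep
  obtain ⟨k, hk, hk0⟩ := hdep
  have htf : ∀ b : Multiplicative (ι → ℤ), ∀ n : ℤ, n ≠ 0 → b ^ n = 1 → b = 1 := by
    intro b n hn hb
    have h1 : n • (Multiplicative.toAdd b) = 0 := by
      rw [← toAdd_zpow, hb, toAdd_one]
    have h2 : Multiplicative.toAdd b = 0 := by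
      funext i
      have := congrFun h1 i
      simp only [Pi.smul_apply, smul_eq_mul, Pi.zero_apply, mul_eq_zero] at this
      rcases this with h | h
      · exact absurd h hn
      · exact h
    exact Multiplicative.toAdd.injective h2
  obtain ⟨N', hNN, hN1⟩ := exists_trivial_entry' htf (Sum.inr () : ι ⊕ Unit) _ N k hk0 le_rfl
    (by
      apply Multiplicative.toAdd.injective
      rw [toAdd_prod, toAdd_one, ← hk]
      apply Finset.sum_congr rfl
      intro j _
      rw [toAdd_zpow])
  refine ⟨h ∘ N', ?_, ?_⟩
  · have e : m = h ∘ N := by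
      funext j
      exact (hN j).symm
    rw [e]
    exact nchain_map h hNN
  · simp [hN1]

/-! ### Abelian groups -/

theorem gen_elim_of_quotient {ι κ : Type*} {A : Type*} [CommGroup A] (a : A) {z : ι → A}
    {c : κ → A} (hc : ∃ k, c k = a) (h : Gen (QuotientGroup.mk' (zpowers a) ∘ z)) :
    Gen (Sum.elim z c) := by
  unfold Gen at *
  rw [eq_top_iff]
  intro g _
  have h1 : QuotientGroup.mk' (zpowers a) g ∈
      closure (Set.range (QuotientGroup.mk' (zpowers a) ∘ z)) := by
    rw [h]
    exact mem_top _
  rw [Set.range_comp, ← MonoidHom.map_closure] at h1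
  obtain ⟨w, hw, hwg⟩ := h1
  have h2 : w⁻¹ * g ∈ zpowers a := QuotientGroup.eq.mp hwg
  have h3 : zpowers a ≤ closure (Set.range (Sum.elim z c)) := by
    rw [zpowers_le]
    obtain ⟨k, rfl⟩ := hc
    exact Subgroup.subset_closure ⟨Sum.inr k, rfl⟩
  have h4 : closure (Set.range z) ≤ closure (Set.range (Sum.elim z c)) := by
    apply Subgroup.closure_mono
    rintro _ ⟨i, rfl⟩
    exact ⟨Sum.inl i, rfl⟩
  have h5 := (closure (Set.range (Sum.elim z c))).mul_mem (h4 hw) (h3 h2)
  simpa using h5

theorem abelian_swap_aux (ι : Type) [Finite ι] : ∀ (A : Type u) [CommGroup A] (x m : ι → A),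
    Gen x → Gen m → Relation.ReflTransGen (Step Gen 1) m x := by
  induction ι using Finite.induction_empty_option with
  | of_equiv e ih =>
    intro A _ x m hx hm
    have h := ih A (x ∘ e) (m ∘ e) (hx.comp_equiv e) (hm.comp_equiv e)
    refine chain_reindex e (fun z hz => ?_) h
    have h1 := hz.comp_equiv e.symm
    have e1 : (z ∘ e) ∘ e.symm = z := by
      funext i
      simp
    rwa [e1] at h1
  | h_empty =>
    intro A _ x m _ _
    have : x = m := by
      funext i
      exact i.elim
    rw [this]
  | @h_option ι _ ih =>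
    intro A _ X M hX hM
    -- pass to `ι ⊕ Unit`
    let e : Option ι ≃ ι ⊕ Unit := Equiv.optionEquivSumPUnit ι
    suffices hmain : ∀ x m : ι ⊕ Unit → A, Gen x → Gen m →
        Relation.ReflTransGen (Step Gen 1) m x by
      have h := hmain (X ∘ e.symm) (M ∘ e.symm) (hX.comp_equiv e.symm) (hM.comp_equiv e.symm)
      refine chain_reindex e.symm (fun z hz => ?_) h
      have h1 := hz.comp_equiv e
      have e1 : (z ∘ e.symm) ∘ e = z := by
        funext i
        simp only [comp_apply, Equiv.symm_apply_apply]
      rwa [e1] at h1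
    intro x m hx hm
    obtain ⟨a, ha⟩ : ∃ a, a = x (Sum.inr ()) := ⟨_, rfl⟩
    let π : A →* A ⧸ zpowers a := QuotientGroup.mk' (zpowers a)
    have hπ : Surjective π := QuotientGroup.mk'_surjective _
    have hπa : π a = 1 := by
      rw [QuotientGroup.mk'_apply, QuotientGroup.eq_one_iff]
      exact mem_zpowers a
    have hxbar : Gen (π ∘ (x ∘ Sum.inl)) := by
      have h1 : Gen (π ∘ x) := hx.map π hπ
      have h2 : π ∘ x = Sum.elim (π ∘ (x ∘ Sum.inl)) (fun _ : Unit => 1) := by
        funext j
        rcases j with j | j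
        · rfl
        · change π (x (Sum.inr ())) = 1
          rw [← ha]
          exact hπa
      rw [h2] at h1
      exact h1.of_elim_one
    -- step 1
    obtain ⟨w, hw, hw1⟩ := exists_last_trivial' hxbar (π ∘ m)
    obtain ⟨m', hm', hm'w⟩ := nchain_lift π hw
    have hm'gen : Gen m' := nchain_gen hm' hm
    have hm'Z : π (m' (Sum.inr ())) = 1 := by
      rw [← hw1, ← hm'w]
      rfl
    have s1 := nchain_swap hm' hm
    have hybar : Gen (π ∘ (m' ∘ Sum.inl)) := by
      have h1 : Gen (π ∘ m') := hm'gen.map π hπ
      have h2 : π ∘ m' = Sum.elim (π ∘ (m' ∘ Sum.inl)) (fun _ : Unit => 1) := by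
        funext j
        rcases j with j | j
        · rfl
        · exact hm'Z
      rw [h2] at h1
      exact h1.of_elim_one
    let C : Unit → A := fun _ => a
    have s2 : Step Gen 1 m' (Sum.elim (m' ∘ Sum.inl) C) := by
      refine ⟨gen_elim_of_quotient a ⟨(), rfl⟩ hybar, {Sum.inr ()}, by simp, ?_⟩
      intro j hj
      rcases j with j | j
      · rfl
      · simp at hj
    have s3 : Relation.ReflTransGen (Step (fun z : ι → A => Gen (Sum.elim z C)) 1)
        (m' ∘ Sum.inl) (x ∘ Sum.inl) := by
      refine lift_chain (f := π) hπ (P := Gen)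
        (fun z hz => gen_elim_of_quotient a ⟨(), rfl⟩ hz) le_rfl hybar ?_
      exact ih (A ⧸ zpowers a) (π ∘ (x ∘ Sum.inl)) (π ∘ (m' ∘ Sum.inl)) hxbar hybar
    have s4 : ∀ z : ι → A,
        Relation.ReflTransGen (Step (fun z : ι → A => Gen (Sum.elim z C)) 1)
          (m' ∘ Sum.inl) z →
        Relation.ReflTransGen (Step Gen 1) (Sum.elim (m' ∘ Sum.inl) C) (Sum.elim z C) := by
      intro z hz
      induction hz with
      | refl => exact Relation.ReflTransGen.refl
      | tail _ h ih' =>
        obtain ⟨hg, J, hJ, hJc⟩ := h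
        refine ih'.tail ⟨hg, J.map Embedding.inl, by simpa using hJ, ?_⟩
        intro j hj
        rcases j with j | j
        · simp only [Sum.elim_inl]
          apply hJc
          intro hj'
          exact hj (by simpa using hj')
        · rfl
    have e5 : Sum.elim (x ∘ Sum.inl) C = x := by
      funext j
      rcases j with j | j
      · rfl
      · exact ha
    have s5 := s4 _ s3
    rw [e5] at s5
    exact (s1.tail s2).trans s5

theorem SwapConn.mono {k l d : ℕ} (hkl : k ≤ l) {G : Type*} [Group G]
    (h : SwapConn k d G) : SwapConn l d G := fun x m hx hm => chain_mono hkl (h x m hx hm)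

theorem SwapConn.of_comm {k d : ℕ} (hk : 1 ≤ k) {G : Type u} [Group G]
    (h : ∀ a b : G, a * b = b * a) : SwapConn k d G := by
  let _ : CommGroup G := { (inferInstance : Group G) with mul_comm := h }
  refine SwapConn.mono hk fun x m hx hm => ?_
  exact abelian_swap_aux (Fin d) G m x hm hx

theorem SwapConn.of_superfluous {k d : ℕ} (hk : 1 ≤ k) {G : Type*} [Group G]
    (A : Subgroup G) [A.Normal] (hA : ∀ K : Subgroup G, K ⊔ A = ⊤ → K = ⊤)
    (h : SwapConn k d (G ⧸ A)) : SwapConn k d G := by
  intro x m hx hm
  let π := QuotientGroup.mk' A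
  have hπ : Surjective π := QuotientGroup.mk'_surjective A
  refine lift_chain (f := π) hπ (P := Gen) (fun z hz => ?_) hk (hx.map π hπ)
    (h _ _ (hx.map π hπ) (hm.map π hπ))
  apply hA
  unfold Gen at hz
  rw [Set.range_comp, ← MonoidHom.map_closure] at hz
  have h1 := congrArg (comap π) hz
  rwa [comap_map_eq, QuotientGroup.ker_mk', comap_top] at h1

theorem SwapConn.of_nilpotent {k d : ℕ} (hk : 1 ≤ k) {G : Type u} [Group G]
    [Group.IsNilpotent G] : SwapConn k d G := by
  refine SwapConn.of_superfluous hk (commutator G) (nilpotent_superfluous G)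
    (SwapConn.of_comm hk ?_)
  intro a b
  exact mul_comm (G := Abelianization G) a b

/-- `k` generators. -/
theorem SwapConn.of_gen {k d : ℕ} (hk : 1 ≤ k) {G : Type*} [Group G] {g : Fin k → G}
    (hg : Gen g) : SwapConn k d G := by
  classical
  intro x m hx hm
  by_cases hdk : d ≤ k
  · exact Relation.ReflTransGen.single ⟨hm, Finset.univ, by simpa using hdk, by simp⟩
  · push Not at hdk
    let e : Fin k → Fin d := Fin.castLE hdk.le
    let J : Finset (Fin d) := Finset.univ.image e
    have hJ : J.card ≤ k := Finset.card_image_le.trans (by simp)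
    have hgood : ∀ z : Fin d → G, (∀ i, z (e i) = g i) → Gen z := by
      intro z hz
      unfold Gen at *
      rw [eq_top_iff, ← hg, closure_le]
      rintro _ ⟨i, rfl⟩
      exact Subgroup.subset_closure ⟨e i, hz i⟩
    have hJe : ∀ j : Fin d, (h : (j : ℕ) < k) → e ⟨j, h⟩ = j := by
      intro j h
      apply Fin.ext
      rfl
    have hJmem : ∀ j : Fin d, j ∉ J → ¬ (j : ℕ) < k := by
      intro j hj h
      exact hj (Finset.mem_image.mpr ⟨⟨j, h⟩, Finset.mem_univ _, hJe j h⟩)
    let u : Fin d → G := fun j => if h : (j : ℕ) < k then g ⟨j, h⟩ else x j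
    let w : Fin d → G := fun j => if h : (j : ℕ) < k then g ⟨j, h⟩ else m j
    have hu : ∀ i, u (e i) = g i := by
      intro i
      have : ((e i : Fin d) : ℕ) < k := i.2
      simp only [u, dif_pos this]
      congr 1
    have hw : ∀ i, w (e i) = g i := by
      intro i
      have : ((e i : Fin d) : ℕ) < k := i.2
      simp only [w, dif_pos this]
      congr 1
    have s1 : Step Gen k x u := ⟨hgood u hu, J, hJ, fun j hj => by
      simp only [u, dif_neg (hJmem j hj)]⟩
    have s2 : Relation.ReflTransGen (Step Gen k) u w := by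
      apply chain_all hk
      intro v hv
      apply hgood
      intro i
      rcases hv (e i) with h | h
      · rw [h, hu]
      · rw [h, hw]
    have s3 : Step Gen k w m := ⟨hm, J, hJ, fun j hj => by
      simp only [w, dif_neg (hJmem j hj)]⟩
    exact ((Relation.ReflTransGen.single s1).trans s2).tail s3

/-- Chains of generating tuples give stability. -/
theorem neq_of_chain {k d : ℕ} {G : Type*} [Group G] {x m : Fin d → G} (hx : Gen x)
    (h : Relation.ReflTransGen (Step Gen k) x m) :
    NEq (Sum.elim x (fun _ : Fin k => (1 : G))) (Sum.elim m (fun _ : Fin k => (1 : G))) := by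
  classical
  induction h with
  | refl => exact NEq.refl _
  | @tail y z hxy hyz ih =>
    have hy : Gen y := chain_end hx hxy
    obtain ⟨hz, J, hJ, hJc⟩ := hyz
    refine ih.trans ?_
    obtain ⟨e⟩ : Nonempty (J ↪ Fin k) := by
      rw [Function.Embedding.nonempty_iff_card_le]
      simpa using hJ
    let c : Fin k → G := fun l => if h : ∃ j : J, e j = l then
      (y (Classical.choose h).1)⁻¹ * z (Classical.choose h).1 else 1
    have hc : ∀ j : J, c (e j) = (y j)⁻¹ * z j := by
      intro j
      have h : ∃ j' : J, e j' = e j := ⟨j, rfl⟩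
      have h1 : Classical.choose h = j := e.injective (Classical.choose_spec h)
      simp only [c, dif_pos h, h1]
    refine (NEq.slots_free hy _ c).trans (NEq.trans ?_ (NEq.slots_free hz c _))
    apply NEq.slots'
    intro i
    by_cases hi : i ∈ J
    · exact ⟨1, one_mem _, (y i)⁻¹ * z i, Subgroup.subset_closure ⟨e ⟨i, hi⟩, hc ⟨i, hi⟩⟩,
        by group⟩
    · exact ⟨1, one_mem _, 1, one_mem _, by simp [hJc i hi]⟩

theorem SwapConn.stable {k d : ℕ} {G : Type*} [Group G] (h : SwapConn k d G) :
    Stable k d G := fun _ _ hx hm => neq_of_chain hm (h _ _ hm hx)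

end Pool.MP_e4938c_al
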