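import Pool.Agent.Lib.MP_e4938c_al.Gaschuetz
import Pool.Agent.Lib.MP_e4938c_al.Descent

/-!
# Swap connectivity over finite soluble normal subgroups (MP_e4938c)
-/

namespace Pool.MP_e4938c_al

open Subgroup Function

universe u

section Fibre

variable {Q : Type*} [Group Q]

theorem inf_eq_bot_of_supplement {A K : Subgroup Q} [hAn : A.Normal]
    (hab : ∀ a ∈ A, ∀ b ∈ A, a * b = b * a)
    (hmin : ∀ B : Subgroup Q, B.Normal → B ≤ A → B = ⊥ ∨ B = A)
    (hKA : K ⊔ A = ⊤) (hK : K ≠ ⊤) : K ⊓ A = ⊥ := by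
  have hn : (K ⊓ A).Normal := by
    constructor
    intro n hn g
    have hgm : g ∈ K ⊔ A := by rw [hKA]; exact mem_top _
    rw [mem_sup_of_normal_right] at hgm
    obtain ⟨h, hh, b, hb, rfl⟩ := hgm
    have e : h * b * n * (h * b)⁻¹ = h * n * h⁻¹ := by
      have := hab b hb n hn.2
      calc h * b * n * (h * b)⁻¹ = h * (b * n) * b⁻¹ * h⁻¹ := by group
        _ = h * (n * b) * b⁻¹ * h⁻¹ := by rw [this]
        _ = h * n * h⁻¹ := by group
    rw [e]
    exact ⟨K.mul_mem (K.mul_mem hh hn.1) (K.inv_mem hh), hAn.conj_mem _ hn.2 h⟩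
  rcases hmin _ hn inf_le_right with h | h
  · exact h
  · exfalso
    apply hK
    have h1 : A ≤ K := by
      rw [← h]
      exact inf_le_left
    rw [← hKA]
    exact (sup_eq_left.mpr h1).symm

/-- Three complements of an abelian normal subgroup give a fourth one. -/
def fourth (A K₁ K₂ K₃ : Subgroup Q) [hAn : A.Normal]
    (hab : ∀ a ∈ A, ∀ b ∈ A, a * b = b * a) : Subgroup Q where
  carrier := {g | ∃ k₁ ∈ K₁, ∃ k₂ ∈ K₂, ∃ k₃ ∈ K₃, k₁⁻¹ * k₂ ∈ A ∧ k₁⁻¹ * k₃ ∈ A ∧
    g = k₃ * (k₁⁻¹ * k₂)}
  one_mem' := ⟨1, one_mem _, 1, one_mem _, 1, one_mem _, by simp⟩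
  mul_mem' := by
    rintro _ _ ⟨k₁, h1, k₂, h2, k₃, h3, hb, hc, rfl⟩ ⟨k₁', h1', k₂', h2', k₃', h3', hb', hc', rfl⟩
    have hconj : ∀ a ∈ A, k₁'⁻¹ * a * k₁' ∈ A := by
      intro a ha
      have := hAn.conj_mem a ha k₁'⁻¹
      simpa using this
    refine ⟨k₁ * k₁', K₁.mul_mem h1 h1', k₂ * k₂', K₂.mul_mem h2 h2', k₃ * k₃',
      K₃.mul_mem h3 h3', ?_, ?_, ?_⟩
    · have e : (k₁ * k₁')⁻¹ * (k₂ * k₂') =
          (k₁'⁻¹ * (k₁⁻¹ * k₂) * k₁') * (k₁'⁻¹ * k₂') := by group
      rw [e]
      exact A.mul_mem (hconj _ hb) hb'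
    · have e : (k₁ * k₁')⁻¹ * (k₃ * k₃') =
          (k₁'⁻¹ * (k₁⁻¹ * k₃) * k₁') * (k₁'⁻¹ * k₃') := by group
      rw [e]
      exact A.mul_mem (hconj _ hc) hc'
    · have e1 := hab _ (hconj _ hb) _ hc'
      calc k₃ * (k₁⁻¹ * k₂) * (k₃' * (k₁'⁻¹ * k₂'))
          = k₃ * k₁' * ((k₁'⁻¹ * (k₁⁻¹ * k₂) * k₁') * (k₁'⁻¹ * k₃')) * (k₁'⁻¹ * k₂') := by
            group
        _ = k₃ * k₁' * ((k₁'⁻¹ * k₃') * (k₁'⁻¹ * (k₁⁻¹ * k₂) * k₁')) * (k₁'⁻¹ * k₂') := by
            rw [e1]
        _ = k₃ * k₃' * ((k₁ * k₁')⁻¹ * (k₂ * k₂')) := by group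
  inv_mem' := by
    rintro _ ⟨k₁, h1, k₂, h2, k₃, h3, hb, hc, rfl⟩
    have hconj : ∀ a ∈ A, k₁ * a * k₁⁻¹ ∈ A := fun a ha => hAn.conj_mem a ha k₁
    refine ⟨k₁⁻¹, K₁.inv_mem h1, k₂⁻¹, K₂.inv_mem h2, k₃⁻¹, K₃.inv_mem h3, ?_, ?_, ?_⟩
    · have e : (k₁⁻¹)⁻¹ * k₂⁻¹ = k₁ * (k₁⁻¹ * k₂)⁻¹ * k₁⁻¹ := by group
      rw [e]
      exact hconj _ (A.inv_mem hb)
    · have e : (k₁⁻¹)⁻¹ * k₃⁻¹ = k₁ * (k₁⁻¹ * k₃)⁻¹ * k₁⁻¹ := by group
      rw [e]
      exact hconj _ (A.inv_mem hc)
    · have e1 := hab _ (A.inv_mem hb) _ (A.inv_mem hc)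
      calc (k₃ * (k₁⁻¹ * k₂))⁻¹ = (k₁⁻¹ * k₂)⁻¹ * (k₁⁻¹ * k₃)⁻¹ * k₁⁻¹ := by group
        _ = (k₁⁻¹ * k₃)⁻¹ * (k₁⁻¹ * k₂)⁻¹ * k₁⁻¹ := by rw [e1]
        _ = k₃⁻¹ * ((k₁⁻¹)⁻¹ * k₂⁻¹) := by group

theorem fourth_inf (A K₁ K₂ K₃ : Subgroup Q) [A.Normal]
    (hab : ∀ a ∈ A, ∀ b ∈ A, a * b = b * a) (h1 : K₁ ⊓ A = ⊥) (h2 : K₂ ⊓ A = ⊥)
    (h3 : K₃ ⊓ A = ⊥) : fourth A K₁ K₂ K₃ hab ⊓ A = ⊥ := by
  rw [eq_bot_iff]
  rintro _ ⟨⟨k₁, hk1, k₂, hk2, k₃, hk3, hb, hc, rfl⟩, hg⟩
  have e3 : k₃ = 1 := by
    have h4 : k₃ ∈ K₃ ⊓ A := by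
      refine ⟨hk3, ?_⟩
      have := A.mul_mem hg (A.inv_mem hb)
      rwa [mul_inv_cancel_right] at this
    rwa [h3, mem_bot] at h4
  subst e3
  have e1 : k₁ = 1 := by
    have h4 : k₁ ∈ K₁ ⊓ A := by
      refine ⟨hk1, ?_⟩
      have := A.inv_mem hc
      simpa using this
    rwa [h1, mem_bot] at h4
  subst e1
  have e2 : k₂ = 1 := by
    have h4 : k₂ ∈ K₂ ⊓ A := by
      refine ⟨hk2, ?_⟩
      simpa using hb
    rwa [h2, mem_bot] at h4
  subst e2
  simp

/-- Two generating tuples which agree modulo an abelian minimal normal subgroup are connected by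
changes of two entries. -/
theorem swap_fibre {A : Subgroup Q} [hAn : A.Normal]
    (hab : ∀ a ∈ A, ∀ b ∈ A, a * b = b * a)
    (hmin : ∀ B : Subgroup Q, B.Normal → B ≤ A → B = ⊥ ∨ B = A) (hA : A ≠ ⊥) {d : ℕ}
    {y y' : Fin d → Q} (hy : Gen y) (hy' : Gen y') (h : ∀ i, (y i)⁻¹ * y' i ∈ A) :
    Relation.ReflTransGen (Step Gen 2) y y' := by
  classical
  by_cases hall : ∀ z : Fin d → Q, (∀ i, (y i)⁻¹ * z i ∈ A) → Gen z
  · apply chain_all (by norm_num)
    intro w hw
    apply hall
    intro i
    rcases hw i with hi | hi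
    · rw [hi, inv_mul_cancel]
      exact one_mem _
    · rw [hi]
      exact h i
  · push Not at hall
    obtain ⟨u, hu, hung⟩ := hall
    -- the place where generation breaks
    let W : Finset (Fin d) → Fin d → Q := fun s i => if i ∈ s then u i else y i
    have hWmod : ∀ s i, (y i)⁻¹ * W s i ∈ A := by
      intro s i
      by_cases hi : i ∈ s
      · simp only [W, if_pos hi]
        exact hu i
      · simp only [W, if_neg hi, inv_mul_cancel]
        exact one_mem _
    obtain ⟨s, j, hjs, hWs, hWj⟩ : ∃ s : Finset (Fin d), ∃ j, j ∉ s ∧ Gen (W s) ∧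
        ¬ Gen (W (insert j s)) := by
      by_contra hcon
      push Not at hcon
      have hallW : ∀ s : Finset (Fin d), Gen (W s) := by
        intro s
        induction s using Finset.induction_on with
        | empty =>
          have e : W ∅ = y := by
            funext i
            simp [W]
          rw [e]
          exact hy
        | insert j s hjs ih => exact hcon s j hjs ih
      apply hung
      have e : W Finset.univ = u := by
        funext i
        simp [W]
      rw [← e]
      exact hallW _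
    obtain ⟨a, ha⟩ : ∃ a, a = (u j)⁻¹ * y j := ⟨_, rfl⟩
    have haA : a ∈ A := by
      have := A.inv_mem (hu j)
      rw [ha]
      simpa using this
    -- the buffer
    have hbuf : ∀ z : Fin d → Q, (∀ i, (y i)⁻¹ * z i ∈ A) →
        Gen z ∨ Gen (update z j (z j * a)) := by
      intro z hz
      by_contra hcon
      push Not at hcon
      obtain ⟨hn1, hn2⟩ := hcon
      have hsup : ∀ v : Fin d → Q, (∀ i, (y i)⁻¹ * v i ∈ A) →
          closure (Set.range v) ⊔ A = ⊤ := by
        intro v hv
        refine sup_top_of_congr (y := y) ?_ hv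
        have : closure (Set.range y) = ⊤ := hy
        rw [this]
        exact top_sup_eq _
      have hz2 : ∀ i, (y i)⁻¹ * update z j (z j * a) i ∈ A := by
        intro i
        by_cases hi : i = j
        · subst hi
          rw [update_self, ← mul_assoc]
          exact A.mul_mem (hz i) haA
        · rw [update_of_ne hi]
          exact hz i
      have b1 := inf_eq_bot_of_supplement hab hmin (hsup z hz) hn1
      have b2 := inf_eq_bot_of_supplement hab hmin (hsup _ hz2) hn2
      have b3 := inf_eq_bot_of_supplement hab hmin (hsup _ (hWmod (insert j s))) hWj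
      have b4 := fourth_inf A _ _ _ hab b1 b2 b3
      have htop : fourth A (closure (Set.range z)) (closure (Set.range (update z j (z j * a))))
          (closure (Set.range (W (insert j s)))) hab = ⊤ := by
        rw [eq_top_iff, ← hWs, closure_le]
        rintro _ ⟨l, rfl⟩
        refine ⟨z l, Subgroup.subset_closure ⟨l, rfl⟩, update z j (z j * a) l,
          Subgroup.subset_closure ⟨l, rfl⟩, W (insert j s) l,
          Subgroup.subset_closure ⟨l, rfl⟩, ?_, ?_, ?_⟩
        · have e : (z l)⁻¹ * update z j (z j * a) l =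
              ((y l)⁻¹ * z l)⁻¹ * ((y l)⁻¹ * update z j (z j * a) l) := by group
          rw [e]
          exact A.mul_mem (A.inv_mem (hz l)) (hz2 l)
        · have e : (z l)⁻¹ * W (insert j s) l =
              ((y l)⁻¹ * z l)⁻¹ * ((y l)⁻¹ * W (insert j s) l) := by group
          rw [e]
          exact A.mul_mem (A.inv_mem (hz l)) (hWmod _ l)
        · by_cases hl : l = j
          · subst hl
            rw [update_self]
            simp only [W, if_neg hjs, Finset.mem_insert_self, if_true, ha]
            group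
          · rw [update_of_ne hl, inv_mul_cancel, mul_one]
            simp only [W, Finset.mem_insert, hl, false_or]
      rw [htop, top_inf_eq] at b4
      exact hA b4
    -- the path
    have key : ∀ t : Finset (Fin d), j ∉ t → ∃ z, Relation.ReflTransGen (Step Gen 2) y z ∧
        (∀ i, (y i)⁻¹ * z i ∈ A) ∧ ∀ i ∈ t, z i = y' i := by
      intro t
      induction t using Finset.induction_on with
      | empty =>
        intro _
        refine ⟨y, Relation.ReflTransGen.refl, fun i => ?_, by simp⟩
        rw [inv_mul_cancel]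
        exact one_mem _
      | insert i t hit ih =>
        intro hjt
        rw [Finset.mem_insert] at hjt
        push Not at hjt
        obtain ⟨hji, hjt⟩ := hjt
        obtain ⟨z, hz, hzA, hzt⟩ := ih hjt
        have hz1 : ∀ l, (y l)⁻¹ * update z i (y' i) l ∈ A := by
          intro l
          by_cases hl : l = i
          · subst hl
            rw [update_self]
            exact h l
          · rw [update_of_ne hl]
            exact hzA l
        rcases hbuf _ hz1 with hg | hg
        · refine ⟨update z i (y' i), hz.tail ⟨hg, {i}, by simp, ?_⟩, hz1, ?_⟩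
          · intro l hl
            rw [update_of_ne (by simpa using hl)]
          · intro l hl
            by_cases hli : l = i
            · subst hli
              rw [update_self]
            · rw [update_of_ne hli]
              exact hzt l ((Finset.mem_insert.mp hl).resolve_left hli)
        · refine ⟨update (update z i (y' i)) j (update z i (y' i) j * a),
            hz.tail ⟨hg, {i, j}, Finset.card_le_two, ?_⟩, ?_, ?_⟩
          · intro l hl
            simp only [Finset.mem_insert, Finset.mem_singleton, not_or] at hl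
            rw [update_of_ne hl.2, update_of_ne hl.1]
          · intro l
            by_cases hl : l = j
            · subst hl
              rw [update_self, ← mul_assoc]
              exact A.mul_mem (hz1 l) haA
            · rw [update_of_ne hl]
              exact hz1 l
          · intro l hl
            have hlj : l ≠ j := by
              rintro rfl
              rcases Finset.mem_insert.mp hl with h1 | h1
              · exact hji h1
              · exact hjt h1
            rw [update_of_ne hlj]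
            by_cases hli : l = i
            · subst hli
              rw [update_self]
            · rw [update_of_ne hli]
              exact hzt l ((Finset.mem_insert.mp hl).resolve_left hli)
    obtain ⟨z, hz, _, hzt⟩ := key (Finset.univ.erase j) (by simp)
    refine hz.tail ⟨hy', {j}, by simp, fun l hl => ?_⟩
    have hlj : l ≠ j := by simpa using hl
    exact (hzt l (by simp [hlj])).symm

end Fibre

variable {G : Type u} [Group G] {k d : ℕ}

theorem SwapConn.of_equiv {G H : Type*} [Group G] [Group H] (e : G ≃* H)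
    (h : SwapConn k d G) : SwapConn k d H := by
  intro x m hx hm
  have h1 := h (e.symm ∘ x) (e.symm ∘ m) (hx.map e.symm.toMonoidHom e.symm.surjective)
    (hm.map e.symm.toMonoidHom e.symm.surjective)
  have key : ∀ w : Fin d → G, Relation.ReflTransGen (Step Gen k) (e.symm ∘ x) w →
      Relation.ReflTransGen (Step Gen k) x (e ∘ w) := by
    intro w hw
    induction hw with
    | refl =>
      have e1 : e ∘ (e.symm ∘ x) = x := by
        funext i
        simp
      rw [e1]
    | tail _ hbc ih =>
      obtain ⟨hc, J, hJ, hJc⟩ := hbc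
      exact ih.tail ⟨hc.map e.toMonoidHom e.surjective, J, hJ, fun j hj => by
        simp [hJc j hj]⟩
  have h2 := key _ h1
  have e1 : e ∘ (e.symm ∘ m) = m := by
    funext i
    simp
  rwa [e1] at h2

theorem SwapConn.of_chief (hk : 2 ≤ k) (A : Subgroup G) [A.Normal] [Finite A]
    (hab : ∀ a ∈ A, ∀ b ∈ A, a * b = b * a)
    (hmin : ∀ B : Subgroup G, B.Normal → B ≤ A → B = ⊥ ∨ B = A) (hA : A ≠ ⊥)
    (h : SwapConn k d (G ⧸ A)) : SwapConn k d G := by
  intro x m hx hm
  have hπ := QuotientGroup.mk'_surjective A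
  obtain ⟨z, hz, hzg, hch⟩ := lift_chain_finite A hx
    (h _ _ (hx.map _ hπ) (hm.map (QuotientGroup.mk' A) hπ))
  refine hch.trans (chain_mono hk (swap_fibre hab hmin hA hzg hm fun i => ?_))
  exact QuotientGroup.eq.mp (congrFun hz i)

/-- Swap connectivity passes over finite soluble normal subgroups if `2 ≤ k`. -/
theorem SwapConn.of_solvable (hk : 2 ≤ k) (N : Subgroup G) [hNn : N.Normal] [hfin : Finite N]
    (hsol : Group.IsSolvable N) (hQ : SwapConn k d (G ⧸ N)) : SwapConn k d G := by
  have hwf : WellFoundedGT (Subgroup N) := inferInstance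
  have key : ∀ K : Subgroup N, ∀ (L : Subgroup G) (_ : L.Normal), L ≤ N →
      L.subgroupOf N = K → SwapConn k d (G ⧸ L) := by
    intro K
    induction K using hwf.wf.induction with
    | h K ih =>
    intro L hLn hLN hLK
    by_cases hL : L = N
    · subst hL
      exact hQ
    · let π := QuotientGroup.mk' L
      have hπ : Surjective π := QuotientGroup.mk'_surjective L
      have hNbar : (N.map π).Normal := hNn.map π hπ
      have hNne : N.map π ≠ ⊥ := by
        intro h1
        apply hL
        apply le_antisymm hLN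
        intro x hx
        have h2 : π x ∈ N.map π := ⟨x, hx, rfl⟩
        rw [h1, mem_bot] at h2
        rwa [QuotientGroup.mk'_apply, QuotientGroup.eq_one_iff] at h2
      have hsolbar : Group.IsSolvable (N.map π) := by
        let f : N →* N.map π := π.subgroupMap N
        have hf : Surjective f := π.subgroupMap_surjective N
        exact Group.isSolvable_of_surjective hf
      obtain ⟨E, hEn, hEN, hEne, hEab⟩ := exists_abelian hsolbar hNne
      have hNfin : (N.map π : Set (G ⧸ L)).Finite :=
        Set.Finite.image _ (Set.toFinite (N : Set G))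
      -- a minimal one
      have hfinset : {V : Subgroup (G ⧸ L) | V.Normal ∧ V ≤ E ∧ V ≠ ⊥}.Finite := by
        apply Set.Finite.of_injOn (f := fun V : Subgroup (G ⧸ L) => (V : Set (G ⧸ L)))
          (t := 𝒫 (N.map π : Set (G ⧸ L)))
        · intro V hV
          exact hV.2.1.trans hEN
        · intro V _ V' _ hVV
          exact SetLike.coe_injective hVV
        · exact hNfin.powerset
      obtain ⟨A, hAmin⟩ := hfinset.exists_minimal ⟨E, hEn, le_rfl, hEne⟩
      obtain ⟨hAn, hAE, hAne⟩ := hAmin.prop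
      have hAfin : Finite A := hNfin.subset (hAE.trans hEN)
      have hmin : ∀ B : Subgroup (G ⧸ L), B.Normal → B ≤ A → B = ⊥ ∨ B = A := by
        intro B hB hBA
        by_cases hb : B = ⊥
        · exact Or.inl hb
        · exact Or.inr (le_antisymm hBA (hAmin.le_of_le ⟨hB, hBA.trans hAE, hb⟩ hBA))
      obtain ⟨a, ha⟩ := Subgroup.ne_bot_iff_exists_ne_one.mp hAne
      obtain ⟨L', hL'⟩ : ∃ L' : Subgroup G, L' = A.comap π := ⟨_, rfl⟩
      have hL'n : L'.Normal := hL' ▸ hAn.comap π
      have hLL' : L ≤ L' := by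
        intro x hx
        rw [hL']
        have h1 : π x = 1 := by
          rwa [QuotientGroup.mk'_apply, QuotientGroup.eq_one_iff]
        change π x ∈ A
        rw [h1]
        exact one_mem _
      have hL'N : L' ≤ N := by
        intro x hx
        rw [hL'] at hx
        obtain ⟨n, hn, hnx⟩ := hEN (hAE hx)
        have h1 : n⁻¹ * x ∈ L := QuotientGroup.eq.mp hnx
        have h2 := mul_mem hn (hLN h1)
        simpa using h2
      have hmapL' : L'.map π = A := by
        rw [hL', map_comap_eq_self_of_surjective hπ]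
      have hlt : L.subgroupOf N < L'.subgroupOf N := by
        refine lt_of_le_of_ne (fun x hx => hLL' hx) fun heq => ha ?_
        obtain ⟨x, hx⟩ := hπ (a : G ⧸ L)
        have hx' : x ∈ L' := by
          rw [hL']
          change π x ∈ A
          rw [hx]
          exact a.2
        have h1 : (⟨x, hL'N hx'⟩ : N) ∈ L'.subgroupOf N := hx'
        rw [← heq] at h1
        have h2 : x ∈ L := h1
        apply Subtype.ext
        rw [← hx]
        change π x = 1
        rwa [QuotientGroup.mk'_apply, QuotientGroup.eq_one_iff]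
      have hst : SwapConn k d (G ⧸ L') := ih (L'.subgroupOf N) (hLK ▸ hlt) L' hL'n hL'N rfl
      have e := (QuotientGroup.quotientQuotientEquivQuotient L L' hLL').symm
      have hst2 : SwapConn k d ((G ⧸ L) ⧸ (L'.map (QuotientGroup.mk' L))) := hst.of_equiv e
      have hst3 : SwapConn k d ((G ⧸ L) ⧸ A) := by
        subst hmapL'
        exact hst2
      exact SwapConn.of_chief hk A (fun x hx y hy => hEab x (hAE hx) y (hAE hy)) hmin hAne hst3
  have h1 := key ((⊥ : Subgroup G).subgroupOf N) ⊥ inferInstance bot_le rfl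
  exact h1.of_equiv (QuotientGroup.quotientBot (G := G))

end Pool.MP_e4938c_al
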